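import Mathlib.Data.Int.Interval
import Mathlib.Logic.Equiv.PartialEquiv
import Mathlib.Topology.Sheaves.Presheaf
import Mathlib.Tactic.ENatToNat
import Mathlib.Tactic.Monotonicity.Lemmas
import Mathlib.Data.Int.ConditionallyCompleteOrder
import Mathlib.Data.Int.Star
import Mathlib.Algebra.Order.Ring.Star
import Mathlib.Tactic.Bound
import Mathlib.Combinatorics.SimpleGraph.Basic
import Mathlib.RingTheory.WittVector.IsPoly
import Mathlib.Tactic.Algebra.Basic
import Mathlib.Tactic.ReduceModChar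

-- ======== part 0: formerly Pool.Agent.MP_fd2cd0_lc.Basic
section MrgPart0

/-! Concatenation of words along integer intervals, and powers of words. -/

namespace Pool.Agent.MP_fd2cd0_lc

variable {A : Type*}

/-- Concatenation of `f x, f (x+1), ...` (`n` terms). -/
def catN (f : ℤ → List A) : ℤ → ℕ → List A
  | _, 0 => []
  | x, n + 1 => f x ++ catN f (x + 1) n

/-- Concatenation of `f s` over `x ≤ s < y`. -/
def cat (f : ℤ → List A) (x y : ℤ) : List A := catN f x (y - x).toNat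

lemma cat_nil (f : ℤ → List A) {x y : ℤ} (h : y ≤ x) : cat f x y = [] := by
  have : (y - x).toNat = 0 := by omega
  simp [cat, this, catN]

lemma cat_cons (f : ℤ → List A) {x y : ℤ} (h : x < y) : cat f x y = f x ++ cat f (x + 1) y := by
  have : (y - x).toNat = (y - (x + 1)).toNat + 1 := by omega
  simp only [cat, this, catN]

lemma cat_single (f : ℤ → List A) (x : ℤ) : cat f x (x + 1) = f x := by
  rw [cat_cons f (by omega), cat_nil f le_rfl, List.append_nil]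

lemma catN_add (f : ℤ → List A) (m n : ℕ) : ∀ x : ℤ,
    catN f x (m + n) = catN f x m ++ catN f (x + m) n := by
  induction m with
  | zero => intro x; simp [catN]
  | succ m ih =>
    intro x
    have : m + 1 + n = (m + n) + 1 := by omega
    rw [this]
    simp only [catN, ih, List.append_assoc]
    congr 3
    push_cast; ring

lemma cat_split (f : ℤ → List A) {x m y : ℤ} (h1 : x ≤ m) (h2 : m ≤ y) :
    cat f x y = cat f x m ++ cat f m y := by
  have : (y - x).toNat = (m - x).toNat + (y - m).toNat := by omega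
  unfold cat
  rw [this, catN_add]
  congr 2
  omega

lemma catN_congr {f g : ℤ → List A} (d : ℤ) (n : ℕ) : ∀ x : ℤ,
    (∀ s, x ≤ s → s < x + n → f s = g (s + d)) → catN f x n = catN g (x + d) n := by
  induction n with
  | zero => intro x _; simp [catN]
  | succ n ih =>
    intro x h
    simp only [catN]
    rw [h x le_rfl (by push_cast; omega), ih (x + 1) (fun s h1 h2 => h s (by omega) (by push_cast; omega))]
    congr 2
    ring

lemma cat_congr_shift {f g : ℤ → List A} {x y : ℤ} (d : ℤ)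
    (h : ∀ s, x ≤ s → s < y → f s = g (s + d)) : cat f x y = cat g (x + d) (y + d) := by
  unfold cat
  have : y + d - (x + d) = y - x := by ring
  rw [this]
  exact catN_congr d _ x (fun s h1 h2 => h s h1 (by omega))

lemma cat_congr {f g : ℤ → List A} {x y : ℤ}
    (h : ∀ s, x ≤ s → s < y → f s = g s) : cat f x y = cat g x y := by
  have := cat_congr_shift (f := f) (g := g) (x := x) (y := y) 0 (by simpa using h)
  simpa using this

lemma cat_snoc (f : ℤ → List A) {x y : ℤ} (h : x ≤ y) : cat f x (y + 1) = cat f x y ++ f y := by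
  rw [cat_split f h (by omega : y ≤ y + 1), cat_single]

lemma cat_mid (f : ℤ → List A) {x s y : ℤ} (h1 : x ≤ s) (h2 : s < y) :
    cat f x y = cat f x s ++ (f s ++ cat f (s + 1) y) := by
  rw [cat_split f h1 h2.le, cat_cons f h2]

lemma isInfix_cat (f : ℤ → List A) {x s y : ℤ} (h1 : x ≤ s) (h2 : s < y) : f s <:+: cat f x y := by
  rw [cat_mid f h1 h2, ← List.append_assoc]
  exact List.infix_append _ _ _

lemma cat_isInfix_cat (f : ℤ → List A) {x a b y : ℤ} (h1 : x ≤ a) (h2 : a ≤ b) (h3 : b ≤ y) :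
    cat f a b <:+: cat f x y := by
  rw [cat_split f h1 (h2.trans h3), cat_split f h2 h3, ← List.append_assoc]
  exact List.infix_append _ _ _

lemma catN_length_ge (f : ℤ → List A) (hf : ∀ s, f s ≠ []) (n : ℕ) : ∀ x : ℤ,
    n ≤ (catN f x n).length := by
  induction n with
  | zero => intro x; simp
  | succ n ih =>
    intro x
    have h1 := ih (x + 1)
    have h2 := List.length_pos_iff.2 (hf x)
    simp only [catN, List.length_append]
    omega

lemma catN_length_eq (f : ℤ → List A) (hf : ∀ s, (f s).length = 1) (n : ℕ) : ∀ x : ℤ,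
    (catN f x n).length = n := by
  induction n with
  | zero => intro x; simp [catN]
  | succ n ih =>
    intro x
    simp only [catN, List.length_append, ih, hf]
    omega

/-- The word `W` with the word `ω s` inserted after each letter `W s`, read on `[x, y)`. -/
def ph (W : ℤ → A) (ω : ℤ → List A) (x y : ℤ) : List A := cat (fun s => W s :: ω s) x y

/-- The factor of `W` on `[x, y)`. -/
def seg (W : ℤ → A) (x y : ℤ) : List A := cat (fun s => [W s]) x y

lemma ph_nil (W : ℤ → A) (ω : ℤ → List A) {x y : ℤ} (h : y ≤ x) : ph W ω x y = [] := cat_nil _ h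

lemma seg_nil (W : ℤ → A) {x y : ℤ} (h : y ≤ x) : seg W x y = [] := cat_nil _ h

lemma ph_split (W : ℤ → A) (ω : ℤ → List A) {x m y : ℤ} (h1 : x ≤ m) (h2 : m ≤ y) :
    ph W ω x y = ph W ω x m ++ ph W ω m y := cat_split _ h1 h2

lemma seg_split (W : ℤ → A) {x m y : ℤ} (h1 : x ≤ m) (h2 : m ≤ y) :
    seg W x y = seg W x m ++ seg W m y := cat_split _ h1 h2

lemma ph_single (W : ℤ → A) (ω : ℤ → List A) (x : ℤ) : ph W ω x (x + 1) = W x :: ω x :=
  cat_single _ x

lemma seg_single (W : ℤ → A) (x : ℤ) : seg W x (x + 1) = [W x] := cat_single _ x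

lemma ph_congr_shift {W : ℤ → A} {ω ω' : ℤ → List A} {x y : ℤ} (d : ℤ)
    (hW : ∀ s, x ≤ s → s < y → W s = W (s + d))
    (h : ∀ s, x ≤ s → s < y → ω s = ω' (s + d)) : ph W ω x y = ph W ω' (x + d) (y + d) :=
  cat_congr_shift d (fun s h1 h2 => by simp only [hW s h1 h2, h s h1 h2])

lemma ph_congr {W : ℤ → A} {ω ω' : ℤ → List A} {x y : ℤ}
    (h : ∀ s, x ≤ s → s < y → ω s = ω' s) : ph W ω x y = ph W ω' x y :=
  cat_congr (fun s h1 h2 => by simp only [h s h1 h2])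

lemma ph_eq_seg {W : ℤ → A} {ω : ℤ → List A} {x y : ℤ}
    (h : ∀ s, x ≤ s → s < y → ω s = []) : ph W ω x y = seg W x y :=
  cat_congr (fun s h1 h2 => by simp only [h s h1 h2])

lemma seg_shift {W : ℤ → A} {x y : ℤ} (d : ℤ)
    (hW : ∀ s, x ≤ s → s < y → W s = W (s + d)) : seg W x y = seg W (x + d) (y + d) :=
  cat_congr_shift d (fun s h1 h2 => by simp only [hW s h1 h2])

lemma seg_length (W : ℤ → A) (x y : ℤ) : (seg W x y).length = (y - x).toNat :=
  catN_length_eq _ (fun _ => rfl) _ _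

lemma ph_length_ge (W : ℤ → A) (ω : ℤ → List A) (x y : ℤ) : (y - x).toNat ≤ (ph W ω x y).length :=
  catN_length_ge _ (fun _ => List.cons_ne_nil _ _) _ _

lemma seg_ne_nil (W : ℤ → A) {x y : ℤ} (h : x < y) : seg W x y ≠ [] := by
  intro h0
  have := seg_length W x y
  rw [h0] at this
  simp at this
  omega

lemma isInfix_ph (W : ℤ → A) (ω : ℤ → List A) {x s y : ℤ} (h1 : x ≤ s) (h2 : s < y) :
    ω s <:+: ph W ω x y :=
  (List.suffix_cons (W s) (ω s)).isInfix.trans (isInfix_cat (fun s => W s :: ω s) h1 h2)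

/-- On `[x, z + 1)`, if the insertion vanishes before `z`. -/
lemma ph_last {W : ℤ → A} {ω : ℤ → List A} {x z : ℤ} (hxz : x ≤ z)
    (h : ∀ s, x ≤ s → s < z → ω s = []) : ph W ω x (z + 1) = seg W x (z + 1) ++ ω z := by
  rw [ph_split W ω hxz (by omega : z ≤ z + 1), seg_split W hxz (by omega : z ≤ z + 1),
    ph_eq_seg h, ph_single, seg_single]
  simp

/-- The `e`-th power of a word. -/
def pw (u : List A) (e : ℕ) : List A := (List.replicate e u).flatten

lemma pw_zero (u : List A) : pw u 0 = [] := rfl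

lemma pw_succ (u : List A) (e : ℕ) : pw u (e + 1) = u ++ pw u e := by
  simp [pw, List.replicate_succ]

lemma pw_add (u : List A) (a b : ℕ) : pw u (a + b) = pw u a ++ pw u b := by
  unfold pw
  rw [List.replicate_add, List.flatten_append]

lemma pw_comm (u : List A) (e : ℕ) : pw u e ++ u = u ++ pw u e := by
  rw [← pw_succ, pw_add]
  simp [pw]

lemma pw_length (u : List A) (e : ℕ) : (pw u e).length = e * u.length := by
  simp [pw]

lemma pw_isInfix_append {u v1 v2 : List A} {a b : ℕ} (h : pw u (a + b) <:+: v1 ++ v2) :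
    pw u a <:+: v1 ∨ pw u b <:+: v2 := by
  obtain ⟨s, t, h⟩ := h
  rw [pw_add] at h
  have h' : (s ++ pw u a) ++ (pw u b ++ t) = v1 ++ v2 := by
    rw [← h]; simp only [List.append_assoc]
  rcases List.append_eq_append_iff.1 h' with ⟨c, h1, _⟩ | ⟨c, _, h2⟩
  · left; exact ⟨s, c, h1.symm⟩
  · right; exact ⟨c, t, by rw [h2]; simp⟩

/-- A periodic stretch gives a power. -/
lemma seg_periodic {W : ℤ → A} {d : ℤ} (hd : 0 ≤ d) (k : ℕ) : ∀ p : ℤ,
    (∀ s, p ≤ s → s < p + k * d → W s = W (s + d)) →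
      seg W p (p + (k + 1) * d) = pw (seg W p (p + d)) (k + 1) := by
  induction k with
  | zero => intro p _; simp [pw]
  | succ k ih =>
    intro p h
    have hk : (0 : ℤ) ≤ k * d := by positivity
    have e1 : ((k + 1 : ℕ) : ℤ) * d = k * d + d := by push_cast; ring
    rw [e1] at h
    have h1 := ih (p + d) (fun s h1 h2 => h s (by omega) (by omega))
    have h2 : seg W p (p + d) = seg W (p + d) (p + d + d) :=
      seg_shift d (fun s h1 h2 => h s h1 (by omega))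
    rw [← h2] at h1
    rw [pw_succ, seg_split W (m := p + d) (by omega) (by push_cast; nlinarith)]
    congr 1
    rw [← h1]
    congr 1
    push_cast; ring

lemma exists_mid {l P R : List A} (h1 : P <+: l) (h2 : R <:+ l)
    (h3 : P.length + R.length ≤ l.length) : ∃ m, l = P ++ m ++ R := by
  obtain ⟨t, rfl⟩ := h1
  have : R <:+ t := by
    refine List.suffix_of_suffix_length_le h2 (List.suffix_append P t) ?_
    simp at h3; omega
  obtain ⟨m, rfl⟩ := this
  exact ⟨m, by simp⟩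

end Pool.Agent.MP_fd2cd0_lc

end MrgPart0

-- ======== part 1: formerly Pool.Agent.MP_fd2cd0_lc.Pump
section MrgPart1

/-! Band systems on an integer interval and three ways of inserting a high power. -/

namespace Pool.Agent.MP_fd2cd0_lc

open Classical

/-- A discrete band system on the interval `[a, b)` carrying the word `W`. -/
structure Sys (A B : Type*) where
  W : ℤ → A
  a : ℤ
  b : ℤ
  bar : B → B
  lo : B → ℤ
  hi : B → ℤ
  d : B → ℤ
  Z : Finset ℤ
  bar_bar : ∀ β, bar (bar β) = β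
  bar_ne : ∀ β, bar β ≠ β
  lo_bar : ∀ β, lo (bar β) = lo β + d β
  hi_bar : ∀ β, hi (bar β) = hi β + d β
  d_bar : ∀ β, d (bar β) = - d β
  lo_le : ∀ β, lo β ≤ hi β
  a_le : ∀ β, a ≤ lo β
  le_b : ∀ β, hi β ≤ b
  hW : ∀ β s, lo β ≤ s → s < hi β → W s = W (s + d β)

lemma ph_twist {A : Type*} {W : ℤ → A} {ω1 ω2 : ℤ → List A} {j0 j1 x y : ℤ} {w : List A}
    (h0 : j0 ≤ x) (hxy : x < y) (h1 : y < j1)
    (hout : ∀ s, j0 ≤ s → s < j1 → (s < x ∨ y < s) → ω1 s = ω2 s)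
    (hx : ω1 x = w) (hx' : ∀ s, x < s → s ≤ y → ω1 s = [])
    (hy : ω2 y = w) (hy' : ∀ s, x ≤ s → s < y → ω2 s = [])
    (hw : w ++ seg W (x + 1) (y + 1) = seg W (x + 1) (y + 1) ++ w) :
    ph W ω1 j0 j1 = ph W ω2 j0 j1 := by
  rw [ph_split W ω1 h0 (by omega : x ≤ j1), ph_split W ω2 h0 (by omega : x ≤ j1),
    ph_split W ω1 (by omega : x ≤ y + 1) (by omega : y + 1 ≤ j1),
    ph_split W ω2 (by omega : x ≤ y + 1) (by omega : y + 1 ≤ j1)]
  congr 1
  · exact ph_congr (fun s h2 h3 => hout s h2 (by omega) (Or.inl h3))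
  congr 1
  · rw [ph_last hxy.le hy', hy, ph_split W ω1 (by omega : x ≤ x + 1) (by omega : x + 1 ≤ y + 1),
      ph_single, hx, ph_eq_seg (fun s h2 h3 => hx' s (by omega) (by omega)),
      seg_split W (by omega : x ≤ x + 1) (by omega : x + 1 ≤ y + 1), seg_single]
    simp [hw]
  · exact ph_congr (fun s h2 h3 => hout s (by omega) h3 (Or.inr (by omega)))

namespace Sys

variable {A B : Type*} (G : Sys A B)

def dom (β : B) (s : ℤ) : Prop := G.lo β ≤ s ∧ s < G.hi β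

/-- An insertion compatible with all bands, supported off `Z`, that contains an `e`-th power. -/
def Pump (e : ℕ) : Prop :=
  ∃ ω : ℤ → List A, (∀ s, ω s ≠ [] → G.a ≤ s ∧ s < G.b ∧ s ∉ G.Z) ∧
    (∀ γ, ph G.W ω (G.lo γ) (G.hi γ) = ph G.W ω (G.lo γ + G.d γ) (G.hi γ + G.d γ)) ∧
    ∃ s u, u ≠ [] ∧ pw u e <:+: ω s

def cut (β : B) (X : Finset ℤ) (s : ℤ) (γ : B) : Prop :=
  (γ = β ∧ s ∈ X) ∨ (γ = G.bar β ∧ s + G.d γ ∈ X)

def okc (β : B) (X : Finset ℤ) : ℤ → B → Prop := fun s γ => ¬ G.cut β X s γ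

def Sym (ok : ℤ → B → Prop) : Prop := ∀ s γ, ok s γ → ok (s + G.d γ) (G.bar γ)

def Closed (ok : ℤ → B → Prop) (S : Set ℤ) : Prop :=
  ∀ s ∈ S, ∀ γ, G.dom γ s → ok s γ → s + G.d γ ∈ S

def Clean (S : Set ℤ) : Prop := ∀ s ∈ S, G.a ≤ s ∧ s < G.b ∧ s ∉ G.Z

variable {G}

lemma dom_bar {γ : B} {s : ℤ} : G.dom (G.bar γ) (s + G.d γ) ↔ G.dom γ s := by
  unfold dom
  rw [G.lo_bar, G.hi_bar]
  omega

lemma add_d_bar (γ : B) (s : ℤ) : s + G.d γ + G.d (G.bar γ) = s := by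
  rw [G.d_bar]; ring

lemma bar_inj {β γ : B} (h : G.bar β = G.bar γ) : β = γ := by
  rw [← G.bar_bar β, h, G.bar_bar]

lemma sym_okc (β : B) (X : Finset ℤ) : G.Sym (G.okc β X) := by
  intro s γ h h'
  apply h
  rcases h' with ⟨h1, h2⟩ | ⟨h1, h2⟩
  · right
    exact ⟨by rw [← h1, G.bar_bar], h2⟩
  · left
    rw [add_d_bar] at h2
    exact ⟨bar_inj h1, h2⟩

lemma Closed.iff {ok : ℤ → B → Prop} {S : Set ℤ} (hS : G.Closed ok S) (hs : G.Sym ok)
    {s : ℤ} {γ : B} (hd : G.dom γ s) (ho : ok s γ) : s ∈ S ↔ s + G.d γ ∈ S := by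
  refine ⟨fun h => hS s h γ hd ho, fun h => ?_⟩
  have := hS _ h (G.bar γ) (dom_bar.2 hd) (hs s γ ho)
  rwa [add_d_bar] at this

lemma Closed.union {ok : ℤ → B → Prop} {S T : Set ℤ} (hS : G.Closed ok S) (hT : G.Closed ok T) :
    G.Closed ok (S ∪ T) := fun s hs γ hd ho =>
  hs.elim (fun h => Or.inl (hS s h γ hd ho)) (fun h => Or.inr (hT s h γ hd ho))

lemma Clean.union {S T : Set ℤ} (hS : G.Clean S) (hT : G.Clean T) : G.Clean (S ∪ T) :=
  fun s hs => hs.elim (hS s) (hT s)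

/-- A closed clean set can be pumped. -/
lemma pump0 (e : ℕ) {S : Set ℤ} (hc : G.Closed (fun _ _ => True) S) (hcl : G.Clean S)
    {x : ℤ} (hx : x ∈ S) : G.Pump e := by
  refine ⟨fun s => if s ∈ S then pw [G.W x] e else [], ?_, ?_, x, [G.W x], by simp, by simp [hx]⟩
  · intro s hs
    by_cases h : s ∈ S
    · exact hcl s h
    · simp [h] at hs
  · intro γ
    refine ph_congr_shift _ (G.hW γ) (fun s h1 h2 => ?_)
    simp only [hc.iff (fun _ _ _ => trivial) (⟨h1, h2⟩ : G.dom γ s) trivial]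

lemma valid_of_strip {β : B} {j0 j1 : ℤ} (h01 : j0 ≤ j1) (h0 : G.lo β ≤ j0) (h1 : j1 ≤ G.hi β)
    {ω : ℤ → List A}
    (hm : ∀ γ s, G.dom γ s → G.okc β (Finset.Ico j0 j1) s γ → ω s = ω (s + G.d γ))
    (hs : ph G.W ω j0 j1 = ph G.W (fun s => ω (s + G.d β)) j0 j1) (γ : B) :
    ph G.W ω (G.lo γ) (G.hi γ) = ph G.W ω (G.lo γ + G.d γ) (G.hi γ + G.d γ) := by
  have hβ : ph G.W ω (G.lo β) (G.hi β) = ph G.W ω (G.lo β + G.d β) (G.hi β + G.d β) := by
    have hn : ∀ s, G.dom β s → (s < j0 ∨ j1 ≤ s) → ω s = ω (s + G.d β) := by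
      intro s hd ho
      refine hm β s hd ?_
      rintro (⟨_, h⟩ | ⟨h, _⟩)
      · rw [Finset.mem_Ico] at h; omega
      · exact G.bar_ne β h.symm
    rw [ph_split G.W ω h0 (by omega : j0 ≤ G.hi β), ph_split G.W ω h01 h1,
      ph_split G.W ω (by omega : G.lo β + G.d β ≤ j0 + G.d β)
        (by omega : j0 + G.d β ≤ G.hi β + G.d β),
      ph_split G.W ω (by omega : j0 + G.d β ≤ j1 + G.d β)
        (by omega : j1 + G.d β ≤ G.hi β + G.d β)]
    congr 1
    · exact ph_congr_shift _ (fun s h2 h3 => G.hW β s h2 (by omega))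
        (fun s h2 h3 => hn s ⟨h2, by omega⟩ (Or.inl h3))
    congr 1
    · rw [hs]
      exact ph_congr_shift _ (fun s h2 h3 => G.hW β s (by omega) (by omega)) (fun s _ _ => rfl)
    · exact ph_congr_shift _ (fun s h2 h3 => G.hW β s (by omega) h3)
        (fun s h2 h3 => hn s ⟨by omega, h3⟩ (Or.inr h2))
  by_cases hγ : γ = β
  · rw [hγ]; exact hβ
  by_cases hγ' : γ = G.bar β
  · rw [hγ', G.lo_bar, G.hi_bar, add_d_bar, add_d_bar]
    exact hβ.symm
  refine ph_congr_shift _ (G.hW γ) (fun s h2 h3 => hm γ s ⟨h2, h3⟩ ?_)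
  rintro (⟨h, _⟩ | ⟨h, _⟩)
  · exact hγ h
  · exact hγ' h

/-- The twist: one unmatched position on each side of a band. -/
lemma pump1 (e : ℕ) {β : B} {j0 j1 : ℤ} (h0 : G.lo β ≤ j0) (h1 : j1 ≤ G.hi β) {S : Set ℤ}
    (hc : G.Closed (G.okc β (Finset.Ico j0 j1)) S) (hcl : G.Clean S) {x y : ℤ}
    (hx0 : j0 ≤ x) (hx1 : x < j1) (hy0 : j0 ≤ y) (hy1 : y < j1) (hx : x ∈ S) (hy : y + G.d β ∈ S)
    (hm : ∀ s, j0 ≤ s → s < j1 → ((s ∈ S ∧ s ≠ x) ↔ (s + G.d β ∈ S ∧ s ≠ y)))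
    (hb : ∀ s ∈ S, ¬ (x < s ∧ s < y) ∧ ¬ (y < s ∧ s < x)) : G.Pump e := by
  have key : ∀ u : List A, u ≠ [] →
      ph G.W (fun s => if s ∈ S then pw u e else []) j0 j1 =
        ph G.W (fun s => if s + G.d β ∈ S then pw u e else []) j0 j1 → G.Pump e := by
    intro u hu h
    refine ⟨fun s => if s ∈ S then pw u e else [], ?_, ?_, x, u, hu, by simp [hx]⟩
    · intro s hs
      by_cases h : s ∈ S
      · exact hcl s h
      · simp [h] at hs
    · refine valid_of_strip (by omega) h0 h1 (fun γ s hd ho => ?_) h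
      simp only [hc.iff (sym_okc _ _) hd ho]
  have hout : ∀ (w : List A) s, j0 ≤ s → s < j1 → s ≠ x → s ≠ y →
      (if s ∈ S then w else []) = (if s + G.d β ∈ S then w else []) := by
    intro w s h2 h3 h4 h5
    have := hm s h2 h3
    simp only [h4, h5, ne_eq, not_false_eq_true, and_true] at this
    simp only [this]
  rcases lt_trichotomy x y with hxy | hxy | hxy
  · refine key (seg G.W (x + 1) (y + 1)) (seg_ne_nil _ (by omega)) ?_
    refine ph_twist hx0 hxy hy1 (fun s h2 h3 h4 => hout _ s h2 h3 (by omega) (by omega))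
      (if_pos hx) (fun s h2 h3 => if_neg ?_) (if_pos hy) (fun s h2 h3 => if_neg ?_) (pw_comm _ _)
    · intro h
      rcases h3.lt_or_eq with h3 | h3
      · exact (hb s h).1 ⟨h2, h3⟩
      · exact ((hm s (by omega) (by omega)).1 ⟨h, by omega⟩).2 h3
    · intro h
      have := (hm s (by omega) (by omega)).2 ⟨h, by omega⟩
      exact (hb s this.1).1 ⟨by have := this.2; omega, h3⟩
  · subst hxy
    refine key [G.W x] (by simp) (ph_congr fun s h2 h3 => ?_)
    by_cases h : s = x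
    · subst h; simp [hx, hy]
    · exact hout _ s h2 h3 h h
  · refine key (seg G.W (y + 1) (x + 1)) (seg_ne_nil _ (by omega)) (Eq.symm ?_)
    refine ph_twist hy0 hxy hx1 (fun s h2 h3 h4 => (hout _ s h2 h3 (by omega) (by omega)).symm)
      (if_pos hy) (fun s h2 h3 => if_neg ?_) (if_pos hx) (fun s h2 h3 => if_neg ?_) (pw_comm _ _)
    · intro h
      have := (hm s (by omega) (by omega)).2 ⟨h, by omega⟩
      exact (hb s this.1).2 ⟨h2, by have := this.2; omega⟩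
    · intro h
      rcases h2.lt_or_eq with h2 | h2
      · exact (hb s h).2 ⟨h2, h3⟩
      · exact ((hm s (by omega) (by omega)).1 ⟨h, by omega⟩).2 h2.symm

/-- The free move: one class only on the left, another class exactly once on the right. -/
lemma pump2 (e : ℕ) {β : B} {j0 j1 : ℤ} (h0 : G.lo β ≤ j0) (h1 : j1 ≤ G.hi β) {S T : Set ℤ}
    (hc : G.Closed (G.okc β (Finset.Ico j0 j1)) S) (hcl : G.Clean S)
    (hc' : G.Closed (G.okc β (Finset.Ico j0 j1)) T) (hcl' : G.Clean T) {x y : ℤ}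
    (hx0 : j0 ≤ x) (hx1 : x < j1) (hy0 : j0 ≤ y) (hy1 : y < j1) (hx : x ∈ S)
    (hSr : ∀ s, j0 ≤ s → s < j1 → s + G.d β ∉ S) (hTl : ∀ s, j0 ≤ s → s < j1 → s ∉ T)
    (hTr : ∀ s, j0 ≤ s → s < j1 → (s + G.d β ∈ T ↔ s = y)) : G.Pump e := by
  set F : Finset ℤ := (Finset.Ico j0 j1).filter (· ∈ S) with hF
  have hFne : F.Nonempty := ⟨x, by simp [hF, hx0, hx1, hx]⟩
  have hmem : ∀ s, s ∈ F ↔ (j0 ≤ s ∧ s < j1) ∧ s ∈ S := by intro s; simp [hF]
  obtain ⟨⟨a1, a2⟩, a3⟩ := (hmem _).1 (F.min'_mem hFne)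
  obtain ⟨⟨b1, b2⟩, b3⟩ := (hmem _).1 (F.max'_mem hFne)
  have hmin : ∀ s, j0 ≤ s → s < j1 → s ∈ S → F.min' hFne ≤ s :=
    fun s h2 h3 h4 => F.min'_le s ((hmem s).2 ⟨⟨h2, h3⟩, h4⟩)
  have hmax : ∀ s, j0 ≤ s → s < j1 → s ∈ S → s ≤ F.max' hFne :=
    fun s h2 h3 h4 => F.le_max' s ((hmem s).2 ⟨⟨h2, h3⟩, h4⟩)
  generalize F.min' hFne = x1 at *
  generalize F.max' hFne = x2 at *
  set w : List A := seg G.W (x1 + 1) (y + 1) ++ pw [G.W x] e ++ seg G.W (y + 1) (x2 + 1) with hw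
  set ω0 : ℤ → List A := fun s => if s ∈ S then w else [] with hω0
  have hP : seg G.W j0 (y + 1) <+: ph G.W ω0 j0 j1 := by
    rw [ph_split G.W ω0 (by omega : j0 ≤ x1 + 1) (by omega : x1 + 1 ≤ j1), ph_last a1
      (fun s h2 h3 => if_neg (fun h => by have := hmin s h2 (by omega) h; omega))]
    refine List.IsPrefix.trans ?_ (List.prefix_append _ _)
    rcases le_or_gt y x1 with h | h
    · rw [seg_split G.W (by omega : j0 ≤ y + 1) (by omega : y + 1 ≤ x1 + 1), List.append_assoc]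
      exact List.prefix_append _ _
    · rw [seg_split G.W (by omega : j0 ≤ x1 + 1) (by omega : x1 + 1 ≤ y + 1)]
      rw [if_pos a3, hw, List.append_assoc, ← List.append_assoc]
      exact List.prefix_append _ _
  have hR : seg G.W (y + 1) j1 <:+ ph G.W ω0 j0 j1 := by
    rw [ph_split G.W ω0 b1 b2.le, ph_split G.W ω0 (by omega : x2 ≤ x2 + 1) (by omega : x2 + 1 ≤ j1),
      ph_single, ph_eq_seg (x := x2 + 1)
      (fun s h2 h3 => if_neg (fun h => by have := hmax s (by omega) h3 h; omega))]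
    refine List.IsSuffix.trans ?_ (List.suffix_append _ _)
    rcases le_or_gt x2 y with h | h
    · rw [seg_split G.W (by omega : x2 + 1 ≤ y + 1) (by omega : y + 1 ≤ j1), ← List.append_assoc]
      exact List.suffix_append _ _
    · rw [seg_split G.W (by omega : y + 1 ≤ x2 + 1) (by omega : x2 + 1 ≤ j1)]
      have : ω0 x2 = w := if_pos b3
      rw [this, hw, ← List.cons_append, List.append_assoc]
      exact List.suffix_append _ _
  obtain ⟨w', hw'⟩ := exists_mid hP hR (by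
    have := ph_length_ge G.W ω0 j0 j1
    rw [seg_length, seg_length]
    omega)
  refine ⟨fun s => if s ∈ S then w else if s ∈ T then w' else [], ?_, ?_, x, [G.W x], by simp, ?_⟩
  · intro s hs
    by_cases h : s ∈ S
    · exact hcl s h
    by_cases h' : s ∈ T
    · exact hcl' s h'
    · simp [h, h'] at hs
  · refine valid_of_strip (by omega) h0 h1 (fun γ s hd ho => ?_) ?_
    · simp only [hc.iff (sym_okc _ _) hd ho, hc'.iff (sym_okc _ _) hd ho]
    · rw [ph_congr (ω' := ω0) (fun s h2 h3 => by simp [hω0, hTl s h2 h3]), hw',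
        ph_split G.W _ (by omega : j0 ≤ y + 1) (by omega : y + 1 ≤ j1), ph_last hy0, ph_eq_seg]
      · simp [hSr y hy0 hy1, hTr y hy0 hy1]
      · intro s h2 h3
        have : s ≠ y := by omega
        simp [hSr s (by omega) h3, hTr s (by omega) h3, this]
      · intro s h2 h3
        have : s ≠ y := by omega
        simp [hSr s h2 (by omega), hTr s h2 (by omega), this]
  · simp only [hx, if_true, hw]
    exact List.infix_append _ _ _

end Sys

end Pool.Agent.MP_fd2cd0_lc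

end MrgPart1

-- ======== part 2: formerly Pool.Agent.MP_fd2cd0_lc.Forest
section MrgPart2

/-! Connected components of the graph of a band system and counting. -/

namespace Pool.Agent.MP_fd2cd0_lc

open Classical

namespace Sys

variable {A B : Type*} (G : Sys A B)

def Adj (ok : ℤ → B → Prop) (s t : ℤ) : Prop := ∃ γ, G.dom γ s ∧ ok s γ ∧ t = s + G.d γ

def Conn (ok : ℤ → B → Prop) : ℤ → ℤ → Prop := Relation.ReflTransGen (G.Adj ok)

noncomputable def I : Finset ℤ := Finset.Ico G.a G.b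

noncomputable def edges [Fintype B] (ok : ℤ → B → Prop) : Finset (ℤ × B) :=
  (G.I ×ˢ Finset.univ).filter (fun p => G.dom p.2 p.1 ∧ ok p.1 p.2)

noncomputable def cls (ok : ℤ → B → Prop) (v : ℤ) : Finset ℤ := G.I.filter (G.Conn ok v)

/-- The component of `v` contains no special position. -/
def CleanAt (ok : ℤ → B → Prop) (v : ℤ) : Prop := ∀ z, G.Conn ok v z → z ∉ G.Z

noncomputable def CC (ok : ℤ → B → Prop) : Finset (Finset ℤ) :=
  (G.I.filter (G.CleanAt ok)).image (G.cls ok)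

def Reach (ok : ℤ → B → Prop) (R : Finset ℤ) : ℕ → ℤ → Prop
  | 0, v => v ∈ R
  | n + 1, v => ∃ z, G.Adj ok v z ∧ Reach ok R n z

variable {G}

lemma mem_I {v : ℤ} : v ∈ G.I ↔ G.a ≤ v ∧ v < G.b := Finset.mem_Ico

lemma dom.mem_I {γ : B} {s : ℤ} (h : G.dom γ s) : s ∈ G.I := by
  have := G.a_le γ
  have := G.le_b γ
  rw [Sys.mem_I]
  unfold dom at h
  omega

lemma Adj.symm {ok : ℤ → B → Prop} (hs : G.Sym ok) {s t : ℤ} (h : G.Adj ok s t) : G.Adj ok t s := by
  obtain ⟨γ, h1, h2, rfl⟩ := h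
  exact ⟨G.bar γ, dom_bar.2 h1, hs s γ h2, (add_d_bar γ s).symm⟩

lemma Conn.refl (ok : ℤ → B → Prop) (v : ℤ) : G.Conn ok v v := Relation.ReflTransGen.refl

lemma Conn.trans {ok : ℤ → B → Prop} {u v w : ℤ} (h1 : G.Conn ok u v) (h2 : G.Conn ok v w) :
    G.Conn ok u w := Relation.ReflTransGen.trans h1 h2

lemma Conn.symm {ok : ℤ → B → Prop} (hs : G.Sym ok) {s t : ℤ} (h : G.Conn ok s t) :
    G.Conn ok t s := by
  induction h with
  | refl => exact Conn.refl _ _
  | tail _ h2 ih => exact Relation.ReflTransGen.head (h2.symm hs) ih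

lemma Conn.step {ok : ℤ → B → Prop} {v s : ℤ} {γ : B} (h : G.Conn ok v s) (hd : G.dom γ s)
    (ho : ok s γ) : G.Conn ok v (s + G.d γ) := Relation.ReflTransGen.tail h ⟨γ, hd, ho, rfl⟩

lemma conn_closed (ok : ℤ → B → Prop) (v : ℤ) : G.Closed ok {z | G.Conn ok v z} :=
  fun _ hs _ hd ho => Conn.step hs hd ho

lemma Closed.of_conn {ok : ℤ → B → Prop} {S : Set ℤ} (hS : G.Closed ok S) {v z : ℤ} (hv : v ∈ S)
    (h : G.Conn ok v z) : z ∈ S := by
  induction h with
  | refl => exact hv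
  | tail _ h2 ih =>
    obtain ⟨γ, h3, h4, rfl⟩ := h2
    exact hS _ ih γ h3 h4

lemma Conn.mem_I {ok : ℤ → B → Prop} {v z : ℤ} (h : G.Conn ok v z) (hv : v ∈ G.I) : z ∈ G.I := by
  induction h with
  | refl => exact hv
  | tail _ h2 _ =>
    obtain ⟨γ, h3, _, rfl⟩ := h2
    exact (dom_bar.2 h3).mem_I

lemma Conn.mono {ok ok' : ℤ → B → Prop} (h : ∀ s γ, ok s γ → ok' s γ) {v z : ℤ}
    (hc : G.Conn ok v z) : G.Conn ok' v z :=
  (show G.Closed ok {z | G.Conn ok' v z} from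
    fun _ hs γ hd ho => Conn.step hs hd (h _ γ ho)).of_conn (Conn.refl _ _) hc

lemma CleanAt.clean {ok : ℤ → B → Prop} {v : ℤ} (h : G.CleanAt ok v) (hv : v ∈ G.I) :
    G.Clean {z | G.Conn ok v z} := fun z hz =>
  ⟨(Sys.mem_I.1 (Conn.mem_I hz hv)).1, (Sys.mem_I.1 (Conn.mem_I hz hv)).2, h z hz⟩

lemma CleanAt.of_conn {ok : ℤ → B → Prop} {v z : ℤ} (h : G.CleanAt ok v) (hz : G.Conn ok v z) :
    G.CleanAt ok z := fun _ h' => h _ (hz.trans h')

lemma shift_conn {ok : ℤ → B → Prop} {u δ : ℤ}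
    (h : ∀ v γ, G.Conn ok u v → G.dom γ (v + δ) → ok (v + δ) γ → G.dom γ v ∧ ok v γ) {w z : ℤ}
    (hw : G.Conn ok u w) (hz : G.Conn ok (w + δ) z) : G.Conn ok u (z - δ) := by
  have : G.Closed ok {z | G.Conn ok u (z - δ)} := by
    intro s hs γ hd ho
    have h1 := h (s - δ) γ hs (by simpa using hd) (by simpa using ho)
    have := Conn.step hs h1.1 h1.2
    have e : s - δ + G.d γ = s + G.d γ - δ := by ring
    rwa [e] at this
  exact this.of_conn (by simpa using hw) hz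

variable [Fintype B]

lemma mem_edges {ok : ℤ → B → Prop} {p : ℤ × B} : p ∈ G.edges ok ↔ G.dom p.2 p.1 ∧ ok p.1 p.2 := by
  simp only [edges, Finset.mem_filter, Finset.mem_product, Finset.mem_univ, and_true]
  exact ⟨fun h => h.2, fun h => ⟨h.1.mem_I, h⟩⟩

lemma card_edges : (G.edges (fun _ _ => True)).card = ∑ γ, (Finset.Ico (G.lo γ) (G.hi γ)).card := by
  rw [Finset.card_eq_sum_card_fiberwise (f := Prod.snd) (t := Finset.univ) (by simp)]
  refine Finset.sum_congr rfl (fun γ _ => ?_)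
  refine Finset.card_bij (fun p _ => p.1) ?_ ?_ ?_
  · intro p hp
    rw [Finset.mem_filter, mem_edges] at hp
    rw [Finset.mem_Ico, ← hp.2]
    exact hp.1.1
  · intro p hp q hq h
    rw [Finset.mem_filter] at hp hq
    exact Prod.ext h (hp.2.trans hq.2.symm)
  · intro s hs
    exact ⟨(s, γ), by
      rw [Finset.mem_filter, mem_edges]
      exact ⟨⟨Finset.mem_Ico.1 hs, trivial⟩, rfl⟩, rfl⟩

/-- A graph in which every vertex is connected to a root has many edges. -/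
lemma forest {ok : ℤ → B → Prop} (hs : G.Sym ok) (R : Finset ℤ)
    (h : ∀ v ∈ G.I, ∃ r ∈ R, G.Conn ok v r) :
    2 * G.I.card ≤ 2 * R.card + (G.edges ok).card := by
  have hr : ∀ v r, r ∈ R → G.Conn ok v r → ∃ n, G.Reach ok R n v := by
    intro v r hr hc
    induction hc using Relation.ReflTransGen.head_induction_on with
    | refl => exact ⟨0, hr⟩
    | head h1 _ ih =>
      obtain ⟨n, hn⟩ := ih
      exact ⟨n + 1, _, h1, hn⟩
  set dist : ℤ → ℕ := fun v => sInf {n | G.Reach ok R n v} with hdist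
  set E1 := (G.edges ok).filter (fun p => dist (p.1 + G.d p.2) < dist p.1) with hE1
  set E2 := (G.edges ok).filter (fun p => dist p.1 < dist (p.1 + G.d p.2)) with hE2
  have h1 : (G.I \ R).card ≤ E1.card := by
    refine le_trans (Finset.card_le_card ?_) (Finset.card_image_le (f := Prod.fst))
    intro v hv
    rw [Finset.mem_sdiff] at hv
    obtain ⟨r, hr1, hr2⟩ := h v hv.1
    have hne : {n | G.Reach ok R n v}.Nonempty := hr v r hr1 hr2
    have hm : G.Reach ok R (dist v) v := Nat.sInf_mem hne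
    cases hd : dist v with
    | zero => rw [hd] at hm; exact absurd hm hv.2
    | succ n =>
      rw [hd] at hm
      obtain ⟨z, ⟨γ, h2, h3, rfl⟩, h4⟩ := hm
      have : dist (v + G.d γ) ≤ n := Nat.sInf_le h4
      refine Finset.mem_image.2 ⟨(v, γ), ?_, rfl⟩
      rw [hE1, Finset.mem_filter, mem_edges]
      exact ⟨⟨h2, h3⟩, by simp only; omega⟩
  have h2 : E1.card ≤ E2.card := by
    refine Finset.card_le_card_of_injOn (fun p => (p.1 + G.d p.2, G.bar p.2)) ?_ ?_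
    · intro p hp
      simp only [hE1, hE2, Finset.coe_filter, Set.mem_ofPred_eq, mem_edges] at hp ⊢
      rw [add_d_bar]
      exact ⟨⟨dom_bar.2 hp.1.1, hs _ _ hp.1.2⟩, hp.2⟩
    · intro p _ q _ h
      simp only [Prod.mk.injEq] at h
      have := bar_inj h.2
      refine Prod.ext ?_ this
      have h1 := h.1
      rw [this] at h1
      omega
  have h3 : E1.card + E2.card ≤ (G.edges ok).card := by
    rw [← Finset.card_union_of_disjoint]
    · exact Finset.card_le_card (Finset.union_subset (Finset.filter_subset _ _)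
        (Finset.filter_subset _ _))
    · rw [Finset.disjoint_filter]
      intro p _ h1 h2
      omega
  have h4 := Finset.le_card_sdiff R G.I
  omega

lemma card_edges_okc {β : B} {X : Finset ℤ} (hX : ∀ s ∈ X, G.dom β s) :
    (G.edges (G.okc β X)).card + 2 * X.card ≤ (G.edges (fun _ _ => True)).card := by
  have h1 : (X.image (fun s => (s, β))).card = X.card :=
    Finset.card_image_of_injective _ (fun s t h => (Prod.mk.inj h).1)
  have h2 : (X.image (fun s => (s + G.d β, G.bar β))).card = X.card :=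
    Finset.card_image_of_injective _ (fun s t h => by have := (Prod.mk.inj h).1; omega)
  have h3 : Disjoint (X.image (fun s => (s, β))) (X.image (fun s => (s + G.d β, G.bar β))) := by
    rw [Finset.disjoint_left]
    intro p hp hq
    obtain ⟨s, _, rfl⟩ := Finset.mem_image.1 hp
    obtain ⟨t, _, h⟩ := Finset.mem_image.1 hq
    exact G.bar_ne β (Prod.mk.inj h).2
  have h4 : Disjoint (G.edges (G.okc β X))
      (X.image (fun s => (s, β)) ∪ X.image (fun s => (s + G.d β, G.bar β))) := by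
    rw [Finset.disjoint_left]
    intro p hp hq
    rw [mem_edges] at hp
    apply hp.2
    rcases Finset.mem_union.1 hq with hq | hq
    · obtain ⟨s, hs, rfl⟩ := Finset.mem_image.1 hq
      exact Or.inl ⟨rfl, hs⟩
    · obtain ⟨s, hs, rfl⟩ := Finset.mem_image.1 hq
      exact Or.inr ⟨rfl, by simpa [add_d_bar] using hs⟩
  have h5 := Finset.card_union_of_disjoint h4
  rw [Finset.card_union_of_disjoint h3, h1, h2] at h5
  rw [two_mul, ← h5]
  refine Finset.card_le_card ?_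
  intro p hp
  rw [mem_edges]
  rcases Finset.mem_union.1 hp with hp | hp
  · exact ⟨(mem_edges.1 hp).1, trivial⟩
  rcases Finset.mem_union.1 hp with hq | hq
  · obtain ⟨s, hs, rfl⟩ := Finset.mem_image.1 hq
    exact ⟨hX s hs, trivial⟩
  · obtain ⟨s, hs, rfl⟩ := Finset.mem_image.1 hq
    exact ⟨dom_bar.2 (hX s hs), trivial⟩

/-- Removing the edges of `β` over `X` leaves many components. -/
lemma forest_cut {M : ℕ} (hE : (G.edges (fun _ _ => True)).card ≤ 2 * G.I.card + 2 * M)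
    (hZ : G.Z.card ≤ M) {β : B} {X : Finset ℤ} (hX : ∀ s ∈ X, G.dom β s) (R : Finset ℤ)
    (h : ∀ v ∈ G.I, G.CleanAt (G.okc β X) v → ∃ r ∈ R, G.Conn (G.okc β X) v r) :
    X.card ≤ R.card + 2 * M := by
  have h1 := forest (sym_okc β X) (R ∪ G.Z) (by
    intro v hv
    by_cases hc : G.CleanAt (G.okc β X) v
    · obtain ⟨r, h1, h2⟩ := h v hv hc
      exact ⟨r, Finset.mem_union_left _ h1, h2⟩
    · unfold CleanAt at hc
      push Not at hc
      obtain ⟨r, h1, h2⟩ := hc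
      exact ⟨r, Finset.mem_union_right _ h2, h1⟩)
  have h2 := card_edges_okc hX
  have h3 := Finset.card_union_le R G.Z
  omega

omit [Fintype B] in
lemma mem_cls {ok : ℤ → B → Prop} {v z : ℤ} (hv : v ∈ G.I) : z ∈ G.cls ok v ↔ G.Conn ok v z := by
  simp only [cls, Finset.mem_filter]
  exact ⟨fun h => h.2, fun h => ⟨h.mem_I hv, h⟩⟩

omit [Fintype B] in
lemma cls_eq {ok : ℤ → B → Prop} (hs : G.Sym ok) {v z : ℤ} (h : G.Conn ok v z) :
    G.cls ok v = G.cls ok z := by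
  unfold cls
  exact Finset.filter_congr (fun u _ => ⟨fun h' => (h.symm hs).trans h', fun h' => h.trans h'⟩)

lemma card_le_CC {M : ℕ} (hE : (G.edges (fun _ _ => True)).card ≤ 2 * G.I.card + 2 * M)
    (hZ : G.Z.card ≤ M) {β : B} {X : Finset ℤ} (hX : ∀ s ∈ X, G.dom β s) :
    X.card ≤ (G.CC (G.okc β X)).card + 2 * M := by
  set rep : Finset ℤ → ℤ := fun C => if h : C.Nonempty then C.min' h else 0 with hrep
  refine (forest_cut hE hZ hX ((G.CC (G.okc β X)).image rep) ?_).trans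
    (Nat.add_le_add_right Finset.card_image_le _)
  intro v hv hc
  have hne : (G.cls (G.okc β X) v).Nonempty := ⟨v, (mem_cls hv).2 (Conn.refl _ _)⟩
  refine ⟨rep (G.cls (G.okc β X) v), Finset.mem_image_of_mem _
    (Finset.mem_image_of_mem _ (Finset.mem_filter.2 ⟨hv, hc⟩)), ?_⟩
  rw [← mem_cls hv]
  simp only [hrep, dif_pos hne]
  exact Finset.min'_mem _ _

omit [Fintype B] in
lemma sum_cls {ok : ℤ → B → Prop} (hs : G.Sym ok) {Y : Finset ℤ} (hY : Y ⊆ G.I)
    (P : Finset ℤ → Prop) [DecidablePred P] (T : Finset ℤ)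
    (hT : ∀ u, u ∈ T ↔ u ∈ Y ∧ G.CleanAt ok u ∧ P (G.cls ok u)) :
    ∑ C ∈ (G.CC ok).filter P, (C ∩ Y).card = T.card := by
  have h1 : T = Y.filter (fun u => G.cls ok u ∈ (G.CC ok).filter P) := by
    ext u
    rw [hT, Finset.mem_filter]
    refine and_congr_right (fun hu => ?_)
    simp only [CC, Finset.mem_filter, Finset.mem_image]
    refine and_congr_left (fun _ => ⟨fun h => ⟨u, ⟨hY hu, h⟩, rfl⟩, ?_⟩)
    rintro ⟨v, ⟨hv, hc⟩, he⟩
    refine hc.of_conn ((mem_cls hv).1 ?_)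
    rw [he, mem_cls (hY hu)]
    exact Conn.refl _ _
  rw [h1, ← Finset.sum_card_fiberwise_eq_card_filter]
  refine Finset.sum_congr rfl (fun C hC => ?_)
  congr 1
  simp only [CC, Finset.mem_filter, Finset.mem_image] at hC
  obtain ⟨⟨v, ⟨hv, _⟩, rfl⟩, _⟩ := hC
  ext u
  simp only [Finset.mem_inter, Finset.mem_filter, mem_cls hv]
  constructor
  · rintro ⟨h2, h3⟩
    exact ⟨h3, (cls_eq hs h2).symm⟩
  · rintro ⟨h2, h3⟩
    refine ⟨(mem_cls hv).1 ?_, h2⟩
    rw [← h3, mem_cls (hY h2)]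
    exact Conn.refl _ _

omit [Fintype B] in
lemma sum_cls_le {ok : ℤ → B → Prop} (hs : G.Sym ok) {Y : Finset ℤ} (hY : Y ⊆ G.I) :
    ∑ C ∈ G.CC ok, (C ∩ Y).card ≤ Y.card := by
  have := sum_cls hs hY (fun _ => True) (Y.filter (G.CleanAt ok)) (by simp)
  rw [Finset.filter_true] at this
  rw [this]
  exact Finset.card_filter_le _ _

end Sys

end Pool.Agent.MP_fd2cd0_lc

end MrgPart2

-- ======== part 3: formerly Pool.Agent.MP_fd2cd0_lc.Count
section MrgPart3

/-! Types of components after cutting a band along an interval. -/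

namespace Pool.Agent.MP_fd2cd0_lc

open Classical

lemma card_bound {ι : Type*} (s : Finset ι) (f : ι → ℕ) (P : ι → Prop) [DecidablePred P]
    (k m : ℕ) (h : ∀ i ∈ s, k ≤ f i ∨ (P i ∧ k ≤ f i + m)) :
    k * s.card ≤ ∑ i ∈ s, f i + m * (s.filter P).card := by
  have h1 : m * (s.filter P).card = ∑ i ∈ s, if P i then m else 0 := by
    rw [← Finset.sum_filter, Finset.sum_const, smul_eq_mul, mul_comm]
  rw [h1, ← Finset.sum_add_distrib, mul_comm, ← smul_eq_mul]
  refine Finset.card_nsmul_le_sum _ _ _ (fun i hi => ?_)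
  rcases h i hi with h | h
  · omega
  · rw [if_pos h.1]; exact h.2

namespace Sys

variable {A B : Type*} (G : Sys A B)

/-- The component of `s` meets `X` only in `s` and misses `Y`. -/
def Leaf (ok : ℤ → B → Prop) (X Y : Finset ℤ) (s : ℤ) : Prop :=
  s ∈ X ∧ (∀ u ∈ X, G.Conn ok s u → u = s) ∧ ∀ u ∈ Y, ¬ G.Conn ok s u

/-- The component of `y` is clean, meets `X` exactly in `y` and `t`, and misses `Y`. -/
def Pair (ok : ℤ → B → Prop) (X Y : Finset ℤ) (y t : ℤ) : Prop :=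
  y ∈ X ∧ t ∈ X ∧ t ≠ y ∧ G.CleanAt ok y ∧ (∀ u ∈ X, G.Conn ok y u ↔ (u = y ∨ u = t)) ∧
    ∀ u ∈ Y, ¬ G.Conn ok y u

variable {G}

lemma okc_bar (β : B) (j0 j1 : ℤ) :
    G.okc (G.bar β) (Finset.Ico (j0 + G.d β) (j1 + G.d β)) = G.okc β (Finset.Ico j0 j1) := by
  funext s γ
  unfold okc cut
  rw [G.bar_bar]
  congr 1
  apply propext
  simp only [Finset.mem_Ico]
  constructor
  · rintro (⟨h1, h2⟩ | ⟨h1, h2⟩)
    · right; refine ⟨h1, ?_⟩; rw [h1, G.d_bar]; omega
    · left; refine ⟨h1, ?_⟩; rw [h1] at h2; omega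
  · rintro (⟨h1, h2⟩ | ⟨h1, h2⟩)
    · right; refine ⟨h1, ?_⟩; rw [h1]; omega
    · left; refine ⟨h1, ?_⟩; rw [h1, G.d_bar] at h2; omega

lemma Ico_sub_I {β : B} {j0 j1 : ℤ} (h0 : G.lo β ≤ j0) (h1 : j1 ≤ G.hi β) :
    Finset.Ico j0 j1 ⊆ G.I := fun s hs => by
  rw [Finset.mem_Ico] at hs
  exact dom.mem_I (γ := β) ⟨by omega, by omega⟩

lemma Ico_sub_I' {β : B} {j0 j1 : ℤ} (h0 : G.lo β ≤ j0) (h1 : j1 ≤ G.hi β) :
    Finset.Ico (j0 + G.d β) (j1 + G.d β) ⊆ G.I :=
  Ico_sub_I (β := G.bar β) (by rw [G.lo_bar]; omega) (by rw [G.hi_bar]; omega)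

lemma no00 {e : ℕ} (np : ¬ G.Pump e) {β : B} {j0 j1 v : ℤ} (hv : v ∈ G.I)
    (hc : G.CleanAt (G.okc β (Finset.Ico j0 j1)) v)
    (hl : ∀ u ∈ Finset.Ico j0 j1, ¬ G.Conn (G.okc β (Finset.Ico j0 j1)) v u)
    (hr : ∀ u ∈ Finset.Ico (j0 + G.d β) (j1 + G.d β), ¬ G.Conn (G.okc β (Finset.Ico j0 j1)) v u) :
    False := by
  refine np (pump0 e (S := {z | G.Conn (G.okc β (Finset.Ico j0 j1)) v z}) ?_ (hc.clean hv)
    (Conn.refl _ v))
  intro s hs γ hd _
  refine Conn.step hs hd ?_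
  rintro (⟨_, h⟩ | ⟨h1, h⟩)
  · exact hl s h hs
  · refine hr s ?_ hs
    rw [h1, G.d_bar, Finset.mem_Ico] at h
    rw [Finset.mem_Ico]
    omega

lemma no11 {e : ℕ} (np : ¬ G.Pump e) {β : B} {j0 j1 : ℤ} (h0 : G.lo β ≤ j0) (h1 : j1 ≤ G.hi β)
    {v : ℤ} (hv : v ∈ G.I) (hc : G.CleanAt (G.okc β (Finset.Ico j0 j1)) v)
    (hl : (G.cls (G.okc β (Finset.Ico j0 j1)) v ∩ Finset.Ico j0 j1).card = 1)
    (hr : (G.cls (G.okc β (Finset.Ico j0 j1)) v ∩
      Finset.Ico (j0 + G.d β) (j1 + G.d β)).card = 1) : False := by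
  obtain ⟨x, hx⟩ := Finset.card_eq_one.1 hl
  obtain ⟨y, hy⟩ := Finset.card_eq_one.1 hr
  have hx' : ∀ u, (G.Conn (G.okc β (Finset.Ico j0 j1)) v u ∧ j0 ≤ u ∧ u < j1) ↔ u = x := by
    intro u
    rw [← Finset.mem_singleton, ← hx, Finset.mem_inter, mem_cls hv, Finset.mem_Ico]
  have hy' : ∀ u, (G.Conn (G.okc β (Finset.Ico j0 j1)) v u ∧ j0 + G.d β ≤ u ∧ u < j1 + G.d β) ↔
      u = y := by
    intro u
    rw [← Finset.mem_singleton, ← hy, Finset.mem_inter, mem_cls hv, Finset.mem_Ico]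
  have a1 := (hx' x).2 rfl
  have a2 := (hy' y).2 rfl
  refine np (pump1 e h0 h1 (conn_closed _ v) (hc.clean hv) (x := x) (y := y - G.d β)
    a1.2.1 a1.2.2 (by omega) (by omega) a1.1 (by simpa using a2.1) ?_ ?_)
  · intro s h2 h3
    constructor
    · rintro ⟨h4, h5⟩
      exact absurd ((hx' s).1 ⟨h4, h2, h3⟩) h5
    · rintro ⟨h4, h5⟩
      have := (hy' _).1 ⟨h4, by omega, by omega⟩
      omega
  · intro s hs
    constructor
    · rintro ⟨h2, h3⟩
      have := (hx' s).1 ⟨hs, by omega, by omega⟩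
      omega
    · rintro ⟨h2, h3⟩
      have := (hx' s).1 ⟨hs, by omega, by omega⟩
      omega

/-- If there is a clean leaf on the left, every clean component has a position on the left. -/
lemma leaf_forces {e : ℕ} (np : ¬ G.Pump e) {β : B} {j0 j1 : ℤ} (h0 : G.lo β ≤ j0)
    (h1 : j1 ≤ G.hi β) {s : ℤ}
    (hs : G.Leaf (G.okc β (Finset.Ico j0 j1)) (Finset.Ico j0 j1)
      (Finset.Ico (j0 + G.d β) (j1 + G.d β)) s)
    (hsc : G.CleanAt (G.okc β (Finset.Ico j0 j1)) s) {v : ℤ} (hv : v ∈ G.I)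
    (hc : G.CleanAt (G.okc β (Finset.Ico j0 j1)) v) :
    ∃ u ∈ Finset.Ico j0 j1, G.Conn (G.okc β (Finset.Ico j0 j1)) v u := by
  by_contra hl
  push Not at hl
  refine no00 np hv hc hl (fun x hx hvx => np ?_)
  obtain ⟨s1, s2, s3⟩ := hs
  have hsI := Ico_sub_I h0 h1 s1
  rw [Finset.mem_Ico] at hx s1
  refine pump2 e (β := G.bar β) (j0 := j0 + G.d β) (j1 := j1 + G.d β) (by rw [G.lo_bar]; omega)
    (by rw [G.hi_bar]; omega) (S := {z | G.Conn (G.okc β (Finset.Ico j0 j1)) v z})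
    (T := {z | G.Conn (G.okc β (Finset.Ico j0 j1)) s z}) (by rw [okc_bar]; exact conn_closed _ _)
    (hc.clean hv) (by rw [okc_bar]; exact conn_closed _ _) (hsc.clean hsI) (x := x)
    (y := s + G.d β) hx.1 hx.2 (by omega) (by omega) hvx ?_ ?_ ?_
  · intro u h2 h3
    exact hl _ (by rw [G.d_bar, Finset.mem_Ico]; omega)
  · intro u h2 h3
    exact s3 _ (by rw [Finset.mem_Ico]; omega)
  · intro u h2 h3
    constructor
    · intro h
      have := s2 _ (by rw [G.d_bar, Finset.mem_Ico]; omega) h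
      rw [G.d_bar] at this
      omega
    · rintro rfl
      rw [add_d_bar]
      exact Conn.refl _ _

lemma inter_card_one {ok : ℤ → B → Prop} {X : Finset ℤ} {u : ℤ} (hu : u ∈ X) (huI : u ∈ G.I) :
    (G.cls ok u ∩ X).card = 1 ↔ ∀ v ∈ X, G.Conn ok u v → v = u := by
  have h0 : u ∈ G.cls ok u ∩ X := Finset.mem_inter.2 ⟨(mem_cls huI).2 (Conn.refl _ _), hu⟩
  constructor
  · intro h v hv hc
    exact Finset.card_le_one.1 h.le v (Finset.mem_inter.2 ⟨(mem_cls huI).2 hc, hv⟩) u h0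
  · intro h
    refine Finset.card_eq_one.2 ⟨u, Finset.eq_singleton_iff_unique_mem.2 ⟨h0, fun v hv => ?_⟩⟩
    rw [Finset.mem_inter, mem_cls huI] at hv
    exact h v hv.2 hv.1

lemma inter_card_zero {ok : ℤ → B → Prop} {Y : Finset ℤ} {u : ℤ} (huI : u ∈ G.I) :
    (G.cls ok u ∩ Y).card = 0 ↔ ∀ v ∈ Y, ¬ G.Conn ok u v := by
  rw [Finset.card_eq_zero, Finset.eq_empty_iff_forall_notMem]
  simp only [Finset.mem_inter, mem_cls huI]
  exact ⟨fun h v hv hc => h v ⟨hc, hv⟩, fun h v hv => h v hv.2 hv.1⟩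

lemma exists_pair {ok : ℤ → B → Prop} {X Y : Finset ℤ} {u : ℤ} (hu : u ∈ X) (huI : u ∈ G.I)
    (hc : G.CleanAt ok u) (h2 : (G.cls ok u ∩ X).card = 2) (h0 : (G.cls ok u ∩ Y).card = 0) :
    ∃ t, G.Pair ok X Y u t := by
  have hu0 : u ∈ G.cls ok u ∩ X := Finset.mem_inter.2 ⟨(mem_cls huI).2 (Conn.refl _ _), hu⟩
  obtain ⟨a, b, hab, h⟩ := Finset.card_eq_two.1 h2
  have key : ∀ t, t ≠ u → G.cls ok u ∩ X = {u, t} → G.Pair ok X Y u t := by
    intro t ht h
    have h3 : ∀ v, (G.Conn ok u v ∧ v ∈ X) ↔ (v = u ∨ v = t) := by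
      intro v
      rw [← mem_cls huI, ← Finset.mem_inter, h]
      simp
    exact ⟨hu, ((h3 t).2 (Or.inr rfl)).2, ht, hc,
      fun v hv => by rw [← h3]; exact ⟨fun h => ⟨h, hv⟩, fun h => h.1⟩, (inter_card_zero huI).1 h0⟩
  rw [h] at hu0
  simp only [Finset.mem_insert, Finset.mem_singleton] at hu0
  rcases hu0 with rfl | rfl
  · exact ⟨b, key b hab.symm h⟩
  · exact ⟨a, key a hab (by rw [h, Finset.pair_comm])⟩

lemma Pair.symm {ok : ℤ → B → Prop} (hs : G.Sym ok) {X Y : Finset ℤ} {y t : ℤ}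
    (h : G.Pair ok X Y y t) : G.Pair ok X Y t y := by
  obtain ⟨h1, h2, h3, h4, h5, h6⟩ := h
  have hc : G.Conn ok y t := (h5 t h2).2 (Or.inr rfl)
  refine ⟨h2, h1, h3.symm, h4.of_conn hc, fun u hu => ?_, fun u hu h => h6 u hu (hc.trans h)⟩
  rw [or_comm, ← h5 u hu]
  exact ⟨fun h => hc.trans h, fun h => (hc.symm hs).trans h⟩

lemma Pair.conn {ok : ℤ → B → Prop} {X Y : Finset ℤ} {y t : ℤ} (h : G.Pair ok X Y y t) :
    G.Conn ok y t := (h.2.2.2.2.1 t h.2.1).2 (Or.inr rfl)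

lemma Pair.unique {ok : ℤ → B → Prop} {X Y : Finset ℤ} {y t t' : ℤ} (h : G.Pair ok X Y y t)
    (h' : G.Pair ok X Y y t') : t' = t :=
  ((h.2.2.2.2.1 t' h'.2.1).1 h'.conn).resolve_left h'.2.2.1

lemma mem_CC {ok : ℤ → B → Prop} {C : Finset ℤ} (h : C ∈ G.CC ok) :
    ∃ v ∈ G.I, G.CleanAt ok v ∧ C = G.cls ok v := by
  simp only [CC, Finset.mem_filter, Finset.mem_image] at h
  obtain ⟨v, ⟨h1, h2⟩, h3⟩ := h
  exact ⟨v, h1, h2, h3.symm⟩

lemma filter_card_mul {ok : ℤ → B → Prop} (hs : G.Sym ok) {Y : Finset ℤ} (hY : Y ⊆ G.I)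
    (P : Finset ℤ → Prop) [DecidablePred P] (k : ℕ) (hk : ∀ C, P C → (C ∩ Y).card = k)
    (T : Finset ℤ) (hT : ∀ u, u ∈ T ↔ u ∈ Y ∧ G.CleanAt ok u ∧ P (G.cls ok u)) :
    k * ((G.CC ok).filter P).card = T.card := by
  rw [← sum_cls hs hY P T hT, Finset.sum_congr rfl (fun C hC => hk C (Finset.mem_filter.1 hC).2),
    Finset.sum_const, smul_eq_mul, mul_comm]

variable [Fintype B]

/-- If there is one clean leaf there are many. -/
lemma count_a {M : ℕ} (hE : (G.edges (fun _ _ => True)).card ≤ 2 * G.I.card + 2 * M)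
    (hZ : G.Z.card ≤ M) {e : ℕ} (np : ¬ G.Pump e) {β : B} {j0 j1 : ℤ} (h0 : G.lo β ≤ j0)
    (h1 : j1 ≤ G.hi β)
    (hl : ∀ v ∈ G.I, G.CleanAt (G.okc β (Finset.Ico j0 j1)) v →
      ∃ u ∈ Finset.Ico j0 j1, G.Conn (G.okc β (Finset.Ico j0 j1)) v u)
    (T : Finset ℤ) (hT : ∀ u, u ∈ T ↔ G.CleanAt (G.okc β (Finset.Ico j0 j1)) u ∧
      G.Leaf (G.okc β (Finset.Ico j0 j1)) (Finset.Ico j0 j1)
        (Finset.Ico (j0 + G.d β) (j1 + G.d β)) u) :
    (Finset.Ico j0 j1).card ≤ 2 * T.card + 8 * M := by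
  have hX := Ico_sub_I h0 h1
  have hY := Ico_sub_I' h0 h1
  have hXY : (Finset.Ico (j0 + G.d β) (j1 + G.d β)).card = (Finset.Ico j0 j1).card := by simp
  have c1 := card_le_CC hE hZ (β := β) (X := Finset.Ico j0 j1)
    (fun s hs => by rw [Finset.mem_Ico] at hs; exact ⟨by omega, by omega⟩)
  have hs := sym_okc (G := G) β (Finset.Ico j0 j1)
  have n11 := fun v => no11 np h0 h1 (v := v)
  generalize G.okc β (Finset.Ico j0 j1) = ok at *
  generalize Finset.Ico (j0 + G.d β) (j1 + G.d β) = Y at *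
  generalize Finset.Ico j0 j1 = X at *
  have c2 := sum_cls_le hs hX
  have c3 := sum_cls_le hs hY
  have c4 := filter_card_mul hs hX (fun C => (C ∩ X).card = 1 ∧ (C ∩ Y).card = 0) 1
    (fun _ h => h.1) T (by
      intro u
      rw [hT]
      constructor
      · rintro ⟨h2, h3, h4, h5⟩
        exact ⟨h3, h2, (inter_card_one h3 (hX h3)).2 h4, (inter_card_zero (hX h3)).2 h5⟩
      · rintro ⟨h2, h3, h4, h5⟩
        exact ⟨h3, h2, (inter_card_one h2 (hX h2)).1 h4, (inter_card_zero (hX h2)).1 h5⟩)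
  have c5 := card_bound (G.CC ok) (fun C => 2 * (C ∩ X).card + (C ∩ Y).card)
    (fun C => (C ∩ X).card = 1 ∧ (C ∩ Y).card = 0) 4 2 (by
      intro C hC
      obtain ⟨v, hv, hc, rfl⟩ := mem_CC hC
      have a1 : (G.cls ok v ∩ X).card ≠ 0 := by
        rw [Ne, inter_card_zero hv]
        obtain ⟨u, h2, h3⟩ := hl v hv hc
        exact fun h => h u h2 h3
      have a2 : ¬ ((G.cls ok v ∩ X).card = 1 ∧ (G.cls ok v ∩ Y).card = 1) :=
        fun h => n11 v hv hc h.1 h.2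
      omega)
  rw [Finset.sum_add_distrib, ← Finset.mul_sum] at c5
  omega

/-- If every clean component has a left position, most left positions are alone. -/
lemma count_b {M : ℕ} (hE : (G.edges (fun _ _ => True)).card ≤ 2 * G.I.card + 2 * M)
    (hZ : G.Z.card ≤ M) {β : B} {X : Finset ℤ} (hX' : ∀ s ∈ X, G.dom β s)
    (hl : ∀ v ∈ G.I, G.CleanAt (G.okc β X) v → ∃ u ∈ X, G.Conn (G.okc β X) v u)
    (T : Finset ℤ) (hT : ∀ u, u ∈ T ↔ u ∈ X ∧ G.CleanAt (G.okc β X) u ∧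
      ∀ v ∈ X, G.Conn (G.okc β X) u v → v = u) :
    X.card ≤ T.card + 4 * M := by
  have hX : X ⊆ G.I := fun s hs => (hX' s hs).mem_I
  have c1 := card_le_CC hE hZ hX'
  have hs := sym_okc (G := G) β X
  generalize G.okc β X = ok at *
  have c2 := sum_cls_le hs hX
  have c4 := filter_card_mul hs hX (fun C => (C ∩ X).card = 1) 1
    (fun _ h => h) T (by
      intro u
      rw [hT]
      exact and_congr_right (fun h => and_congr_right (fun _ => (inter_card_one h (hX h)).symm)))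
  have c5 := card_bound (G.CC ok) (fun C => (C ∩ X).card) (fun C => (C ∩ X).card = 1) 2 1 (by
      intro C hC
      obtain ⟨v, hv, hc, rfl⟩ := mem_CC hC
      have a1 : (G.cls ok v ∩ X).card ≠ 0 := by
        rw [Ne, inter_card_zero hv]
        obtain ⟨u, h2, h3⟩ := hl v hv hc
        exact fun h => h u h2 h3
      omega)
  omega

/-- Without clean leaves most positions are paired on both sides. -/
lemma count_c {M : ℕ} (hE : (G.edges (fun _ _ => True)).card ≤ 2 * G.I.card + 2 * M)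
    (hZ : G.Z.card ≤ M) {e : ℕ} (np : ¬ G.Pump e) {β : B} {j0 j1 : ℤ} (h0 : G.lo β ≤ j0)
    (h1 : j1 ≤ G.hi β)
    (hl : ∀ u, G.CleanAt (G.okc β (Finset.Ico j0 j1)) u →
      ¬ G.Leaf (G.okc β (Finset.Ico j0 j1)) (Finset.Ico j0 j1)
        (Finset.Ico (j0 + G.d β) (j1 + G.d β)) u)
    (hr : ∀ u, G.CleanAt (G.okc β (Finset.Ico j0 j1)) u →
      ¬ G.Leaf (G.okc β (Finset.Ico j0 j1)) (Finset.Ico (j0 + G.d β) (j1 + G.d β))
        (Finset.Ico j0 j1) u)
    (T : Finset ℤ) (hT : ∀ y, y ∈ T ↔ (∃ t, G.Pair (G.okc β (Finset.Ico j0 j1)) (Finset.Ico j0 j1)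
        (Finset.Ico (j0 + G.d β) (j1 + G.d β)) y t) ∧
      ∃ t, G.Pair (G.okc β (Finset.Ico j0 j1)) (Finset.Ico (j0 + G.d β) (j1 + G.d β))
        (Finset.Ico j0 j1) (y + G.d β) t) :
    (Finset.Ico j0 j1).card ≤ T.card + 12 * M := by
  have hX := Ico_sub_I h0 h1
  have hY := Ico_sub_I' h0 h1
  have hXY : (Finset.Ico (j0 + G.d β) (j1 + G.d β)).card = (Finset.Ico j0 j1).card := by simp
  have hXY' : ∀ u ∈ Finset.Ico (j0 + G.d β) (j1 + G.d β), u - G.d β ∈ Finset.Ico j0 j1 := by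
    intro u hu; rw [Finset.mem_Ico] at *; omega
  have c1 := card_le_CC hE hZ (β := β) (X := Finset.Ico j0 j1)
    (fun s hs => by rw [Finset.mem_Ico] at hs; exact ⟨by omega, by omega⟩)
  have hs := sym_okc (G := G) β (Finset.Ico j0 j1)
  have n11 := fun v => no11 np h0 h1 (v := v)
  have n00 := fun v => no00 np (β := β) (j0 := j0) (j1 := j1) (v := v)
  generalize G.okc β (Finset.Ico j0 j1) = ok at *
  generalize Finset.Ico (j0 + G.d β) (j1 + G.d β) = Y at *
  generalize Finset.Ico j0 j1 = X at *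
  have c2 := sum_cls_le hs hX
  have c3 := sum_cls_le hs hY
  set TL := X.filter (fun u => G.CleanAt ok u ∧
    ((G.cls ok u ∩ X).card = 2 ∧ (G.cls ok u ∩ Y).card = 0)) with hTL
  set TR := Y.filter (fun u => G.CleanAt ok u ∧
    ((G.cls ok u ∩ Y).card = 2 ∧ (G.cls ok u ∩ X).card = 0)) with hTR
  have c4 := filter_card_mul hs hX (fun C => (C ∩ X).card = 2 ∧ (C ∩ Y).card = 0) 2
    (fun _ h => h.1) TL (fun u => by rw [hTL, Finset.mem_filter])
  have c4' := filter_card_mul hs hY (fun C => (C ∩ Y).card = 2 ∧ (C ∩ X).card = 0) 2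
    (fun _ h => h.1) TR (fun u => by rw [hTR, Finset.mem_filter])
  have one : ∀ (X Y : Finset ℤ), X ⊆ G.I → (∀ u, G.CleanAt ok u → ¬ G.Leaf ok X Y u) →
      ∀ v ∈ G.I, G.CleanAt ok v → (G.cls ok v ∩ X).card = 1 → (G.cls ok v ∩ Y).card = 0 →
        False := by
    intro X Y hX hl v hv hc h1 h2
    obtain ⟨u, hu⟩ := Finset.card_pos.1 (by omega : 0 < (G.cls ok v ∩ X).card)
    rw [Finset.mem_inter, mem_cls hv] at hu
    rw [cls_eq hs hu.1] at h1 h2
    exact hl u (hc.of_conn hu.1) ⟨hu.2, (inter_card_one hu.2 (hX hu.2)).1 h1,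
      (inter_card_zero (hX hu.2)).1 h2⟩
  have c5 := card_bound (G.CC ok) (fun C => (C ∩ X).card + (C ∩ Y).card)
    (fun C => ((C ∩ X).card = 2 ∧ (C ∩ Y).card = 0) ∨ ((C ∩ Y).card = 2 ∧ (C ∩ X).card = 0)) 3 1
    (by
      intro C hC
      obtain ⟨v, hv, hc, rfl⟩ := mem_CC hC
      have a1 : ¬ ((G.cls ok v ∩ X).card = 1 ∧ (G.cls ok v ∩ Y).card = 1) :=
        fun h => n11 v hv hc h.1 h.2
      have a2 : ¬ ((G.cls ok v ∩ X).card = 1 ∧ (G.cls ok v ∩ Y).card = 0) :=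
        fun h => one X Y hX hl v hv hc h.1 h.2
      have a3 : ¬ ((G.cls ok v ∩ Y).card = 1 ∧ (G.cls ok v ∩ X).card = 0) :=
        fun h => one Y X hY hr v hv hc h.1 h.2
      have a4 : ¬ ((G.cls ok v ∩ X).card = 0 ∧ (G.cls ok v ∩ Y).card = 0) := fun h =>
        n00 v hv hc ((inter_card_zero hv).1 h.1) ((inter_card_zero hv).1 h.2)
      omega)
  rw [Finset.sum_add_distrib, Finset.filter_or] at c5
  have c6 := Finset.card_union_le
    ((G.CC ok).filter (fun C => (C ∩ X).card = 2 ∧ (C ∩ Y).card = 0))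
    ((G.CC ok).filter (fun C => (C ∩ Y).card = 2 ∧ (C ∩ X).card = 0))
  have c7 : (TR.image (fun u => u - G.d β)).card = TR.card :=
    Finset.card_image_of_injective _ (fun a b h => by simpa using h)
  have c8 : (TL ∪ TR.image (fun u => u - G.d β)).card ≤ X.card := by
    refine Finset.card_le_card (Finset.union_subset (Finset.filter_subset _ _) ?_)
    intro u hu
    obtain ⟨v, hv, rfl⟩ := Finset.mem_image.1 hu
    exact hXY' v (Finset.mem_filter.1 hv).1
  have c9 : (TL ∩ TR.image (fun u => u - G.d β)).card ≤ T.card := by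
    refine Finset.card_le_card ?_
    intro u hu
    rw [Finset.mem_inter] at hu
    obtain ⟨v, hv, rfl⟩ := Finset.mem_image.1 hu.2
    have hu1 := hu.1
    rw [hTL, Finset.mem_filter] at hu1
    rw [hTR, Finset.mem_filter] at hv
    rw [hT, sub_add_cancel]
    exact ⟨exists_pair hu1.1 (hX hu1.1) hu1.2.1 hu1.2.2.1 hu1.2.2.2,
      exists_pair hv.1 (hY hv.1) hv.2.1 hv.2.2.1 hv.2.2.2⟩
  have c10 := Finset.card_union_add_card_inter TL (TR.image (fun u => u - G.d β))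
  omega

end Sys

end Pool.Agent.MP_fd2cd0_lc

end MrgPart3

-- ======== part 4: formerly Pool.Agent.MP_fd2cd0_lc.Shift
section MrgPart4

/-! The case in which no component is a leaf. -/

namespace Pool.Agent.MP_fd2cd0_lc

open Classical

lemma gap_sum {j0 j1 : ℤ} (h01 : j0 ≤ j1) {T : Finset ℤ} (hT : T ⊆ Finset.Ico j0 j1) (r : ℤ → ℤ)
    (hinj : Set.InjOn r T) (hr : ∀ y ∈ T, y < r y ∧ r y ∈ Finset.Ico j0 j1) (g x : ℕ)
    (hx : (Finset.Ico j0 j1).card ≤ T.card + x) :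
    (T.filter (fun y => (g : ℤ) < r y - y)).card * (g + 1) ≤ x * (Finset.Ico j0 j1).card := by
  have hR : T.image r ⊆ Finset.Ico j0 j1 := by
    intro z hz
    obtain ⟨y, hy, rfl⟩ := Finset.mem_image.1 hz
    exact (hr y hy).2
  have hc : (T.image r).card = T.card := Finset.card_image_of_injOn hinj
  have e1 := Finset.sum_sdiff (f := fun z : ℤ => z) hT
  have e2 := Finset.sum_sdiff (f := fun z : ℤ => z) hR
  have e3 : ∑ z ∈ T.image r, z = ∑ y ∈ T, r y := Finset.sum_image (fun a ha b hb h => hinj ha hb h)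
  have c1 := Finset.card_sdiff_add_card_eq_card hT
  have c2 := Finset.card_sdiff_add_card_eq_card hR
  have b1 : ∑ z ∈ Finset.Ico j0 j1 \ T, z ≤ ((Finset.Ico j0 j1 \ T).card : ℤ) * j1 := by
    rw [← nsmul_eq_mul]
    exact Finset.sum_le_card_nsmul _ _ _
      (fun z hz => (Finset.mem_Ico.1 (Finset.mem_sdiff.1 hz).1).2.le)
  have b2 : ((Finset.Ico j0 j1 \ T.image r).card : ℤ) * j0 ≤ ∑ z ∈ Finset.Ico j0 j1 \ T.image r, z := by
    rw [← nsmul_eq_mul]
    exact Finset.card_nsmul_le_sum _ _ _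
      (fun z hz => (Finset.mem_Ico.1 (Finset.mem_sdiff.1 hz).1).1)
  have b3 : ((T.filter (fun y => (g : ℤ) < r y - y)).card : ℤ) * (g + 1) ≤ ∑ y ∈ T, (r y - y) := by
    rw [← nsmul_eq_mul]
    refine le_trans (Finset.card_nsmul_le_sum _ (fun y => r y - y) _
      (fun z hz => by have := (Finset.mem_filter.1 hz).2; omega)) ?_
    exact Finset.sum_le_sum_of_subset_of_nonneg (Finset.filter_subset _ _)
      (fun y hy _ => by have := (hr y hy).1; omega)
  rw [Finset.sum_sub_distrib] at b3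
  have hn : ((Finset.Ico j0 j1).card : ℤ) = j1 - j0 := by simp; omega
  have c3 : (Finset.Ico j0 j1 \ T.image r).card = (Finset.Ico j0 j1 \ T).card := by omega
  have c4 : ((Finset.Ico j0 j1 \ T).card : ℤ) ≤ x := by omega
  rw [c3] at b2
  have : ((T.filter (fun y => (g : ℤ) < r y - y)).card : ℤ) * (g + 1) ≤
      x * (Finset.Ico j0 j1).card := by
    rw [hn]
    have := mul_le_mul_of_nonneg_right c4 (by omega : 0 ≤ j1 - j0)
    linarith
  exact_mod_cast this

namespace Sys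

variable {A B : Type*} {G : Sys A B}

lemma no_shift {β : B} {j0 j1 u δ : ℤ} (hu : u ∈ G.I) (hδ : 0 < δ)
    (hc : G.Conn (G.okc β (Finset.Ico j0 j1)) u (u + δ))
    (h : ∀ v, G.Conn (G.okc β (Finset.Ico j0 j1)) u v → (∀ γ, ¬ (v < G.lo γ ∧ G.lo γ ≤ v + δ)) ∧
      ¬ (v < j1 ∧ j1 ≤ v + δ) ∧ ¬ (v < j1 + G.d β ∧ j1 + G.d β ≤ v + δ)) : False := by
  have h1 : ∀ z, G.Conn (G.okc β (Finset.Ico j0 j1)) u z →
      G.Conn (G.okc β (Finset.Ico j0 j1)) u (z - δ) := by
    intro z hz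
    refine shift_conn ?_ (Conn.refl _ u) ((hc.symm (sym_okc _ _)).trans hz)
    intro v γ hv hd ho
    obtain ⟨a1, a2, a3⟩ := h v hv
    have a4 := a1 γ
    refine ⟨by unfold dom at *; omega, fun hcut => ho ?_⟩
    rcases hcut with ⟨b1, b2⟩ | ⟨b1, b2⟩
    · left
      rw [Finset.mem_Ico] at *
      exact ⟨b1, by omega⟩
    · right
      refine ⟨b1, ?_⟩
      rw [b1, G.d_bar, Finset.mem_Ico] at *
      omega
  have h2 : ∀ k : ℕ, G.Conn (G.okc β (Finset.Ico j0 j1)) u (u - k * δ) := by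
    intro k
    induction k with
    | zero => simpa using Conn.refl _ u
    | succ k ih =>
      have := h1 _ ih
      have e : u - k * δ - δ = u - ((k + 1 : ℕ) : ℤ) * δ := by push_cast; ring
      rwa [e] at this
  have h3 := mem_I.1 ((h2 ((u - G.a).toNat + 1)).mem_I hu)
  have h4 := mem_I.1 hu
  have h5 : (((u - G.a).toNat + 1 : ℕ) : ℤ) = u - G.a + 1 := by omega
  rw [h5] at h3
  nlinarith [h3.1]

lemma pair_opp {e : ℕ} (np : ¬ G.Pump e) {β : B} {j0 j1 : ℤ} (h0 : G.lo β ≤ j0)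
    (h1 : j1 ≤ G.hi β) {y t s : ℤ}
    (ht : G.Pair (G.okc β (Finset.Ico j0 j1)) (Finset.Ico j0 j1)
      (Finset.Ico (j0 + G.d β) (j1 + G.d β)) y t)
    (hs : G.Pair (G.okc β (Finset.Ico j0 j1)) (Finset.Ico (j0 + G.d β) (j1 + G.d β))
      (Finset.Ico j0 j1) (y + G.d β) (s + G.d β)) : (t < y ∧ y < s) ∨ (s < y ∧ y < t) := by
  by_contra hn
  have hct := ht.conn
  have hcs := hs.conn
  obtain ⟨t1, t2, t3, t4, t5, t6⟩ := ht
  obtain ⟨s1, s2, s3, s4, s5, s6⟩ := hs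
  have hL : ∀ u, j0 ≤ u → u < j1 → (u ∈ {z | G.Conn (G.okc β (Finset.Ico j0 j1)) y z} ∪
      {z | G.Conn (G.okc β (Finset.Ico j0 j1)) (y + G.d β) z} ↔ (u = y ∨ u = t)) := by
    intro u a1 a2
    have a3 : u ∈ Finset.Ico j0 j1 := Finset.mem_Ico.2 ⟨a1, a2⟩
    rw [← t5 u a3]
    exact ⟨fun h => h.resolve_right (s6 u a3), Or.inl⟩
  have hR : ∀ u, j0 ≤ u → u < j1 → (u + G.d β ∈ {z | G.Conn (G.okc β (Finset.Ico j0 j1)) y z} ∪
      {z | G.Conn (G.okc β (Finset.Ico j0 j1)) (y + G.d β) z} ↔ (u = y ∨ u = s)) := by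
    intro u a1 a2
    have a3 : u + G.d β ∈ Finset.Ico (j0 + G.d β) (j1 + G.d β) :=
      Finset.mem_Ico.2 ⟨by omega, by omega⟩
    have := s5 _ a3
    simp only [add_left_inj] at this
    rw [← this]
    exact ⟨fun h => h.resolve_left (t6 _ a3), Or.inr⟩
  have hyI := Ico_sub_I h0 h1 t1
  have hyI' := Ico_sub_I' h0 h1 s1
  rw [Finset.mem_Ico] at t1 t2 s1 s2
  refine np (pump1 e h0 h1 ((conn_closed _ y).union (conn_closed _ (y + G.d β)))
    ((t4.clean hyI).union (s4.clean hyI')) (x := t) (y := s) t2.1 t2.2 (by omega) (by omega)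
    (Or.inl hct) (Or.inr hcs) ?_ ?_)
  · intro u a1 a2
    rw [hL u a1 a2, hR u a1 a2]
    omega
  · intro u hu
    constructor
    · rintro ⟨a1, a2⟩
      have := (hL u (by omega) (by omega)).1 hu
      omega
    · rintro ⟨a1, a2⟩
      have := (hL u (by omega) (by omega)).1 hu
      omega

variable [Fintype B]

/-- A strip without clean leaves is short. -/
lemma short_of_no_leaf {M : ℕ} (hE : (G.edges (fun _ _ => True)).card ≤ 2 * G.I.card + 2 * M)
    (hZ : G.Z.card ≤ M) {e : ℕ} (np : ¬ G.Pump e) {β : B} {j0 j1 : ℤ} (h01 : j0 ≤ j1)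
    (h0 : G.lo β ≤ j0) (h1 : j1 ≤ G.hi β)
    (hl : ∀ u, G.CleanAt (G.okc β (Finset.Ico j0 j1)) u →
      ¬ G.Leaf (G.okc β (Finset.Ico j0 j1)) (Finset.Ico j0 j1)
        (Finset.Ico (j0 + G.d β) (j1 + G.d β)) u)
    (hr : ∀ u, G.CleanAt (G.okc β (Finset.Ico j0 j1)) u →
      ¬ G.Leaf (G.okc β (Finset.Ico j0 j1)) (Finset.Ico (j0 + G.d β) (j1 + G.d β))
        (Finset.Ico j0 j1) u) :
    (Finset.Ico j0 j1).card ≤ (48 * Fintype.card B + 120) * (M + 1) := by
  have hs := sym_okc (G := G) β (Finset.Ico j0 j1)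
  have opp := fun y t s => pair_opp np h0 h1 (y := y) (t := t) (s := s)
  have nsh := fun u δ => no_shift (G := G) (β := β) (j0 := j0) (j1 := j1) (u := u) (δ := δ)
  have hX := Ico_sub_I h0 h1
  have hY := Ico_sub_I' h0 h1
  have hXY' : ∀ u, u + G.d β ∈ Finset.Ico (j0 + G.d β) (j1 + G.d β) ↔ u ∈ Finset.Ico j0 j1 := by
    intro u; rw [Finset.mem_Ico, Finset.mem_Ico]; omega
  have cc := count_c hE hZ np h0 h1 hl hr
  have gs := @gap_sum j0 j1 h01
  generalize G.okc β (Finset.Ico j0 j1) = ok at *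
  generalize Finset.Ico (j0 + G.d β) (j1 + G.d β) = Y at *
  generalize Finset.Ico j0 j1 = X at *
  set T := X.filter (fun y => (∃ t, G.Pair ok X Y y t) ∧ ∃ t, G.Pair ok Y X (y + G.d β) t) with hT
  have hT' : ∀ y, y ∈ T ↔ (∃ t, G.Pair ok X Y y t) ∧ ∃ t, G.Pair ok Y X (y + G.d β) t := by
    intro y
    rw [hT, Finset.mem_filter]
    exact ⟨fun h => h.2, fun h => ⟨h.1.choose_spec.1, h⟩⟩
  have c1 := cc T hT'
  have hex : ∀ y ∈ T, ∃ z, y < z ∧ (G.Pair ok X Y y z ∨ G.Pair ok Y X (y + G.d β) (z + G.d β)) := by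
    intro y hy
    obtain ⟨⟨t, ht⟩, ⟨s, hs⟩⟩ := (hT' y).1 hy
    rw [← sub_add_cancel s (G.d β)] at hs
    rcases opp y t _ ht hs with h | h
    · exact ⟨_, h.2, Or.inr hs⟩
    · exact ⟨_, h.2, Or.inl ht⟩
  choose! r hr1 hr2 using hex
  have hinj : Set.InjOn r T := by
    intro y hy y' hy' h
    have a1 := hr1 y hy
    have a2 := hr1 y' hy'
    rcases hr2 y hy with b1 | b1 <;> rcases hr2 y' hy' with b2 | b2
    · rw [← h] at b2
      exact (b2.symm hs).unique (b1.symm hs)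
    · rw [← h] at b2 a2
      have := opp _ _ _ (b1.symm hs) (b2.symm hs)
      omega
    · rw [← h] at b2 a2
      have := opp _ _ _ (b2.symm hs) (b1.symm hs)
      omega
    · rw [← h] at b2
      have := (b2.symm hs).unique (b1.symm hs)
      omega
  have hrX : ∀ y ∈ T, y < r y ∧ r y ∈ X := by
    intro y hy
    refine ⟨hr1 y hy, ?_⟩
    rcases hr2 y hy with b1 | b1
    · exact b1.2.1
    · exact (hXY' _).1 b1.2.1
  have c2 := gs (Finset.filter_subset _ _) r hinj hrX (24 * M + 1) (12 * M) c1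
  rw [← hT] at c2
  set P : Finset ℤ := insert j1 (insert (j1 + G.d β) (Finset.univ.image G.lo)) with hP
  have hPc : P.card ≤ Fintype.card B + 2 := by
    have a1 := Finset.card_insert_le j1 (insert (j1 + G.d β) (Finset.univ.image G.lo))
    have a2 := Finset.card_insert_le (j1 + G.d β) (Finset.univ.image G.lo)
    have a3 := Finset.card_image_le (s := Finset.univ) (f := G.lo)
    rw [Finset.card_univ] at a3
    rw [hP]
    omega
  set N : Finset ℤ := P.biUnion (fun p => Finset.Ico (p - (24 * M + 1 : ℕ)) p) with hN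
  have hNc : N.card ≤ (Fintype.card B + 2) * (24 * M + 1) := by
    refine (Finset.card_biUnion_le_card_mul _ _ (24 * M + 1) (fun p _ => by simp)).trans ?_
    exact Nat.mul_le_mul_right _ hPc
  have hnear : ∀ u δ : ℤ, u ∈ G.I → 0 < δ → δ ≤ (24 * M + 1 : ℕ) → G.Conn ok u (u + δ) →
      ∃ v ∈ N, G.Conn ok u v := by
    intro u δ hu hδ hδ' hc
    by_contra hn
    push Not at hn
    have key : ∀ v, G.Conn ok u v → ∀ p ∈ P, ¬ (v < p ∧ p ≤ v + δ) := by
      intro v hv p hp h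
      refine hn v (Finset.mem_biUnion.2 ⟨p, hp, Finset.mem_Ico.2 ⟨by omega, h.1⟩⟩) hv
    refine nsh u δ hu hδ hc (fun v hv => ⟨fun γ => key v hv _ ?_, key v hv _ ?_, key v hv _ ?_⟩) <;>
      simp [hP]
  have hex2 : ∀ y ∈ T.filter (fun y => ¬ (((24 * M + 1 : ℕ) : ℤ) < r y - y)), ∃ v ∈ N,
      (G.Pair ok X Y y (r y) ∧ G.Conn ok y v) ∨
        (G.Pair ok Y X (y + G.d β) (r y + G.d β) ∧ G.Conn ok (y + G.d β) v) := by
    intro y hy
    rw [Finset.mem_filter] at hy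
    have a1 := hr1 y hy.1
    rcases hr2 y hy.1 with b1 | b1
    · obtain ⟨v, h2, h3⟩ := hnear y (r y - y) (hX b1.1) (by omega) (by omega)
        (by simpa using b1.conn)
      exact ⟨v, h2, Or.inl ⟨b1, h3⟩⟩
    · obtain ⟨v, h2, h3⟩ := hnear (y + G.d β) (r y - y) (hY b1.1) (by omega) (by omega)
        (by
          have e : y + G.d β + (r y - y) = r y + G.d β := by ring
          rw [e]; exact b1.conn)
      exact ⟨v, h2, Or.inr ⟨b1, h3⟩⟩
  choose! v hv1 hv2 using hex2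
  have c3 : (T.filter (fun y => ¬ (((24 * M + 1 : ℕ) : ℤ) < r y - y))).card ≤ N.card := by
    refine Finset.card_le_card_of_injOn v (fun y hy => hv1 y hy) ?_
    intro y hy y' hy' h
    have a1 := hr1 y (Finset.mem_filter.1 hy).1
    have a2 := hr1 y' (Finset.mem_filter.1 hy').1
    rcases hv2 y hy with ⟨b1, b3⟩ | ⟨b1, b3⟩ <;> rcases hv2 y' hy' with ⟨b2, b4⟩ | ⟨b2, b4⟩ <;>
      rw [← h] at b4
    · have d1 := (b1.2.2.2.2.1 _ b2.1).1 (b3.trans (b4.symm hs))
      have d2 := (b2.2.2.2.2.1 _ b1.1).1 (b4.trans (b3.symm hs))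
      omega
    · exact absurd (b3.trans (b4.symm hs)) (b1.2.2.2.2.2 _ b2.1)
    · exact absurd (b3.trans (b4.symm hs)) (b1.2.2.2.2.2 _ b2.1)
    · have d1 := (b1.2.2.2.2.1 _ b2.1).1 (b3.trans (b4.symm hs))
      have d2 := (b2.2.2.2.2.1 _ b1.1).1 (b4.trans (b3.symm hs))
      omega
  have c4 := Finset.card_filter_add_card_filter_not (s := T)
    (fun y => ((24 * M + 1 : ℕ) : ℤ) < r y - y)
  have c5 : 2 * (T.filter (fun y => ((24 * M + 1 : ℕ) : ℤ) < r y - y)).card ≤ X.card := by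
    generalize (T.filter (fun y => ((24 * M + 1 : ℕ) : ℤ) < r y - y)).card = a at *
    by_contra h
    nlinarith
  nlinarith

end Sys

end Pool.Agent.MP_fd2cd0_lc

end MrgPart4

-- ======== part 5: formerly Pool.Agent.MP_fd2cd0_lc.Thick
section MrgPart5

/-! A strip of positions that are not leaves of the whole band is short. -/

namespace Pool.Agent.MP_fd2cd0_lc

open Classical

namespace Sys

variable {A B : Type*} {G : Sys A B}

lemma okc_mono {β : B} {X X' : Finset ℤ} (h : X ⊆ X') (s : ℤ) (γ : B) (ho : G.okc β X' s γ) :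
    G.okc β X s γ := fun hc => ho (hc.imp (fun a => ⟨a.1, h a.2⟩) (fun a => ⟨a.1, h a.2⟩))

lemma exists_child {e : ℕ} (np : ¬ G.Pump e) {β : B} {j0 j1 : ℤ} (h0 : G.lo β ≤ j0)
    (h1 : j1 ≤ G.hi β) {u : ℤ} (hu : u ∈ Finset.Ico j0 j1)
    (hc : G.CleanAt (G.okc β (Finset.Ico j0 j1)) u)
    (hone : ∀ v ∈ Finset.Ico j0 j1, G.Conn (G.okc β (Finset.Ico j0 j1)) u v → v = u)
    (hnl : ¬ G.Leaf (G.okc β (Finset.Ico j0 j1)) (Finset.Ico j0 j1)
      (Finset.Ico (j0 + G.d β) (j1 + G.d β)) u) :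
    ∃ y ∈ Finset.Ico j0 j1, G.Conn (G.okc β (Finset.Ico j0 j1)) u (y + G.d β) ∧
      ¬ (G.CleanAt (G.okc β (Finset.Ico j0 j1)) y ∧ G.Leaf (G.okc β (Finset.Ico j0 j1))
        (Finset.Ico j0 j1) (Finset.Ico (j0 + G.d β) (j1 + G.d β)) y) := by
  by_contra hn
  push Not at hn
  have hX := Ico_sub_I h0 h1
  have hXY' : ∀ u, u + G.d β ∈ Finset.Ico (j0 + G.d β) (j1 + G.d β) ↔ u ∈ Finset.Ico j0 j1 := by
    intro u; rw [Finset.mem_Ico, Finset.mem_Ico]; omega
  have p1 := fun S hc hcl x y => pump1 (G := G) e h0 h1 (S := S) hc hcl (x := x) (y := y)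
  have hXm : ∀ u, u ∈ Finset.Ico j0 j1 ↔ j0 ≤ u ∧ u < j1 := fun u => Finset.mem_Ico
  generalize G.okc β (Finset.Ico j0 j1) = ok at *
  generalize Finset.Ico (j0 + G.d β) (j1 + G.d β) = Y at *
  generalize Finset.Ico j0 j1 = X at *
  set Ch := X.filter (fun y => G.Conn ok u (y + G.d β)) with hCh
  have hne : Ch.Nonempty := by
    by_contra h
    refine hnl ⟨hu, hone, fun z hz hcz => h ⟨z - G.d β, ?_⟩⟩
    rw [hCh, Finset.mem_filter, ← hXY', sub_add_cancel]
    exact ⟨hz, hcz⟩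
  obtain ⟨y, hy, hmin⟩ := Finset.exists_min_image Ch (fun y => |y - u|) hne
  have hm : ∀ y, y ∈ Ch ↔ y ∈ X ∧ G.Conn ok u (y + G.d β) := fun y => Finset.mem_filter
  have hleaf : ∀ y ∈ Ch, G.CleanAt ok y ∧ G.Leaf ok X Y y :=
    fun y hy => hn y ((hm y).1 hy).1 ((hm y).1 hy).2
  have huCh : u ∉ Ch := fun h => hnl (hleaf u h).2
  set S : Set ℤ := {z | G.Conn ok u z ∨ ∃ y' ∈ Ch, y' ≠ y ∧ G.Conn ok y' z} with hS
  have hL : ∀ s ∈ X, s ∈ S ↔ (s = u ∨ (s ∈ Ch ∧ s ≠ y)) := by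
    intro s hs
    constructor
    · rintro (h | ⟨y', a1, a2, a3⟩)
      · exact Or.inl (hone s hs h)
      · have := (hleaf y' a1).2.2.1 s hs a3
        subst this
        exact Or.inr ⟨a1, a2⟩
    · rintro (rfl | ⟨a1, a2⟩)
      · exact Or.inl (Conn.refl _ _)
      · exact Or.inr ⟨s, a1, a2, Conn.refl _ _⟩
  have hR : ∀ s ∈ X, s + G.d β ∈ S ↔ s ∈ Ch := by
    intro s hs
    rw [hm]
    constructor
    · rintro (h | ⟨y', a1, _, a3⟩)
      · exact ⟨hs, h⟩
      · exact absurd a3 ((hleaf y' a1).2.2.2 _ ((hXY' s).2 hs))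
    · exact fun h => Or.inl h.2
  have hyX := ((hm y).1 hy).1
  have b1 := (hXm u).1 hu
  have b2 := (hXm y).1 hyX
  refine np (p1 S ?_ ?_ u y b1.1 b1.2 b2.1 b2.2 (Or.inl (Conn.refl _ _)) ((hR y hyX).2 hy) ?_ ?_)
  · rintro s (h | ⟨y', a1, a2, a3⟩) γ hd ho
    · exact Or.inl (h.step hd ho)
    · exact Or.inr ⟨y', a1, a2, a3.step hd ho⟩
  · rintro s (h | ⟨y', a1, _, a3⟩)
    · exact hc.clean (hX hu) s h
    · exact (hleaf y' a1).1.clean (hX ((hm y').1 a1).1) s a3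
  · intro s a1 a2
    have a3 := (hXm s).2 ⟨a1, a2⟩
    rw [hL s a3, hR s a3]
    constructor
    · rintro ⟨h | h, h'⟩
      · exact absurd h h'
      · exact h
    · exact fun h => ⟨Or.inr h, fun h' => huCh (h' ▸ h.1)⟩
  · intro s hs
    constructor
    · rintro ⟨a1, a2⟩
      rcases (hL s ((hXm s).2 ⟨by omega, by omega⟩)).1 hs with h | h
      · omega
      · have := hmin s h.1
        rw [abs_of_pos (by omega), abs_of_pos (by omega)] at this
        omega
    · rintro ⟨a1, a2⟩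
      rcases (hL s ((hXm s).2 ⟨by omega, by omega⟩)).1 hs with h | h
      · omega
      · have := hmin s h.1
        rw [abs_of_neg (by omega), abs_of_neg (by omega)] at this
        omega

variable [Fintype B]

lemma thick_leaf {M : ℕ} (hE : (G.edges (fun _ _ => True)).card ≤ 2 * G.I.card + 2 * M)
    (hZ : G.Z.card ≤ M) {e : ℕ} (np : ¬ G.Pump e) {β : B} {j0 j1 : ℤ}
    (h0 : G.lo β ≤ j0) (h1 : j1 ≤ G.hi β)
    (hth : ∀ s ∈ Finset.Ico j0 j1, ¬ G.Leaf (G.okc β (Finset.Ico (G.lo β) (G.hi β)))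
      (Finset.Ico (G.lo β) (G.hi β)) (Finset.Ico (G.lo β + G.d β) (G.hi β + G.d β)) s)
    {s0 : ℤ} (hs0 : G.Leaf (G.okc β (Finset.Ico j0 j1)) (Finset.Ico j0 j1)
      (Finset.Ico (j0 + G.d β) (j1 + G.d β)) s0)
    (hs0c : G.CleanAt (G.okc β (Finset.Ico j0 j1)) s0) :
    (Finset.Ico j0 j1).card ≤ (48 * Fintype.card B + 120) * (M + 1) := by
  have hJD : Finset.Ico j0 j1 ⊆ Finset.Ico (G.lo β) (G.hi β) := Finset.Ico_subset_Ico h0 h1
  have hl := fun v => leaf_forces np h0 h1 hs0 hs0c (v := v)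
  have ca := count_a hE hZ np h0 h1 hl
  have hDd : ∀ s, s ∈ Finset.Ico (G.lo β) (G.hi β) ↔ G.dom β s := fun s => Finset.mem_Ico
  have hXY : ∀ u, u + G.d β ∈ Finset.Ico (j0 + G.d β) (j1 + G.d β) ↔ u ∈ Finset.Ico j0 j1 := by
    intro u; rw [Finset.mem_Ico, Finset.mem_Ico]; omega
  have hDD : ∀ u, u + G.d β ∈ Finset.Ico (G.lo β + G.d β) (G.hi β + G.d β) ↔
      u ∈ Finset.Ico (G.lo β) (G.hi β) := by
    intro u; rw [Finset.mem_Ico, Finset.mem_Ico]; omega
  have lfL := fun s h1 h2 v => leaf_forces np (β := β) le_rfl le_rfl (s := s) h1 h2 (v := v)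
  have lfR := fun s h1 h2 v => leaf_forces np (β := G.bar β) (j0 := G.lo β + G.d β)
    (j1 := G.hi β + G.d β) (by rw [G.lo_bar]) (by rw [G.hi_bar]) (s := s) h1 h2 (v := v)
  rw [okc_bar, add_d_bar, add_d_bar] at lfR
  have sh := short_of_no_leaf hE hZ np (G.lo_le β) le_rfl le_rfl
  have ch := fun u => exists_child np (β := β) le_rfl le_rfl (u := u)
  generalize Finset.Ico (G.lo β + G.d β) (G.hi β + G.d β) = D' at *
  generalize Finset.Ico (G.lo β) (G.hi β) = D at *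
  generalize Finset.Ico (j0 + G.d β) (j1 + G.d β) = Y at *
  generalize Finset.Ico j0 j1 = X at *
  set T := X.filter (fun u => G.CleanAt (G.okc β X) u ∧ G.Leaf (G.okc β X) X Y u) with hT
  have hT' : ∀ u, u ∈ T ↔ G.CleanAt (G.okc β X) u ∧ G.Leaf (G.okc β X) X Y u := by
    intro u
    rw [hT, Finset.mem_filter]
    exact ⟨fun h => h.2, fun h => ⟨h.2.1, h⟩⟩
  have c1 := ca T hT'
  have hTX : T ⊆ X := Finset.filter_subset _ _
  set U : Set ℤ := {z | ∃ s ∈ T, G.Conn (G.okc β X) s z} with hU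
  have hsX := sym_okc (G := G) β X
  have hsD := sym_okc (G := G) β D
  have U3 : ∀ z ∈ U, ∀ z', G.Conn (G.okc β X) z z' → z' ∈ U := by
    rintro z ⟨s, a1, a2⟩ z' a3
    exact ⟨s, a1, a2.trans a3⟩
  have U1 : ∀ z ∈ U, G.CleanAt (G.okc β D) z := by
    rintro z ⟨s, a1, a2⟩ z' a3
    exact ((hT' s).1 a1).1 z' (a2.trans (a3.mono (okc_mono hJD)))
  have U2 : ∀ u ∈ D, u + G.d β ∈ U → u ∉ X ∧ u ∈ U := by
    intro u hu h
    have a0 : u ∉ X := by
      obtain ⟨s, a1, a2⟩ := h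
      exact fun hX => ((hT' s).1 a1).2.2.2 _ ((hXY u).2 hX) a2
    refine ⟨a0, U3 _ h _ (Conn.symm hsX ((Conn.refl _ u).step ((hDd u).1 hu) ?_))⟩
    rintro (⟨_, h⟩ | ⟨h, _⟩)
    · exact a0 h
    · exact G.bar_ne β h.symm
  have U4 : ∀ z ∈ U, z ∈ X → z ∈ T := by
    rintro z ⟨s, a1, a2⟩ hz
    rw [((hT' s).1 a1).2.2.1 z hz a2]
    exact a1
  suffices h : T.card ≤ 4 * M ∨ D.card ≤ (48 * Fintype.card B + 120) * (M + 1) by
    rcases h with h | h
    · nlinarith
    · exact (Finset.card_le_card hJD).trans h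
  by_cases hC : ∃ s, G.CleanAt (G.okc β D) s ∧ G.Leaf (G.okc β D) D D' s
  · left
    obtain ⟨s, hs1, hs2⟩ := hC
    set Gd := D.filter (fun u => G.CleanAt (G.okc β D) u ∧
      ∀ v ∈ D, G.Conn (G.okc β D) u v → v = u) with hGd
    have hGd' : ∀ u, u ∈ Gd ↔ u ∈ D ∧ G.CleanAt (G.okc β D) u ∧
      ∀ v ∈ D, G.Conn (G.okc β D) u v → v = u := fun u => Finset.mem_filter
    have c2 := count_b hE hZ (fun s hs => (hDd s).1 hs) (lfL s hs2 hs1) Gd hGd'
    have c3 : (D \ Gd).card + Gd.card = D.card :=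
      Finset.card_sdiff_add_card_eq_card (Finset.filter_subset _ _)
    set N := Gd.filter (fun u => u ∈ U ∧ ¬ G.Leaf (G.okc β D) D D' u) with hN
    have hN' : ∀ u, u ∈ N ↔ u ∈ Gd ∧ u ∈ U ∧ ¬ G.Leaf (G.okc β D) D D' u :=
      fun u => Finset.mem_filter
    have hex : ∀ u ∈ N, ∃ y ∈ (N \ X) ∪ ((D \ Gd) \ X), G.Conn (G.okc β D) u (y + G.d β) := by
      intro u hu
      obtain ⟨a1, a2, a3⟩ := (hN' u).1 hu
      obtain ⟨a4, a5, a6⟩ := (hGd' u).1 a1
      obtain ⟨y, b1, b2, b3⟩ := ch u a4 a5 a6 a3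
      obtain ⟨b4, b5⟩ := U2 y b1 (U3 u a2 _ (b2.mono (okc_mono hJD)))
      refine ⟨y, ?_, b2⟩
      simp only [Finset.mem_union, Finset.mem_sdiff]
      by_cases hy : y ∈ Gd
      · exact Or.inl ⟨(hN' y).2 ⟨hy, b5, fun h => b3 ⟨U1 y b5, h⟩⟩, b4⟩
      · exact Or.inr ⟨⟨b1, hy⟩, b4⟩
    choose! ψ hψ1 hψ2 using hex
    have c4 : N.card ≤ ((N \ X) ∪ ((D \ Gd) \ X)).card := by
      refine Finset.card_le_card_of_injOn ψ (fun u hu => hψ1 u hu) ?_
      intro u hu u' hu' h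
      have a1 := hψ2 u hu
      have a2 := hψ2 u' hu'
      rw [← h] at a2
      have a3 := (hGd' u).1 ((hN' u).1 hu).1
      have a4 := (hGd' u').1 ((hN' u').1 hu').1
      exact (a3.2.2 u' a4.1 (a1.trans (a2.symm hsD))).symm
    have c5 := Finset.card_union_le (N \ X) ((D \ Gd) \ X)
    have c6 : T.card ≤ ((N ∩ X) ∪ ((D \ Gd) ∩ X)).card := by
      refine Finset.card_le_card (fun u hu => ?_)
      simp only [Finset.mem_union, Finset.mem_sdiff, Finset.mem_inter]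
      by_cases hy : u ∈ Gd
      · exact Or.inl ⟨(hN' u).2 ⟨hy, ⟨u, hu, Conn.refl _ _⟩, hth u (hTX hu)⟩, hTX hu⟩
      · exact Or.inr ⟨⟨hJD (hTX hu), hy⟩, hTX hu⟩
    have c7 := Finset.card_union_le (N ∩ X) ((D \ Gd) ∩ X)
    have c8 := Finset.card_sdiff_add_card_inter N X
    have c9 := Finset.card_sdiff_add_card_inter (D \ Gd) X
    omega
  by_cases hA : ∃ s, G.CleanAt (G.okc β D) s ∧ G.Leaf (G.okc β D) D' D s
  · left
    obtain ⟨s, hs1, hs2⟩ := hA
    set X2 := X ∪ (D.filter (· ∈ U) \ X) with hX2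
    have hX2D : X2 ⊆ D :=
      Finset.union_subset hJD (Finset.sdiff_subset.trans (Finset.filter_subset _ _))
    have hout : ∀ v, v ∉ U → ∀ z, G.Conn (G.okc β X) v z → G.Conn (G.okc β X2) v z := by
      intro v hv z hz
      have : G.Closed (G.okc β X) {z | G.Conn (G.okc β X) v z ∧ G.Conn (G.okc β X2) v z} := by
        intro s hs γ hd ho
        have a1 := hs.1.step hd ho
        refine ⟨a1, hs.2.step hd ?_⟩
        rintro (⟨b1, b2⟩ | ⟨b1, b2⟩) <;> rcases Finset.mem_union.1 b2 with b3 | b3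
        · exact ho (Or.inl ⟨b1, b3⟩)
        · exact hv (U3 _ (Finset.mem_filter.1 (Finset.mem_sdiff.1 b3).1).2 _ (hs.1.symm hsX))
        · exact ho (Or.inr ⟨b1, b3⟩)
        · exact hv (U3 _ (Finset.mem_filter.1 (Finset.mem_sdiff.1 b3).1).2 _ (a1.symm hsX))
      exact (this.of_conn ⟨Conn.refl _ _, Conn.refl _ _⟩ hz).2
    have c2 := forest_cut hE hZ (β := β) (X := X2) (fun s hs => (hDd s).1 (hX2D hs))
      ((X \ T) ∪ D'.filter (· ∈ U)) (by
        intro v hv hc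
        by_cases hvU : v ∈ U
        · obtain ⟨u, a1, a2⟩ := lfR s hs2 hs1 v hv (U1 v hvU)
          exact ⟨u, Finset.mem_union_right _ (Finset.mem_filter.2
            ⟨a1, U3 v hvU u (a2.mono (okc_mono hJD))⟩), a2.mono (okc_mono hX2D)⟩
        · obtain ⟨u, a1, a2⟩ := hl v hv (fun z hz => hc z (hout v hvU z hz))
          exact ⟨u, Finset.mem_union_left _ (Finset.mem_sdiff.2
            ⟨a1, fun h => hvU ⟨u, h, a2.symm hsX⟩⟩), hout v hvU u a2⟩)
    have c3 : X2.card = X.card + (D.filter (· ∈ U) \ X).card :=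
      Finset.card_union_of_disjoint Finset.disjoint_sdiff
    have c4 := Finset.card_union_le (X \ T) (D'.filter (· ∈ U))
    have c5 := Finset.card_sdiff_add_card_eq_card hTX
    have c6 : (D'.filter (· ∈ U)).card ≤ (D.filter (· ∈ U) \ X).card := by
      refine Finset.card_le_card_of_injOn (fun u => u - G.d β) ?_ (fun a _ b _ h => by simpa using h)
      intro u hu
      rw [Finset.mem_coe, Finset.mem_filter] at hu
      have a1 : u - G.d β ∈ D := by rw [← hDD, sub_add_cancel]; exact hu.1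
      have a2 := U2 _ a1 (by rw [sub_add_cancel]; exact hu.2)
      rw [Finset.mem_coe, Finset.mem_sdiff, Finset.mem_filter]
      exact ⟨⟨a1, a2.2⟩, a2.1⟩
    omega
  · right
    exact sh (fun u h h' => hC ⟨u, h, h'⟩) (fun u h h' => hA ⟨u, h, h'⟩)

/-- A strip of thick positions is short. -/
lemma thick_short {M : ℕ} (hE : (G.edges (fun _ _ => True)).card ≤ 2 * G.I.card + 2 * M)
    (hZ : G.Z.card ≤ M) {e : ℕ} (np : ¬ G.Pump e) {β : B} {j0 j1 : ℤ} (h01 : j0 ≤ j1)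
    (h0 : G.lo β ≤ j0) (h1 : j1 ≤ G.hi β)
    (hth : ∀ s ∈ Finset.Ico j0 j1, ¬ G.Leaf (G.okc β (Finset.Ico (G.lo β) (G.hi β)))
      (Finset.Ico (G.lo β) (G.hi β)) (Finset.Ico (G.lo β + G.d β) (G.hi β + G.d β)) s)
    (hth' : ∀ s ∈ Finset.Ico j0 j1, ¬ G.Leaf (G.okc β (Finset.Ico (G.lo β) (G.hi β)))
      (Finset.Ico (G.lo β + G.d β) (G.hi β + G.d β)) (Finset.Ico (G.lo β) (G.hi β)) (s + G.d β)) :
    (Finset.Ico j0 j1).card ≤ (48 * Fintype.card B + 120) * (M + 1) := by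
  by_cases hL : ∃ s, G.CleanAt (G.okc β (Finset.Ico j0 j1)) s ∧ G.Leaf (G.okc β (Finset.Ico j0 j1))
      (Finset.Ico j0 j1) (Finset.Ico (j0 + G.d β) (j1 + G.d β)) s
  · obtain ⟨s, a1, a2⟩ := hL
    exact thick_leaf hE hZ np h0 h1 hth a2 a1
  by_cases hR : ∃ s, G.CleanAt (G.okc β (Finset.Ico j0 j1)) s ∧ G.Leaf (G.okc β (Finset.Ico j0 j1))
      (Finset.Ico (j0 + G.d β) (j1 + G.d β)) (Finset.Ico j0 j1) s
  · obtain ⟨s, a1, a2⟩ := hR
    have := thick_leaf hE hZ np (β := G.bar β) (j0 := j0 + G.d β) (j1 := j1 + G.d β)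
      (by rw [G.lo_bar]; omega) (by rw [G.hi_bar]; omega) (by
        intro s hs
        rw [G.lo_bar, G.hi_bar, okc_bar, add_d_bar, add_d_bar]
        have := hth' (s - G.d β) (by rw [Finset.mem_Ico] at *; omega)
        rwa [sub_add_cancel] at this) (s0 := s)
      (by rw [okc_bar, add_d_bar, add_d_bar]; exact a2) (by rw [okc_bar]; exact a1)
    simpa using this
  exact short_of_no_leaf hE hZ np h01 h0 h1 (fun u h h' => hL ⟨u, h, h'⟩)
    (fun u h h' => hR ⟨u, h, h'⟩)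

end Sys

end Pool.Agent.MP_fd2cd0_lc

end MrgPart5

-- marker of a merged file
example : 731051 + 388628 = 731051 + 388628 := rfl
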