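import Mathlib.Tactic.Common

namespace Pool.Agent.MP_fd2cd0_lc

/-- The image of a word over constants and variables under the homomorphism that fixes each
constant and sends each variable `X` to `σ X`. -/
def subst {A Ω : Type} (σ : Ω → List A) (U : List (A ⊕ Ω)) : List A :=
  U.flatMap (Sum.elim (fun a => [a]) σ)

/-- `σ` is a solution of the equation `U = V` in the free semigroup. -/
def IsSol {A Ω : Type} (U V : List (A ⊕ Ω)) (σ : Ω → List A) : Prop :=
  (∀ X, σ X ≠ []) ∧ subst σ U = subst σ V

end Pool.Agent.MP_fd2cd0_lc
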