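import Mathlib.Data.List.GetD
import Mathlib.Order.Interval.Finset.Box
import Mathlib.Data.Set.Finite.List
import Pool.Agent.MP_fd2cd0_lc.Thick
import Pool.Agent.MP_fd2cd0_lc.Defs

-- ======== part 0: formerly Pool.Agent.MP_fd2cd0_lc.FT
section MrgPart0

/-! The finite theorem: a long band system of average weight about two can be pumped. -/

namespace Pool.Agent.MP_fd2cd0_lc

open Classical

lemma runs_card (T St : Finset ℤ) (n : ℕ) (hSt : ∀ s ∈ T, s - 1 ∉ T → s ∈ St)
    (h : ∀ j0 j1 : ℤ, j0 ≤ j1 → Finset.Ico j0 j1 ⊆ T → (Finset.Ico j0 j1).card ≤ n) :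
    T.card ≤ St.card * n := by
  have key : ∀ k : ℕ, ∀ s ∈ T, (∃ a ∈ St, a ≤ s ∧ s < a + k) ∨ Finset.Ico (s - k) (s + 1) ⊆ T := by
    intro k
    induction k with
    | zero =>
      intro s hs
      right
      intro z hz
      rw [Finset.mem_Ico] at hz
      have : z = s := by omega
      rwa [this]
    | succ k ih =>
      intro s hs
      rcases ih s hs with ⟨a, h1, h2, h3⟩ | h1
      · exact Or.inl ⟨a, h1, h2, by omega⟩
      by_cases h2 : s - k - 1 ∈ T
      · right
        intro z hz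
        rw [Finset.mem_Ico] at hz
        by_cases h3 : z = s - k - 1
        · rwa [h3]
        · exact h1 (Finset.mem_Ico.2 ⟨by omega, hz.2⟩)
      · exact Or.inl ⟨s - k, hSt _ (h1 (Finset.mem_Ico.2 ⟨le_rfl, by omega⟩)) h2, by omega, by omega⟩
  refine le_trans (Finset.card_le_card (t := St.biUnion (fun a => Finset.Ico a (a + n))) ?_) ?_
  · intro s hs
    rcases key n s hs with ⟨a, h1, h2, h3⟩ | h1
    · exact Finset.mem_biUnion.2 ⟨a, h1, Finset.mem_Ico.2 ⟨h2, h3⟩⟩
    · have := h _ _ (by omega) h1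
      simp at this
  · exact Finset.card_biUnion_le_card_mul _ _ _ (fun a _ => by simp)

/-- The constant of the finite theorem. -/
def Cft (K : ℕ) : ℕ := (1 + K) ^ (K + 1) * (1 + K + K * (1 + 4 * K) * (48 * K + 120))

lemma Cft_mono {K K' : ℕ} (h : K ≤ K') : Cft K ≤ Cft K' := by
  unfold Cft
  gcongr
  omega

namespace Sys

variable {A B : Type*} (G : Sys A B)

noncomputable def D (β : B) : Finset ℤ := Finset.Ico (G.lo β) (G.hi β)

def okH (β : B) : ℤ → B → Prop := G.okc β (G.D β)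

def Lf (β : B) (s : ℤ) : Prop := G.Leaf (G.okH β) (G.D β) (G.D (G.bar β)) s

def CL (β : B) (s : ℤ) : Prop := G.Lf β s ∧ G.CleanAt (G.okH β) s

variable {G}

lemma mem_D {β : B} {s : ℤ} : s ∈ G.D β ↔ G.dom β s := Finset.mem_Ico

lemma D_bar (β : B) : G.D (G.bar β) = Finset.Ico (G.lo β + G.d β) (G.hi β + G.d β) := by
  unfold D; rw [G.lo_bar, G.hi_bar]

lemma okH_bar (β : B) : G.okH (G.bar β) = G.okH β := by
  unfold okH; rw [D_bar, okc_bar]; rfl

lemma sym_okH (β : B) : G.Sym (G.okH β) := sym_okc _ _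

lemma Lf.step {β γ : B} {s z : ℤ} (h : G.Lf β s) (hz : G.Conn (G.okH β) s z) (hd : G.dom γ z)
    (hne : ¬ (z = s ∧ γ = β)) : G.Conn (G.okH β) s (z + G.d γ) := by
  refine hz.step hd ?_
  rintro (⟨h1, h2⟩ | ⟨h1, _⟩)
  · exact hne ⟨h.2.1 z h2 hz, h1⟩
  · exact h.2.2 z (mem_D.2 (h1 ▸ hd)) hz

lemma union_pump {e : ℕ} (np : ¬ G.Pump e) {β γ : B} {s s' : ℤ} (h : G.CL β s) (h' : G.CL γ s')
    (h1 : G.Conn (G.okH γ) s' (s + G.d β)) (h2 : G.Conn (G.okH β) s (s' + G.d γ)) : False := by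
  refine np (pump0 e (S := {z | G.Conn (G.okH β) s z} ∪ {z | G.Conn (G.okH γ) s' z}) ?_
    ((h.2.clean (mem_D.1 h.1.1).mem_I).union (h'.2.clean (mem_D.1 h'.1.1).mem_I))
    (Or.inl (Conn.refl _ s)))
  rintro z (hz | hz) η hd _
  · by_cases hh : z = s ∧ η = β
    · rw [hh.1, hh.2]; exact Or.inr h1
    · exact Or.inl (h.1.step hz hd hh)
  · by_cases hh : z = s' ∧ η = γ
    · rw [hh.1, hh.2]; exact Or.inl h2
    · exact Or.inr (h'.1.step hz hd hh)

lemma CL.uniq {e : ℕ} (np : ¬ G.Pump e) {β γ : B} {s : ℤ} (h : G.CL β s) (h' : G.CL γ s) :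
    β = γ := by
  by_contra hne
  exact union_pump np h h' (h'.1.step (Conn.refl _ _) (mem_D.1 h.1.1) (fun a => hne a.2))
    (h.1.step (Conn.refl _ _) (mem_D.1 h'.1.1) (fun a => hne a.2.symm))

lemma Lf.succ {β : B} {s : ℤ} (h : G.Lf β s)
    (hp : ∀ v, G.Conn (G.okH β) s v → ∀ γ, v + 1 ≠ G.lo γ ∧ v + 1 ≠ G.hi γ) : G.Lf β (s + 1) := by
  have hd : ∀ v, G.Conn (G.okH β) s v → ∀ γ, G.dom γ (v + 1) ↔ G.dom γ v := by
    intro v hv γ
    have := hp v hv γ
    unfold dom
    omega
  have h1 : ∀ z, G.Conn (G.okH β) (s + 1) z → G.Conn (G.okH β) s (z - 1) := by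
    intro z hz
    refine shift_conn ?_ (Conn.refl _ s) hz
    intro v γ hv h2 h3
    refine ⟨(hd v hv γ).1 h2, fun hc => h3 ?_⟩
    rcases hc with ⟨a1, _⟩ | ⟨a1, _⟩
    · exact Or.inl ⟨a1, mem_D.2 (a1 ▸ h2)⟩
    · refine Or.inr ⟨a1, mem_D.2 ?_⟩
      have := dom_bar.2 h2
      rwa [a1, G.bar_bar, ← a1] at this
  refine ⟨mem_D.2 ((hd s (Conn.refl _ _) β).2 (mem_D.1 h.1)), fun u hu hc => ?_, fun u hu hc => ?_⟩
  · have a1 := h1 u hc
    have := h.2.1 _ (mem_D.2 ((hd _ a1 β).1 (by simpa using mem_D.1 hu))) a1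
    omega
  · have a1 := h1 u hc
    exact h.2.2 _ (mem_D.2 ((hd _ a1 _).1 (by simpa using mem_D.1 hu))) a1

lemma card_Lf_le {β : B} {T R : Finset ℤ} (h : ∀ s ∈ T, G.Lf β s ∧ ∃ z ∈ R, G.Conn (G.okH β) s z) :
    T.card ≤ R.card := by
  have hex : ∀ s ∈ T, ∃ z ∈ R, G.Conn (G.okH β) s z := fun s hs => (h s hs).2
  choose! f h1 h2 using hex
  refine Finset.card_le_card_of_injOn f (fun s hs => h1 s hs) ?_
  intro s hs s' hs' he
  have a1 := h2 s' hs'
  rw [← he] at a1
  exact ((h s hs).1.2.1 s' (h s' hs').1.1 ((h2 s hs).trans (a1.symm (sym_okH β)))).symm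

variable [Fintype B]

lemma trans_card (β : B) :
    ((G.D β).filter (fun s => G.Lf β s ∧ ¬ G.Lf β (s + 1))).card ≤ 2 * Fintype.card B := by
  refine (card_Lf_le (G := G) (β := β) (R := Finset.univ.image (fun γ => G.lo γ - 1) ∪
    Finset.univ.image (fun γ => G.hi γ - 1)) ?_).trans ?_
  · intro s hs
    rw [Finset.mem_filter] at hs
    refine ⟨hs.2.1, ?_⟩
    by_contra hn
    push Not at hn
    refine hs.2.2 (hs.2.1.succ (fun v hv γ => ⟨fun h => hn v ?_ hv, fun h => hn v ?_ hv⟩))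
    · exact Finset.mem_union_left _ (Finset.mem_image.2 ⟨γ, Finset.mem_univ _, by omega⟩)
    · exact Finset.mem_union_right _ (Finset.mem_image.2 ⟨γ, Finset.mem_univ _, by omega⟩)
  · refine (Finset.card_union_le _ _).trans ?_
    have a1 := Finset.card_image_le (s := Finset.univ) (f := fun γ => G.lo γ - 1)
    have a2 := Finset.card_image_le (s := Finset.univ) (f := fun γ => G.hi γ - 1)
    rw [Finset.card_univ] at a1 a2
    omega

lemma thick_card {M : ℕ} (hE : (G.edges (fun _ _ => True)).card ≤ 2 * G.I.card + 2 * M)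
    (hZ : G.Z.card ≤ M) {e : ℕ} (np : ¬ G.Pump e) (β : B) :
    ((G.D β).filter (fun s => ¬ G.Lf β s ∧ ¬ G.Lf (G.bar β) (s + G.d β))).card ≤
      (1 + 4 * Fintype.card B) * ((48 * Fintype.card B + 120) * (M + 1)) := by
  set St : Finset ℤ := insert (G.lo β)
    ((((G.D β).filter (fun s => G.Lf β s ∧ ¬ G.Lf β (s + 1))).image (fun s => s + 1)) ∪
      (((G.D (G.bar β)).filter (fun s => G.Lf (G.bar β) s ∧ ¬ G.Lf (G.bar β) (s + 1))).image
        (fun s => s + 1 - G.d β))) with hSt
  have hc : St.card ≤ 1 + 4 * Fintype.card B := by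
    refine (Finset.card_insert_le _ _).trans ?_
    have a1 := trans_card (G := G) β
    have a2 := trans_card (G := G) (G.bar β)
    have a3 := (Finset.card_union_le _ _).trans (Nat.add_le_add
      ((Finset.card_image_le (f := fun s => s + 1)).trans a1)
      ((Finset.card_image_le (f := fun s => s + 1 - G.d β)).trans a2))
    omega
  refine (runs_card _ St _ ?_ ?_).trans (Nat.mul_le_mul_right _ hc)
  · intro s hs hs'
    rw [Finset.mem_filter] at hs hs'
    rw [hSt, Finset.mem_insert, Finset.mem_union]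
    by_cases h1 : s = G.lo β
    · exact Or.inl h1
    right
    have h2 : s - 1 ∈ G.D β := by
      have := hs.1
      unfold D at *
      rw [Finset.mem_Ico] at *
      omega
    by_cases h3 : G.Lf β (s - 1)
    · left
      exact Finset.mem_image.2 ⟨s - 1, Finset.mem_filter.2 ⟨h2, h3, by simpa using hs.2.1⟩, by ring⟩
    · right
      have h4 : G.Lf (G.bar β) (s - 1 + G.d β) := by
        by_contra h
        exact hs' ⟨h2, h3, h⟩
      have e : s - 1 + G.d β + 1 = s + G.d β := by ring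
      exact Finset.mem_image.2 ⟨s - 1 + G.d β, Finset.mem_filter.2
        ⟨h4.1, h4, by rw [e]; exact hs.2.2⟩, by ring⟩
  · intro j0 j1 h01 hsub
    rcases h01.lt_or_eq with h01' | rfl
    swap
    · simp
    have a1 := mem_D.1 (Finset.mem_filter.1 (hsub (Finset.mem_Ico.2 ⟨le_rfl, h01'⟩))).1
    have a2 := mem_D.1 (Finset.mem_filter.1
      (hsub (Finset.mem_Ico.2 ⟨by omega, by omega⟩ : j1 - 1 ∈ Finset.Ico j0 j1))).1
    refine thick_short hE hZ np (β := β) h01 a1.1 (by have := a2.2; omega) ?_ ?_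
    · intro s hs
      have := (Finset.mem_filter.1 (hsub hs)).2.1
      unfold Lf at this
      rwa [D_bar] at this
    · intro s hs
      have := (Finset.mem_filter.1 (hsub hs)).2.2
      unfold Lf at this
      rwa [okH_bar, D_bar, G.bar_bar] at this

lemma depth_step {e : ℕ} (np : ¬ G.Pump e) {β β' : B} {v : ℤ} (h : G.CL β v)
    (h' : G.CL β' (v + G.d β)) :
    (Finset.univ.filter (fun γ => ∃ u, G.Conn (G.okH β) v u ∧ G.dom γ u)).card <
      (Finset.univ.filter (fun γ => ∃ u, G.Conn (G.okH β') (v + G.d β) u ∧ G.dom γ u)).card := by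
  have hd : G.dom (G.bar β) (v + G.d β) := dom_bar.2 (mem_D.1 h.1.1)
  have hne : G.bar β ≠ β' := by
    intro he
    subst he
    exact union_pump np h h' (Conn.refl _ _) (by rw [add_d_bar]; exact Conn.refl _ _)
  have hv : G.Conn (G.okH β') (v + G.d β) v := by
    have := h'.1.step (Conn.refl _ _) hd (fun a => hne a.2)
    rwa [add_d_bar] at this
  have hsub : ∀ u, G.Conn (G.okH β) v u → G.Conn (G.okH β') (v + G.d β) u := by
    intro u hu
    have : G.Closed (G.okH β) {z | G.Conn (G.okH β) v z ∧ G.Conn (G.okH β') (v + G.d β) z} := by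
      intro z hz γ h1 h2
      refine ⟨hz.1.step h1 h2, h'.1.step hz.2 h1 (fun a => ?_)⟩
      exact h.1.2.2 z (mem_D.2 (a.1 ▸ hd)) hz.1
    exact (this.of_conn ⟨Conn.refl _ _, hv⟩ hu).2
  refine Finset.card_lt_card ⟨fun γ hγ => ?_, fun hs => ?_⟩
  · simp only [Finset.mem_filter, Finset.mem_univ, true_and] at *
    obtain ⟨u, a1, a2⟩ := hγ
    exact ⟨u, hsub u a1, a2⟩
  · have := hs (Finset.mem_filter.2 ⟨Finset.mem_univ (G.bar β), _, Conn.refl _ _, hd⟩)
    obtain ⟨u, a1, a2⟩ := (Finset.mem_filter.1 this).2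
    exact h.1.2.2 u (mem_D.2 a2) a1

lemma depth_card {e : ℕ} (np : ¬ G.Pump e) :
    G.I.card ≤ (1 + Fintype.card B) ^ (Fintype.card B + 1) *
      (G.I \ G.I.filter (fun v => ∃ β, G.CL β v)).card := by
  set U0 := G.I \ G.I.filter (fun v => ∃ β, G.CL β v) with hU0
  have key : ∀ i : ℕ, ∃ U : Finset ℤ, U.card ≤ (1 + Fintype.card B) ^ i * U0.card ∧ U0 ⊆ U ∧
      ∀ v β, G.CL β v → Fintype.card B <
        (Finset.univ.filter (fun γ => ∃ u, G.Conn (G.okH β) v u ∧ G.dom γ u)).card + i → v ∈ U := by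
    intro i
    induction i with
    | zero =>
      refine ⟨U0, by simp, le_rfl, fun v β _ h => ?_⟩
      have := Finset.card_le_univ
        (Finset.univ.filter (fun γ => ∃ u, G.Conn (G.okH β) v u ∧ G.dom γ u))
      omega
    | succ i ih =>
      obtain ⟨U, h1, h2, h3⟩ := ih
      refine ⟨U ∪ Finset.univ.biUnion (fun β => U.image (fun s => s - G.d β)), ?_,
        h2.trans Finset.subset_union_left, fun v β h4 h5 => ?_⟩
      · refine (Finset.card_union_le _ _).trans ?_
        have := Finset.card_biUnion_le_card_mul Finset.univ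
          (fun β => U.image (fun s => s - G.d β)) U.card (fun _ _ => Finset.card_image_le)
        rw [Finset.card_univ] at this
        rw [pow_succ]
        nlinarith
      · refine Finset.mem_union_right _ (Finset.mem_biUnion.2 ⟨β, Finset.mem_univ _,
          Finset.mem_image.2 ⟨v + G.d β, ?_, by ring⟩⟩)
        by_cases h6 : ∃ β', G.CL β' (v + G.d β)
        · obtain ⟨β', h6⟩ := h6
          have := depth_step np h4 h6
          exact h3 _ β' h6 (by omega)
        · refine h2 (Finset.mem_sdiff.2 ⟨(dom_bar.2 (mem_D.1 h4.1.1)).mem_I, fun h => h6 ?_⟩)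
          exact (Finset.mem_filter.1 h).2
  obtain ⟨U, h1, h2, h3⟩ := key (Fintype.card B + 1)
  refine le_trans (Finset.card_le_card (fun v hv => ?_)) h1
  by_cases h : ∃ β, G.CL β v
  · obtain ⟨β, h⟩ := h
    exact h3 v β h (by omega)
  · exact h2 (Finset.mem_sdiff.2 ⟨hv, fun h' => h (Finset.mem_filter.1 h').2⟩)

/-- The finite theorem. -/
theorem finite_thm {M : ℕ} (hE : (G.edges (fun _ _ => True)).card ≤ 2 * G.I.card + 2 * M)
    (hZ : G.Z.card ≤ M) {e : ℕ} (np : ¬ G.Pump e) :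
    G.I.card ≤ Cft (Fintype.card B) * (M + 1) := by
  have c1 := forest (G := G) (ok := fun _ _ => True) (fun _ _ _ => trivial) G.Z (by
    intro v hv
    by_contra hn
    push Not at hn
    exact np (pump0 e (conn_closed _ v) (CleanAt.clean (fun z h1 h2 => hn z h2 h1) hv)
      (Conn.refl _ v)))
  have c2 := depth_card np
  set O := G.I.filter (fun v => ∃ β, G.CL β v) with hO
  have c3 : (G.I \ O).card + O.card = G.I.card :=
    Finset.card_sdiff_add_card_eq_card (Finset.filter_subset _ _)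
  have c4 : ∑ β, ((G.D β).filter (G.CL β)).card ≤ O.card := by
    rw [← Finset.card_biUnion]
    · refine Finset.card_le_card (fun v hv => ?_)
      obtain ⟨β, _, h⟩ := Finset.mem_biUnion.1 hv
      rw [Finset.mem_filter] at h
      exact Finset.mem_filter.2 ⟨(mem_D.1 h.1).mem_I, β, h.2⟩
    · intro β _ γ _ hne
      exact Finset.disjoint_left.2 (fun v h1 h2 =>
        hne (CL.uniq np (Finset.mem_filter.1 h1).2 (Finset.mem_filter.1 h2).2))
  have c5 : ∀ β, ((G.D β).filter (G.Lf β)).card ≤ ((G.D β).filter (G.CL β)).card + M := by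
    intro β
    have a1 : (((G.D β).filter (G.Lf β)) \ ((G.D β).filter (G.CL β))).card ≤ G.Z.card := by
      refine card_Lf_le (G := G) (β := β) (fun s hs => ?_)
      simp only [Finset.mem_sdiff, Finset.mem_filter] at hs
      refine ⟨hs.1.2, ?_⟩
      by_contra hn
      push Not at hn
      exact hs.2 ⟨hs.1.1, hs.1.2, fun z h1 h2 => hn z h2 h1⟩
    have a2 := Finset.le_card_sdiff ((G.D β).filter (G.CL β)) ((G.D β).filter (G.Lf β))
    omega
  have c6 : ∀ β, (G.D β).card ≤ ((G.D β).filter (G.Lf β)).card +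
      ((G.D (G.bar β)).filter (G.Lf (G.bar β))).card +
      (1 + 4 * Fintype.card B) * ((48 * Fintype.card B + 120) * (M + 1)) := by
    intro β
    have a1 := thick_card hE hZ np β
    refine le_trans (Finset.card_le_card (t := (G.D β).filter (G.Lf β) ∪
      ((G.D (G.bar β)).filter (G.Lf (G.bar β))).image (fun s => s - G.d β) ∪
      (G.D β).filter (fun s => ¬ G.Lf β s ∧ ¬ G.Lf (G.bar β) (s + G.d β))) ?_) ?_
    · intro s hs
      simp only [Finset.mem_union, Finset.mem_filter]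
      by_cases h1 : G.Lf β s
      · exact Or.inl (Or.inl ⟨hs, h1⟩)
      by_cases h2 : G.Lf (G.bar β) (s + G.d β)
      · exact Or.inl (Or.inr (Finset.mem_image.2 ⟨_, Finset.mem_filter.2 ⟨h2.1, h2⟩, by ring⟩))
      · exact Or.inr ⟨hs, h1, h2⟩
    · refine (Finset.card_union_le _ _).trans (Nat.add_le_add ?_ a1)
      exact (Finset.card_union_le _ _).trans (Nat.add_le_add_left Finset.card_image_le _)
  have c7 : ∑ β, ((G.D (G.bar β)).filter (G.Lf (G.bar β))).card =
      ∑ β, ((G.D β).filter (G.Lf β)).card :=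
    Equiv.sum_comp (Function.Involutive.toPerm G.bar G.bar_bar)
      (fun β => ((G.D β).filter (G.Lf β)).card)
  have c8 := Finset.sum_le_sum (s := Finset.univ) (fun β _ => c6 β)
  have c9 := Finset.sum_le_sum (s := Finset.univ) (fun β _ => c5 β)
  rw [Finset.sum_add_distrib, Finset.sum_add_distrib, c7, Finset.sum_const, Finset.card_univ,
    smul_eq_mul] at c8
  rw [Finset.sum_add_distrib, Finset.sum_const, Finset.card_univ, smul_eq_mul] at c9
  have c10 : (G.edges (fun _ _ => True)).card = ∑ β, (G.D β).card := card_edges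
  refine c2.trans ?_
  unfold Cft
  rw [mul_assoc]
  refine Nat.mul_le_mul_left _ ?_
  have e1 : (1 + Fintype.card B + Fintype.card B * (1 + 4 * Fintype.card B) *
      (48 * Fintype.card B + 120)) * (M + 1) = M + 1 + Fintype.card B * M + Fintype.card B +
      Fintype.card B * ((1 + 4 * Fintype.card B) * ((48 * Fintype.card B + 120) * (M + 1))) := by
    ring
  omega

end Sys

end Pool.Agent.MP_fd2cd0_lc

end MrgPart0

-- ======== part 1: formerly Pool.Agent.MP_fd2cd0_lc.Wrap
section MrgPart1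

/-! States of the rewriting process and the closed case. -/

namespace Pool.Agent.MP_fd2cd0_lc

open Classical

/-- A state: left end `t`, start `p b` and width `w b` of each base `b`. -/
structure St (B : Type*) where
  t : ℤ
  p : B → ℤ
  w : B → ℤ

variable {A B : Type*}

def St.dd (bar : B → B) (S : St B) (b : B) : ℤ := S.p (bar b) - S.p b

def St.act (bar : B → B) (S : St B) (b : B) : Prop := 0 < S.w b ∧ S.p (bar b) ≠ S.p b

structure Inv (W : ℤ → A) (L : ℤ) (bar : B → B) (S : St B) : Prop where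
  w_bar : ∀ b, S.w (bar b) = S.w b
  t_le : ∀ b, S.act bar b → S.t ≤ S.p b
  le_L : ∀ b, S.act bar b → S.p b + S.w b ≤ L
  hW : ∀ b s, S.p b ≤ s → s < S.p b + S.w b → W s = W (s + S.dd bar b)
  t_nonneg : 0 ≤ S.t

/-- Every set of at most `q` cut points admits an aligned insertion of an `e`-th power. -/
def Pq (W : ℤ → A) (L : ℤ) (bar : B → B) (e : ℕ) (S : St B) (q : ℕ) : Prop :=
  ∀ Q : Finset ℤ, Q.card ≤ q → ∃ ω : ℤ → List A, (∀ s, ω s ≠ [] → S.t ≤ s ∧ s < L ∧ s ∉ Q) ∧
    (∀ b x y, x ∈ Q → y ∈ Q → S.p b ≤ x → x ≤ y → y ≤ S.p b + S.w b →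
      ph W ω x y = ph W ω (x + S.dd bar b) (y + S.dd bar b)) ∧
    ∃ s u, u ≠ [] ∧ pw u e <:+: ω s

lemma Inv.act_bar {W : ℤ → A} {L : ℤ} {bar : B → B} (hb : ∀ b, bar (bar b) = b) {S : St B}
    (hI : Inv W L bar S) {b : B} (h : S.act bar b) : S.act bar (bar b) :=
  ⟨by rw [hI.w_bar]; exact h.1, by rw [hb]; exact h.2.symm⟩

lemma valid_of_not_act {W : ℤ → A} {bar : B → B} {S : St B} {b : B} (h : ¬ S.act bar b)
    (ω : ℤ → List A) {x y : ℤ} (h1 : S.p b ≤ x) (h2 : y ≤ S.p b + S.w b) :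
    ph W ω x y = ph W ω (x + S.dd bar b) (y + S.dd bar b) := by
  by_cases h3 : 0 < S.w b
  · have : S.dd bar b = 0 := by
      unfold St.dd
      by_contra h4
      exact h ⟨h3, fun h5 => h4 (by omega)⟩
    simp [this]
  · rw [ph_nil _ _ (by omega), ph_nil _ _ (by omega)]

/-- The next cut point after `c`. -/
noncomputable def nx (O : Finset ℤ) (m c : ℤ) : ℤ :=
  (insert m (O.filter (c < ·))).min' (Finset.insert_nonempty _ _)

lemma nx_le (O : Finset ℤ) (m c : ℤ) : nx O m c ≤ m :=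
  Finset.min'_le _ _ (Finset.mem_insert_self _ _)

lemma nx_le' {O : Finset ℤ} (m : ℤ) {c c' : ℤ} (h : c' ∈ O) (h' : c < c') : nx O m c ≤ c' :=
  Finset.min'_le _ _ (Finset.mem_insert_of_mem (Finset.mem_filter.2 ⟨h, h'⟩))

lemma nx_mem (O : Finset ℤ) (m c : ℤ) : nx O m c = m ∨ (nx O m c ∈ O ∧ c < nx O m c) := by
  have := Finset.min'_mem _ (Finset.insert_nonempty m (O.filter (c < ·)))
  rwa [Finset.mem_insert, Finset.mem_filter] at this

lemma lt_nx (O : Finset ℤ) {m c : ℤ} (h : c < m) : c < nx O m c := by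
  rcases nx_mem O m c with h1 | h1
  · omega
  · exact h1.2

lemma chain_eq {W : ℤ → A} {ω : ℤ → List A} {O : Finset ℤ} {m p d : ℤ} (hO : ∀ c ∈ O, c < m)
    (h : ∀ c ∈ O, ph W ω (p + c) (p + nx O m c) = ph W ω (p + c + d) (p + nx O m c + d))
    {y : ℤ} (hy : y ∈ O ∨ y = m) (n : ℕ) : ∀ x, (x ∈ O ∨ x = m) → x ≤ y → (y - x).toNat ≤ n →
      ph W ω (p + x) (p + y) = ph W ω (p + x + d) (p + y + d) := by
  have hym : y ≤ m := hy.elim (fun h => (hO y h).le) le_of_eq
  induction n with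
  | zero =>
    intro x _ h1 h2
    rw [ph_nil _ _ (by omega), ph_nil _ _ (by omega)]
  | succ n ih =>
    intro x hx h1 h2
    rcases h1.lt_or_eq with h1 | h1
    swap
    · rw [ph_nil _ _ (by omega), ph_nil _ _ (by omega)]
    have hxO : x ∈ O := hx.resolve_right (by omega)
    have a1 := lt_nx O (hO x hxO)
    have a2 : nx O m x ≤ y := hy.elim (fun h => nx_le' m h h1) (fun h => h ▸ nx_le O m x)
    rw [ph_split W ω (m := p + nx O m x) (by omega) (by omega),
      ph_split W ω (x := p + x + d) (m := p + nx O m x + d) (by omega) (by omega), h x hxO,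
      ih _ ((nx_mem O m x).symm.imp (fun h => h.1) id) a2 (by omega)]

theorem closed_case [Fintype B] {W : ℤ → A} {L : ℤ} {bar : B → B} (hb : ∀ b, bar (bar b) = b)
    (e : ℕ) {S : St B} (hI : Inv W L bar S) (q μ : ℕ) (NN : Finset B) (s : ℤ)
    (hN : ∀ b ∈ NN, S.act bar b ∧ bar b ∈ NN ∧ S.p b + S.w b ≤ s + μ)
    (hF : ∀ b, S.act bar b → b ∉ NN → S.w b ≤ μ ∨ (s ≤ S.p b ∧ s ≤ S.p (bar b)))
    (hS : ∑ b ∈ NN, S.w b ≤ 2 * (s - S.t) + μ) (hL : s ≤ L)
    (hC : (Cft (Fintype.card B * (2 * q + 1)) * (q + Fintype.card B * μ + μ + 1) : ℕ) < s - S.t) :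
    Pq W L bar e S q := by
  intro Q hQ
  set O : B → Finset ℤ := fun b => (insert 0 (Q.image (· - S.p b) ∪ Q.image (· - S.p (bar b)))).filter
    (fun c => 0 ≤ c ∧ c < S.w b - μ) with hO
  have hOb : ∀ b, O (bar b) = O b := by
    intro b
    simp only [hO, hb, hI.w_bar, Finset.union_comm]
  have hOm : ∀ b, ∀ c ∈ O b, 0 ≤ c ∧ c < S.w b - μ := fun b c hc => (Finset.mem_filter.1 hc).2
  have hOc : ∀ b, (O b).card ≤ 2 * q + 1 := by
    intro b
    refine (Finset.card_filter_le _ _).trans ((Finset.card_insert_le _ _).trans ?_)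
    have := (Finset.card_union_le _ _).trans (Nat.add_le_add
      (Finset.card_image_le (s := Q) (f := (· - S.p b)))
      (Finset.card_image_le (s := Q) (f := (· - S.p (bar b)))))
    omega
  set F : Finset (B × ℤ) := NN.biUnion (fun b => (O b).image (Prod.mk b)) with hF'
  have hFm : ∀ x : B × ℤ, x ∈ F ↔ x.1 ∈ NN ∧ x.2 ∈ O x.1 := by
    rintro ⟨b, c⟩
    simp only [hF', Finset.mem_biUnion, Finset.mem_image, Prod.mk.injEq]
    constructor
    · rintro ⟨_, h1, _, h2, rfl, rfl⟩
      exact ⟨h1, h2⟩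
    · exact fun h => ⟨b, h.1, c, h.2, rfl, rfl⟩
  have hFc : Fintype.card F ≤ Fintype.card B * (2 * q + 1) := by
    rw [Fintype.card_coe]
    exact (Finset.card_biUnion_le_card_mul _ _ _
      (fun b _ => Finset.card_image_le.trans (hOc b))).trans
      (Nat.mul_le_mul_right _ (Finset.card_le_univ _))
  set Z : Finset ℤ := Q ∪ Finset.univ.biUnion
    (fun b => Finset.Ico (S.p b + S.w b - μ) (S.p b + S.w b)) with hZ
  have hZc : Z.card ≤ q + Fintype.card B * μ + μ := by
    refine (Finset.card_union_le _ _).trans ?_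
    have := Finset.card_biUnion_le_card_mul Finset.univ
      (fun b => Finset.Ico (S.p b + S.w b - μ) (S.p b + S.w b)) μ (fun b _ => by simp)
    rw [Finset.card_univ] at this
    omega
  have hZm : ∀ b z, S.p b + S.w b - μ ≤ z → z < S.p b + S.w b → z ∈ Z := fun b z h1 h2 =>
    Finset.mem_union_right _ (Finset.mem_biUnion.2 ⟨b, Finset.mem_univ _, Finset.mem_Ico.2 ⟨h1, h2⟩⟩)
  let G : Sys A F :=
    { W := W
      a := S.t
      b := s
      bar := fun x => ⟨(bar x.1.1, x.1.2), by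
        have := (hFm _).1 x.2
        rw [hFm]
        exact ⟨(hN _ this.1).2.1, by rw [hOb]; exact this.2⟩⟩
      lo := fun x => S.p x.1.1 + x.1.2
      hi := fun x => S.p x.1.1 + nx (O x.1.1) (S.w x.1.1 - μ) x.1.2
      d := fun x => S.dd bar x.1.1
      Z := Z
      bar_bar := fun x => Subtype.ext (by simp [hb])
      bar_ne := fun x h => by
        have h1 : bar x.1.1 = x.1.1 := congrArg (fun y : F => y.1.1) h
        exact (hN _ ((hFm _).1 x.2).1).1.2 (by rw [h1])
      lo_bar := fun x => by simp only [St.dd]; ring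
      hi_bar := fun x => by simp only [St.dd, hOb, hI.w_bar]; ring
      d_bar := fun x => by simp only [St.dd, hb]; ring
      lo_le := fun x => by
        have := lt_nx (O x.1.1) (hOm _ _ ((hFm _).1 x.2).2).2
        omega
      a_le := fun x => by
        have := (hOm _ _ ((hFm _).1 x.2).2).1
        have := hI.t_le _ (hN _ ((hFm _).1 x.2).1).1
        omega
      le_b := fun x => by
        have := nx_le (O x.1.1) (S.w x.1.1 - μ) x.1.2
        have := (hN _ ((hFm _).1 x.2).1).2.2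
        omega
      hW := fun x z h1 h2 => by
        have := nx_le (O x.1.1) (S.w x.1.1 - μ) x.1.2
        have := (hOm _ _ ((hFm _).1 x.2).2).1
        exact hI.hW _ z (by omega) (by omega) }
  have hIc : (G.I.card : ℤ) = s - S.t := by
    simp only [Sys.I, G, Int.card_Ico]
    omega
  have hE : (G.edges (fun _ _ => True)).card ≤ 2 * G.I.card + 2 * (q + Fintype.card B * μ + μ) := by
    have a1 : (G.edges (fun _ _ => True)).card ≤
        (NN.biUnion (fun b => (Finset.Ico 0 (S.w b)).image (Prod.mk b))).card := by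
      refine Finset.card_le_card_of_injOn (fun x => (x.2.1.1, x.1 - S.p x.2.1.1)) ?_ ?_
      · rintro ⟨z, x⟩ hx
        have a2 := (Sys.mem_edges.1 hx).1
        simp only [Sys.dom, G] at a2
        have := nx_le (O x.1.1) (S.w x.1.1 - μ) x.1.2
        have := (hOm _ _ ((hFm _).1 x.2).2).1
        exact Finset.mem_coe.2 (Finset.mem_biUnion.2 ⟨x.1.1, ((hFm _).1 x.2).1,
          Finset.mem_image.2 ⟨z - S.p x.1.1, Finset.mem_Ico.2 ⟨by omega, by omega⟩, rfl⟩⟩)
      · rintro ⟨z, ⟨b, c⟩, hx⟩ hz ⟨z', ⟨b', c'⟩, hx'⟩ hz' h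
        have a2 := (Sys.mem_edges.1 hz).1
        have a3 := (Sys.mem_edges.1 hz').1
        simp only [Sys.dom, G] at a2 a3
        simp only [Prod.mk.injEq] at h
        obtain ⟨rfl, h⟩ := h
        have a4 : z = z' := by omega
        subst a4
        have a5 : c = c' := by
          rcases lt_trichotomy c c' with h | h | h
          · have := nx_le' (S.w b - μ) ((hFm _).1 hx').2 h
            simp only at this
            omega
          · exact h
          · have := nx_le' (S.w b - μ) ((hFm _).1 hx).2 h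
            simp only at this
            omega
        subst a5
        rfl
    have a2 := a1.trans (Finset.card_biUnion_le.trans
      (Finset.sum_le_sum (fun b _ => Finset.card_image_le)))
    have a3 : ((∑ b ∈ NN, (Finset.Ico 0 (S.w b)).card : ℕ) : ℤ) = ∑ b ∈ NN, S.w b := by
      push_cast
      refine Finset.sum_congr rfl (fun b hb' => ?_)
      have := (hN b hb').1.1
      simp only [Int.card_Ico]
      omega
    omega
  have hP : G.Pump e := by
    by_contra np
    have a1 := (Sys.finite_thm hE hZc np).trans (Nat.mul_le_mul_right _ (Cft_mono hFc))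
    omega
  obtain ⟨ω, h1, h2, h3⟩ := hP
  have h1' : ∀ z, ω z ≠ [] → S.t ≤ z ∧ z < s ∧ z ∉ Z := h1
  have hz : ∀ z, z ∈ Z ∨ s ≤ z → ω z = [] := by
    intro z hz
    by_contra h
    have := h1' z h
    rcases hz with hz | hz
    · exact this.2.2 hz
    · omega
  have htrim : ∀ b x y, S.p b ≤ x → S.p b + S.w b - μ ≤ x → y ≤ S.p b + S.w b →
      ph W ω x y = ph W ω (x + S.dd bar b) (y + S.dd bar b) := by
    intro b x y a1 a2 a3
    refine ph_congr_shift _ (fun z a4 a5 => hI.hW b z (by omega) (by omega)) (fun z a4 a5 => ?_)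
    rw [hz z (Or.inl (hZm b z (by omega) (by omega))), hz _ (Or.inl (hZm (bar b) _ ?_ ?_))] <;>
      rw [hI.w_bar] <;> unfold St.dd <;> omega
  refine ⟨ω, fun z h => ?_, fun b x y hx hy a1 a2 a3 => ?_, h3⟩
  · have := h1' z h
    exact ⟨this.1, by omega, fun h' => this.2.2 (Finset.mem_union_left _ h')⟩
  by_cases hact : S.act bar b
  swap
  · exact valid_of_not_act hact ω a1 a3
  by_cases hbN : b ∈ NN
  swap
  · rcases hF b hact hbN with h | h
    · exact htrim b x y a1 (by omega) a3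
    · refine ph_congr_shift _ (fun z a4 a5 => hI.hW b z (by omega) (by omega)) (fun z a4 a5 => ?_)
      rw [hz z (Or.inr (by omega)), hz _ (Or.inr (by unfold St.dd; omega))]
  have hmem : ∀ z ∈ Q, S.p b ≤ z → z ≤ S.p b + S.w b - μ →
      z - S.p b ∈ O b ∨ z - S.p b = S.w b - μ := by
    intro z hz a4 a5
    by_cases h : z - S.p b = S.w b - μ
    · exact Or.inr h
    · exact Or.inl (Finset.mem_filter.2 ⟨Finset.mem_insert_of_mem (Finset.mem_union_left _
        (Finset.mem_image.2 ⟨z, hz, rfl⟩)), by omega, by omega⟩)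
  have hch := fun y hy x hx h => chain_eq (W := W) (ω := ω) (O := O b) (m := S.w b - μ) (p := S.p b)
    (d := S.dd bar b) (fun c hc => (hOm b c hc).2)
    (fun c hc => h2 ⟨(b, c), (hFm _).2 ⟨hbN, hc⟩⟩) (y := y) hy _ x hx h le_rfl
  by_cases c1 : y ≤ S.p b + S.w b - μ
  · have := hch _ (hmem y hy (by omega) c1) _ (hmem x hx a1 (by omega)) (by omega)
    simpa using this
  by_cases c2 : S.p b + S.w b - μ ≤ x
  · exact htrim b x y a1 c2 a3
  rw [ph_split W ω (m := S.p b + S.w b - μ) (by omega) (by omega),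
    ph_split W ω (x := x + S.dd bar b) (m := S.p b + S.w b - μ + S.dd bar b) (by omega) (by omega),
    htrim b _ y (by omega) le_rfl a3]
  congr 1
  have := hch _ (Or.inr rfl) _ (hmem x hx a1 (by omega)) (by omega)
  simpa [add_sub_assoc] using this

end Pool.Agent.MP_fd2cd0_lc

end MrgPart1

-- ======== part 2: formerly Pool.Agent.MP_fd2cd0_lc.Step
section MrgPart2

/-! One step of the rewriting process. -/

namespace Pool.Agent.MP_fd2cd0_lc

open Classical

variable {A B : Type*}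

structure Gap (bar : B → B) (S S' : St B) : Prop where
  p_eq : S'.p = S.p
  w_eq : S'.w = S.w
  lt : S.t < S'.t
  le : ∀ b, S.act bar b → S'.t ≤ S.p b
  hit : ∃ b, S.act bar b ∧ S.p b = S'.t

structure Normal (bar : B → B) (c : B) (S S' : St B) : Prop where
  act : S.act bar c
  start : S.p c = S.t
  lt : S.t < S'.t
  le_w : S'.t ≤ S.t + S.w c
  le_d : S'.t ≤ S.p (bar c)
  pc : S'.p c = S'.t
  pbc : S'.p (bar c) = S.p (bar c) + (S'.t - S.t)
  wc : S'.w c = S.w c - (S'.t - S.t)
  wbc : S'.w (bar c) = S.w c - (S'.t - S.t)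
  w_eq : ∀ b, b ≠ c → b ≠ bar c → S'.w b = S.w b
  tr : ∀ b, b ≠ c → S.act bar b → S.p b = S.t → S'.p b = S.p (bar c) ∧ S.w b ≤ S.w c
  ntr : ∀ b, b ≠ c → b ≠ bar c → ¬ (S.act bar b ∧ S.p b = S.t) → S'.p b = S.p b
  le : ∀ b, S.act bar b → b ≠ c → S'.t ≤ S'.p b
  hit : S'.t = S.t + S.w c ∨ S'.t = S.p (bar c) ∨
    ∃ b, S.act bar b ∧ b ≠ c ∧ b ≠ bar c ∧ S'.p b = S'.t

def Step (bar : B → B) (S S' : St B) : Prop := Gap bar S S' ∨ ∃ c, Normal bar c S S'

/-- Periodic stretches of `W` on `[0, L)` are short. -/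
def PB (W : ℤ → A) (L : ℤ) (N : ℕ) : Prop :=
  ∀ p d w : ℤ, 0 ≤ p → 0 < d → p + w + d ≤ L → (∀ s, p ≤ s → s < p + w → W s = W (s + d)) →
    w ≤ N * d

variable {W : ℤ → A} {L : ℤ} {bar : B → B} {S S' : St B} {c : B}

lemma exists_step [Fintype B] (hb : ∀ b, bar (bar b) = b) (hI : Inv W L bar S)
    (h : ∃ b, S.act bar b) : ∃ S', Step bar S S' := by
  by_cases h1 : ∃ b, S.act bar b ∧ S.p b = S.t
  · obtain ⟨c, hc, hmax⟩ := Finset.exists_max_image
      (Finset.univ.filter (fun b => S.act bar b ∧ S.p b = S.t)) S.w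
      (by obtain ⟨b, hb⟩ := h1; exact ⟨b, by simpa using hb⟩)
    simp only [Finset.mem_filter, Finset.mem_univ, true_and] at hc hmax
    set T := insert (S.t + S.w c) ((Finset.univ.filter (fun b => S.act bar b ∧ S.p b ≠ S.t)).image S.p)
      with hT
    have hne : T.Nonempty := Finset.insert_nonempty _ _
    have a1 : T.min' hne ≤ S.t + S.w c := Finset.min'_le _ _ (Finset.mem_insert_self _ _)
    have a2 : ∀ b, S.act bar b → S.p b ≠ S.t → T.min' hne ≤ S.p b := fun b h1 h2 =>
      Finset.min'_le _ _ (Finset.mem_insert_of_mem (Finset.mem_image_of_mem _ (by simp [h1, h2])))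
    have a3 : T.min' hne = S.t + S.w c ∨ ∃ b, (S.act bar b ∧ S.p b ≠ S.t) ∧ S.p b = T.min' hne := by
      have := T.min'_mem hne
      simpa [hT] using this
    generalize T.min' hne = t' at *
    have hbc : S.p (bar c) ≠ S.t := by rw [← hc.2]; exact hc.1.2
    have hcc : bar c ≠ c := fun h => hc.1.2 (by rw [h])
    have a4 := a2 _ (hI.act_bar hb hc.1) hbc
    have a5 : S.t < t' := by
      rcases a3 with h | ⟨b, ⟨h2, h3⟩, h4⟩
      · have := hc.1.1; omega
      · have := hI.t_le b h2; omega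
    refine ⟨⟨t', fun b => if b = c then t' else if b = bar c then S.p b + (t' - S.t) else
      if S.act bar b ∧ S.p b = S.t then S.p (bar c) else S.p b,
      fun b => if b = c ∨ b = bar c then S.w c - (t' - S.t) else S.w b⟩, Or.inr ⟨c, hc.1, hc.2, a5,
      a1, a4, by simp, by simp [hcc], by simp, by simp, fun b h1 h2 => by simp [h1, h2], ?_,
      fun b h1 h2 h3 => by simp only [if_neg h1, if_neg h2, if_neg h3], ?_, ?_⟩⟩
    · intro b h1 h2 h3
      have h4 : b ≠ bar c := fun h => hbc (h ▸ h3)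
      exact ⟨by simp only [if_neg h1, if_neg h4, if_pos (And.intro h2 h3)], hmax b ⟨h2, h3⟩⟩
    · intro b h1 h2
      simp only [if_neg h2]
      split_ifs with h3 h4
      · rw [h3]; omega
      · exact a4
      · exact a2 b h1 (fun h => h4 ⟨h1, h⟩)
    · rcases a3 with h | ⟨b, ⟨h2, h3⟩, h4⟩
      · exact Or.inl h
      by_cases h5 : b = bar c
      · exact Or.inr (Or.inl (by rw [← h5]; exact h4.symm))
      have h6 : b ≠ c := fun h => h3 (h ▸ hc.2)
      refine Or.inr (Or.inr ⟨b, h2, h6, h5, ?_⟩)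
      simp only [if_neg h6, if_neg h5, if_neg (fun h : S.act bar b ∧ S.p b = S.t => h3 h.2)]
      exact h4
  · obtain ⟨c, hc, hmin⟩ := Finset.exists_min_image (Finset.univ.filter (fun b => S.act bar b)) S.p
      (by obtain ⟨b, hb⟩ := h; exact ⟨b, by simpa using hb⟩)
    simp only [Finset.mem_filter, Finset.mem_univ, true_and] at hc hmin
    refine ⟨⟨S.p c, S.p, S.w⟩, Or.inl ⟨rfl, rfl, ?_, hmin, c, hc, rfl⟩⟩
    have := hI.t_le c hc
    have : S.p c ≠ S.t := fun h => h1 ⟨c, hc, h⟩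
    simp only
    omega

lemma Gap.act_iff (h : Gap bar S S') (b : B) : S'.act bar b ↔ S.act bar b := by
  unfold St.act; rw [h.p_eq, h.w_eq]

lemma Gap.inv (h : Gap bar S S') (hI : Inv W L bar S) : Inv W L bar S' where
  w_bar := by rw [h.w_eq]; exact hI.w_bar
  t_le := fun b hb => by rw [h.p_eq]; exact h.le b ((h.act_iff b).1 hb)
  le_L := fun b hb => by rw [h.p_eq, h.w_eq]; exact hI.le_L b ((h.act_iff b).1 hb)
  hW := by unfold St.dd; rw [h.p_eq, h.w_eq]; exact hI.hW
  t_nonneg := hI.t_nonneg.trans h.lt.le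

lemma Gap.pull (h : Gap bar S S') {e q q' : ℕ} (hq : q ≤ q') (hP : Pq W L bar e S' q') :
    Pq W L bar e S q := by
  intro Q hQ
  obtain ⟨ω, h1, h2, h3⟩ := hP Q (hQ.trans hq)
  refine ⟨ω, fun s hs => ⟨h.lt.le.trans (h1 s hs).1, (h1 s hs).2⟩, ?_, h3⟩
  unfold St.dd at *
  rw [h.p_eq, h.w_eq] at h2
  exact h2

lemma free_pump (hb : ∀ b, bar (bar b) = b) (hI : Inv W L bar S) (e : ℕ) {q : ℕ} {t' : ℤ}
    (h1 : ∀ b, S.act bar b → t' ≤ S.p b) (h2 : t' ≤ L) (h3 : S.t + q < t') : Pq W L bar e S q := by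
  intro Q hQ
  obtain ⟨s, hs, hs'⟩ := Finset.exists_mem_notMem_of_card_lt_card (s := Q) (t := Finset.Ico S.t t')
    (by simp only [Int.card_Ico]; omega)
  rw [Finset.mem_Ico] at hs
  refine ⟨fun z => if z = s then pw [W s] e else [], fun z hz => ?_, fun b x y _ _ a1 a2 a3 => ?_,
    s, [W s], by simp, by simp⟩
  · have : z = s := by
      by_contra h
      simp [h] at hz
    subst this
    exact ⟨hs.1, by omega, hs'⟩
  · by_cases hact : S.act bar b
    · have a4 := h1 b hact
      have a5 := h1 _ (hI.act_bar hb hact)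
      refine ph_congr_shift _ (fun z a6 a7 => hI.hW b z (by omega) (by omega)) (fun z a6 a7 => ?_)
      rw [if_neg (by omega), if_neg (by unfold St.dd; omega)]
    · exact valid_of_not_act hact _ a1 a3

lemma ne_bar (hb : ∀ b, bar (bar b) = b) {b c : B} (h1 : b ≠ c) (h2 : b ≠ bar c) :
    bar b ≠ c ∧ bar b ≠ bar c :=
  ⟨fun h => h2 (by rw [← h, hb]), fun h => h1 (by rw [← hb b, h, hb])⟩

lemma Normal.act_of (hb : ∀ b, bar (bar b) = b) (hI : Inv W L bar S) (h : Normal bar c S S')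
    {b : B} (ha : S'.act bar b) : S.act bar b := by
  by_cases h1 : b = c
  · rw [h1]; exact h.act
  by_cases h2 : b = bar c
  · rw [h2]; exact hI.act_bar hb h.act
  refine ⟨by rw [← h.w_eq b h1 h2]; exact ha.1, fun h3 => ha.2 ?_⟩
  obtain ⟨h4, h5⟩ := ne_bar hb h1 h2
  rw [h.ntr b h1 h2 (fun a => a.1.2 h3), h.ntr _ h4 h5 (fun a => a.1.2 (by rw [hb, h3])), h3]

lemma Normal.move (hI : Inv W L bar S) (h : Normal bar c S S') {b : B} (h1 : b ≠ c)
    (h2 : b ≠ bar c) {s : ℤ} (h3 : S.p b ≤ s) (h4 : s < S.p b + S.w b) :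
    W s = W (s + (S'.p b - S.p b)) := by
  by_cases h5 : S.act bar b ∧ S.p b = S.t
  · obtain ⟨a1, a2⟩ := h.tr b h1 h5.1 h5.2
    have a3 := h.start
    rw [hI.hW c s (by omega) (by omega), a1, St.dd, a3, h5.2]
  · rw [h.ntr b h1 h2 h5]; simp

lemma Normal.mono (hb : ∀ b, bar (bar b) = b) (hI : Inv W L bar S) (h : Normal bar c S S') (b : B) :
    S.p b ≤ S'.p b ∧ S.p b + S.w b ≤ S'.p b + S'.w b := by
  have a1 := h.lt
  have a2 := h.le_d
  by_cases h1 : b = c
  · rw [h1, h.pc, h.wc, h.start]; omega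
  by_cases h2 : b = bar c
  · rw [h2, h.pbc, h.wbc, hI.w_bar]; omega
  rw [h.w_eq b h1 h2]
  by_cases h5 : S.act bar b ∧ S.p b = S.t
  · rw [(h.tr b h1 h5.1 h5.2).1, h5.2]; omega
  · rw [h.ntr b h1 h2 h5]; omega

lemma Normal.inv (hb : ∀ b, bar (bar b) = b) (hI : Inv W L bar S) (h : Normal bar c S S') :
    Inv W L bar S' where
  w_bar := fun b => by
    by_cases h1 : b = c
    · rw [h1, h.wc, h.wbc]
    by_cases h2 : b = bar c
    · rw [h2, hb, h.wc, h.wbc]
    obtain ⟨h4, h5⟩ := ne_bar hb h1 h2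
    rw [h.w_eq b h1 h2, h.w_eq _ h4 h5, hI.w_bar]
  t_le := fun b ha => by
    by_cases h1 : b = c
    · rw [h1, h.pc]
    · exact h.le b (h.act_of hb hI ha) h1
  le_L := fun b ha => by
    have a1 := hI.le_L c h.act
    have a2 := hI.le_L _ (hI.act_bar hb h.act)
    rw [hI.w_bar] at a2
    have a3 := h.start
    by_cases h1 : b = c
    · rw [h1, h.pc, h.wc]; omega
    by_cases h2 : b = bar c
    · rw [h2, h.pbc, h.wbc]; omega
    rw [h.w_eq b h1 h2]
    by_cases h5 : S.act bar b ∧ S.p b = S.t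
    · obtain ⟨a4, a5⟩ := h.tr b h1 h5.1 h5.2
      omega
    · rw [h.ntr b h1 h2 h5]
      exact hI.le_L b (h.act_of hb hI ha)
  hW := fun b s a1 a2 => by
    have a3 := h.start
    have a4 := h.lt
    by_cases h1 : b = c
    · subst h1
      rw [h.pc, h.wc] at *
      rw [hI.hW b s (by omega) (by omega), St.dd, St.dd, h.pc, h.pbc]
      congr 1; omega
    by_cases h2 : b = bar c
    · subst h2
      rw [h.pbc, h.wbc] at *
      rw [hI.hW (bar c) s (by omega) (by rw [hI.w_bar]; omega), St.dd, St.dd, hb, h.pc, h.pbc]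
      congr 1; omega
    obtain ⟨h4, h5⟩ := ne_bar hb h1 h2
    rw [h.w_eq b h1 h2] at a2
    have b1 := h.move hI h1 h2 (s := s - (S'.p b - S.p b)) (by omega) (by omega)
    have b2 := hI.hW b (s - (S'.p b - S.p b)) (by omega) (by omega)
    have b3 := h.move hI h4 h5 (s := s - (S'.p b - S.p b) + S.dd bar b) (by unfold St.dd; omega)
      (by rw [hI.w_bar]; unfold St.dd; omega)
    rw [sub_add_cancel] at b1
    rw [← b1, b2, b3]
    congr 1
    unfold St.dd
    omega
  t_nonneg := hI.t_nonneg.trans h.lt.le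

lemma Normal.pull [Fintype B] (hb : ∀ b, bar (bar b) = b) (hI : Inv W L bar S)
    (h : Normal bar c S S') {e q : ℕ} (hP : Pq W L bar e S' (2 * ((Fintype.card B + 1) * q) + 1)) :
    Pq W L bar e S q := by
  intro Q hQ
  set Q1 : Finset ℤ := Q ∪ Finset.univ.biUnion (fun b => Q.image (· + S.dd bar b)) with hQ1
  have hQ1c : Q1.card ≤ (Fintype.card B + 1) * q := by
    refine (Finset.card_union_le _ _).trans ?_
    have := Finset.card_biUnion_le_card_mul Finset.univ (fun b => Q.image (· + S.dd bar b)) q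
      (fun _ _ => Finset.card_image_le.trans hQ)
    rw [Finset.card_univ] at this
    rw [add_mul]
    omega
  have m1 : ∀ x ∈ Q, x ∈ Q1 := fun x hx => Finset.mem_union_left _ hx
  have m2 : ∀ x ∈ Q, ∀ b, x + S.dd bar b ∈ Q1 := fun x hx b => Finset.mem_union_right _
    (Finset.mem_biUnion.2 ⟨b, Finset.mem_univ _, Finset.mem_image_of_mem _ hx⟩)
  obtain ⟨ω', h1, h2, s0, u, h3, h4⟩ := hP (insert S'.t (Q1 ∪ Q1.image (· + S.dd bar c))) (by
    refine (Finset.card_insert_le _ _).trans ?_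
    have := (Finset.card_union_le Q1 (Q1.image (· + S.dd bar c))).trans
      (Nat.add_le_add_left Finset.card_image_le _)
    omega)
  set Q' := insert S'.t (Q1 ∪ Q1.image (· + S.dd bar c)) with hQ'
  have m3 : ∀ x ∈ Q1, x ∈ Q' := fun x hx => Finset.mem_insert_of_mem (Finset.mem_union_left _ hx)
  have m4 : ∀ x ∈ Q1, x + S.dd bar c ∈ Q' := fun x hx =>
    Finset.mem_insert_of_mem (Finset.mem_union_right _ (Finset.mem_image_of_mem _ hx))
  have m5 : S'.t ∈ Q' := Finset.mem_insert_self _ _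
  have a1 := h.start
  have a2 := h.lt
  have a3 := h.le_w
  have a4 : S'.t ≤ S.t + S.dd bar c := by have := h.le_d; unfold St.dd; omega
  set ω : ℤ → List A := fun s => if S.t ≤ s ∧ s < S'.t then ω' (s + S.dd bar c) else ω' s with hω
  have agree : ∀ x y, S'.t ≤ x → ph W ω x y = ph W ω' x y := fun x y hx =>
    ph_congr (fun s b1 _ => if_neg (by omega))
  have low : ∀ x y, S.t ≤ x → y ≤ S'.t → ph W ω x y = ph W ω (x + S.dd bar c) (y + S.dd bar c) := by
    intro x y hx hy
    rw [agree _ _ (by omega : S'.t ≤ x + S.dd bar c)]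
    exact ph_congr_shift _ (fun s b1 b2 => hI.hW c s (by omega) (by omega))
      (fun s b1 b2 => if_pos ⟨by omega, by omega⟩)
  have high : ∀ x ∈ Q', ∀ y ∈ Q', S'.t ≤ x → x ≤ y → y ≤ S.t + S.w c →
      ph W ω x y = ph W ω (x + S.dd bar c) (y + S.dd bar c) := by
    intro x hx y hy b1 b2 b3
    rw [agree _ _ b1, agree _ _ (by omega : S'.t ≤ x + S.dd bar c),
      h2 c x y hx hy (by rw [h.pc]; exact b1) b2 (by rw [h.pc, h.wc]; omega)]
    congr 1 <;> simp only [St.dd, h.pc, h.pbc] <;> omega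
  have K : ∀ x ∈ Q1, ∀ y ∈ Q1, S.t ≤ x → x ≤ y → y ≤ S.t + S.w c →
      ph W ω x y = ph W ω (x + S.dd bar c) (y + S.dd bar c) := by
    intro x hx y hy b1 b2 b3
    by_cases c1 : y ≤ S'.t
    · exact low x y b1 c1
    by_cases c2 : S'.t ≤ x
    · exact high x (m3 x hx) y (m3 y hy) c2 b2 b3
    rw [ph_split W ω (m := S'.t) (by omega) (by omega),
      ph_split W ω (x := x + S.dd bar c) (m := S'.t + S.dd bar c) (by omega) (by omega),
      low x _ b1 le_rfl, high _ m5 y (m3 y hy) le_rfl (by omega) b3]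
  have K' : ∀ b, b ≠ c → b ≠ bar c → S.act bar b → ∀ x ∈ Q1, ∀ y ∈ Q1, S.p b ≤ x → x ≤ y →
      y ≤ S.p b + S.w b → ph W ω x y = ph W ω' (x + (S'.p b - S.p b)) (y + (S'.p b - S.p b)) ∧
        x + (S'.p b - S.p b) ∈ Q' ∧ y + (S'.p b - S.p b) ∈ Q' := by
    intro b b1 b2 b3 x hx y hy b4 b5 b6
    by_cases h5 : S.p b = S.t
    · obtain ⟨c1, c2⟩ := h.tr b b1 b3 h5
      have : S'.p b - S.p b = S.dd bar c := by unfold St.dd; omega
      rw [this, K x hx y hy (by omega) b5 (by omega), agree _ _ (by omega)]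
      exact ⟨rfl, m4 x hx, m4 y hy⟩
    · have c1 := h.ntr b b1 b2 (fun a => h5 a.2)
      have c2 := h.le b b3 b1
      rw [c1, sub_self, add_zero, add_zero]
      exact ⟨agree _ _ (by omega), m3 x hx, m3 y hy⟩
  refine ⟨ω, fun s hs => ?_, fun b x y hx hy b1 b2 b3 => ?_, ?_⟩
  · by_cases c1 : S.t ≤ s ∧ s < S'.t
    · have c2 := h1 _ (by simpa only [hω, if_pos c1] using hs)
      exact ⟨c1.1, by omega, fun c3 => c2.2.2 (m4 s (m1 s c3))⟩
    · have c2 := h1 _ (by simpa only [hω, if_neg c1] using hs)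
      exact ⟨by omega, c2.2.1, fun c3 => c2.2.2 (m3 s (m1 s c3))⟩
  · by_cases hact : S.act bar b
    swap
    · exact valid_of_not_act hact _ b1 b3
    by_cases c1 : b = c
    · subst c1
      exact K x (m1 x hx) y (m1 y hy) (by omega) b2 (by omega)
    by_cases c2 : b = bar c
    · subst c2
      have e1 : S.dd bar (bar c) = - S.dd bar c := by unfold St.dd; rw [hb]; ring
      rw [hI.w_bar] at b3
      have e2 : S.dd bar c = S.p (bar c) - S.t := by unfold St.dd; omega
      rw [K _ (m2 x hx _) _ (m2 y hy _) (by omega) (by omega) (by omega)]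
      congr 1 <;> omega
    obtain ⟨c4, c5⟩ := ne_bar hb c1 c2
    obtain ⟨d1, d2, d3⟩ := K' b c1 c2 hact x (m1 x hx) y (m1 y hy) b1 b2 b3
    obtain ⟨d4, _, _⟩ := K' _ c4 c5 (hI.act_bar hb hact) _ (m2 x hx b) _ (m2 y hy b)
      (by unfold St.dd; omega) (by omega) (by rw [hI.w_bar]; unfold St.dd; omega)
    rw [d1, d4, h2 b _ _ d2 d3 (by omega) (by omega) (by rw [h.w_eq b c1 c2]; omega)]
    congr 1 <;> unfold St.dd <;> ring
  · by_cases c1 : ω' s0 = []
    · refine ⟨s0, u, h3, ?_⟩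
      rw [c1, List.infix_nil] at h4
      rw [h4]
      exact List.nil_infix
    · have := h1 s0 c1
      refine ⟨s0, u, h3, ?_⟩
      simp only [hω]
      rw [if_neg (by omega)]
      exact h4

lemma width_le {N : ℕ} (hb : ∀ b, bar (bar b) = b) (hP : PB W L N) (hI : Inv W L bar S) {b : B}
    (ha : S.act bar b) {x : ℤ} (h1 : S.p b ≤ S.t + x) (h2 : S.p (bar b) ≤ S.t + x) :
    S.w b ≤ N * x := by
  have key : ∀ b, S.act bar b → S.p b < S.p (bar b) → S.p (bar b) ≤ S.t + x → S.w b ≤ N * x := by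
    intro b ha h1 h2
    have a1 := hI.t_le b ha
    have a2 := hI.t_nonneg
    have a3 := hI.le_L _ (hI.act_bar hb ha)
    rw [hI.w_bar] at a3
    refine (hP (S.p b) (S.dd bar b) (S.w b) (by omega) (by unfold St.dd; omega)
      (by unfold St.dd; omega) (hI.hW b)).trans ?_
    exact mul_le_mul_of_nonneg_left (by unfold St.dd; omega) (by positivity)
  rcases lt_or_gt_of_ne ha.2 with h | h
  · rw [← hI.w_bar]
    exact key _ (hI.act_bar hb ha) (by rwa [hb]) (by rwa [hb])
  · exact key b ha h h2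

lemma Normal.remain {N : ℕ} (hb : ∀ b, bar (bar b) = b) (hP : PB W L N) (hI : Inv W L bar S)
    (h : Normal bar c S S') : L - S.t ≤ (N + 1) * (L - S'.t) := by
  have a1 := hI.le_L _ (hI.act_bar hb h.act)
  rw [hI.w_bar] at a1
  have a2 := h.le_w
  have a3 := h.le_d
  have a4 := h.lt
  have a5 := width_le hb hP hI h.act (x := L - S'.t) (by rw [h.start]; omega) (by omega)
  linarith

lemma Step.inv (hb : ∀ b, bar (bar b) = b) (hI : Inv W L bar S) (h : Step bar S S') :
    Inv W L bar S' := h.elim (fun h => h.inv hI) (fun ⟨_, h⟩ => h.inv hb hI)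

lemma Step.lt (h : Step bar S S') : S.t < S'.t := h.elim (fun h => h.lt) (fun ⟨_, h⟩ => h.lt)

lemma Step.act_of (hb : ∀ b, bar (bar b) = b) (hI : Inv W L bar S) (h : Step bar S S') {b : B}
    (ha : S'.act bar b) : S.act bar b :=
  h.elim (fun h => (h.act_iff b).1 ha) (fun ⟨_, h⟩ => h.act_of hb hI ha)

lemma Step.mono (hb : ∀ b, bar (bar b) = b) (hI : Inv W L bar S) (h : Step bar S S') (b : B) :
    S.p b ≤ S'.p b ∧ S.p b + S.w b ≤ S'.p b + S'.w b :=
  h.elim (fun h => by rw [h.p_eq, h.w_eq]; exact ⟨le_rfl, le_rfl⟩) (fun ⟨_, h⟩ => h.mono hb hI b)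

lemma Step.pull [Fintype B] (hb : ∀ b, bar (bar b) = b) (hI : Inv W L bar S)
    (h : Step bar S S') {e q : ℕ} (hP : Pq W L bar e S' (2 * ((Fintype.card B + 1) * q) + 1)) :
    Pq W L bar e S q :=
  h.elim (fun h => h.pull (by nlinarith) hP) (fun ⟨_, h⟩ => h.pull hb hI hP)

lemma Step.remain {N e q : ℕ} (hb : ∀ b, bar (bar b) = b) (hP : PB W L N) (hI : Inv W L bar S)
    (h : Step bar S S') (np : ¬ Pq W L bar e S q) : L - S.t ≤ (N + 1) * (L - S'.t) + q := by
  rcases h with h | ⟨c, h⟩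
  · obtain ⟨b, h1, h2⟩ := h.hit
    have a1 := hI.le_L b h1
    have a2 := h1.1
    have a3 : S'.t ≤ S.t + q := by
      by_contra h3
      exact np (free_pump hb hI e h.le (by omega) (by omega))
    have : 0 ≤ (N : ℤ) * (L - S'.t) := mul_nonneg (by positivity) (by omega)
    linarith
  · have := h.remain hb hP hI
    omega

end Pool.Agent.MP_fd2cd0_lc

end MrgPart2

-- ======== part 3: formerly Pool.Agent.MP_fd2cd0_lc.Limit
section MrgPart3

/-! Analysis of an infinite run along an ultrafilter. -/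

namespace Pool.Agent.MP_fd2cd0_lc

open Classical Filter

lemma stab {B : Type*} [Fintype B] (P : ℕ → B → Prop) (h : ∀ j b, P (j + 1) b → P j b) :
    ∃ j0, ∀ j, j0 ≤ j → ∀ b, P j b ↔ P j0 b := by
  have anti : ∀ b i j, i ≤ j → P j b → P i b := by
    intro b i j hij
    induction hij with
    | refl => exact id
    | step _ ih => exact fun hp => ih (h _ b hp)
  have h1 : ∀ b, ∃ i, ∀ j, i ≤ j → P i b → P j b := by
    intro b
    by_cases h2 : ∀ j, P j b
    · exact ⟨0, fun j _ _ => h2 j⟩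
    · push Not at h2
      obtain ⟨i, hi⟩ := h2
      exact ⟨i, fun _ _ h => absurd h hi⟩
  choose f hf using h1
  refine ⟨Finset.univ.sup f, fun j hj b => ⟨anti b _ _ hj, fun h2 => ?_⟩⟩
  have h3 : f b ≤ Finset.univ.sup f := Finset.le_sup (Finset.mem_univ b)
  exact hf b j (h3.trans hj) (anti b _ _ h3 h2)

lemma cauchy (𝒰 : Ultrafilter ℕ) (t : ℕ → ℕ → ℤ) (lam : ℕ → ℤ) (hl : ∀ᶠ n in 𝒰, 0 ≤ lam n)
    (R K js : ℕ) (h : ∀ j, js ≤ j → ∀ᶠ n in 𝒰, t j n - t js n ≤ R * lam n) :
    ∃ j1, js ≤ j1 ∧ ∀ j, j1 ≤ j → ∀ᶠ n in 𝒰, K * (t j n - t j1 n) ≤ lam n := by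
  by_contra hn
  push Not at hn
  have key : ∀ m : ℕ, ∃ j, js ≤ j ∧ ∀ᶠ n in 𝒰, m * (lam n + 1) ≤ K * (t j n - t js n) := by
    intro m
    induction m with
    | zero => exact ⟨js, le_rfl, Eventually.of_forall (fun n => by simp)⟩
    | succ m ih =>
      obtain ⟨j, h1, h2⟩ := ih
      obtain ⟨i, h3, h4⟩ := hn j h1
      refine ⟨i, h1.trans h3, ?_⟩
      filter_upwards [h2, h4] with n a1 a2
      push_cast
      linarith
  obtain ⟨j, h1, h2⟩ := key (K * R + 1)
  obtain ⟨n, a1, a2, a3⟩ := (h2.and ((h j h1).and hl)).exists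
  have := mul_le_mul_of_nonneg_left a2 (by positivity : (0 : ℤ) ≤ K)
  have a4 : (0 : ℤ) ≤ K * R := by positivity
  push_cast at a1
  nlinarith

variable {A B : Type*}

lemma Normal.sum_w {W : ℤ → A} {L : ℤ} {bar : B → B} {S S' : St B} {c : B} (hI : Inv W L bar S)
    (h : Normal bar c S S') {NN : Finset B} (h1 : c ∈ NN) (h2 : bar c ∈ NN) :
    ∑ b ∈ NN, S'.w b + 2 * S'.t = ∑ b ∈ NN, S.w b + 2 * S.t := by
  have hcc : bar c ≠ c := fun h' => h.act.2 (by rw [h'])
  have : ∀ b ∈ NN, S'.w b = S.w b - (if b = c then S'.t - S.t else 0) -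
      (if b = bar c then S'.t - S.t else 0) := by
    intro b _
    by_cases a1 : b = c
    · rw [if_pos a1, if_neg (a1 ▸ hcc.symm), a1, h.wc]; ring
    by_cases a2 : b = bar c
    · rw [if_neg a1, if_pos a2, a2, h.wbc, hI.w_bar]; ring
    · rw [if_neg a1, if_neg a2, h.w_eq b a1 a2]; ring
  rw [Finset.sum_congr rfl this, Finset.sum_sub_distrib, Finset.sum_sub_distrib, Finset.sum_ite_eq',
    Finset.sum_ite_eq', if_pos h1, if_pos h2]
  ring

theorem no_run [Fintype B] {bar : B → B} (hb : ∀ b, bar (bar b) = b) (𝒰 : Ultrafilter ℕ)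
    {W : ℕ → ℤ → A} {L : ℕ → ℤ} {N e : ℕ} {S : ℕ → ℕ → St B} {qs : ℕ → ℕ}
    (hI : ∀ j n, Inv (W n) (L n) bar (S j n)) (hP : ∀ n, PB (W n) (L n) N)
    (hnp : ∀ j n, ¬ Pq (W n) (L n) bar e (S j n) (qs j))
    (hstep : ∀ j, ∀ᶠ n in 𝒰, Step bar (S j n) (S (j + 1) n)) : False := by
  have tmono : ∀ i j, i ≤ j → ∀ᶠ n in 𝒰, (S i n).t ≤ (S j n).t := by
    intro i j hij
    induction hij with
    | refl => exact Eventually.of_forall (fun _ => le_rfl)
    | step _ ih => filter_upwards [ih, hstep _] with n a1 a2 using a1.trans a2.lt.le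
  have emono : ∀ b i j, i ≤ j → ∀ᶠ n in 𝒰, (S i n).p b + (S i n).w b ≤ (S j n).p b + (S j n).w b := by
    intro b i j hij
    induction hij with
    | refl => exact Eventually.of_forall (fun _ => le_rfl)
    | step _ ih =>
      filter_upwards [ih, hstep _] with n a1 a2 using a1.trans (a2.mono hb (hI _ n) b).2
  obtain ⟨ja, hja⟩ := stab (fun j b => ∀ᶠ n in 𝒰, (S j n).act bar b) (fun j b h => by
    filter_upwards [h, hstep j] with n a1 a2 using a2.act_of hb (hI _ n) a1)
  obtain ⟨jb, hjb⟩ := stab (fun j b => ∃ i, ∀ᶠ n in 𝒰, (S j n).p b ≤ (S i n).t) (fun j b h => by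
    obtain ⟨i, h⟩ := h
    refine ⟨i, ?_⟩
    filter_upwards [h, hstep j] with n a1 a2 using (a2.mono hb (hI _ n) b).1.trans a1)
  set Act : B → Prop := fun b => ∀ᶠ n in 𝒰, (S ja n).act bar b with hAct
  set Near : B → Prop := fun b => ∃ i, ∀ᶠ n in 𝒰, (S jb n).p b ≤ (S i n).t with hNear
  obtain ⟨j0, hA, hN⟩ : ∃ j0, (∀ j, j0 ≤ j → ∀ b, (∀ᶠ n in 𝒰, (S j n).act bar b) ↔ Act b) ∧
      ∀ j, j0 ≤ j → ∀ b, (∃ i, ∀ᶠ n in 𝒰, (S j n).p b ≤ (S i n).t) ↔ Near b :=
    ⟨max ja jb, fun j hj => hja j (le_of_max_le_left hj), fun j hj => hjb j (le_of_max_le_right hj)⟩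
  clear_value Act Near
  clear hja hjb hAct hNear
  have stA : ∀ j, j0 ≤ j → ∃ c, ∀ᶠ n in 𝒰, Normal bar c (S (j + 1) n) (S (j + 2) n) := by
    intro j hj
    have a1 : ∀ᶠ n in 𝒰, ∃ b, (S (j + 1) n).act bar b ∧ (S (j + 1) n).p b = (S (j + 1) n).t := by
      rcases Ultrafilter.eventually_or.1 (hstep j) with h | h
      · filter_upwards [h] with n h
        obtain ⟨b, h1, h2⟩ := h.hit
        exact ⟨b, (h.act_iff b).2 h1, by rw [h.p_eq]; exact h2⟩
      · obtain ⟨c, h⟩ := Ultrafilter.eventually_exists_iff.1 h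
        have := (hA (j + 1) (by omega) c).2 ((hA j hj c).1 (h.mono (fun n h => h.act)))
        filter_upwards [h, this] with n h1 h2 using ⟨c, h2, h1.pc⟩
    refine Ultrafilter.eventually_exists_iff.1 ?_
    filter_upwards [a1, hstep (j + 1)] with n h1 h2
    refine h2.resolve_left (fun h => ?_)
    obtain ⟨b, h3, h4⟩ := h1
    have := h.le b h3
    have := h.lt
    omega
  have trn : ∀ j, j0 ≤ j → ∀ b c, (∀ᶠ n in 𝒰, Normal bar c (S j n) (S (j + 1) n)) → b ≠ c →
      Act b → (∀ᶠ n in 𝒰, (S j n).p b = (S j n).t) → Near (bar c) := by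
    intro j hj b c h1 h2 h3 h4
    obtain ⟨i, hi⟩ := (hN (j + 1) (by omega) b).2 ((hN j hj b).1 ⟨j, h4.mono (fun n h => h.le)⟩)
    refine (hN j hj _).1 ⟨i, ?_⟩
    filter_upwards [h1, (hA j hj b).2 h3, h4, hi] with n a1 a2 a3 a4
    rw [← (a1.tr b h2 a2 a3).1]
    exact a4
  set NN : Finset B := Finset.univ.filter (fun b => Act b ∧ Near b ∧ Near (bar b)) with hNN
  have mNN : ∀ b, b ∈ NN ↔ Act b ∧ Near b ∧ Near (bar b) := fun b => by simp [hNN]
  have actbar : ∀ b, Act b → Act (bar b) := fun b h =>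
    (hA j0 le_rfl _).1 (((hA j0 le_rfl _).2 h).mono (fun n h => (hI _ n).act_bar hb h))
  have NNbar : ∀ b ∈ NN, bar b ∈ NN := by
    intro b h
    rw [mNN] at *
    exact ⟨actbar b h.1, h.2.2, by rw [hb]; exact h.2.1⟩
  have stB : ∀ j, j0 + 2 ≤ j → ∃ c ∈ NN, ∀ᶠ n in 𝒰, Normal bar c (S j n) (S (j + 1) n) := by
    intro j hj
    obtain ⟨j, rfl⟩ : ∃ i, j = i + 2 := ⟨j - 2, by omega⟩
    obtain ⟨c0, h0⟩ := stA j (by omega)
    obtain ⟨c, h1⟩ := stA (j + 1) (by omega)
    have a0 : Act c0 := (hA (j + 1) (by omega) c0).1 (h0.mono (fun n h => h.act))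
    refine ⟨c, (mNN c).2 ⟨(hA (j + 2) (by omega) c).1 (h1.mono (fun n h => h.act)),
      (hN (j + 2) (by omega) c).1 ⟨j + 2, h1.mono (fun n h => h.start.le)⟩, ?_⟩, h1⟩
    by_cases hc : c0 = c
    swap
    · exact trn (j + 2) (by omega) c0 c h1 hc a0 (h0.mono (fun n h => h.pc))
    subst hc
    have a1 : ∀ᶠ n in 𝒰, (S (j + 2) n).t = (S (j + 1) n).p (bar c0) ∨
        ∃ b, (S (j + 1) n).act bar b ∧ b ≠ c0 ∧ b ≠ bar c0 ∧ (S (j + 2) n).p b = (S (j + 2) n).t := by
      filter_upwards [h0, h1] with n a1 a2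
      refine a1.hit.resolve_left (fun h => ?_)
      have a3 : 0 < (S (j + 2) n).w c0 := a2.act.1
      have := a1.wc
      omega
    rcases Ultrafilter.eventually_or.1 a1 with h | h
    · exact (hN (j + 1) (by omega) _).1 ⟨j + 2, h.mono (fun n h => h.ge)⟩
    · obtain ⟨b, h⟩ := Ultrafilter.eventually_exists_iff.1 h
      exact trn (j + 2) (by omega) b c0 h1 h.exists.choose_spec.2.1
        ((hA (j + 1) (by omega) b).1 (h.mono (fun n h => h.1))) (h.mono (fun n h => h.2.2.2))
  obtain ⟨j2, hj2, stB⟩ : ∃ j2, j0 ≤ j2 ∧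
      ∀ j, j2 ≤ j → ∃ c ∈ NN, ∀ᶠ n in 𝒰, Normal bar c (S j n) (S (j + 1) n) :=
    ⟨j0 + 2, by omega, stB⟩
  clear stA trn
  have hsum : ∀ j, j2 ≤ j → ∀ᶠ n in 𝒰, ∑ b ∈ NN, (S j n).w b + 2 * (S j n).t =
      ∑ b ∈ NN, (S j2 n).w b + 2 * (S j2 n).t := by
    intro j hj
    induction hj with
    | refl => exact Eventually.of_forall (fun _ => rfl)
    | step h ih =>
      obtain ⟨c, h1, h2⟩ := stB _ h
      filter_upwards [ih, h2] with n a1 a2 using (a2.sum_w (hI _ n) h1 (NNbar c h1)).trans a1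
  have allact : ∀ j, j2 ≤ j → ∀ᶠ n in 𝒰, ∀ b ∈ NN, (S j n).act bar b := fun j hj =>
    (Filter.eventually_all_finset NN).2 (fun b h => (hA j (hj2.trans hj) b).2 ((mNN b).1 h).1)
  have wsum : ∀ j, j2 ≤ j → ∀ x : ℕ → ℤ, (∀ᶠ n in 𝒰, 0 ≤ x n) →
      (∀ b, Near b → ∀ᶠ n in 𝒰, (S j n).p b ≤ (S j n).t + x n) →
      ∀ᶠ n in 𝒰, (∀ b ∈ NN, (S j n).w b ≤ N * x n) ∧
        ∑ b ∈ NN, (S j n).w b ≤ Fintype.card B * N * x n := by
    intro j hj x hx h
    have a1 : ∀ᶠ n in 𝒰, ∀ b ∈ NN, (S j n).w b ≤ N * x n := by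
      refine (Filter.eventually_all_finset NN).2 (fun b hb' => ?_)
      filter_upwards [allact j hj, h b ((mNN b).1 hb').2.1, h _ ((mNN b).1 hb').2.2] with n a1 a2 a3
      exact width_le hb (hP n) (hI j n) (a1 b hb') a2 a3
    filter_upwards [a1, hx] with n a2 a3
    refine ⟨a2, (Finset.sum_le_card_nsmul _ _ _ a2).trans ?_⟩
    rw [nsmul_eq_mul, mul_assoc]
    exact mul_le_mul_of_nonneg_right (by exact_mod_cast Finset.card_le_univ _) (by positivity)
  obtain ⟨js, hjs, hjs'⟩ : ∃ js, j2 ≤ js ∧ ∀ b, Near b → ∀ᶠ n in 𝒰, (S j2 n).p b ≤ (S js n).t := by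
    have : ∀ b, ∃ i, Near b → ∀ᶠ n in 𝒰, (S j2 n).p b ≤ (S i n).t := by
      intro b
      by_cases h : Near b
      · obtain ⟨i, hi⟩ := (hN j2 hj2 b).2 h
        exact ⟨i, fun _ => hi⟩
      · exact ⟨0, fun h' => absurd h' h⟩
    choose f hf using this
    refine ⟨max j2 (Finset.univ.sup f), le_max_left _ _, fun b h => ?_⟩
    filter_upwards [hf b h, tmono (f b) _
      (le_max_of_le_right (Finset.le_sup (Finset.mem_univ b)))] with n a1 a2 using a1.trans a2
  set lam : ℕ → ℤ := fun n => (S js n).t - (S j2 n).t with hlam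
  have hl : ∀ᶠ n in 𝒰, 0 ≤ lam n := (tmono j2 js hjs).mono (fun n h => by simp only [hlam]; omega)
  have w2 := wsum j2 le_rfl lam hl (fun b h => (hjs' b h).mono (fun n h => by simp only [hlam]; omega))
  set C : ℕ := Cft (Fintype.card B * (2 * qs j2 + 1)) with hC
  set Y : ℕ := (N + 1) * (Fintype.card B + 1) with hY
  set K : ℕ := 2 * C * (Fintype.card B + 1) * Y + 2 * C * (qs j2 + 1) + 1 with hK
  obtain ⟨j1, hj1, hc⟩ := cauchy 𝒰 (fun j n => (S j n).t) lam hl (Fintype.card B * N) K js (by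
    intro j hj
    filter_upwards [w2, hsum j (hjs.trans hj), allact j (hjs.trans hj), hl,
      tmono j2 j (hjs.trans hj)] with n a1 a2 a3 a4 a5
    have : 0 ≤ ∑ b ∈ NN, (S j n).w b := Finset.sum_nonneg (fun b h => (a3 b h).1.le)
    have a6 := a1.2
    simp only [hlam] at a4
    push_cast
    linarith)
  have h21 : j2 ≤ j1 := hjs.trans hj1
  have hKpos : (0 : ℤ) < K := by rw [hK]; positivity
  set m0 : ℕ → ℤ := fun n => lam n / K with hm0
  have hm : ∀ᶠ n in 𝒰, 0 ≤ m0 n := hl.mono (fun n h => Int.ediv_nonneg h hKpos.le)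
  have G1 : ∀ j, j1 ≤ j → ∀ b, Near b → ∀ᶠ n in 𝒰, (S j n).p b ≤ (S j1 n).t + m0 n := by
    intro j hj b h
    obtain ⟨i, hi⟩ := (hN j (by omega) b).2 h
    filter_upwards [hi, tmono i _ (le_max_left i j1), hc _ (le_max_right i j1)] with n a1 a2 a3
    have : (S (max i j1) n).t - (S j1 n).t ≤ m0 n :=
      Int.le_ediv_of_mul_le hKpos (by rw [mul_comm]; exact a3)
    omega
  have G2 := fun j (hj : j1 ≤ j) => wsum j (h21.trans hj) m0 hm (fun b h => by
    filter_upwards [G1 j hj b h, tmono j1 j hj] with n a1 a2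
    omega)
  have narrow : ∀ b, Act b → Near b → b ∉ NN → ∀ᶠ n in 𝒰, (S j2 n).w b ≤ N * m0 n := by
    intro b h1 h2 h3
    have ne1 : ∀ c ∈ NN, b ≠ c ∧ b ≠ bar c := fun c hc =>
      ⟨fun h => h3 (h ▸ hc), fun h => h3 (h ▸ NNbar c hc)⟩
    have a1 : ∀ j, j2 ≤ j → ∀ᶠ n in 𝒰, (S j n).w b = (S j2 n).w b := by
      intro j hj
      induction hj with
      | refl => exact Eventually.of_forall (fun _ => rfl)
      | step h ih =>
        obtain ⟨c, h4, h5⟩ := stB _ h
        filter_upwards [ih, h5] with n a1 a2 using (a2.w_eq b (ne1 c h4).1 (ne1 c h4).2).trans a1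
    have a2 : ∃ j, j1 ≤ j ∧ ∀ᶠ n in 𝒰, (S j n).p b = (S j n).t := by
      by_contra hn
      have hn' : ∀ j, j1 ≤ j → ∀ᶠ n in 𝒰, ¬ (S j n).p b = (S j n).t := fun j hj =>
        Ultrafilter.eventually_not.2 (fun h => hn ⟨j, hj, h⟩)
      have a3 : ∀ j, j1 ≤ j → ∀ᶠ n in 𝒰, (S j n).p b = (S j1 n).p b := by
        intro j hj
        induction hj with
        | refl => exact Eventually.of_forall (fun _ => rfl)
        | step h ih =>
          obtain ⟨c, h4, h5⟩ := stB _ (h21.trans h)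
          filter_upwards [ih, h5, hn' _ h] with n a1 a2 a3 using
            (a2.ntr b (ne1 c h4).1 (ne1 c h4).2 (fun h => a3 h.2)).trans a1
      obtain ⟨i, hi⟩ := (hN j1 (by omega) b).2 h2
      obtain ⟨n, b1, b2, b3, b4, b5⟩ := (hi.and ((tmono i _ (le_max_left i j1)).and
        ((hstep (max i j1)).and ((a3 (max i j1 + 1) (by omega)).and
        ((hA (max i j1 + 1) (by omega) b).2 h1))))).exists
      have := b3.lt
      have := (hI _ n).t_le b b5
      omega
    obtain ⟨j, hj, a2⟩ := a2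
    obtain ⟨c, h4, h5⟩ := stB j (h21.trans hj)
    filter_upwards [a1 j (h21.trans hj), a2, h5, G2 j hj, (hA j (by omega) b).2 h1]
      with n b1 b2 b3 b4 b5
    rw [← b1]
    exact (b3.tr b (ne1 c h4).1 b5 b2).2.trans (b4.1 c h4)
  have far : ∀ b, ¬ Near b → ∀ᶠ n in 𝒰, (S j1 n).t ≤ (S j2 n).p b := by
    intro b h
    have : ¬ ∀ᶠ n in 𝒰, (S j2 n).p b ≤ (S j1 n).t := fun h' => h ((hN j2 hj2 b).1 ⟨j1, h'⟩)
    exact (Ultrafilter.eventually_not.2 this).mono (fun n h => by omega)
  have F1 : ∀ᶠ n in 𝒰, ∀ b, (S j2 n).act bar b → b ∉ NN → (S j2 n).w b ≤ N * m0 n ∨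
      ((S j1 n).t ≤ (S j2 n).p b ∧ (S j1 n).t ≤ (S j2 n).p (bar b)) := by
    refine Filter.eventually_all.2 (fun b => ?_)
    by_cases h0 : b ∈ NN
    · exact Eventually.of_forall (fun n _ h => absurd h0 h)
    by_cases h1 : Act b
    swap
    · have : ¬ ∀ᶠ n in 𝒰, (S j2 n).act bar b := fun h' => h1 ((hA j2 hj2 b).1 h')
      exact (Ultrafilter.eventually_not.2 this).mono (fun n h h' => absurd h' h)
    by_cases h2 : Near b
    · exact (narrow b h1 h2 h0).mono (fun n h _ _ => Or.inl h)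
    by_cases h3 : Near (bar b)
    · refine (narrow _ (actbar b h1) h3 (fun h => h0 (hb b ▸ NNbar _ h))).mono
        (fun n h _ _ => Or.inl ?_)
      rwa [(hI _ n).w_bar] at h
    · exact ((far b h2).and (far _ h3)).mono (fun n h _ _ => Or.inr h)
  have F2 : ∀ᶠ n in 𝒰, ∀ b ∈ NN, (S j2 n).p b + (S j2 n).w b ≤ (S j1 n).t + m0 n + N * m0 n := by
    refine (Filter.eventually_all_finset NN).2 (fun b h => ?_)
    filter_upwards [emono b j2 j1 h21, G1 j1 le_rfl b ((mNN b).1 h).2.1, G2 j1 le_rfl]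
      with n a1 a2 a3
    have := a3.1 b h
    omega
  obtain ⟨c, _, F3⟩ := stB j1 h21
  obtain ⟨n, b1, b2, b3, b4, b5, b6, b7, b8, b9⟩ := (F1.and (F2.and (F3.and ((allact j2 le_rfl).and
    ((hsum j1 h21).and ((G2 j1 le_rfl).and (hm.and ((hc (j1 + 1) (by omega)).and
    (tmono js j1 hj1))))))))).exists
  obtain ⟨m, hm'⟩ : ∃ m : ℕ, m0 n = m := ⟨(m0 n).toNat, by omega⟩
  have c1 : K * m0 n ≤ lam n := Int.mul_ediv_self_le hKpos.ne'
  rw [hm'] at b1 b2 b6 c1
  have c2 : (K : ℤ) ≤ lam n := by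
    have := b3.lt
    nlinarith
  have c3 : (0 : ℤ) ≤ N * m := by positivity
  have c4 : (0 : ℤ) ≤ Fintype.card B * N * m := by positivity
  have c5 : (0 : ℤ) ≤ Fintype.card B * m := by positivity
  have c6 : ((Y * m : ℕ) : ℤ) = Fintype.card B * N * m + N * m + Fintype.card B * m + m := by
    rw [hY]; push_cast; ring
  refine hnp j2 n (closed_case hb e (hI j2 n) (qs j2) (Y * m) NN (S j1 n).t
    (fun b h => ⟨b4 b h, NNbar b h, ?_⟩) (fun b h h' => (b1 b h h').imp (fun h => ?_) id) ?_ ?_ ?_)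
  · have := b2 b h
    omega
  · omega
  · have := b6.2
    omega
  · have := (hI j1 n).le_L c b3.act
    have := b3.act.1
    have := b3.start
    omega
  · rw [← hC]
    simp only [hlam] at c1 c2
    rw [hK] at c1 c2
    push_cast at c1 c2 ⊢
    have d1 : (0 : ℤ) ≤ 2 * C * (Fintype.card B + 1) * Y := by positivity
    have d2 : (0 : ℤ) ≤ (2 * C * (qs j2 + 1) + 1) * m := by positivity
    nlinarith

theorem no_family [Fintype B] {bar : B → B} (hb : ∀ b, bar (bar b) = b)
    {W : ℕ → ℤ → A} {L : ℕ → ℤ} {N e q0 : ℕ} {S0 : ℕ → St B}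
    (hI : ∀ n, Inv (W n) (L n) bar (S0 n)) (hP : ∀ n, PB (W n) (L n) N)
    (hnp : ∀ n, ¬ Pq (W n) (L n) bar e (S0 n) q0) (hL : ∀ n : ℕ, (n : ℤ) ≤ L n - (S0 n).t) :
    False := by
  set next : St B → St B := fun S => if h : ∃ S', Step bar S S' then h.choose else S with hnext
  have n1 : ∀ S, Step bar S (next S) ∨ ((¬ ∃ S', Step bar S S') ∧ next S = S) := by
    intro S
    by_cases h : ∃ S', Step bar S S'
    · left
      simp only [hnext, dif_pos h]
      exact h.choose_spec
    · right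
      simp only [hnext, dif_neg h]
      exact ⟨h, trivial⟩
  set S : ℕ → ℕ → St B := fun j n => next^[j] (S0 n) with hS
  have hS' : ∀ j n, S (j + 1) n = next (S j n) := fun j n => Function.iterate_succ_apply' _ _ _
  set qs : ℕ → ℕ := fun j => (fun q => 2 * ((Fintype.card B + 1) * q) + 1)^[j] q0 with hqs
  have hqs' : ∀ j, qs (j + 1) = 2 * ((Fintype.card B + 1) * qs j) + 1 :=
    fun j => Function.iterate_succ_apply' _ _ _
  have g1 : ∀ j n, Inv (W n) (L n) bar (S j n) ∧ ¬ Pq (W n) (L n) bar e (S j n) (qs j) := by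
    intro j n
    induction j with
    | zero => exact ⟨hI n, hnp n⟩
    | succ j ih =>
      rw [hS', hqs']
      rcases n1 (S j n) with h | h
      · exact ⟨h.inv hb ih.1, fun h' => ih.2 (h.pull hb ih.1 h')⟩
      · rw [h.2]
        exact ⟨ih.1, fun h' => ih.2 (fun Q hQ => h' Q (by nlinarith))⟩
  have g2 : ∀ j n, (qs j : ℤ) < L n - (S j n).t → Step bar (S j n) (S (j + 1) n) := by
    intro j n h
    rw [hS']
    refine (n1 _).resolve_right (fun h' => h'.1 (exists_step hb (g1 j n).1 ?_))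
    by_contra h2
    exact (g1 j n).2 (free_pump hb (g1 j n).1 e (t' := L n) (fun b h3 => absurd ⟨b, h3⟩ h2) le_rfl
      (by omega))
  have g3 : ∀ j, ∀ m : ℕ, ∀ᶠ n in atTop, (m : ℤ) ≤ L n - (S j n).t := by
    intro j
    induction j with
    | zero =>
      intro m
      filter_upwards [eventually_ge_atTop m] with n h
      exact le_trans (by exact_mod_cast h) (hL n)
    | succ j ih =>
      intro m
      filter_upwards [ih ((N + 1) * m + qs j + 1)] with n h
      have a1 : (0 : ℤ) ≤ (N + 1) * m := by positivity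
      push_cast at h
      have a2 := (g2 j n (by omega)).remain hb (hP n) (g1 j n).1 (g1 j n).2
      by_contra a3
      have a4 : (N + 1 : ℤ) * (L n - (S (j + 1) n).t) ≤ (N + 1) * m :=
        mul_le_mul_of_nonneg_left (by omega) (by positivity)
      omega
  refine no_run hb (hyperfilter ℕ) (fun j n => (g1 j n).1) hP (fun j n => (g1 j n).2) (fun j => ?_)
  refine Eventually.filter_mono Nat.hyperfilter_le_atTop ?_
  filter_upwards [g3 j (qs j + 1)] with n h
  exact g2 j n (by push_cast at h; omega)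

end Pool.Agent.MP_fd2cd0_lc

end MrgPart3

-- ======== part 4: formerly Pool.Agent.MP_fd2cd0_lc.Main
section MrgPart4

/-! From word equations to band systems. -/

namespace Pool.Agent.MP_fd2cd0_lc

open Classical

variable {A Ω : Type}

lemma subst_append (σ : Ω → List A) (U V : List (A ⊕ Ω)) :
    subst σ (U ++ V) = subst σ U ++ subst σ V := List.flatMap_append

lemma subst_cons (σ : Ω → List A) (x : A ⊕ Ω) (U : List (A ⊕ Ω)) :
    subst σ (x :: U) = Sum.elim (fun a => [a]) σ x ++ subst σ U := List.flatMap_cons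

lemma subst_take_succ (σ : Ω → List A) {T : List (A ⊕ Ω)} {i : ℕ} {x : A ⊕ Ω}
    (h : T[i]? = some x) :
    subst σ (T.take (i + 1)) = subst σ (T.take i) ++ Sum.elim (fun a => [a]) σ x := by
  rw [List.take_add_one, h, subst_append]
  simp [subst]

lemma subst_decomp (σ : Ω → List A) {T : List (A ⊕ Ω)} {i : ℕ} {x : A ⊕ Ω}
    (h : T[i]? = some x) : subst σ T =
      subst σ (T.take i) ++ Sum.elim (fun a => [a]) σ x ++ subst σ (T.drop (i + 1)) := by
  rw [← subst_take_succ σ h, ← subst_append, List.take_append_drop]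

/-- A finite word as a function on the integers. -/
def wd (l : List A) (a0 : A) (s : ℤ) : A := l.getD s.toNat a0

lemma wd_mid (l1 l2 l3 : List A) (a0 : A) {s : ℤ} (h1 : l1.length ≤ s)
    (h2 : s < l1.length + l2.length) : wd (l1 ++ l2 ++ l3) a0 s = wd l2 a0 (s - l1.length) := by
  unfold wd
  rw [List.getD_append _ _ _ _ (by simp; omega), List.getD_append_right _ _ _ _ (by omega)]
  congr 1
  omega

lemma seg_wd (l : List A) (a0 : A) : seg (wd l a0) 0 l.length = l := by
  induction l using List.reverseRecOn with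
  | nil => simp [seg_nil]
  | append_singleton l a ih =>
    have e : ((l ++ [a]).length : ℤ) = l.length + 1 := by simp
    rw [e, seg_split _ (by omega : (0 : ℤ) ≤ l.length) (by omega), seg_single]
    congr 1
    · refine Eq.trans (cat_congr (fun s h1 h2 => ?_)) ih
      have := wd_mid [] l [a] a0 (s := s) (by simpa using h1) (by simpa using h2)
      simpa using this
    · simp [wd]

lemma no_pow_subst {σ : Ω → List A} {e : ℕ} (he : 2 ≤ e) {u : List A} (hu : u ≠ []) :
    ∀ T : List (A ⊕ Ω), (∀ X, Sum.inr X ∈ T → ¬ pw u e <:+: σ X) →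
      ¬ pw u (T.length * e + 1) <:+: subst σ T := by
  have hu' := List.length_pos_iff.2 hu
  intro T
  induction T with
  | nil =>
    intro _ h
    have := h.length_le
    simp [pw_length, subst, hu] at this
  | cons x T ih =>
    intro h h1
    have e1 : (x :: T).length * e + 1 = e + (T.length * e + 1) := by simp; ring
    rw [e1, subst_cons] at h1
    rcases pw_isInfix_append h1 with h2 | h2
    · cases x with
      | inl a =>
        have := h2.length_le
        simp only [pw_length, Sum.elim_inl, List.length_singleton] at this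
        nlinarith
      | inr X => exact h X (by simp) h2
    · exact ih (fun X hX => h X (List.mem_cons_of_mem _ hX)) h2

lemma pb_of_no_pow {l : List A} (a0 : A) {N : ℕ} (h : ∀ u, u ≠ [] → ¬ pw u (N + 1) <:+: l) :
    PB (wd l a0) l.length N := by
  intro p d w h1 h2 h3 h4
  by_contra h5
  refine h (seg (wd l a0) p (p + d)) (seg_ne_nil _ (by omega)) ?_
  rw [← seg_periodic h2.le N p (fun s a1 a2 => h4 s a1 (by omega))]
  conv_rhs => rw [← seg_wd l a0]
  have : (0 : ℤ) ≤ N * d := by positivity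
  exact cat_isInfix_cat _ h1 (by linarith) (by linarith)

lemma exists_idx (f : ℕ → ℤ) (s : ℤ) (h0 : f 0 ≤ s) : ∀ k, s < f k →
    ∃ i < k, f i ≤ s ∧ s < f (i + 1) := by
  intro k
  induction k with
  | zero => intro h; omega
  | succ k ih =>
    intro h
    by_cases h1 : s < f k
    · obtain ⟨i, a1, a2⟩ := ih h1
      exact ⟨i, by omega, a2⟩
    · exact ⟨k, by omega, by omega, h⟩

section Init

variable (U V : List (A ⊕ Ω))

/-- Occurrences of letters in the two sides. -/
abbrev Occ := Bool × Fin (U.length + V.length)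

def side (b : Bool) : List (A ⊕ Ω) := if b then U else V

def letter (o : Occ U V) : Option (A ⊕ Ω) := (side U V o.1)[o.2.1]?

def start (σ : Ω → List A) (o : Occ U V) : ℤ := (subst σ ((side U V o.1).take o.2.1)).length

def stop (σ : Ω → List A) (o : Occ U V) : ℤ := (subst σ ((side U V o.1).take (o.2.1 + 1))).length

def vlen (σ : Ω → List A) : Option (A ⊕ Ω) → ℤ
  | some (Sum.inr X) => (σ X).length
  | _ => 0

noncomputable def init (σ : Ω → List A) : St (Occ U V × Occ U V) where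
  t := 0
  p := fun b => start U V σ b.1
  w := fun b => if letter U V b.1 = letter U V b.2 then vlen σ (letter U V b.1) else 0

variable {U V}

lemma side_subst {σ : Ω → List A} (h : IsSol U V σ) (b : Bool) :
    subst σ (side U V b) = subst σ U := by
  cases b
  · exact h.2.symm
  · rfl

lemma init_w {σ : Ω → List A} {b : Occ U V × Occ U V} (h : 0 < (init U V σ).w b) :
    ∃ X, letter U V b.1 = some (Sum.inr X) ∧ letter U V b.2 = some (Sum.inr X) ∧
      (init U V σ).w b = (σ X).length := by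
  simp only [init] at h ⊢
  split_ifs at h with h1
  · rw [if_pos h1, ← h1]
    generalize letter U V b.1 = x at *
    rcases x with _ | a | X
    · simp [vlen] at h
    · simp [vlen] at h
    · exact ⟨X, rfl, rfl, rfl⟩
  · omega

lemma occ_wd {σ : Ω → List A} (h : IsSol U V σ) (a0 : A) {o : Occ U V} {x : A ⊕ Ω}
    (ho : letter U V o = some x) :
    start U V σ o + (Sum.elim (fun a => [a]) σ x).length ≤ (subst σ U).length ∧
    ∀ s, start U V σ o ≤ s → s < start U V σ o + (Sum.elim (fun a => [a]) σ x).length →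
      wd (subst σ U) a0 s = wd (Sum.elim (fun a => [a]) σ x) a0 (s - start U V σ o) := by
  rw [← side_subst h o.1, subst_decomp σ ho]
  refine ⟨by simp only [start, List.length_append]; omega, fun s h1 h2 => wd_mid _ _ _ a0 h1 h2⟩

lemma init_inv {σ : Ω → List A} (h : IsSol U V σ) (a0 : A) :
    Inv (wd (subst σ U) a0) (subst σ U).length Prod.swap (init U V σ) where
  w_bar := fun b => by
    simp only [init, Prod.fst_swap, Prod.snd_swap]
    by_cases h1 : letter U V b.1 = letter U V b.2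
    · rw [if_pos h1, if_pos h1.symm, h1]
    · rw [if_neg h1, if_neg (Ne.symm h1)]
  t_le := fun b _ => by simp [init, start]
  le_L := fun b hb => by
    obtain ⟨X, h1, _, h3⟩ := init_w hb.1
    rw [h3]
    exact (occ_wd h a0 h1).1
  hW := fun b s h1 h2 => by
    obtain ⟨X, h3, h4, h5⟩ := init_w (σ := σ) (b := b) (by omega)
    rw [h5] at h2
    simp only [init, St.dd, Prod.fst_swap] at h1 h2 ⊢
    rw [(occ_wd h a0 h3).2 s h1 h2, (occ_wd h a0 h4).2 _ (by omega)
      (by simp only [Sum.elim_inr]; omega)]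
    congr 1
    ring
  t_nonneg := le_rfl

lemma stop_eq (σ : Ω → List A) {o : Occ U V} {x : A ⊕ Ω} (ho : letter U V o = some x) :
    stop U V σ o = start U V σ o + (Sum.elim (fun a => [a]) σ x).length := by
  unfold stop start
  rw [subst_take_succ σ ho]
  simp

lemma init_pump {σ : Ω → List A} (h : IsSol U V σ) (a0 : A) {e : ℕ} (he : 1 ≤ e)
    (hP : Pq (wd (subst σ U) a0) (subst σ U).length Prod.swap e (init U V σ)
      (2 * Fintype.card (Occ U V))) :
    ∃ σ', IsSol U V σ' ∧ ∃ X, Sum.inr X ∈ U ++ V ∧ ∃ u, u ≠ [] ∧ pw u e <:+: σ' X := by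
  obtain ⟨ω, h1, h2, s, u, h3, h4⟩ := hP
    (Finset.univ.image (start U V σ) ∪ Finset.univ.image (stop U V σ)) (by
      refine (Finset.card_union_le _ _).trans ?_
      have a1 := Finset.card_image_le (s := Finset.univ) (f := start U V σ)
      have a2 := Finset.card_image_le (s := Finset.univ) (f := stop U V σ)
      rw [Finset.card_univ] at a1 a2
      omega)
  have m1 : ∀ o, start U V σ o ∈ Finset.univ.image (start U V σ) ∪ Finset.univ.image (stop U V σ) :=
    fun o => Finset.mem_union_left _ (Finset.mem_image_of_mem _ (Finset.mem_univ _))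
  have m2 : ∀ o, stop U V σ o ∈ Finset.univ.image (start U V σ) ∪ Finset.univ.image (stop U V σ) :=
    fun o => Finset.mem_union_right _ (Finset.mem_image_of_mem _ (Finset.mem_univ _))
  generalize Finset.univ.image (start U V σ) ∪ Finset.univ.image (stop U V σ) = Q at *
  set W := wd (subst σ U) a0 with hW
  set σ' : Ω → List A := fun X => if h : ∃ o : Occ U V, letter U V o = some (Sum.inr X) then
    ph W ω (start U V σ h.choose) (stop U V σ h.choose) else σ X with hσ'
  have k1 : ∀ o X, letter U V o = some (Sum.inr X) →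
      σ' X = ph W ω (start U V σ o) (stop U V σ o) := by
    intro o X ho
    have hex : ∃ o : Occ U V, letter U V o = some (Sum.inr X) := ⟨o, ho⟩
    have ho' := hex.choose_spec
    simp only [hσ', dif_pos hex]
    generalize hex.choose = o' at ho'
    have a1 := stop_eq σ ho
    have a2 := stop_eq σ ho'
    rw [h2 (o', o) _ _ (m1 o') (m2 o') le_rfl (by omega)
      (by simp only [init, ho, ho', if_true, vlen, a2, Sum.elim_inr, le_refl])]
    simp only [St.dd, init, Prod.fst_swap]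
    congr 1 <;> omega
  have k2 : ∀ o x, letter U V o = some x →
      Sum.elim (fun a => [a]) σ' x = ph W ω (start U V σ o) (stop U V σ o) := by
    intro o x ho
    cases x with
    | inr X => exact k1 o X ho
    | inl a =>
      have a1 : ω (start U V σ o) = [] := by
        by_contra h'
        exact (h1 _ h').2.2 (m1 o)
      have a2 := (occ_wd h a0 ho).2 _ le_rfl (by simp)
      rw [stop_eq σ ho]
      simp only [Sum.elim_inl, List.length_singleton, Nat.cast_one, ph_single, a1, hW, a2]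
      simp [wd]
  have k3 : ∀ b i, i ≤ (side U V b).length → subst σ' ((side U V b).take i) =
      ph W ω 0 (subst σ ((side U V b).take i)).length := by
    intro b i
    induction i with
    | zero => intro _; simp [subst, ph_nil]
    | succ i ih =>
      intro hi
      have a1 : (side U V b).length ≤ U.length + V.length := by
        unfold side; split_ifs <;> omega
      have a2 : letter U V (b, ⟨i, by omega⟩) = some ((side U V b)[i]) :=
        List.getElem?_eq_getElem (show i < (side U V b).length by omega)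
      have a3 := stop_eq σ a2
      rw [subst_take_succ σ' a2, ih (by omega), k2 _ _ a2]
      exact (ph_split W ω (by omega) (by simp only [start] at a3 ⊢; unfold stop at *; omega)).symm
  have k4 : ∀ b, subst σ' (side U V b) = ph W ω 0 (subst σ U).length := by
    intro b
    have := k3 b _ le_rfl
    rwa [List.take_length, side_subst h] at this
  refine ⟨σ', ⟨fun X => ?_, (k4 true).trans (k4 false).symm⟩, ?_⟩
  · by_cases hex : ∃ o : Occ U V, letter U V o = some (Sum.inr X)
    · obtain ⟨o, ho⟩ := hex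
      have a1 := ph_length_ge W ω (start U V σ o) (stop U V σ o)
      have a2 := List.length_pos_iff.2 (h.1 X)
      rw [← k1 o X ho, stop_eq σ ho] at a1
      simp only [Sum.elim_inr] at a1
      exact List.length_pos_iff.1 (by omega)
    · simp only [hσ', dif_neg hex]
      exact h.1 X
  · have a1 : ω s ≠ [] := by
      intro h5
      have := h4.length_le
      have := List.length_pos_iff.2 h3
      rw [h5, pw_length, List.length_nil] at *
      nlinarith
    obtain ⟨a2, a3, a4⟩ := h1 s a1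
    obtain ⟨i, b1, b2, b3⟩ := exists_idx (fun i => (subst σ (U.take i)).length) s
      (by simpa [subst, init] using a2) U.length (by simpa using a3)
    have b4 : letter U V (true, ⟨i, by omega⟩) = some U[i] := List.getElem?_eq_getElem b1
    have b5 : start U V σ (true, ⟨i, by omega⟩) ≤ s := b2
    have b6 : s < stop U V σ (true, ⟨i, by omega⟩) := b3
    have b7 : U[i] ∈ U := List.getElem_mem b1
    generalize U[i] = x at *
    cases x with
    | inl a =>
      rw [stop_eq σ b4] at b6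
      simp only [Sum.elim_inl, List.length_singleton, Nat.cast_one] at b6
      exact absurd ((by omega : start U V σ (true, ⟨i, by omega⟩) = s) ▸ m1 _) a4
    | inr X =>
      refine ⟨X, List.mem_append_left _ b7, u, h3, h4.trans ?_⟩
      rw [k1 _ X b4]
      exact isInfix_ph W ω b5 b6

end Init

lemma length_le_subst (σ : Ω → List A) {T : List (A ⊕ Ω)} {X : Ω} (h : Sum.inr X ∈ T) :
    (σ X).length ≤ (subst σ T).length := by
  obtain ⟨s, t, rfl⟩ := List.append_of_mem h
  simp only [subst_append, subst_cons, List.length_append, Sum.elim_inr]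
  omega

theorem main [Fintype A] [Fintype Ω] (U V : List (A ⊕ Ω))
    (hinf : ((fun (σ : Ω → List A) (X : {X : Ω // Sum.inr X ∈ U ++ V}) => σ X.1) ''
      {σ | IsSol U V σ}).Infinite) (n : ℕ) :
    ∃ σ, IsSol U V σ ∧ ∃ X, Sum.inr X ∈ U ++ V ∧ ∃ w : List A, w ≠ [] ∧ pw w n <:+: σ X := by
  by_contra hn
  have hn' : ∀ σ, IsSol U V σ → ∀ X, Sum.inr X ∈ U ++ V → ∀ w : List A, w ≠ [] →
      ¬ pw w (n + 2) <:+: σ X := by
    intro σ h1 X h2 w h3 h4
    refine hn ⟨σ, h1, X, h2, w, h3, List.IsInfix.trans ?_ h4⟩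
    rw [pw_add]
    exact (List.prefix_append _ _).isInfix
  have hlen : ∀ k : ℕ, ∃ σ, IsSol U V σ ∧ k ≤ (subst σ U).length := by
    intro k
    by_contra h
    push Not at h
    refine hinf (Set.Finite.subset (Set.Finite.pi' (fun _ => List.finite_length_le A k)) ?_)
    rintro _ ⟨σ, h1, rfl⟩ ⟨X, hX⟩
    have a1 := h σ h1
    rcases List.mem_append.1 hX with h2 | h2
    · exact (length_le_subst σ h2).trans a1.le
    · exact (length_le_subst σ h2).trans (h1.2 ▸ a1.le)
  obtain ⟨a0⟩ : Nonempty A := by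
    obtain ⟨σ, _, h⟩ := hlen 1
    exact ⟨(subst σ U)[0]⟩
  choose σ h1 h2 using hlen
  refine no_family (B := Occ U V × Occ U V) (bar := Prod.swap) Prod.swap_swap
    (W := fun k => wd (subst (σ k) U) a0) (L := fun k => (subst (σ k) U).length)
    (N := U.length * (n + 2)) (e := n + 2) (q0 := 2 * Fintype.card (Occ U V))
    (S0 := fun k => init U V (σ k)) (fun k => init_inv (h1 k) a0)
    (fun k => pb_of_no_pow a0 (fun u hu => no_pow_subst (by omega) hu U
      (fun X hX => hn' _ (h1 k) X (List.mem_append_left _ hX) u hu))) (fun k hP => ?_)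
    (fun k => by have := h2 k; simp only [init]; omega)
  obtain ⟨σ', a1, X, a2, u, a3, a4⟩ := init_pump (h1 k) a0 (by omega) hP
  exact hn' σ' a1 X a2 u a3 a4

end Pool.Agent.MP_fd2cd0_lc

end MrgPart4

-- marker of a merged file
example : 731051 + 505925 = 731051 + 505925 := rfl
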