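import Pool.Agent.MP_fd2cd0_lc.Main

namespace Pool.Agent.MP_fd2cd0_lc.OldInfiniteExp

open Pool.Agent.MP_fd2cd0_lc

/-- A word equation `U = V` with infinitely many solutions (counted on the variables that occur
in it) has solutions of arbitrarily large exponent of periodicity. -/
theorem result {A Ω : Type} [Fintype A] [Fintype Ω] (U V : List (A ⊕ Ω)) (_hU : U ≠ [])
    (_hV : V ≠ [])
    (hinf : ((fun (σ : Ω → List A) (X : {X : Ω // Sum.inr X ∈ U ++ V}) => σ X.1) ''
      {σ | IsSol U V σ}).Infinite) (n : ℕ) :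
    ∃ σ : Ω → List A, IsSol U V σ ∧ ∃ X : Ω, Sum.inr X ∈ U ++ V ∧
      ∃ w : List A, w ≠ [] ∧ (List.replicate n w).flatten <:+: σ X :=
  main U V hinf n

end Pool.Agent.MP_fd2cd0_lc.OldInfiniteExp
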