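import Pool.Agent.MP_fd2cd0_lc.Thick

/-! Finite monoids and insertions that a finite monoid does not see. -/

namespace Pool.Agent.MP_fd2cd0_lc

open Classical

section Mon

variable {M : Type*} [Monoid M]

/-- `a` lies in the two-sided ideal generated by `b`. -/
def Jle (a b : M) : Prop := ∃ x y, a = x * b * y

/-- `a` and `j` generate the same two-sided ideal. -/
def InJ (j a : M) : Prop := Jle a j ∧ Jle j a

lemma Jle.refl (a : M) : Jle a a := ⟨1, 1, by simp⟩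

lemma Jle.trans {a b c : M} (h1 : Jle a b) (h2 : Jle b c) : Jle a c := by
  obtain ⟨x, y, rfl⟩ := h1
  obtain ⟨x', y', rfl⟩ := h2
  exact ⟨x * x', y' * y, by simp only [mul_assoc]⟩

lemma jle_mul_right (a b : M) : Jle (a * b) a := ⟨1, b, by simp⟩

lemma jle_mul_left (a b : M) : Jle (a * b) b := ⟨a, 1, by simp⟩

lemma InJ.jle {j a b : M} (h1 : InJ j a) (h2 : InJ j b) : Jle a b := h1.1.trans h2.2

variable [Finite M]

omit [Monoid M] in
lemma exists_period (g : ℕ → M) : ∃ m k, 0 < k ∧ g (m + k) = g m := by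
  obtain ⟨a, b, h1, h2⟩ := Finite.exists_ne_map_eq_of_infinite g
  rcases lt_or_gt_of_ne h1 with h | h
  · exact ⟨a, b - a, by omega, by rw [Nat.add_sub_cancel' h.le]; exact h2.symm⟩
  · exact ⟨b, a - b, by omega, by rw [Nat.add_sub_cancel' h.le]; exact h2⟩

lemma stab_right {a b : M} (h : Jle a (a * b)) : ∃ c, a = a * b * c := by
  obtain ⟨x, y, h⟩ := h
  have h1 : ∀ n : ℕ, a = x ^ n * a * (b * y) ^ n := by
    intro n
    induction n with
    | zero => simp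
    | succ n ih =>
      calc a = x ^ n * a * (b * y) ^ n := ih
        _ = x ^ n * (x * (a * b) * y) * (b * y) ^ n := by rw [← h]
        _ = _ := by rw [pow_succ x, pow_succ' (b * y)]; simp only [mul_assoc]
  obtain ⟨m, k, hk, h2⟩ := exists_period (fun n => (b * y) ^ n)
  obtain ⟨k, rfl⟩ : ∃ k', k = k' + 1 := ⟨k - 1, by omega⟩
  refine ⟨y * (b * y) ^ k, ?_⟩
  calc a = x ^ m * a * (b * y) ^ m := h1 m
    _ = x ^ m * a * (b * y) ^ (m + (k + 1)) := by rw [h2]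
    _ = x ^ m * a * (b * y) ^ m * (b * y) ^ (k + 1) := by rw [pow_add]; simp only [mul_assoc]
    _ = a * (b * y) ^ (k + 1) := by rw [← h1 m]
    _ = _ := by rw [pow_succ' (b * y)]; simp only [mul_assoc]

lemma stab_left {a b : M} (h : Jle a (b * a)) : ∃ c, a = c * (b * a) := by
  obtain ⟨x, y, h⟩ := h
  have h1 : ∀ n : ℕ, a = (x * b) ^ n * a * y ^ n := by
    intro n
    induction n with
    | zero => simp
    | succ n ih =>
      calc a = (x * b) ^ n * a * y ^ n := ih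
        _ = (x * b) ^ n * (x * (b * a) * y) * y ^ n := by rw [← h]
        _ = _ := by rw [pow_succ (x * b), pow_succ' y]; simp only [mul_assoc]
  obtain ⟨m, k, hk, h2⟩ := exists_period (fun n => (x * b) ^ n)
  obtain ⟨k, rfl⟩ : ∃ k', k = k' + 1 := ⟨k - 1, by omega⟩
  refine ⟨(x * b) ^ k * x, ?_⟩
  calc a = (x * b) ^ m * a * y ^ m := h1 m
    _ = (x * b) ^ (m + (k + 1)) * a * y ^ m := by rw [h2]
    _ = (x * b) ^ (k + 1) * ((x * b) ^ m * a * y ^ m) := by
      rw [add_comm m, pow_add]; simp only [mul_assoc]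
    _ = (x * b) ^ (k + 1) * a := by rw [← h1 m]
    _ = _ := by rw [pow_succ (x * b)]; simp only [mul_assoc]

/-- A loop inside one class has a power that fixes the context. -/
lemma loop_pow {j a u u' : M} (ha : InJ j a) (hau : InJ j (a * u)) (h : a * u = u' * a) :
    ∃ k, 0 < k ∧ a * u ^ k = a := by
  obtain ⟨c, hc⟩ := stab_right (ha.jle hau)
  have h1 : ∀ m : ℕ, a * u ^ m = u' ^ m * a := by
    intro m
    induction m with
    | zero => simp
    | succ m ih => rw [pow_succ, ← mul_assoc, ih, mul_assoc, h, ← mul_assoc, ← pow_succ]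
  have h2 : ∀ m : ℕ, a * u ^ m = a * u ^ (m + 1) * c := by
    intro m
    calc a * u ^ m = u' ^ m * a := h1 m
      _ = u' ^ m * (a * u * c) := by rw [← hc]
      _ = u' ^ m * a * u * c := by simp only [mul_assoc]
      _ = _ := by rw [← h1 m, pow_succ]; simp only [mul_assoc]
  have h3 : ∀ k m : ℕ, a * u ^ (m + k) = a * u ^ m → a * u ^ k = a := by
    intro k m
    induction m with
    | zero => simp
    | succ m ih =>
      intro h4
      refine ih ?_
      rw [h2 (m + k), h2 m, ← h4]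
      congr 3
      omega
  obtain ⟨m, k, hk, h4⟩ := exists_period (fun n => a * u ^ n)
  exact ⟨k, hk, h3 k m h4⟩

lemma cancel_mid {j α t a0 w z β : M} (h1 : α = a0 * t) (h2 : α * w = z * t)
    (h3 : α * w * β = α * β) (hα : InJ j α) (ht : InJ j t) (hβ : InJ j (α * β)) : t * w = t := by
  obtain ⟨γ, hγ⟩ := stab_right (hα.jle hβ)
  obtain ⟨c, hc⟩ := stab_left (a := t) (b := a0) (h1 ▸ ht.jle hα)
  rw [← h1] at hc
  have h4 : t * β * γ = t := by
    calc t * β * γ = c * α * β * γ := by rw [← hc]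
      _ = c * (α * β * γ) := by simp only [mul_assoc]
      _ = t := by rw [← hγ, ← hc]
  have h5 : α * w = α := by
    calc α * w = z * (t * β * γ) := by rw [h4, h2]
      _ = z * t * β * γ := by simp only [mul_assoc]
      _ = α := by rw [← h2, h3, ← hγ]
  calc t * w = c * α * w := by rw [← hc]
    _ = c * (α * w) := mul_assoc _ _ _
    _ = t := by rw [h5, ← hc]

lemma inJ_glue {j a v c : M} (hv : InJ j v) (h1 : InJ j (a * v)) (h2 : InJ j (v * c)) :
    InJ j (a * v * c) := by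
  obtain ⟨z, hz⟩ := stab_left (hv.jle h1)
  refine ⟨(jle_mul_right _ _).trans h1.1, h2.2.trans ⟨z, 1, ?_⟩⟩
  rw [mul_one, ← mul_assoc, ← hz]

end Mon

section Ev

variable {A M : Type*} [Monoid M]

/-- The value of a word in a monoid. -/
def ev (f : A → M) (l : List A) : M := (l.map f).prod

lemma ev_nil (f : A → M) : ev f [] = 1 := rfl

lemma ev_append (f : A → M) (u v : List A) : ev f (u ++ v) = ev f u * ev f v := by
  simp [ev]

lemma ev_pw (f : A → M) (u : List A) (k : ℕ) : ev f (pw u k) = ev f u ^ k := by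
  induction k with
  | zero => simp [pw_zero, ev_nil]
  | succ k ih => rw [pw_succ, ev_append, ih, pow_succ']

lemma ev_ph {f : A → M} {W : ℤ → A} {ω : ℤ → List A} {x : ℤ}
    (h : ∀ s, x ≤ s → ev f (seg W x (s + 1) ++ ω s) = ev f (seg W x (s + 1))) (y : ℤ) :
    ev f (ph W ω x y) = ev f (seg W x y) := by
  rcases le_or_gt y x with h1 | h1
  · rw [ph_nil _ _ h1, seg_nil _ h1]
  have h2 : x ≤ y := h1.le
  clear h1
  induction y, h2 using Int.leInduction with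
  | base => rw [ph_nil _ _ le_rfl, seg_nil _ le_rfl]
  | succ y hy ih =>
    rw [← h y hy, ph_split W ω hy (by omega : y ≤ y + 1), seg_split W hy (by omega : y ≤ y + 1),
      ph_single, seg_single, ev_append, ih, List.append_assoc, ev_append]
    rfl

/-- The last `l` letters up to position `s`. -/
def ctx (W : ℤ → A) (l : ℕ) (s : ℤ) : List A := seg W (s + 1 - l) (s + 1)

lemma ev_ctx {f : A → M} {W : ℤ → A} {l : ℕ} {s x : ℤ} {w : List A} (hx : x + l ≤ s + 1)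
    (h : ev f (ctx W l s ++ w) = ev f (ctx W l s)) :
    ev f (seg W x (s + 1) ++ w) = ev f (seg W x (s + 1)) := by
  rw [seg_split W (m := s + 1 - l) (by omega) (by omega), List.append_assoc, ev_append,
    ev_append f (seg W x (s + 1 - l))]
  exact congrArg _ h

lemma pw_isInfix_mul (u : List A) {k : ℕ} (hk : 0 < k) (e : ℕ) : pw u e <:+: pw u (k * (e + 1)) := by
  obtain ⟨r, hr⟩ : ∃ r, k * (e + 1) = e + r := ⟨k * (e + 1) - e, by
    have : 1 * (e + 1) ≤ k * (e + 1) := Nat.mul_le_mul_right _ hk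
    omega⟩
  rw [hr, pw_add]
  exact (List.prefix_append _ _).isInfix

/-- A power of a loop is not seen after its context. -/
lemma exists_loop [Finite M] {f : A → M} {j : M} {p u u' : List A} (hp : InJ j (ev f p))
    (hpu : InJ j (ev f (p ++ u))) (h : p ++ u = u' ++ p) (e : ℕ) :
    ∃ n, ev f (p ++ pw u (n + 1)) = ev f p ∧ pw u e <:+: pw u (n + 1) := by
  rw [ev_append] at hpu
  obtain ⟨k, hk, h1⟩ := loop_pow hp hpu (u' := ev f u') (by rw [← ev_append, h, ev_append])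
  have h2 : ∀ n : ℕ, ev f p * ev f u ^ (k * n) = ev f p := by
    intro n
    induction n with
    | zero => simp
    | succ n ih => rw [mul_add, mul_one, pow_add, ← mul_assoc, ih, h1]
  obtain ⟨n, hn⟩ : ∃ n, k * (e + 1) = n + 1 := ⟨k * (e + 1) - 1, by
    have : 0 < k * (e + 1) := by positivity
    omega⟩
  refine ⟨n, ?_, hn ▸ pw_isInfix_mul u hk e⟩
  rw [ev_append, ev_pw, ← hn, h2]

lemma free_loop [Finite M] {f : A → M} {j : M}
    (h : ∀ a b, InJ j a → InJ j b → ∃ v : List A, InJ j (a * ev f v * b)) {p : List A}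
    (hp : InJ j (ev f p)) (hp' : p ≠ []) (e : ℕ) :
    ∃ w u, ev f (p ++ w) = ev f p ∧ u ≠ [] ∧ pw u e <:+: w := by
  obtain ⟨v, hv⟩ := h _ _ hp hp
  obtain ⟨n, h1, h2⟩ := exists_loop (f := f) (j := j) (p := p) (u := v ++ p) (u' := p ++ v) hp
    (by rw [ev_append, ev_append, ← mul_assoc]; exact hv) (by simp) e
  exact ⟨_, v ++ p, h1, by simp [hp'], h2⟩

lemma ctx_ne_nil (W : ℤ → A) {l : ℕ} (h : 0 < l) (s : ℤ) : ctx W l s ≠ [] :=
  seg_ne_nil _ (by omega)

end Ev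

namespace Sys

variable {A B M : Type*} [Monoid M] (G : Sys A B)

/-- None of the three configurations that can be pumped occurs. -/
structure NP {K : Type*} (κ : ℤ → K) : Prop where
  hκ : ∀ s γ, G.dom γ s → s ∉ G.Z → κ (s + G.d γ) = κ s
  h0 : ∀ S : Set ℤ, G.Closed (fun _ _ => True) S → G.Clean S → ∀ x ∈ S, False
  h1 : ∀ (β : B) (j0 j1 : ℤ), G.lo β ≤ j0 → j1 ≤ G.hi β → ∀ S : Set ℤ,
    G.Closed (G.okc β (Finset.Ico j0 j1)) S → G.Clean S → ∀ x y : ℤ, j0 ≤ x → x < j1 → j0 ≤ y →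
    y < j1 → x ∈ S → y + G.d β ∈ S → κ (y + G.d β) = κ x →
    (∀ s, j0 ≤ s → s < j1 → ((s ∈ S ∧ s ≠ x) ↔ (s + G.d β ∈ S ∧ s ≠ y))) →
    (∀ s ∈ S, ¬ (x < s ∧ s < y) ∧ ¬ (y < s ∧ s < x)) → False
  h2 : ∀ (β : B) (j0 j1 : ℤ), G.lo β ≤ j0 → j1 ≤ G.hi β → ∀ S T : Set ℤ,
    G.Closed (G.okc β (Finset.Ico j0 j1)) S → G.Clean S →
    G.Closed (G.okc β (Finset.Ico j0 j1)) T → G.Clean T → ∀ x y : ℤ, j0 ≤ x → x < j1 → j0 ≤ y →
    y < j1 → x ∈ S → (∀ s, j0 ≤ s → s < j1 → s + G.d β ∉ S) → (∀ s, j0 ≤ s → s < j1 → s ∉ T) →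
    (∀ s, j0 ≤ s → s < j1 → (s + G.d β ∈ T ↔ s = y)) → False

/-- An insertion as in `Pump` that the monoid does not see after the context of length `l`. -/
def GP (f : A → M) (l e : ℕ) : Prop :=
  ∃ ω : ℤ → List A, (∀ s, ω s ≠ [] → G.a ≤ s ∧ s < G.b ∧ s ∉ G.Z) ∧
    (∀ γ, ph G.W ω (G.lo γ) (G.hi γ) = ph G.W ω (G.lo γ + G.d γ) (G.hi γ + G.d γ)) ∧
    (∀ s, ev f (ctx G.W l s ++ ω s) = ev f (ctx G.W l s)) ∧
    ∃ s u, u ≠ [] ∧ pw u e <:+: ω s

/-- All long factors inside the bands lie in one regular class. -/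
structure Stab (f : A → M) (j : M) (l : ℕ) : Prop where
  pos : 0 < l
  s2 : ∀ s, G.a ≤ s → s < G.b → s ∉ G.Z → InJ j (ev f (ctx G.W l s))
  s3 : ∀ γ s, G.dom γ s → s ∉ G.Z → G.lo γ + l ≤ s + 1
  s4 : ∀ γ x y, G.lo γ ≤ x → x + l ≤ y → y ≤ G.hi γ → InJ j (ev f (seg G.W x y))
  s5 : ∀ a b, InJ j a → InJ j b → ∃ v : List A, InJ j (a * ev f v * b)

variable {G} {f : A → M} {j : M} {l : ℕ}

lemma Stab.ctx_eq (h : G.Stab f j l) (s : ℤ) (γ : B) (hd : G.dom γ s) (hs : s ∉ G.Z) :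
    ctx G.W l (s + G.d γ) = ctx G.W l s := by
  have h1 := h.s3 γ s hd hs
  have h2 := hd.2
  unfold ctx
  rw [seg_shift (x := s + 1 - l) (y := s + 1) (G.d γ)
    (fun z a1 a2 => G.hW γ z (by omega) (by omega))]
  congr 1 <;> ring

lemma Stab.restrict (h : G.Stab f j l) {ok : ℤ → B → Prop} {S : Set ℤ} (hc : G.Closed ok S)
    (hcl : G.Clean S) (p : List A) : G.Closed ok {s | s ∈ S ∧ ctx G.W l s = p} ∧
      G.Clean {s | s ∈ S ∧ ctx G.W l s = p} :=
  ⟨fun s hs γ hd ho => ⟨hc s hs.1 γ hd ho, (h.ctx_eq s γ hd (hcl s hs.1).2.2).trans hs.2⟩,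
    fun s hs => hcl s hs.1⟩

variable [Finite M]

lemma Stab.gp0 (h : G.Stab f j l) (e : ℕ) {S : Set ℤ} (hc : G.Closed (fun _ _ => True) S)
    (hcl : G.Clean S) {x : ℤ} (hx : x ∈ S) : G.GP f l e := by
  obtain ⟨hc', hcl'⟩ := h.restrict hc hcl (ctx G.W l x)
  have hx' : x ∈ {s | s ∈ S ∧ ctx G.W l s = ctx G.W l x} := ⟨hx, rfl⟩
  have hS' : ∀ s ∈ {s | s ∈ S ∧ ctx G.W l s = ctx G.W l x}, ctx G.W l s = ctx G.W l x :=
    fun s hs => hs.2
  generalize {s | s ∈ S ∧ ctx G.W l s = ctx G.W l x} = S' at *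
  obtain ⟨w, u, h1, h2, h3⟩ := free_loop h.s5
    (h.s2 x (hcl x hx).1 (hcl x hx).2.1 (hcl x hx).2.2) (ctx_ne_nil _ h.pos x) e
  refine ⟨fun s => if s ∈ S' then w else [], ?_, ?_, ?_, x, u, h2, by simpa [hx'] using h3⟩
  · intro s hs
    by_cases h4 : s ∈ S'
    · exact hcl' s h4
    · simp [h4] at hs
  · intro γ
    refine ph_congr_shift _ (G.hW γ) (fun s h4 h5 => ?_)
    simp only [hc'.iff (fun _ _ _ => trivial) (⟨h4, h5⟩ : G.dom γ s) trivial]
  · intro s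
    by_cases h4 : s ∈ S'
    · simp only [if_pos h4, hS' s h4, h1]
    · simp [h4]

lemma Stab.gp1 (h : G.Stab f j l) (e : ℕ) {β : B} {j0 j1 : ℤ} (h0 : G.lo β ≤ j0)
    (h1 : j1 ≤ G.hi β) {S0 : Set ℤ} (hc0 : G.Closed (G.okc β (Finset.Ico j0 j1)) S0)
    (hcl0 : G.Clean S0) {x y : ℤ} (hx0 : j0 ≤ x) (hx1 : x < j1) (hy0 : j0 ≤ y) (hy1 : y < j1)
    (hx' : x ∈ S0) (hy' : y + G.d β ∈ S0) (hk : ctx G.W l (y + G.d β) = ctx G.W l x)
    (hm0 : ∀ s, j0 ≤ s → s < j1 → ((s ∈ S0 ∧ s ≠ x) ↔ (s + G.d β ∈ S0 ∧ s ≠ y)))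
    (hb0 : ∀ s ∈ S0, ¬ (x < s ∧ s < y) ∧ ¬ (y < s ∧ s < x)) : G.GP f l e := by
  obtain ⟨hc, hcl⟩ := h.restrict hc0 hcl0 (ctx G.W l x)
  have hx : x ∈ {s | s ∈ S0 ∧ ctx G.W l s = ctx G.W l x} := ⟨hx', rfl⟩
  have hy : y + G.d β ∈ {s | s ∈ S0 ∧ ctx G.W l s = ctx G.W l x} := ⟨hy', hk⟩
  have hS : ∀ s ∈ {s | s ∈ S0 ∧ ctx G.W l s = ctx G.W l x}, ctx G.W l s = ctx G.W l x :=
    fun s hs => hs.2
  have hb : ∀ s ∈ {s | s ∈ S0 ∧ ctx G.W l s = ctx G.W l x},
      ¬ (x < s ∧ s < y) ∧ ¬ (y < s ∧ s < x) := fun s hs => hb0 s hs.1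
  have hm : ∀ s, j0 ≤ s → s < j1 →
      ((s ∈ {s | s ∈ S0 ∧ ctx G.W l s = ctx G.W l x} ∧ s ≠ x) ↔
        (s + G.d β ∈ {s | s ∈ S0 ∧ ctx G.W l s = ctx G.W l x} ∧ s ≠ y)) := by
    intro s a1 a2
    have a3 : G.dom β s := ⟨by omega, by omega⟩
    constructor
    · rintro ⟨⟨b1, b2⟩, b3⟩
      have := (hm0 s a1 a2).1 ⟨b1, b3⟩
      exact ⟨⟨this.1, (h.ctx_eq s β a3 (hcl0 s b1).2.2).trans b2⟩, this.2⟩
    · rintro ⟨⟨b1, b2⟩, b3⟩
      have := (hm0 s a1 a2).2 ⟨b1, b3⟩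
      exact ⟨⟨this.1, (h.ctx_eq s β a3 (hcl0 s this.1).2.2).symm.trans b2⟩, this.2⟩
  generalize {s | s ∈ S0 ∧ ctx G.W l s = ctx G.W l x} = S at *
  have hdy : G.dom (G.bar β) (y + G.d β) := dom_bar.2 ⟨by omega, by omega⟩
  have hky : ctx G.W l y = ctx G.W l x := by
    have := h.ctx_eq _ _ hdy (hcl _ hy).2.2
    rw [add_d_bar] at this
    exact this.trans hk
  have lx := h.s3 β x ⟨by omega, by omega⟩ (hcl x hx).2.2
  have ly := h.s3 _ _ hdy (hcl _ hy).2.2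
  rw [G.lo_bar] at ly
  have hp := h.s2 x (hcl x hx).1 (hcl x hx).2.1 (hcl x hx).2.2
  have key : ∀ w u : List A, ev f (ctx G.W l x ++ w) = ev f (ctx G.W l x) → u ≠ [] →
      pw u e <:+: w → ph G.W (fun s => if s ∈ S then w else []) j0 j1 =
        ph G.W (fun s => if s + G.d β ∈ S then w else []) j0 j1 → G.GP f l e := by
    intro w u hw hu hu' h2
    refine ⟨fun s => if s ∈ S then w else [], ?_, ?_, ?_, x, u, hu, by simpa [hx] using hu'⟩
    · intro s hs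
      by_cases h3 : s ∈ S
      · exact hcl s h3
      · simp [h3] at hs
    · refine valid_of_strip (by omega) h0 h1 (fun γ s hd ho => ?_) h2
      simp only [hc.iff (sym_okc _ _) hd ho]
    · intro s
      by_cases h4 : s ∈ S
      · simp only [if_pos h4, hS s h4, hw]
      · simp [h4]
  have hout : ∀ (w : List A) s, j0 ≤ s → s < j1 → s ≠ x → s ≠ y →
      (if s ∈ S then w else []) = (if s + G.d β ∈ S then w else []) := by
    intro w s h2 h3 h4 h5
    have := hm s h2 h3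
    simp only [h4, h5, ne_eq, not_false_eq_true, and_true] at this
    simp only [this]
  have loop : ∀ a b : ℤ, a < b → G.lo β + l ≤ a + 1 → b < j1 → ctx G.W l a = ctx G.W l x →
      ctx G.W l b = ctx G.W l x → ∃ n, ev f (ctx G.W l x ++ pw (seg G.W (a + 1) (b + 1)) (n + 1)) =
        ev f (ctx G.W l x) ∧
        pw (seg G.W (a + 1) (b + 1)) e <:+: pw (seg G.W (a + 1) (b + 1)) (n + 1) := by
    intro a b a1 a2 a3 a4 a5
    have e1 : ctx G.W l x ++ seg G.W (a + 1) (b + 1) = seg G.W (a + 1 - l) (b + 1) := by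
      rw [← a4]
      exact (seg_split _ (by omega) (by omega)).symm
    refine exists_loop (u' := seg G.W (a + 1 - l) (b + 1 - l)) hp ?_ ?_ e
    · rw [e1]
      exact h.s4 β _ _ (by omega) (by omega) (by omega)
    · rw [e1, ← a5]
      exact seg_split _ (by omega) (by omega)
  rcases lt_trichotomy x y with hxy | hxy | hxy
  · obtain ⟨n, a1, a2⟩ := loop x y hxy lx hy1 rfl hky
    refine key _ _ a1 (seg_ne_nil _ (by omega)) a2 ?_
    refine ph_twist hx0 hxy hy1 (fun s h2 h3 h4 => hout _ s h2 h3 (by omega) (by omega))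
      (if_pos hx) (fun s h2 h3 => if_neg ?_) (if_pos hy) (fun s h2 h3 => if_neg ?_) (pw_comm _ _)
    · intro h
      rcases h3.lt_or_eq with h3 | h3
      · exact (hb s h).1 ⟨h2, h3⟩
      · exact ((hm s (by omega) (by omega)).1 ⟨h, by omega⟩).2 h3
    · intro h
      have := (hm s (by omega) (by omega)).2 ⟨h, by omega⟩
      exact (hb s this.1).1 ⟨by have := this.2; omega, h3⟩
  · subst hxy
    obtain ⟨w, u, a1, a2, a3⟩ := free_loop h.s5 hp (ctx_ne_nil _ h.pos x) e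
    refine key w u a1 a2 a3 (ph_congr fun s h2 h3 => ?_)
    by_cases h : s = x
    · subst h; simp [hx, hy]
    · exact hout _ s h2 h3 h h
  · obtain ⟨n, a1, a2⟩ := loop y x hxy (by omega) hx1 hky rfl
    refine key _ _ a1 (seg_ne_nil _ (by omega)) a2 (Eq.symm ?_)
    refine ph_twist hy0 hxy hx1 (fun s h2 h3 h4 => (hout _ s h2 h3 (by omega) (by omega)).symm)
      (if_pos hy) (fun s h2 h3 => if_neg ?_) (if_pos hx) (fun s h2 h3 => if_neg ?_) (pw_comm _ _)
    · intro h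
      have := (hm s (by omega) (by omega)).2 ⟨h, by omega⟩
      exact (hb s this.1).2 ⟨h2, by have := this.2; omega⟩
    · intro h
      rcases h2.lt_or_eq with h2 | h2
      · exact (hb s h).2 ⟨h2, h3⟩
      · exact ((hm s (by omega) (by omega)).1 ⟨h, by omega⟩).2 h2.symm

lemma Stab.gp2 (h : G.Stab f j l) (e : ℕ) {β : B} {j0 j1 : ℤ} (h0 : G.lo β ≤ j0)
    (h1 : j1 ≤ G.hi β) {S0 T0 : Set ℤ} (hc0 : G.Closed (G.okc β (Finset.Ico j0 j1)) S0)
    (hcl0 : G.Clean S0) (hc0' : G.Closed (G.okc β (Finset.Ico j0 j1)) T0) (hcl0' : G.Clean T0)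
    {x y : ℤ} (hx0 : j0 ≤ x) (hx1 : x < j1) (hy0 : j0 ≤ y) (hy1 : y < j1) (hx' : x ∈ S0)
    (hSr0 : ∀ s, j0 ≤ s → s < j1 → s + G.d β ∉ S0) (hTl0 : ∀ s, j0 ≤ s → s < j1 → s ∉ T0)
    (hTr0 : ∀ s, j0 ≤ s → s < j1 → (s + G.d β ∈ T0 ↔ s = y)) : G.GP f l e := by
  obtain ⟨hc, hcl⟩ := h.restrict hc0 hcl0 (ctx G.W l x)
  obtain ⟨hc', hcl'⟩ := h.restrict hc0' hcl0' (ctx G.W l (y + G.d β))
  have hx : x ∈ {s | s ∈ S0 ∧ ctx G.W l s = ctx G.W l x} := ⟨hx', rfl⟩
  have hS : ∀ s ∈ {s | s ∈ S0 ∧ ctx G.W l s = ctx G.W l x}, ctx G.W l s = ctx G.W l x :=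
    fun s hs => hs.2
  have hT : ∀ s ∈ {s | s ∈ T0 ∧ ctx G.W l s = ctx G.W l (y + G.d β)},
      ctx G.W l s = ctx G.W l (y + G.d β) := fun s hs => hs.2
  have hSr : ∀ s, j0 ≤ s → s < j1 → s + G.d β ∉ {s | s ∈ S0 ∧ ctx G.W l s = ctx G.W l x} :=
    fun s a1 a2 a3 => hSr0 s a1 a2 a3.1
  have hTl : ∀ s, j0 ≤ s → s < j1 → s ∉ {s | s ∈ T0 ∧ ctx G.W l s = ctx G.W l (y + G.d β)} :=
    fun s a1 a2 a3 => hTl0 s a1 a2 a3.1
  have hTr : ∀ s, j0 ≤ s → s < j1 →
      (s + G.d β ∈ {s | s ∈ T0 ∧ ctx G.W l s = ctx G.W l (y + G.d β)} ↔ s = y) :=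
    fun s a1 a2 => ⟨fun a3 => (hTr0 s a1 a2).1 a3.1, fun a3 => ⟨(hTr0 s a1 a2).2 a3, by rw [a3]⟩⟩
  generalize {s | s ∈ S0 ∧ ctx G.W l s = ctx G.W l x} = S at *
  generalize {s | s ∈ T0 ∧ ctx G.W l s = ctx G.W l (y + G.d β)} = T at *
  have hyT := (hTr y hy0 hy1).2 rfl
  have hdy : G.dom (G.bar β) (y + G.d β) := dom_bar.2 ⟨by omega, by omega⟩
  have hky : ctx G.W l (y + G.d β) = ctx G.W l y := by
    have := h.ctx_eq _ _ hdy (hcl' _ hyT).2.2
    rw [add_d_bar] at this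
    exact this.symm
  have ly := h.s3 _ _ hdy (hcl' _ hyT).2.2
  rw [G.lo_bar] at ly
  have hp := h.s2 x (hcl x hx).1 (hcl x hx).2.1 (hcl x hx).2.2
  have hl := h.pos
  set F : Finset ℤ := (Finset.Ico j0 j1).filter (· ∈ S) with hF
  have hFne : F.Nonempty := ⟨x, by simp [hF, hx0, hx1, hx]⟩
  have hmem : ∀ s, s ∈ F ↔ (j0 ≤ s ∧ s < j1) ∧ s ∈ S := by intro s; simp [hF]
  obtain ⟨⟨a1, a2⟩, a3⟩ := (hmem _).1 (F.min'_mem hFne)
  obtain ⟨⟨b1, b2⟩, b3⟩ := (hmem _).1 (F.max'_mem hFne)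
  have hmin : ∀ s, j0 ≤ s → s < j1 → s ∈ S → F.min' hFne ≤ s :=
    fun s h2 h3 h4 => F.min'_le s ((hmem s).2 ⟨⟨h2, h3⟩, h4⟩)
  have hmax : ∀ s, j0 ≤ s → s < j1 → s ∈ S → s ≤ F.max' hFne :=
    fun s h2 h3 h4 => F.le_max' s ((hmem s).2 ⟨⟨h2, h3⟩, h4⟩)
  generalize F.min' hFne = x1 at *
  generalize F.max' hFne = x2 at *
  have l1 := h.s3 β x1 ⟨by omega, by omega⟩ (hcl x1 a3).2.2
  have l2 := h.s3 β x2 ⟨by omega, by omega⟩ (hcl x2 b3).2.2
  obtain ⟨m, m1, m2, m3⟩ : ∃ m : ℤ, m ≤ y ∧ m ≤ x2 ∧ G.lo β + l ≤ m + 1 :=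
    ⟨min y x2, by omega, by omega, by omega⟩
  have j1' : InJ j (ev f (ctx G.W l x ++ seg G.W (x1 + 1) (y + 1))) := by
    rcases le_or_gt y x1 with h2 | h2
    · rw [seg_nil _ (by omega), List.append_nil]
      exact hp
    · rw [← hS x1 a3, ctx, ← seg_split _ (by omega) (by omega)]
      exact h.s4 β _ _ (by omega) (by omega) (by omega)
  obtain ⟨v, hv⟩ := h.s5 _ _ j1' (h.s4 β (m + 1 - l) (x2 + 1) (by omega) (by omega) (by omega))
  set w0 : List A := seg G.W (x1 + 1) (y + 1) ++ v ++ seg G.W (m + 1 - l) (x2 + 1) with hw0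
  have hw0n : w0 ≠ [] := by
    have := seg_ne_nil G.W (x := m + 1 - l) (y := x2 + 1) (by omega)
    simp [hw0, this]
  obtain ⟨n, n1, n2⟩ := exists_loop (f := f) (j := j) (p := ctx G.W l x) (u := w0)
    (u' := ctx G.W l x ++ seg G.W (x1 + 1) (y + 1) ++ v ++ seg G.W (m + 1 - l) (x2 + 1 - l)) hp
    (by
      rw [hw0, ← List.append_assoc, ← List.append_assoc, ev_append, ev_append]
      exact hv)
    (by
      have e1 : seg G.W (m + 1 - l) (x2 + 1) = seg G.W (m + 1 - l) (x2 + 1 - l) ++ ctx G.W l x := by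
        rw [← hS x2 b3]
        exact seg_split _ (by omega) (by omega)
      rw [hw0, e1]
      simp only [List.append_assoc]) e
  have w1 : seg G.W (x1 + 1) (y + 1) <+: pw w0 (n + 1) := by
    rw [pw_succ, hw0, List.append_assoc, List.append_assoc]
    exact List.prefix_append _ _
  have w2 : seg G.W (m + 1 - l) (x2 + 1) <:+ pw w0 (n + 1) := by
    rw [pw_succ, ← pw_comm]
    exact List.IsSuffix.trans (List.suffix_append _ _) (List.suffix_append _ _)
  generalize pw w0 (n + 1) = w at n1 n2 w1 w2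
  set ω0 : ℤ → List A := fun s => if s ∈ S then w else [] with hω0
  have hP : seg G.W j0 (y + 1) <+: ph G.W ω0 j0 j1 := by
    rw [ph_split G.W ω0 (by omega : j0 ≤ x1 + 1) (by omega : x1 + 1 ≤ j1), ph_last a1
      (fun s h2 h3 => if_neg (fun h => by have := hmin s h2 (by omega) h; omega))]
    refine List.IsPrefix.trans ?_ (List.prefix_append _ _)
    rcases le_or_gt y x1 with h | h
    · rw [seg_split G.W (by omega : j0 ≤ y + 1) (by omega : y + 1 ≤ x1 + 1), List.append_assoc]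
      exact List.prefix_append _ _
    · rw [seg_split G.W (by omega : j0 ≤ x1 + 1) (by omega : x1 + 1 ≤ y + 1), if_pos a3]
      exact (List.prefix_append_right_inj _).2 w1
  have hR0 : seg G.W (y + 1 - l) j1 <:+ ph G.W ω0 j0 j1 := by
    rw [ph_split G.W ω0 b1 b2.le, ph_split G.W ω0 (by omega : x2 ≤ x2 + 1) (by omega : x2 + 1 ≤ j1),
      ph_single, ph_eq_seg (x := x2 + 1)
      (fun s h2 h3 => if_neg (fun h => by have := hmax s (by omega) h3 h; omega))]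
    refine List.IsSuffix.trans ?_ (List.suffix_append _ _)
    have e1 : ω0 x2 = w := if_pos b3
    obtain ⟨r, hr⟩ := w2
    rw [e1, ← hr, ← List.cons_append, List.append_assoc, ← seg_split _ (by omega) (by omega),
      seg_split G.W (by omega : m + 1 - l ≤ y + 1 - l) (by omega : y + 1 - l ≤ j1),
      ← List.append_assoc]
    exact List.suffix_append _ _
  rw [seg_split G.W (by omega : y + 1 - l ≤ y + 1) (by omega : y + 1 ≤ j1)] at hR0
  have hR : seg G.W (y + 1) j1 <:+ ph G.W ω0 j0 j1 := (List.suffix_append _ _).trans hR0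
  obtain ⟨w', hw'⟩ := exists_mid hP hR (by
    have := ph_length_ge G.W ω0 j0 j1
    rw [seg_length, seg_length]
    omega)
  have hinv : ev f (ctx G.W l y ++ w') = ev f (ctx G.W l y) := by
    obtain ⟨z, hz⟩ := hR0
    rw [hw', ← List.append_assoc, List.append_cancel_right_eq] at hz
    obtain ⟨c, c1, c2, c3, c4⟩ : ∃ c : ℤ, G.lo β ≤ c ∧ c ≤ j0 ∧ c + l ≤ x1 + 1 ∧ c + l ≤ y + 1 :=
      ⟨min j0 (min x1 y + 1 - l), by omega, by omega, by omega, by omega⟩
    have e1 := ev_ph (f := f) (W := G.W) (ω := fun s => if j0 ≤ s then ω0 s else []) (x := c) (by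
      intro s hs
      by_cases d1 : j0 ≤ s
      swap
      · simp [d1]
      by_cases d2 : s ∈ S
      swap
      · simp [hω0, d2]
      have d3 : x1 ≤ s := by
        by_contra d3
        have := hmin s d1 (by omega) d2
        omega
      simp only [if_pos d1, hω0, if_pos d2]
      exact ev_ctx (l := l) (by omega) (by rw [hS s d2]; exact n1)) j1
    rw [ph_split G.W _ c2 (by omega : j0 ≤ j1), ph_eq_seg (fun s _ d2 => if_neg (by omega)),
      ph_congr (ω' := ω0) (fun s d1 _ => if_pos d1), hw', ← List.append_assoc, ← List.append_assoc,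
      ← seg_split _ c2 (by omega), seg_split G.W (by omega : c ≤ y + 1) (by omega : y + 1 ≤ j1),
      ev_append, ev_append, ev_append] at e1
    rw [ev_append]
    refine cancel_mid (j := j) (α := ev f (seg G.W c (y + 1))) (a0 := ev f (seg G.W c (y + 1 - l)))
      (z := ev f (seg G.W c j0 ++ z)) ?_ ?_ e1 (h.s4 β _ _ c1 c4 (by omega))
      (h.s4 β _ _ (by omega) (by omega) (by omega)) ?_
    · rw [← ev_append, ctx, ← seg_split _ (by omega) (by omega)]
    · rw [← ev_append, ← ev_append, ctx, List.append_assoc, hz, ← List.append_assoc,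
        ← seg_split _ c2 (by omega)]
    · rw [← ev_append, ← seg_split _ (by omega) (by omega)]
      exact h.s4 β _ _ c1 (by omega) h1
  refine ⟨fun s => if s ∈ S then w else if s ∈ T then w' else [], ?_, ?_, ?_, x, w0, hw0n, ?_⟩
  · intro s hs
    by_cases h : s ∈ S
    · exact hcl s h
    by_cases h' : s ∈ T
    · exact hcl' s h'
    · simp [h, h'] at hs
  · refine valid_of_strip (by omega) h0 h1 (fun γ s hd ho => ?_) ?_
    · simp only [hc.iff (sym_okc _ _) hd ho, hc'.iff (sym_okc _ _) hd ho]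
    · rw [ph_congr (ω' := ω0) (fun s h2 h3 => by simp [hω0, hTl s h2 h3]), hw',
        ph_split G.W _ (by omega : j0 ≤ y + 1) (by omega : y + 1 ≤ j1), ph_last hy0, ph_eq_seg]
      · simp [hSr y hy0 hy1, hTr y hy0 hy1]
      · intro s h2 h3
        have : s ≠ y := by omega
        simp [hSr s (by omega) h3, hTr s (by omega) h3, this]
      · intro s h2 h3
        have : s ≠ y := by omega
        simp [hSr s h2 (by omega), hTr s h2 (by omega), this]
  · intro s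
    by_cases h2 : s ∈ S
    · simp only [if_pos h2, hS s h2, n1]
    by_cases h3 : s ∈ T
    · simp only [if_neg h2, if_pos h3, hT s h3, hky, hinv]
    · simp [h2, h3]
  · simpa only [hx, if_true] using n2

theorem Stab.np (h : G.Stab f j l) {e : ℕ} (np : ¬ G.GP f l e) : G.NP (ctx G.W l) where
  hκ := h.ctx_eq
  h0 := fun _ hc hcl _ hx => np (h.gp0 e hc hcl hx)
  h1 := fun _ _ _ h0 h1 _ hc hcl _ _ a1 a2 a3 a4 a5 a6 a7 a8 a9 =>
    np (h.gp1 e h0 h1 hc hcl a1 a2 a3 a4 a5 a6 a7 a8 a9)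
  h2 := fun _ _ _ h0 h1 _ _ hc hcl hc' hcl' _ _ a1 a2 a3 a4 a5 a6 a7 a8 =>
    np (h.gp2 e h0 h1 hc hcl hc' hcl' a1 a2 a3 a4 a5 a6 a7 a8)

end Sys

end Pool.Agent.MP_fd2cd0_lc
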