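import Pool.Agent.MP_fd2cd0_lc.Main
import Pool.Agent.MP_fd2cd0_lc.RegA

/-! The finite theorem under the abstract hypothesis that no pumping configuration occurs.
The proofs are those of `Thick` and `Main` with the hypothesis `NP`. -/

namespace Pool.Agent.MP_fd2cd0_lc

open Classical

namespace Sys

variable {A B K : Type*} {G : Sys A B} {κ : ℤ → K}

lemma NP.conn (np : G.NP κ) {ok : ℤ → B → Prop} {v z : ℤ} (hc : G.CleanAt ok v)
    (h : G.Conn ok v z) : κ z = κ v := by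
  have : G.Closed ok {z | G.Conn ok v z ∧ κ z = κ v} := fun s hs γ hd ho =>
    ⟨hs.1.step hd ho, (np.hκ s γ hd (hc s hs.1)).trans hs.2⟩
  exact (this.of_conn ⟨Conn.refl _ _, rfl⟩ h).2

lemma no00N (np : G.NP κ) {β : B} {j0 j1 v : ℤ} (hv : v ∈ G.I)
    (hc : G.CleanAt (G.okc β (Finset.Ico j0 j1)) v)
    (hl : ∀ u ∈ Finset.Ico j0 j1, ¬ G.Conn (G.okc β (Finset.Ico j0 j1)) v u)
    (hr : ∀ u ∈ Finset.Ico (j0 + G.d β) (j1 + G.d β), ¬ G.Conn (G.okc β (Finset.Ico j0 j1)) v u) :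
    False := by
  refine np.h0 {z | G.Conn (G.okc β (Finset.Ico j0 j1)) v z} ?_ (hc.clean hv) v (Conn.refl _ v)
  intro s hs γ hd _
  refine Conn.step hs hd ?_
  rintro (⟨_, h⟩ | ⟨h1, h⟩)
  · exact hl s h hs
  · refine hr s ?_ hs
    rw [h1, G.d_bar, Finset.mem_Ico] at h
    rw [Finset.mem_Ico]
    omega

lemma no11N (np : G.NP κ) {β : B} {j0 j1 : ℤ} (h0 : G.lo β ≤ j0) (h1 : j1 ≤ G.hi β)
    {v : ℤ} (hv : v ∈ G.I) (hc : G.CleanAt (G.okc β (Finset.Ico j0 j1)) v)
    (hl : (G.cls (G.okc β (Finset.Ico j0 j1)) v ∩ Finset.Ico j0 j1).card = 1)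
    (hr : (G.cls (G.okc β (Finset.Ico j0 j1)) v ∩
      Finset.Ico (j0 + G.d β) (j1 + G.d β)).card = 1) : False := by
  obtain ⟨x, hx⟩ := Finset.card_eq_one.1 hl
  obtain ⟨y, hy⟩ := Finset.card_eq_one.1 hr
  have hx' : ∀ u, (G.Conn (G.okc β (Finset.Ico j0 j1)) v u ∧ j0 ≤ u ∧ u < j1) ↔ u = x := by
    intro u
    rw [← Finset.mem_singleton, ← hx, Finset.mem_inter, mem_cls hv, Finset.mem_Ico]
  have hy' : ∀ u, (G.Conn (G.okc β (Finset.Ico j0 j1)) v u ∧ j0 + G.d β ≤ u ∧ u < j1 + G.d β) ↔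
      u = y := by
    intro u
    rw [← Finset.mem_singleton, ← hy, Finset.mem_inter, mem_cls hv, Finset.mem_Ico]
  have a1 := (hx' x).2 rfl
  have a2 := (hy' y).2 rfl
  refine np.h1 β j0 j1 h0 h1 _ (conn_closed _ v) (hc.clean hv) x (y - G.d β)
    a1.2.1 a1.2.2 (by omega) (by omega) a1.1 (by simpa using a2.1)
    (by rw [sub_add_cancel, np.conn hc a2.1, np.conn hc a1.1]) ?_ ?_
  · intro s h2 h3
    constructor
    · rintro ⟨h4, h5⟩
      exact absurd ((hx' s).1 ⟨h4, h2, h3⟩) h5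
    · rintro ⟨h4, h5⟩
      have := (hy' _).1 ⟨h4, by omega, by omega⟩
      omega
  · intro s hs
    constructor
    · rintro ⟨h2, h3⟩
      have := (hx' s).1 ⟨hs, by omega, by omega⟩
      omega
    · rintro ⟨h2, h3⟩
      have := (hx' s).1 ⟨hs, by omega, by omega⟩
      omega

/-- If there is a clean leaf on the left, every clean component has a position on the left. -/
lemma leaf_forcesN (np : G.NP κ) {β : B} {j0 j1 : ℤ} (h0 : G.lo β ≤ j0)
    (h1 : j1 ≤ G.hi β) {s : ℤ}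
    (hs : G.Leaf (G.okc β (Finset.Ico j0 j1)) (Finset.Ico j0 j1)
      (Finset.Ico (j0 + G.d β) (j1 + G.d β)) s)
    (hsc : G.CleanAt (G.okc β (Finset.Ico j0 j1)) s) {v : ℤ} (hv : v ∈ G.I)
    (hc : G.CleanAt (G.okc β (Finset.Ico j0 j1)) v) :
    ∃ u ∈ Finset.Ico j0 j1, G.Conn (G.okc β (Finset.Ico j0 j1)) v u := by
  by_contra hl
  push Not at hl
  refine no00N np hv hc hl (fun x hx hvx => ?_)
  obtain ⟨s1, s2, s3⟩ := hs
  have hsI := Ico_sub_I h0 h1 s1
  rw [Finset.mem_Ico] at hx s1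
  refine np.h2 (G.bar β) (j0 + G.d β) (j1 + G.d β) (by rw [G.lo_bar]; omega)
    (by rw [G.hi_bar]; omega) {z | G.Conn (G.okc β (Finset.Ico j0 j1)) v z}
    {z | G.Conn (G.okc β (Finset.Ico j0 j1)) s z} (by rw [okc_bar]; exact conn_closed _ _)
    (hc.clean hv) (by rw [okc_bar]; exact conn_closed _ _) (hsc.clean hsI) x
    (s + G.d β) hx.1 hx.2 (by omega) (by omega) hvx ?_ ?_ ?_
  · intro u h2 h3
    exact hl _ (by rw [G.d_bar, Finset.mem_Ico]; omega)
  · intro u h2 h3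
    exact s3 _ (by rw [Finset.mem_Ico]; omega)
  · intro u h2 h3
    constructor
    · intro h
      have := s2 _ (by rw [G.d_bar, Finset.mem_Ico]; omega) h
      rw [G.d_bar] at this
      omega
    · rintro rfl
      rw [add_d_bar]
      exact Conn.refl _ _

lemma pair_oppN (np : G.NP κ) {β : B} {j0 j1 : ℤ} (h0 : G.lo β ≤ j0)
    (h1 : j1 ≤ G.hi β) {y t s : ℤ}
    (ht : G.Pair (G.okc β (Finset.Ico j0 j1)) (Finset.Ico j0 j1)
      (Finset.Ico (j0 + G.d β) (j1 + G.d β)) y t)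
    (hs : G.Pair (G.okc β (Finset.Ico j0 j1)) (Finset.Ico (j0 + G.d β) (j1 + G.d β))
      (Finset.Ico j0 j1) (y + G.d β) (s + G.d β)) : (t < y ∧ y < s) ∨ (s < y ∧ y < t) := by
  by_contra hn
  have hct := ht.conn
  have hcs := hs.conn
  obtain ⟨t1, t2, t3, t4, t5, t6⟩ := ht
  obtain ⟨s1, s2, s3, s4, s5, s6⟩ := hs
  have hL : ∀ u, j0 ≤ u → u < j1 → (u ∈ {z | G.Conn (G.okc β (Finset.Ico j0 j1)) y z} ∪
      {z | G.Conn (G.okc β (Finset.Ico j0 j1)) (y + G.d β) z} ↔ (u = y ∨ u = t)) := by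
    intro u a1 a2
    have a3 : u ∈ Finset.Ico j0 j1 := Finset.mem_Ico.2 ⟨a1, a2⟩
    rw [← t5 u a3]
    exact ⟨fun h => h.resolve_right (s6 u a3), Or.inl⟩
  have hR : ∀ u, j0 ≤ u → u < j1 → (u + G.d β ∈ {z | G.Conn (G.okc β (Finset.Ico j0 j1)) y z} ∪
      {z | G.Conn (G.okc β (Finset.Ico j0 j1)) (y + G.d β) z} ↔ (u = y ∨ u = s)) := by
    intro u a1 a2
    have a3 : u + G.d β ∈ Finset.Ico (j0 + G.d β) (j1 + G.d β) :=
      Finset.mem_Ico.2 ⟨by omega, by omega⟩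
    have := s5 _ a3
    simp only [add_left_inj] at this
    rw [← this]
    exact ⟨fun h => h.resolve_left (t6 _ a3), Or.inr⟩
  have hyI := Ico_sub_I h0 h1 t1
  have hyI' := Ico_sub_I' h0 h1 s1
  rw [Finset.mem_Ico] at t1 t2 s1 s2
  refine np.h1 β j0 j1 h0 h1 _ ((conn_closed _ y).union (conn_closed _ (y + G.d β)))
    ((t4.clean hyI).union (s4.clean hyI')) t s t2.1 t2.2 (by omega) (by omega)
    (Or.inl hct) (Or.inr hcs) (by
      rw [np.conn s4 hcs, np.conn t4 hct,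
        np.hκ y β ⟨by omega, by omega⟩ (t4 y (Conn.refl _ _))]) ?_ ?_
  · intro u a1 a2
    rw [hL u a1 a2, hR u a1 a2]
    omega
  · intro u hu
    constructor
    · rintro ⟨a1, a2⟩
      have := (hL u (by omega) (by omega)).1 hu
      omega
    · rintro ⟨a1, a2⟩
      have := (hL u (by omega) (by omega)).1 hu
      omega

lemma exists_childN (np : G.NP κ) {β : B} {j0 j1 : ℤ} (h0 : G.lo β ≤ j0)
    (h1 : j1 ≤ G.hi β) {u : ℤ} (hu : u ∈ Finset.Ico j0 j1)
    (hc : G.CleanAt (G.okc β (Finset.Ico j0 j1)) u)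
    (hone : ∀ v ∈ Finset.Ico j0 j1, G.Conn (G.okc β (Finset.Ico j0 j1)) u v → v = u)
    (hnl : ¬ G.Leaf (G.okc β (Finset.Ico j0 j1)) (Finset.Ico j0 j1)
      (Finset.Ico (j0 + G.d β) (j1 + G.d β)) u) :
    ∃ y ∈ Finset.Ico j0 j1, G.Conn (G.okc β (Finset.Ico j0 j1)) u (y + G.d β) ∧
      ¬ (G.CleanAt (G.okc β (Finset.Ico j0 j1)) y ∧ G.Leaf (G.okc β (Finset.Ico j0 j1))
        (Finset.Ico j0 j1) (Finset.Ico (j0 + G.d β) (j1 + G.d β)) y) := by
  by_contra hn
  push Not at hn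
  have hX := Ico_sub_I h0 h1
  have hXY' : ∀ u, u + G.d β ∈ Finset.Ico (j0 + G.d β) (j1 + G.d β) ↔ u ∈ Finset.Ico j0 j1 := by
    intro u; rw [Finset.mem_Ico, Finset.mem_Ico]; omega
  have p1 := np.h1 β j0 j1 h0 h1
  have hXm : ∀ u, u ∈ Finset.Ico j0 j1 ↔ j0 ≤ u ∧ u < j1 := fun u => Finset.mem_Ico
  generalize G.okc β (Finset.Ico j0 j1) = ok at *
  generalize Finset.Ico (j0 + G.d β) (j1 + G.d β) = Y at *
  generalize Finset.Ico j0 j1 = X at *
  set Ch := X.filter (fun y => G.Conn ok u (y + G.d β)) with hCh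
  have hne : Ch.Nonempty := by
    by_contra h
    refine hnl ⟨hu, hone, fun z hz hcz => h ⟨z - G.d β, ?_⟩⟩
    rw [hCh, Finset.mem_filter, ← hXY', sub_add_cancel]
    exact ⟨hz, hcz⟩
  obtain ⟨y, hy, hmin⟩ := Finset.exists_min_image Ch (fun y => |y - u|) hne
  have hm : ∀ y, y ∈ Ch ↔ y ∈ X ∧ G.Conn ok u (y + G.d β) := fun y => Finset.mem_filter
  have hleaf : ∀ y ∈ Ch, G.CleanAt ok y ∧ G.Leaf ok X Y y :=
    fun y hy => hn y ((hm y).1 hy).1 ((hm y).1 hy).2
  have huCh : u ∉ Ch := fun h => hnl (hleaf u h).2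
  set S : Set ℤ := {z | G.Conn ok u z ∨ ∃ y' ∈ Ch, y' ≠ y ∧ G.Conn ok y' z} with hS
  have hL : ∀ s ∈ X, s ∈ S ↔ (s = u ∨ (s ∈ Ch ∧ s ≠ y)) := by
    intro s hs
    constructor
    · rintro (h | ⟨y', a1, a2, a3⟩)
      · exact Or.inl (hone s hs h)
      · have := (hleaf y' a1).2.2.1 s hs a3
        subst this
        exact Or.inr ⟨a1, a2⟩
    · rintro (rfl | ⟨a1, a2⟩)
      · exact Or.inl (Conn.refl _ _)
      · exact Or.inr ⟨s, a1, a2, Conn.refl _ _⟩
  have hR : ∀ s ∈ X, s + G.d β ∈ S ↔ s ∈ Ch := by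
    intro s hs
    rw [hm]
    constructor
    · rintro (h | ⟨y', a1, _, a3⟩)
      · exact ⟨hs, h⟩
      · exact absurd a3 ((hleaf y' a1).2.2.2 _ ((hXY' s).2 hs))
    · exact fun h => Or.inl h.2
  have hyX := ((hm y).1 hy).1
  have b1 := (hXm u).1 hu
  have b2 := (hXm y).1 hyX
  refine p1 S ?_ ?_ u y b1.1 b1.2 b2.1 b2.2 (Or.inl (Conn.refl _ _)) ((hR y hyX).2 hy)
    (np.conn hc ((hm y).1 hy).2) ?_ ?_
  · rintro s (h | ⟨y', a1, a2, a3⟩) γ hd ho
    · exact Or.inl (h.step hd ho)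
    · exact Or.inr ⟨y', a1, a2, a3.step hd ho⟩
  · rintro s (h | ⟨y', a1, _, a3⟩)
    · exact hc.clean (hX hu) s h
    · exact (hleaf y' a1).1.clean (hX ((hm y').1 a1).1) s a3
  · intro s a1 a2
    have a3 := (hXm s).2 ⟨a1, a2⟩
    rw [hL s a3, hR s a3]
    constructor
    · rintro ⟨h | h, h'⟩
      · exact absurd h h'
      · exact h
    · exact fun h => ⟨Or.inr h, fun h' => huCh (h' ▸ h.1)⟩
  · intro s hs
    constructor
    · rintro ⟨a1, a2⟩
      rcases (hL s ((hXm s).2 ⟨by omega, by omega⟩)).1 hs with h | h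
      · omega
      · have := hmin s h.1
        rw [abs_of_pos (by omega), abs_of_pos (by omega)] at this
        omega
    · rintro ⟨a1, a2⟩
      rcases (hL s ((hXm s).2 ⟨by omega, by omega⟩)).1 hs with h | h
      · omega
      · have := hmin s h.1
        rw [abs_of_neg (by omega), abs_of_neg (by omega)] at this
        omega

lemma union_pumpN (np : G.NP κ) {β γ : B} {s s' : ℤ} (h : G.CL β s) (h' : G.CL γ s')
    (h1 : G.Conn (G.okH γ) s' (s + G.d β)) (h2 : G.Conn (G.okH β) s (s' + G.d γ)) : False := by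
  refine np.h0 ({z | G.Conn (G.okH β) s z} ∪ {z | G.Conn (G.okH γ) s' z}) ?_
    ((h.2.clean (mem_D.1 h.1.1).mem_I).union (h'.2.clean (mem_D.1 h'.1.1).mem_I)) s
    (Or.inl (Conn.refl _ s))
  rintro z (hz | hz) η hd _
  · by_cases hh : z = s ∧ η = β
    · rw [hh.1, hh.2]; exact Or.inr h1
    · exact Or.inl (h.1.step hz hd hh)
  · by_cases hh : z = s' ∧ η = γ
    · rw [hh.1, hh.2]; exact Or.inl h2
    · exact Or.inr (h'.1.step hz hd hh)

lemma CL_uniqN (np : G.NP κ) {β γ : B} {s : ℤ} (h : G.CL β s) (h' : G.CL γ s) :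
    β = γ := by
  by_contra hne
  exact union_pumpN np h h' (h'.1.step (Conn.refl _ _) (mem_D.1 h.1.1) (fun a => hne a.2))
    (h.1.step (Conn.refl _ _) (mem_D.1 h'.1.1) (fun a => hne a.2.symm))

variable [Fintype B]

/-- If there is one clean leaf there are many. -/
lemma count_aN {M : ℕ} (hE : (G.edges (fun _ _ => True)).card ≤ 2 * G.I.card + 2 * M)
    (hZ : G.Z.card ≤ M) (np : G.NP κ) {β : B} {j0 j1 : ℤ} (h0 : G.lo β ≤ j0)
    (h1 : j1 ≤ G.hi β)
    (hl : ∀ v ∈ G.I, G.CleanAt (G.okc β (Finset.Ico j0 j1)) v →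
      ∃ u ∈ Finset.Ico j0 j1, G.Conn (G.okc β (Finset.Ico j0 j1)) v u)
    (T : Finset ℤ) (hT : ∀ u, u ∈ T ↔ G.CleanAt (G.okc β (Finset.Ico j0 j1)) u ∧
      G.Leaf (G.okc β (Finset.Ico j0 j1)) (Finset.Ico j0 j1)
        (Finset.Ico (j0 + G.d β) (j1 + G.d β)) u) :
    (Finset.Ico j0 j1).card ≤ 2 * T.card + 8 * M := by
  have hX := Ico_sub_I h0 h1
  have hY := Ico_sub_I' h0 h1
  have hXY : (Finset.Ico (j0 + G.d β) (j1 + G.d β)).card = (Finset.Ico j0 j1).card := by simp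
  have c1 := card_le_CC hE hZ (β := β) (X := Finset.Ico j0 j1)
    (fun s hs => by rw [Finset.mem_Ico] at hs; exact ⟨by omega, by omega⟩)
  have hs := sym_okc (G := G) β (Finset.Ico j0 j1)
  have n11 := fun v => no11N np h0 h1 (v := v)
  generalize G.okc β (Finset.Ico j0 j1) = ok at *
  generalize Finset.Ico (j0 + G.d β) (j1 + G.d β) = Y at *
  generalize Finset.Ico j0 j1 = X at *
  have c2 := sum_cls_le hs hX
  have c3 := sum_cls_le hs hY
  have c4 := filter_card_mul hs hX (fun C => (C ∩ X).card = 1 ∧ (C ∩ Y).card = 0) 1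
    (fun _ h => h.1) T (by
      intro u
      rw [hT]
      constructor
      · rintro ⟨h2, h3, h4, h5⟩
        exact ⟨h3, h2, (inter_card_one h3 (hX h3)).2 h4, (inter_card_zero (hX h3)).2 h5⟩
      · rintro ⟨h2, h3, h4, h5⟩
        exact ⟨h3, h2, (inter_card_one h2 (hX h2)).1 h4, (inter_card_zero (hX h2)).1 h5⟩)
  have c5 := card_bound (G.CC ok) (fun C => 2 * (C ∩ X).card + (C ∩ Y).card)
    (fun C => (C ∩ X).card = 1 ∧ (C ∩ Y).card = 0) 4 2 (by
      intro C hC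
      obtain ⟨v, hv, hc, rfl⟩ := mem_CC hC
      have a1 : (G.cls ok v ∩ X).card ≠ 0 := by
        rw [Ne, inter_card_zero hv]
        obtain ⟨u, h2, h3⟩ := hl v hv hc
        exact fun h => h u h2 h3
      have a2 : ¬ ((G.cls ok v ∩ X).card = 1 ∧ (G.cls ok v ∩ Y).card = 1) :=
        fun h => n11 v hv hc h.1 h.2
      omega)
  rw [Finset.sum_add_distrib, ← Finset.mul_sum] at c5
  omega

/-- Without clean leaves most positions are paired on both sides. -/
lemma count_cN {M : ℕ} (hE : (G.edges (fun _ _ => True)).card ≤ 2 * G.I.card + 2 * M)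
    (hZ : G.Z.card ≤ M) (np : G.NP κ) {β : B} {j0 j1 : ℤ} (h0 : G.lo β ≤ j0)
    (h1 : j1 ≤ G.hi β)
    (hl : ∀ u, G.CleanAt (G.okc β (Finset.Ico j0 j1)) u →
      ¬ G.Leaf (G.okc β (Finset.Ico j0 j1)) (Finset.Ico j0 j1)
        (Finset.Ico (j0 + G.d β) (j1 + G.d β)) u)
    (hr : ∀ u, G.CleanAt (G.okc β (Finset.Ico j0 j1)) u →
      ¬ G.Leaf (G.okc β (Finset.Ico j0 j1)) (Finset.Ico (j0 + G.d β) (j1 + G.d β))
        (Finset.Ico j0 j1) u)
    (T : Finset ℤ) (hT : ∀ y, y ∈ T ↔ (∃ t, G.Pair (G.okc β (Finset.Ico j0 j1)) (Finset.Ico j0 j1)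
        (Finset.Ico (j0 + G.d β) (j1 + G.d β)) y t) ∧
      ∃ t, G.Pair (G.okc β (Finset.Ico j0 j1)) (Finset.Ico (j0 + G.d β) (j1 + G.d β))
        (Finset.Ico j0 j1) (y + G.d β) t) :
    (Finset.Ico j0 j1).card ≤ T.card + 12 * M := by
  have hX := Ico_sub_I h0 h1
  have hY := Ico_sub_I' h0 h1
  have hXY : (Finset.Ico (j0 + G.d β) (j1 + G.d β)).card = (Finset.Ico j0 j1).card := by simp
  have hXY' : ∀ u ∈ Finset.Ico (j0 + G.d β) (j1 + G.d β), u - G.d β ∈ Finset.Ico j0 j1 := by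
    intro u hu; rw [Finset.mem_Ico] at *; omega
  have c1 := card_le_CC hE hZ (β := β) (X := Finset.Ico j0 j1)
    (fun s hs => by rw [Finset.mem_Ico] at hs; exact ⟨by omega, by omega⟩)
  have hs := sym_okc (G := G) β (Finset.Ico j0 j1)
  have n11 := fun v => no11N np h0 h1 (v := v)
  have n00 := fun v => no00N np (β := β) (j0 := j0) (j1 := j1) (v := v)
  generalize G.okc β (Finset.Ico j0 j1) = ok at *
  generalize Finset.Ico (j0 + G.d β) (j1 + G.d β) = Y at *
  generalize Finset.Ico j0 j1 = X at *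
  have c2 := sum_cls_le hs hX
  have c3 := sum_cls_le hs hY
  set TL := X.filter (fun u => G.CleanAt ok u ∧
    ((G.cls ok u ∩ X).card = 2 ∧ (G.cls ok u ∩ Y).card = 0)) with hTL
  set TR := Y.filter (fun u => G.CleanAt ok u ∧
    ((G.cls ok u ∩ Y).card = 2 ∧ (G.cls ok u ∩ X).card = 0)) with hTR
  have c4 := filter_card_mul hs hX (fun C => (C ∩ X).card = 2 ∧ (C ∩ Y).card = 0) 2
    (fun _ h => h.1) TL (fun u => by rw [hTL, Finset.mem_filter])
  have c4' := filter_card_mul hs hY (fun C => (C ∩ Y).card = 2 ∧ (C ∩ X).card = 0) 2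
    (fun _ h => h.1) TR (fun u => by rw [hTR, Finset.mem_filter])
  have one : ∀ (X Y : Finset ℤ), X ⊆ G.I → (∀ u, G.CleanAt ok u → ¬ G.Leaf ok X Y u) →
      ∀ v ∈ G.I, G.CleanAt ok v → (G.cls ok v ∩ X).card = 1 → (G.cls ok v ∩ Y).card = 0 →
        False := by
    intro X Y hX hl v hv hc h1 h2
    obtain ⟨u, hu⟩ := Finset.card_pos.1 (by omega : 0 < (G.cls ok v ∩ X).card)
    rw [Finset.mem_inter, mem_cls hv] at hu
    rw [cls_eq hs hu.1] at h1 h2
    exact hl u (hc.of_conn hu.1) ⟨hu.2, (inter_card_one hu.2 (hX hu.2)).1 h1,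
      (inter_card_zero (hX hu.2)).1 h2⟩
  have c5 := card_bound (G.CC ok) (fun C => (C ∩ X).card + (C ∩ Y).card)
    (fun C => ((C ∩ X).card = 2 ∧ (C ∩ Y).card = 0) ∨ ((C ∩ Y).card = 2 ∧ (C ∩ X).card = 0)) 3 1
    (by
      intro C hC
      obtain ⟨v, hv, hc, rfl⟩ := mem_CC hC
      have a1 : ¬ ((G.cls ok v ∩ X).card = 1 ∧ (G.cls ok v ∩ Y).card = 1) :=
        fun h => n11 v hv hc h.1 h.2
      have a2 : ¬ ((G.cls ok v ∩ X).card = 1 ∧ (G.cls ok v ∩ Y).card = 0) :=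
        fun h => one X Y hX hl v hv hc h.1 h.2
      have a3 : ¬ ((G.cls ok v ∩ Y).card = 1 ∧ (G.cls ok v ∩ X).card = 0) :=
        fun h => one Y X hY hr v hv hc h.1 h.2
      have a4 : ¬ ((G.cls ok v ∩ X).card = 0 ∧ (G.cls ok v ∩ Y).card = 0) := fun h =>
        n00 v hv hc ((inter_card_zero hv).1 h.1) ((inter_card_zero hv).1 h.2)
      omega)
  rw [Finset.sum_add_distrib, Finset.filter_or] at c5
  have c6 := Finset.card_union_le
    ((G.CC ok).filter (fun C => (C ∩ X).card = 2 ∧ (C ∩ Y).card = 0))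
    ((G.CC ok).filter (fun C => (C ∩ Y).card = 2 ∧ (C ∩ X).card = 0))
  have c7 : (TR.image (fun u => u - G.d β)).card = TR.card :=
    Finset.card_image_of_injective _ (fun a b h => by simpa using h)
  have c8 : (TL ∪ TR.image (fun u => u - G.d β)).card ≤ X.card := by
    refine Finset.card_le_card (Finset.union_subset (Finset.filter_subset _ _) ?_)
    intro u hu
    obtain ⟨v, hv, rfl⟩ := Finset.mem_image.1 hu
    exact hXY' v (Finset.mem_filter.1 hv).1
  have c9 : (TL ∩ TR.image (fun u => u - G.d β)).card ≤ T.card := by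
    refine Finset.card_le_card ?_
    intro u hu
    rw [Finset.mem_inter] at hu
    obtain ⟨v, hv, rfl⟩ := Finset.mem_image.1 hu.2
    have hu1 := hu.1
    rw [hTL, Finset.mem_filter] at hu1
    rw [hTR, Finset.mem_filter] at hv
    rw [hT, sub_add_cancel]
    exact ⟨exists_pair hu1.1 (hX hu1.1) hu1.2.1 hu1.2.2.1 hu1.2.2.2,
      exists_pair hv.1 (hY hv.1) hv.2.1 hv.2.2.1 hv.2.2.2⟩
  have c10 := Finset.card_union_add_card_inter TL (TR.image (fun u => u - G.d β))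
  omega

/-- A strip without clean leaves is short. -/
lemma short_of_no_leafN {M : ℕ} (hE : (G.edges (fun _ _ => True)).card ≤ 2 * G.I.card + 2 * M)
    (hZ : G.Z.card ≤ M) (np : G.NP κ) {β : B} {j0 j1 : ℤ} (h01 : j0 ≤ j1)
    (h0 : G.lo β ≤ j0) (h1 : j1 ≤ G.hi β)
    (hl : ∀ u, G.CleanAt (G.okc β (Finset.Ico j0 j1)) u →
      ¬ G.Leaf (G.okc β (Finset.Ico j0 j1)) (Finset.Ico j0 j1)
        (Finset.Ico (j0 + G.d β) (j1 + G.d β)) u)
    (hr : ∀ u, G.CleanAt (G.okc β (Finset.Ico j0 j1)) u →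
      ¬ G.Leaf (G.okc β (Finset.Ico j0 j1)) (Finset.Ico (j0 + G.d β) (j1 + G.d β))
        (Finset.Ico j0 j1) u) :
    (Finset.Ico j0 j1).card ≤ (48 * Fintype.card B + 120) * (M + 1) := by
  have hs := sym_okc (G := G) β (Finset.Ico j0 j1)
  have opp := fun y t s => pair_oppN np h0 h1 (y := y) (t := t) (s := s)
  have nsh := fun u δ => no_shift (G := G) (β := β) (j0 := j0) (j1 := j1) (u := u) (δ := δ)
  have hX := Ico_sub_I h0 h1
  have hY := Ico_sub_I' h0 h1
  have hXY' : ∀ u, u + G.d β ∈ Finset.Ico (j0 + G.d β) (j1 + G.d β) ↔ u ∈ Finset.Ico j0 j1 := by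
    intro u; rw [Finset.mem_Ico, Finset.mem_Ico]; omega
  have cc := count_cN hE hZ np h0 h1 hl hr
  have gs := @gap_sum j0 j1 h01
  generalize G.okc β (Finset.Ico j0 j1) = ok at *
  generalize Finset.Ico (j0 + G.d β) (j1 + G.d β) = Y at *
  generalize Finset.Ico j0 j1 = X at *
  set T := X.filter (fun y => (∃ t, G.Pair ok X Y y t) ∧ ∃ t, G.Pair ok Y X (y + G.d β) t) with hT
  have hT' : ∀ y, y ∈ T ↔ (∃ t, G.Pair ok X Y y t) ∧ ∃ t, G.Pair ok Y X (y + G.d β) t := by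
    intro y
    rw [hT, Finset.mem_filter]
    exact ⟨fun h => h.2, fun h => ⟨h.1.choose_spec.1, h⟩⟩
  have c1 := cc T hT'
  have hex : ∀ y ∈ T, ∃ z, y < z ∧ (G.Pair ok X Y y z ∨ G.Pair ok Y X (y + G.d β) (z + G.d β)) := by
    intro y hy
    obtain ⟨⟨t, ht⟩, ⟨s, hs⟩⟩ := (hT' y).1 hy
    rw [← sub_add_cancel s (G.d β)] at hs
    rcases opp y t _ ht hs with h | h
    · exact ⟨_, h.2, Or.inr hs⟩
    · exact ⟨_, h.2, Or.inl ht⟩
  choose! r hr1 hr2 using hex
  have hinj : Set.InjOn r T := by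
    intro y hy y' hy' h
    have a1 := hr1 y hy
    have a2 := hr1 y' hy'
    rcases hr2 y hy with b1 | b1 <;> rcases hr2 y' hy' with b2 | b2
    · rw [← h] at b2
      exact (b2.symm hs).unique (b1.symm hs)
    · rw [← h] at b2 a2
      have := opp _ _ _ (b1.symm hs) (b2.symm hs)
      omega
    · rw [← h] at b2 a2
      have := opp _ _ _ (b2.symm hs) (b1.symm hs)
      omega
    · rw [← h] at b2
      have := (b2.symm hs).unique (b1.symm hs)
      omega
  have hrX : ∀ y ∈ T, y < r y ∧ r y ∈ X := by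
    intro y hy
    refine ⟨hr1 y hy, ?_⟩
    rcases hr2 y hy with b1 | b1
    · exact b1.2.1
    · exact (hXY' _).1 b1.2.1
  have c2 := gs (Finset.filter_subset _ _) r hinj hrX (24 * M + 1) (12 * M) c1
  rw [← hT] at c2
  set P : Finset ℤ := insert j1 (insert (j1 + G.d β) (Finset.univ.image G.lo)) with hP
  have hPc : P.card ≤ Fintype.card B + 2 := by
    have a1 := Finset.card_insert_le j1 (insert (j1 + G.d β) (Finset.univ.image G.lo))
    have a2 := Finset.card_insert_le (j1 + G.d β) (Finset.univ.image G.lo)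
    have a3 := Finset.card_image_le (s := Finset.univ) (f := G.lo)
    rw [Finset.card_univ] at a3
    rw [hP]
    omega
  set N : Finset ℤ := P.biUnion (fun p => Finset.Ico (p - (24 * M + 1 : ℕ)) p) with hN
  have hNc : N.card ≤ (Fintype.card B + 2) * (24 * M + 1) := by
    refine (Finset.card_biUnion_le_card_mul _ _ (24 * M + 1) (fun p _ => by simp)).trans ?_
    exact Nat.mul_le_mul_right _ hPc
  have hnear : ∀ u δ : ℤ, u ∈ G.I → 0 < δ → δ ≤ (24 * M + 1 : ℕ) → G.Conn ok u (u + δ) →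
      ∃ v ∈ N, G.Conn ok u v := by
    intro u δ hu hδ hδ' hc
    by_contra hn
    push Not at hn
    have key : ∀ v, G.Conn ok u v → ∀ p ∈ P, ¬ (v < p ∧ p ≤ v + δ) := by
      intro v hv p hp h
      refine hn v (Finset.mem_biUnion.2 ⟨p, hp, Finset.mem_Ico.2 ⟨by omega, h.1⟩⟩) hv
    refine nsh u δ hu hδ hc (fun v hv => ⟨fun γ => key v hv _ ?_, key v hv _ ?_, key v hv _ ?_⟩) <;>
      simp [hP]
  have hex2 : ∀ y ∈ T.filter (fun y => ¬ (((24 * M + 1 : ℕ) : ℤ) < r y - y)), ∃ v ∈ N,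
      (G.Pair ok X Y y (r y) ∧ G.Conn ok y v) ∨
        (G.Pair ok Y X (y + G.d β) (r y + G.d β) ∧ G.Conn ok (y + G.d β) v) := by
    intro y hy
    rw [Finset.mem_filter] at hy
    have a1 := hr1 y hy.1
    rcases hr2 y hy.1 with b1 | b1
    · obtain ⟨v, h2, h3⟩ := hnear y (r y - y) (hX b1.1) (by omega) (by omega)
        (by simpa using b1.conn)
      exact ⟨v, h2, Or.inl ⟨b1, h3⟩⟩
    · obtain ⟨v, h2, h3⟩ := hnear (y + G.d β) (r y - y) (hY b1.1) (by omega) (by omega)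
        (by
          have e : y + G.d β + (r y - y) = r y + G.d β := by ring
          rw [e]; exact b1.conn)
      exact ⟨v, h2, Or.inr ⟨b1, h3⟩⟩
  choose! v hv1 hv2 using hex2
  have c3 : (T.filter (fun y => ¬ (((24 * M + 1 : ℕ) : ℤ) < r y - y))).card ≤ N.card := by
    refine Finset.card_le_card_of_injOn v (fun y hy => hv1 y hy) ?_
    intro y hy y' hy' h
    have a1 := hr1 y (Finset.mem_filter.1 hy).1
    have a2 := hr1 y' (Finset.mem_filter.1 hy').1
    rcases hv2 y hy with ⟨b1, b3⟩ | ⟨b1, b3⟩ <;> rcases hv2 y' hy' with ⟨b2, b4⟩ | ⟨b2, b4⟩ <;>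
      rw [← h] at b4
    · have d1 := (b1.2.2.2.2.1 _ b2.1).1 (b3.trans (b4.symm hs))
      have d2 := (b2.2.2.2.2.1 _ b1.1).1 (b4.trans (b3.symm hs))
      omega
    · exact absurd (b3.trans (b4.symm hs)) (b1.2.2.2.2.2 _ b2.1)
    · exact absurd (b3.trans (b4.symm hs)) (b1.2.2.2.2.2 _ b2.1)
    · have d1 := (b1.2.2.2.2.1 _ b2.1).1 (b3.trans (b4.symm hs))
      have d2 := (b2.2.2.2.2.1 _ b1.1).1 (b4.trans (b3.symm hs))
      omega
  have c4 := Finset.card_filter_add_card_filter_not (s := T)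
    (fun y => ((24 * M + 1 : ℕ) : ℤ) < r y - y)
  have c5 : 2 * (T.filter (fun y => ((24 * M + 1 : ℕ) : ℤ) < r y - y)).card ≤ X.card := by
    generalize (T.filter (fun y => ((24 * M + 1 : ℕ) : ℤ) < r y - y)).card = a at *
    by_contra h
    nlinarith
  nlinarith

lemma thick_leafN {M : ℕ} (hE : (G.edges (fun _ _ => True)).card ≤ 2 * G.I.card + 2 * M)
    (hZ : G.Z.card ≤ M) (np : G.NP κ) {β : B} {j0 j1 : ℤ}
    (h0 : G.lo β ≤ j0) (h1 : j1 ≤ G.hi β)
    (hth : ∀ s ∈ Finset.Ico j0 j1, ¬ G.Leaf (G.okc β (Finset.Ico (G.lo β) (G.hi β)))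
      (Finset.Ico (G.lo β) (G.hi β)) (Finset.Ico (G.lo β + G.d β) (G.hi β + G.d β)) s)
    {s0 : ℤ} (hs0 : G.Leaf (G.okc β (Finset.Ico j0 j1)) (Finset.Ico j0 j1)
      (Finset.Ico (j0 + G.d β) (j1 + G.d β)) s0)
    (hs0c : G.CleanAt (G.okc β (Finset.Ico j0 j1)) s0) :
    (Finset.Ico j0 j1).card ≤ (48 * Fintype.card B + 120) * (M + 1) := by
  have hJD : Finset.Ico j0 j1 ⊆ Finset.Ico (G.lo β) (G.hi β) := Finset.Ico_subset_Ico h0 h1
  have hl := fun v => leaf_forcesN np h0 h1 hs0 hs0c (v := v)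
  have ca := count_aN hE hZ np h0 h1 hl
  have hDd : ∀ s, s ∈ Finset.Ico (G.lo β) (G.hi β) ↔ G.dom β s := fun s => Finset.mem_Ico
  have hXY : ∀ u, u + G.d β ∈ Finset.Ico (j0 + G.d β) (j1 + G.d β) ↔ u ∈ Finset.Ico j0 j1 := by
    intro u; rw [Finset.mem_Ico, Finset.mem_Ico]; omega
  have hDD : ∀ u, u + G.d β ∈ Finset.Ico (G.lo β + G.d β) (G.hi β + G.d β) ↔
      u ∈ Finset.Ico (G.lo β) (G.hi β) := by
    intro u; rw [Finset.mem_Ico, Finset.mem_Ico]; omega
  have lfL := fun s h1 h2 v => leaf_forcesN np (β := β) le_rfl le_rfl (s := s) h1 h2 (v := v)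
  have lfR := fun s h1 h2 v => leaf_forcesN np (β := G.bar β) (j0 := G.lo β + G.d β)
    (j1 := G.hi β + G.d β) (by rw [G.lo_bar]) (by rw [G.hi_bar]) (s := s) h1 h2 (v := v)
  rw [okc_bar, add_d_bar, add_d_bar] at lfR
  have sh := short_of_no_leafN hE hZ np (G.lo_le β) le_rfl le_rfl
  have ch := fun u => exists_childN np (β := β) le_rfl le_rfl (u := u)
  generalize Finset.Ico (G.lo β + G.d β) (G.hi β + G.d β) = D' at *
  generalize Finset.Ico (G.lo β) (G.hi β) = D at *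
  generalize Finset.Ico (j0 + G.d β) (j1 + G.d β) = Y at *
  generalize Finset.Ico j0 j1 = X at *
  set T := X.filter (fun u => G.CleanAt (G.okc β X) u ∧ G.Leaf (G.okc β X) X Y u) with hT
  have hT' : ∀ u, u ∈ T ↔ G.CleanAt (G.okc β X) u ∧ G.Leaf (G.okc β X) X Y u := by
    intro u
    rw [hT, Finset.mem_filter]
    exact ⟨fun h => h.2, fun h => ⟨h.2.1, h⟩⟩
  have c1 := ca T hT'
  have hTX : T ⊆ X := Finset.filter_subset _ _
  set U : Set ℤ := {z | ∃ s ∈ T, G.Conn (G.okc β X) s z} with hU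
  have hsX := sym_okc (G := G) β X
  have hsD := sym_okc (G := G) β D
  have U3 : ∀ z ∈ U, ∀ z', G.Conn (G.okc β X) z z' → z' ∈ U := by
    rintro z ⟨s, a1, a2⟩ z' a3
    exact ⟨s, a1, a2.trans a3⟩
  have U1 : ∀ z ∈ U, G.CleanAt (G.okc β D) z := by
    rintro z ⟨s, a1, a2⟩ z' a3
    exact ((hT' s).1 a1).1 z' (a2.trans (a3.mono (okc_mono hJD)))
  have U2 : ∀ u ∈ D, u + G.d β ∈ U → u ∉ X ∧ u ∈ U := by
    intro u hu h
    have a0 : u ∉ X := by
      obtain ⟨s, a1, a2⟩ := h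
      exact fun hX => ((hT' s).1 a1).2.2.2 _ ((hXY u).2 hX) a2
    refine ⟨a0, U3 _ h _ (Conn.symm hsX ((Conn.refl _ u).step ((hDd u).1 hu) ?_))⟩
    rintro (⟨_, h⟩ | ⟨h, _⟩)
    · exact a0 h
    · exact G.bar_ne β h.symm
  have U4 : ∀ z ∈ U, z ∈ X → z ∈ T := by
    rintro z ⟨s, a1, a2⟩ hz
    rw [((hT' s).1 a1).2.2.1 z hz a2]
    exact a1
  suffices h : T.card ≤ 4 * M ∨ D.card ≤ (48 * Fintype.card B + 120) * (M + 1) by
    rcases h with h | h
    · nlinarith
    · exact (Finset.card_le_card hJD).trans h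
  by_cases hC : ∃ s, G.CleanAt (G.okc β D) s ∧ G.Leaf (G.okc β D) D D' s
  · left
    obtain ⟨s, hs1, hs2⟩ := hC
    set Gd := D.filter (fun u => G.CleanAt (G.okc β D) u ∧
      ∀ v ∈ D, G.Conn (G.okc β D) u v → v = u) with hGd
    have hGd' : ∀ u, u ∈ Gd ↔ u ∈ D ∧ G.CleanAt (G.okc β D) u ∧
      ∀ v ∈ D, G.Conn (G.okc β D) u v → v = u := fun u => Finset.mem_filter
    have c2 := count_b hE hZ (fun s hs => (hDd s).1 hs) (lfL s hs2 hs1) Gd hGd'
    have c3 : (D \ Gd).card + Gd.card = D.card :=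
      Finset.card_sdiff_add_card_eq_card (Finset.filter_subset _ _)
    set N := Gd.filter (fun u => u ∈ U ∧ ¬ G.Leaf (G.okc β D) D D' u) with hN
    have hN' : ∀ u, u ∈ N ↔ u ∈ Gd ∧ u ∈ U ∧ ¬ G.Leaf (G.okc β D) D D' u :=
      fun u => Finset.mem_filter
    have hex : ∀ u ∈ N, ∃ y ∈ (N \ X) ∪ ((D \ Gd) \ X), G.Conn (G.okc β D) u (y + G.d β) := by
      intro u hu
      obtain ⟨a1, a2, a3⟩ := (hN' u).1 hu
      obtain ⟨a4, a5, a6⟩ := (hGd' u).1 a1
      obtain ⟨y, b1, b2, b3⟩ := ch u a4 a5 a6 a3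
      obtain ⟨b4, b5⟩ := U2 y b1 (U3 u a2 _ (b2.mono (okc_mono hJD)))
      refine ⟨y, ?_, b2⟩
      simp only [Finset.mem_union, Finset.mem_sdiff]
      by_cases hy : y ∈ Gd
      · exact Or.inl ⟨(hN' y).2 ⟨hy, b5, fun h => b3 ⟨U1 y b5, h⟩⟩, b4⟩
      · exact Or.inr ⟨⟨b1, hy⟩, b4⟩
    choose! ψ hψ1 hψ2 using hex
    have c4 : N.card ≤ ((N \ X) ∪ ((D \ Gd) \ X)).card := by
      refine Finset.card_le_card_of_injOn ψ (fun u hu => hψ1 u hu) ?_
      intro u hu u' hu' h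
      have a1 := hψ2 u hu
      have a2 := hψ2 u' hu'
      rw [← h] at a2
      have a3 := (hGd' u).1 ((hN' u).1 hu).1
      have a4 := (hGd' u').1 ((hN' u').1 hu').1
      exact (a3.2.2 u' a4.1 (a1.trans (a2.symm hsD))).symm
    have c5 := Finset.card_union_le (N \ X) ((D \ Gd) \ X)
    have c6 : T.card ≤ ((N ∩ X) ∪ ((D \ Gd) ∩ X)).card := by
      refine Finset.card_le_card (fun u hu => ?_)
      simp only [Finset.mem_union, Finset.mem_sdiff, Finset.mem_inter]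
      by_cases hy : u ∈ Gd
      · exact Or.inl ⟨(hN' u).2 ⟨hy, ⟨u, hu, Conn.refl _ _⟩, hth u (hTX hu)⟩, hTX hu⟩
      · exact Or.inr ⟨⟨hJD (hTX hu), hy⟩, hTX hu⟩
    have c7 := Finset.card_union_le (N ∩ X) ((D \ Gd) ∩ X)
    have c8 := Finset.card_sdiff_add_card_inter N X
    have c9 := Finset.card_sdiff_add_card_inter (D \ Gd) X
    omega
  by_cases hA : ∃ s, G.CleanAt (G.okc β D) s ∧ G.Leaf (G.okc β D) D' D s
  · left
    obtain ⟨s, hs1, hs2⟩ := hA
    set X2 := X ∪ (D.filter (· ∈ U) \ X) with hX2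
    have hX2D : X2 ⊆ D :=
      Finset.union_subset hJD (Finset.sdiff_subset.trans (Finset.filter_subset _ _))
    have hout : ∀ v, v ∉ U → ∀ z, G.Conn (G.okc β X) v z → G.Conn (G.okc β X2) v z := by
      intro v hv z hz
      have : G.Closed (G.okc β X) {z | G.Conn (G.okc β X) v z ∧ G.Conn (G.okc β X2) v z} := by
        intro s hs γ hd ho
        have a1 := hs.1.step hd ho
        refine ⟨a1, hs.2.step hd ?_⟩
        rintro (⟨b1, b2⟩ | ⟨b1, b2⟩) <;> rcases Finset.mem_union.1 b2 with b3 | b3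
        · exact ho (Or.inl ⟨b1, b3⟩)
        · exact hv (U3 _ (Finset.mem_filter.1 (Finset.mem_sdiff.1 b3).1).2 _ (hs.1.symm hsX))
        · exact ho (Or.inr ⟨b1, b3⟩)
        · exact hv (U3 _ (Finset.mem_filter.1 (Finset.mem_sdiff.1 b3).1).2 _ (a1.symm hsX))
      exact (this.of_conn ⟨Conn.refl _ _, Conn.refl _ _⟩ hz).2
    have c2 := forest_cut hE hZ (β := β) (X := X2) (fun s hs => (hDd s).1 (hX2D hs))
      ((X \ T) ∪ D'.filter (· ∈ U)) (by
        intro v hv hc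
        by_cases hvU : v ∈ U
        · obtain ⟨u, a1, a2⟩ := lfR s hs2 hs1 v hv (U1 v hvU)
          exact ⟨u, Finset.mem_union_right _ (Finset.mem_filter.2
            ⟨a1, U3 v hvU u (a2.mono (okc_mono hJD))⟩), a2.mono (okc_mono hX2D)⟩
        · obtain ⟨u, a1, a2⟩ := hl v hv (fun z hz => hc z (hout v hvU z hz))
          exact ⟨u, Finset.mem_union_left _ (Finset.mem_sdiff.2
            ⟨a1, fun h => hvU ⟨u, h, a2.symm hsX⟩⟩), hout v hvU u a2⟩)
    have c3 : X2.card = X.card + (D.filter (· ∈ U) \ X).card :=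
      Finset.card_union_of_disjoint Finset.disjoint_sdiff
    have c4 := Finset.card_union_le (X \ T) (D'.filter (· ∈ U))
    have c5 := Finset.card_sdiff_add_card_eq_card hTX
    have c6 : (D'.filter (· ∈ U)).card ≤ (D.filter (· ∈ U) \ X).card := by
      refine Finset.card_le_card_of_injOn (fun u => u - G.d β) ?_ (fun a _ b _ h => by simpa using h)
      intro u hu
      rw [Finset.mem_coe, Finset.mem_filter] at hu
      have a1 : u - G.d β ∈ D := by rw [← hDD, sub_add_cancel]; exact hu.1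
      have a2 := U2 _ a1 (by rw [sub_add_cancel]; exact hu.2)
      rw [Finset.mem_coe, Finset.mem_sdiff, Finset.mem_filter]
      exact ⟨⟨a1, a2.2⟩, a2.1⟩
    omega
  · right
    exact sh (fun u h h' => hC ⟨u, h, h'⟩) (fun u h h' => hA ⟨u, h, h'⟩)

/-- A strip of thick positions is short. -/
lemma thick_shortN {M : ℕ} (hE : (G.edges (fun _ _ => True)).card ≤ 2 * G.I.card + 2 * M)
    (hZ : G.Z.card ≤ M) (np : G.NP κ) {β : B} {j0 j1 : ℤ} (h01 : j0 ≤ j1)
    (h0 : G.lo β ≤ j0) (h1 : j1 ≤ G.hi β)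
    (hth : ∀ s ∈ Finset.Ico j0 j1, ¬ G.Leaf (G.okc β (Finset.Ico (G.lo β) (G.hi β)))
      (Finset.Ico (G.lo β) (G.hi β)) (Finset.Ico (G.lo β + G.d β) (G.hi β + G.d β)) s)
    (hth' : ∀ s ∈ Finset.Ico j0 j1, ¬ G.Leaf (G.okc β (Finset.Ico (G.lo β) (G.hi β)))
      (Finset.Ico (G.lo β + G.d β) (G.hi β + G.d β)) (Finset.Ico (G.lo β) (G.hi β)) (s + G.d β)) :
    (Finset.Ico j0 j1).card ≤ (48 * Fintype.card B + 120) * (M + 1) := by
  by_cases hL : ∃ s, G.CleanAt (G.okc β (Finset.Ico j0 j1)) s ∧ G.Leaf (G.okc β (Finset.Ico j0 j1))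
      (Finset.Ico j0 j1) (Finset.Ico (j0 + G.d β) (j1 + G.d β)) s
  · obtain ⟨s, a1, a2⟩ := hL
    exact thick_leafN hE hZ np h0 h1 hth a2 a1
  by_cases hR : ∃ s, G.CleanAt (G.okc β (Finset.Ico j0 j1)) s ∧ G.Leaf (G.okc β (Finset.Ico j0 j1))
      (Finset.Ico (j0 + G.d β) (j1 + G.d β)) (Finset.Ico j0 j1) s
  · obtain ⟨s, a1, a2⟩ := hR
    have := thick_leafN hE hZ np (β := G.bar β) (j0 := j0 + G.d β) (j1 := j1 + G.d β)
      (by rw [G.lo_bar]; omega) (by rw [G.hi_bar]; omega) (by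
        intro s hs
        rw [G.lo_bar, G.hi_bar, okc_bar, add_d_bar, add_d_bar]
        have := hth' (s - G.d β) (by rw [Finset.mem_Ico] at *; omega)
        rwa [sub_add_cancel] at this) (s0 := s)
      (by rw [okc_bar, add_d_bar, add_d_bar]; exact a2) (by rw [okc_bar]; exact a1)
    simpa using this
  exact short_of_no_leafN hE hZ np h01 h0 h1 (fun u h h' => hL ⟨u, h, h'⟩)
    (fun u h h' => hR ⟨u, h, h'⟩)

lemma thick_cardN {M : ℕ} (hE : (G.edges (fun _ _ => True)).card ≤ 2 * G.I.card + 2 * M)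
    (hZ : G.Z.card ≤ M) (np : G.NP κ) (β : B) :
    ((G.D β).filter (fun s => ¬ G.Lf β s ∧ ¬ G.Lf (G.bar β) (s + G.d β))).card ≤
      (1 + 4 * Fintype.card B) * ((48 * Fintype.card B + 120) * (M + 1)) := by
  set St : Finset ℤ := insert (G.lo β)
    ((((G.D β).filter (fun s => G.Lf β s ∧ ¬ G.Lf β (s + 1))).image (fun s => s + 1)) ∪
      (((G.D (G.bar β)).filter (fun s => G.Lf (G.bar β) s ∧ ¬ G.Lf (G.bar β) (s + 1))).image
        (fun s => s + 1 - G.d β))) with hSt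
  have hc : St.card ≤ 1 + 4 * Fintype.card B := by
    refine (Finset.card_insert_le _ _).trans ?_
    have a1 := trans_card (G := G) β
    have a2 := trans_card (G := G) (G.bar β)
    have a3 := (Finset.card_union_le _ _).trans (Nat.add_le_add
      ((Finset.card_image_le (f := fun s => s + 1)).trans a1)
      ((Finset.card_image_le (f := fun s => s + 1 - G.d β)).trans a2))
    omega
  refine (runs_card _ St _ ?_ ?_).trans (Nat.mul_le_mul_right _ hc)
  · intro s hs hs'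
    rw [Finset.mem_filter] at hs hs'
    rw [hSt, Finset.mem_insert, Finset.mem_union]
    by_cases h1 : s = G.lo β
    · exact Or.inl h1
    right
    have h2 : s - 1 ∈ G.D β := by
      have := hs.1
      unfold D at *
      rw [Finset.mem_Ico] at *
      omega
    by_cases h3 : G.Lf β (s - 1)
    · left
      exact Finset.mem_image.2 ⟨s - 1, Finset.mem_filter.2 ⟨h2, h3, by simpa using hs.2.1⟩, by ring⟩
    · right
      have h4 : G.Lf (G.bar β) (s - 1 + G.d β) := by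
        by_contra h
        exact hs' ⟨h2, h3, h⟩
      have e : s - 1 + G.d β + 1 = s + G.d β := by ring
      exact Finset.mem_image.2 ⟨s - 1 + G.d β, Finset.mem_filter.2
        ⟨h4.1, h4, by rw [e]; exact hs.2.2⟩, by ring⟩
  · intro j0 j1 h01 hsub
    rcases h01.lt_or_eq with h01' | rfl
    swap
    · simp
    have a1 := mem_D.1 (Finset.mem_filter.1 (hsub (Finset.mem_Ico.2 ⟨le_rfl, h01'⟩))).1
    have a2 := mem_D.1 (Finset.mem_filter.1
      (hsub (Finset.mem_Ico.2 ⟨by omega, by omega⟩ : j1 - 1 ∈ Finset.Ico j0 j1))).1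
    refine thick_shortN hE hZ np (β := β) h01 a1.1 (by have := a2.2; omega) ?_ ?_
    · intro s hs
      have := (Finset.mem_filter.1 (hsub hs)).2.1
      unfold Lf at this
      rwa [D_bar] at this
    · intro s hs
      have := (Finset.mem_filter.1 (hsub hs)).2.2
      unfold Lf at this
      rwa [okH_bar, D_bar, G.bar_bar] at this

lemma depth_stepN (np : G.NP κ) {β β' : B} {v : ℤ} (h : G.CL β v)
    (h' : G.CL β' (v + G.d β)) :
    (Finset.univ.filter (fun γ => ∃ u, G.Conn (G.okH β) v u ∧ G.dom γ u)).card <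
      (Finset.univ.filter (fun γ => ∃ u, G.Conn (G.okH β') (v + G.d β) u ∧ G.dom γ u)).card := by
  have hd : G.dom (G.bar β) (v + G.d β) := dom_bar.2 (mem_D.1 h.1.1)
  have hne : G.bar β ≠ β' := by
    intro he
    subst he
    exact union_pumpN np h h' (Conn.refl _ _) (by rw [add_d_bar]; exact Conn.refl _ _)
  have hv : G.Conn (G.okH β') (v + G.d β) v := by
    have := h'.1.step (Conn.refl _ _) hd (fun a => hne a.2)
    rwa [add_d_bar] at this
  have hsub : ∀ u, G.Conn (G.okH β) v u → G.Conn (G.okH β') (v + G.d β) u := by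
    intro u hu
    have : G.Closed (G.okH β) {z | G.Conn (G.okH β) v z ∧ G.Conn (G.okH β') (v + G.d β) z} := by
      intro z hz γ h1 h2
      refine ⟨hz.1.step h1 h2, h'.1.step hz.2 h1 (fun a => ?_)⟩
      exact h.1.2.2 z (mem_D.2 (a.1 ▸ hd)) hz.1
    exact (this.of_conn ⟨Conn.refl _ _, hv⟩ hu).2
  refine Finset.card_lt_card ⟨fun γ hγ => ?_, fun hs => ?_⟩
  · simp only [Finset.mem_filter, Finset.mem_univ, true_and] at *
    obtain ⟨u, a1, a2⟩ := hγ
    exact ⟨u, hsub u a1, a2⟩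
  · have := hs (Finset.mem_filter.2 ⟨Finset.mem_univ (G.bar β), _, Conn.refl _ _, hd⟩)
    obtain ⟨u, a1, a2⟩ := (Finset.mem_filter.1 this).2
    exact h.1.2.2 u (mem_D.2 a2) a1

lemma depth_cardN (np : G.NP κ) :
    G.I.card ≤ (1 + Fintype.card B) ^ (Fintype.card B + 1) *
      (G.I \ G.I.filter (fun v => ∃ β, G.CL β v)).card := by
  set U0 := G.I \ G.I.filter (fun v => ∃ β, G.CL β v) with hU0
  have key : ∀ i : ℕ, ∃ U : Finset ℤ, U.card ≤ (1 + Fintype.card B) ^ i * U0.card ∧ U0 ⊆ U ∧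
      ∀ v β, G.CL β v → Fintype.card B <
        (Finset.univ.filter (fun γ => ∃ u, G.Conn (G.okH β) v u ∧ G.dom γ u)).card + i → v ∈ U := by
    intro i
    induction i with
    | zero =>
      refine ⟨U0, by simp, le_rfl, fun v β _ h => ?_⟩
      have := Finset.card_le_univ
        (Finset.univ.filter (fun γ => ∃ u, G.Conn (G.okH β) v u ∧ G.dom γ u))
      omega
    | succ i ih =>
      obtain ⟨U, h1, h2, h3⟩ := ih
      refine ⟨U ∪ Finset.univ.biUnion (fun β => U.image (fun s => s - G.d β)), ?_,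
        h2.trans Finset.subset_union_left, fun v β h4 h5 => ?_⟩
      · refine (Finset.card_union_le _ _).trans ?_
        have := Finset.card_biUnion_le_card_mul Finset.univ
          (fun β => U.image (fun s => s - G.d β)) U.card (fun _ _ => Finset.card_image_le)
        rw [Finset.card_univ] at this
        rw [pow_succ]
        nlinarith
      · refine Finset.mem_union_right _ (Finset.mem_biUnion.2 ⟨β, Finset.mem_univ _,
          Finset.mem_image.2 ⟨v + G.d β, ?_, by ring⟩⟩)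
        by_cases h6 : ∃ β', G.CL β' (v + G.d β)
        · obtain ⟨β', h6⟩ := h6
          have := depth_stepN np h4 h6
          exact h3 _ β' h6 (by omega)
        · refine h2 (Finset.mem_sdiff.2 ⟨(dom_bar.2 (mem_D.1 h4.1.1)).mem_I, fun h => h6 ?_⟩)
          exact (Finset.mem_filter.1 h).2
  obtain ⟨U, h1, h2, h3⟩ := key (Fintype.card B + 1)
  refine le_trans (Finset.card_le_card (fun v hv => ?_)) h1
  by_cases h : ∃ β, G.CL β v
  · obtain ⟨β, h⟩ := h
    exact h3 v β h (by omega)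
  · exact h2 (Finset.mem_sdiff.2 ⟨hv, fun h' => h (Finset.mem_filter.1 h').2⟩)

/-- The finite theorem. -/
theorem finite_thmN {M : ℕ} (hE : (G.edges (fun _ _ => True)).card ≤ 2 * G.I.card + 2 * M)
    (hZ : G.Z.card ≤ M) (np : G.NP κ) :
    G.I.card ≤ Cft (Fintype.card B) * (M + 1) := by
  have c1 := forest (G := G) (ok := fun _ _ => True) (fun _ _ _ => trivial) G.Z (by
    intro v hv
    by_contra hn
    push Not at hn
    exact np.h0 _ (conn_closed _ v) (CleanAt.clean (fun z h1 h2 => hn z h2 h1) hv) v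
      (Conn.refl _ v))
  have c2 := depth_cardN np
  set O := G.I.filter (fun v => ∃ β, G.CL β v) with hO
  have c3 : (G.I \ O).card + O.card = G.I.card :=
    Finset.card_sdiff_add_card_eq_card (Finset.filter_subset _ _)
  have c4 : ∑ β, ((G.D β).filter (G.CL β)).card ≤ O.card := by
    rw [← Finset.card_biUnion]
    · refine Finset.card_le_card (fun v hv => ?_)
      obtain ⟨β, _, h⟩ := Finset.mem_biUnion.1 hv
      rw [Finset.mem_filter] at h
      exact Finset.mem_filter.2 ⟨(mem_D.1 h.1).mem_I, β, h.2⟩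
    · intro β _ γ _ hne
      exact Finset.disjoint_left.2 (fun v h1 h2 =>
        hne (CL_uniqN np (Finset.mem_filter.1 h1).2 (Finset.mem_filter.1 h2).2))
  have c5 : ∀ β, ((G.D β).filter (G.Lf β)).card ≤ ((G.D β).filter (G.CL β)).card + M := by
    intro β
    have a1 : (((G.D β).filter (G.Lf β)) \ ((G.D β).filter (G.CL β))).card ≤ G.Z.card := by
      refine card_Lf_le (G := G) (β := β) (fun s hs => ?_)
      simp only [Finset.mem_sdiff, Finset.mem_filter] at hs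
      refine ⟨hs.1.2, ?_⟩
      by_contra hn
      push Not at hn
      exact hs.2 ⟨hs.1.1, hs.1.2, fun z h1 h2 => hn z h2 h1⟩
    have a2 := Finset.le_card_sdiff ((G.D β).filter (G.CL β)) ((G.D β).filter (G.Lf β))
    omega
  have c6 : ∀ β, (G.D β).card ≤ ((G.D β).filter (G.Lf β)).card +
      ((G.D (G.bar β)).filter (G.Lf (G.bar β))).card +
      (1 + 4 * Fintype.card B) * ((48 * Fintype.card B + 120) * (M + 1)) := by
    intro β
    have a1 := thick_cardN hE hZ np β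
    refine le_trans (Finset.card_le_card (t := (G.D β).filter (G.Lf β) ∪
      ((G.D (G.bar β)).filter (G.Lf (G.bar β))).image (fun s => s - G.d β) ∪
      (G.D β).filter (fun s => ¬ G.Lf β s ∧ ¬ G.Lf (G.bar β) (s + G.d β))) ?_) ?_
    · intro s hs
      simp only [Finset.mem_union, Finset.mem_filter]
      by_cases h1 : G.Lf β s
      · exact Or.inl (Or.inl ⟨hs, h1⟩)
      by_cases h2 : G.Lf (G.bar β) (s + G.d β)
      · exact Or.inl (Or.inr (Finset.mem_image.2 ⟨_, Finset.mem_filter.2 ⟨h2.1, h2⟩, by ring⟩))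
      · exact Or.inr ⟨hs, h1, h2⟩
    · refine (Finset.card_union_le _ _).trans (Nat.add_le_add ?_ a1)
      exact (Finset.card_union_le _ _).trans (Nat.add_le_add_left Finset.card_image_le _)
  have c7 : ∑ β, ((G.D (G.bar β)).filter (G.Lf (G.bar β))).card =
      ∑ β, ((G.D β).filter (G.Lf β)).card :=
    Equiv.sum_comp (Function.Involutive.toPerm G.bar G.bar_bar)
      (fun β => ((G.D β).filter (G.Lf β)).card)
  have c8 := Finset.sum_le_sum (s := Finset.univ) (fun β _ => c6 β)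
  have c9 := Finset.sum_le_sum (s := Finset.univ) (fun β _ => c5 β)
  rw [Finset.sum_add_distrib, Finset.sum_add_distrib, c7, Finset.sum_const, Finset.card_univ,
    smul_eq_mul] at c8
  rw [Finset.sum_add_distrib, Finset.sum_const, Finset.card_univ, smul_eq_mul] at c9
  have c10 : (G.edges (fun _ _ => True)).card = ∑ β, (G.D β).card := card_edges
  refine c2.trans ?_
  unfold Cft
  rw [mul_assoc]
  refine Nat.mul_le_mul_left _ ?_
  have e1 : (1 + Fintype.card B + Fintype.card B * (1 + 4 * Fintype.card B) *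
      (48 * Fintype.card B + 120)) * (M + 1) = M + 1 + Fintype.card B * M + Fintype.card B +
      Fintype.card B * ((1 + 4 * Fintype.card B) * ((48 * Fintype.card B + 120) * (M + 1))) := by
    ring
  omega

end Sys

end Pool.Agent.MP_fd2cd0_lc
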