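import Pool.Agent.MP_fd2cd0_lc.RegB

/-! The rewriting process with insertions that a finite monoid does not see, in the case that all
long factors between boundedly many positions lie in one class. -/

namespace Pool.Agent.MP_fd2cd0_lc

open Classical Filter

variable {A B M : Type*} [Monoid M]

/-- As `Pq`, with an insertion that the monoid does not see from any cut point. -/
def GPq (f : A → M) (W : ℤ → A) (L : ℤ) (bar : B → B) (e : ℕ) (S : St B) (q : ℕ) : Prop :=
  ∀ Q : Finset ℤ, Q.card ≤ q → ∃ ω : ℤ → List A, (∀ s, ω s ≠ [] → S.t ≤ s ∧ s < L ∧ s ∉ Q) ∧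
    (∀ b x y, x ∈ Q → y ∈ Q → S.p b ≤ x → x ≤ y → y ≤ S.p b + S.w b →
      ph W ω x y = ph W ω (x + S.dd bar b) (y + S.dd bar b)) ∧
    (∀ x ∈ Q, S.t ≤ x → ∀ s, x ≤ s →
      ev f (seg W x (s + 1) ++ ω s) = ev f (seg W x (s + 1))) ∧
    ∃ s u, u ≠ [] ∧ pw u e <:+: ω s

/-- Long factors that do not cross `Φ` lie in the regular class of `j`. -/
structure HS (f : A → M) (j : M) (l : ℕ) (W : ℤ → A) (L : ℤ) (Φ : Finset ℤ) : Prop where
  pos : 0 < l
  st : ∀ x y : ℤ, 0 ≤ x → x + l ≤ y → y ≤ L → (∀ c ∈ Φ, ¬ (x < c ∧ c < y)) →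
    InJ j (ev f (seg W x y))
  reg : ∀ a b, InJ j a → InJ j b → ∃ v : List A, InJ j (a * ev f v * b)

def Cq (K φ q : ℕ) : ℕ := Cft (K * (2 * (q + φ) + 1))

def Dq (K l φ q : ℕ) : ℕ := (q + φ + K * (2 * (q + φ) + 1) + 1) * l

lemma ev_extend {f : A → M} {W : ℤ → A} {x m y : ℤ} {w : List A} (h1 : x ≤ m) (h2 : m ≤ y)
    (h : ev f (seg W m y ++ w) = ev f (seg W m y)) : ev f (seg W x y ++ w) = ev f (seg W x y) := by
  rw [seg_split W h1 h2, List.append_assoc, ev_append, ev_append f (seg W x m), h]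

variable {f : A → M} {j j0' : M} {l : ℕ} {bar : B → B}

section One

variable {W : ℤ → A} {L : ℤ} {S S' : St B} {c : B}

lemma Gap.pullG (h : Gap bar S S') {e q q' : ℕ} (hq : q + 1 ≤ q') (hP : GPq f W L bar e S' q') :
    GPq f W L bar e S q := by
  intro Q hQ
  obtain ⟨ω, h1, h2, hv, h3⟩ := hP (insert S'.t Q) ((Finset.card_insert_le _ _).trans (by omega))
  refine ⟨ω, fun s hs => ⟨h.lt.le.trans (h1 s hs).1, (h1 s hs).2.1,
    fun a => (h1 s hs).2.2 (Finset.mem_insert_of_mem a)⟩, ?_, fun x hx _ s a1 => ?_, h3⟩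
  · unfold St.dd at *
    rw [h.p_eq, h.w_eq] at h2
    exact fun b x y hx hy => h2 b x y (Finset.mem_insert_of_mem hx) (Finset.mem_insert_of_mem hy)
  · by_cases a2 : ω s = []
    · rw [a2, List.append_nil]
    have a3 := (h1 s a2).1
    by_cases a4 : S'.t ≤ x
    · exact hv x (Finset.mem_insert_of_mem hx) a4 s a1
    · exact ev_extend (by omega) (by omega) (hv _ (Finset.mem_insert_self _ _) le_rfl s a3)

lemma Normal.pullG [Fintype B] (hb : ∀ b, bar (bar b) = b) (hI : Inv W L bar S)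
    (h : Normal bar c S S') {e q : ℕ} 
    (hP : GPq f W L bar e S' (2 * ((Fintype.card B + 1) * q) + 1)) : GPq f W L bar e S q := by
  intro Q hQ
  set Q1 : Finset ℤ := Q ∪ Finset.univ.biUnion (fun b => Q.image (· + S.dd bar b)) with hQ1
  have hQ1c : Q1.card ≤ (Fintype.card B + 1) * q := by
    refine (Finset.card_union_le _ _).trans ?_
    have := Finset.card_biUnion_le_card_mul Finset.univ (fun b => Q.image (· + S.dd bar b)) q
      (fun _ _ => Finset.card_image_le.trans hQ)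
    rw [Finset.card_univ] at this
    rw [add_mul]
    omega
  have m1 : ∀ x ∈ Q, x ∈ Q1 := fun x hx => Finset.mem_union_left _ hx
  have m2 : ∀ x ∈ Q, ∀ b, x + S.dd bar b ∈ Q1 := fun x hx b => Finset.mem_union_right _
    (Finset.mem_biUnion.2 ⟨b, Finset.mem_univ _, Finset.mem_image_of_mem _ hx⟩)
  obtain ⟨ω', h1, h2, hv, s0, u, h3, h4⟩ := hP (insert S'.t (Q1 ∪ Q1.image (· + S.dd bar c))) (by
    refine (Finset.card_insert_le _ _).trans ?_
    have := (Finset.card_union_le Q1 (Q1.image (· + S.dd bar c))).trans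
      (Nat.add_le_add_left Finset.card_image_le _)
    omega)
  set Q' := insert S'.t (Q1 ∪ Q1.image (· + S.dd bar c)) with hQ'
  have m3 : ∀ x ∈ Q1, x ∈ Q' := fun x hx => Finset.mem_insert_of_mem (Finset.mem_union_left _ hx)
  have m4 : ∀ x ∈ Q1, x + S.dd bar c ∈ Q' := fun x hx =>
    Finset.mem_insert_of_mem (Finset.mem_union_right _ (Finset.mem_image_of_mem _ hx))
  have m5 : S'.t ∈ Q' := Finset.mem_insert_self _ _
  have a1 := h.start
  have a2 := h.lt
  have a3 := h.le_w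
  have a4 : S'.t ≤ S.t + S.dd bar c := by have := h.le_d; unfold St.dd; omega
  set ω : ℤ → List A := fun s => if S.t ≤ s ∧ s < S'.t then ω' (s + S.dd bar c) else ω' s with hω
  have agree : ∀ x y, S'.t ≤ x → ph W ω x y = ph W ω' x y := fun x y hx =>
    ph_congr (fun s b1 _ => if_neg (by omega))
  have low : ∀ x y, S.t ≤ x → y ≤ S'.t → ph W ω x y = ph W ω (x + S.dd bar c) (y + S.dd bar c) := by
    intro x y hx hy
    rw [agree _ _ (by omega : S'.t ≤ x + S.dd bar c)]
    exact ph_congr_shift _ (fun s b1 b2 => hI.hW c s (by omega) (by omega))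
      (fun s b1 b2 => if_pos ⟨by omega, by omega⟩)
  have high : ∀ x ∈ Q', ∀ y ∈ Q', S'.t ≤ x → x ≤ y → y ≤ S.t + S.w c →
      ph W ω x y = ph W ω (x + S.dd bar c) (y + S.dd bar c) := by
    intro x hx y hy b1 b2 b3
    rw [agree _ _ b1, agree _ _ (by omega : S'.t ≤ x + S.dd bar c),
      h2 c x y hx hy (by rw [h.pc]; exact b1) b2 (by rw [h.pc, h.wc]; omega)]
    congr 1 <;> simp only [St.dd, h.pc, h.pbc] <;> omega
  have K : ∀ x ∈ Q1, ∀ y ∈ Q1, S.t ≤ x → x ≤ y → y ≤ S.t + S.w c →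
      ph W ω x y = ph W ω (x + S.dd bar c) (y + S.dd bar c) := by
    intro x hx y hy b1 b2 b3
    by_cases c1 : y ≤ S'.t
    · exact low x y b1 c1
    by_cases c2 : S'.t ≤ x
    · exact high x (m3 x hx) y (m3 y hy) c2 b2 b3
    rw [ph_split W ω (m := S'.t) (by omega) (by omega),
      ph_split W ω (x := x + S.dd bar c) (m := S'.t + S.dd bar c) (by omega) (by omega),
      low x _ b1 le_rfl, high _ m5 y (m3 y hy) le_rfl (by omega) b3]
  have K' : ∀ b, b ≠ c → b ≠ bar c → S.act bar b → ∀ x ∈ Q1, ∀ y ∈ Q1, S.p b ≤ x → x ≤ y →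
      y ≤ S.p b + S.w b → ph W ω x y = ph W ω' (x + (S'.p b - S.p b)) (y + (S'.p b - S.p b)) ∧
        x + (S'.p b - S.p b) ∈ Q' ∧ y + (S'.p b - S.p b) ∈ Q' := by
    intro b b1 b2 b3 x hx y hy b4 b5 b6
    by_cases h5 : S.p b = S.t
    · obtain ⟨c1, c2⟩ := h.tr b b1 b3 h5
      have : S'.p b - S.p b = S.dd bar c := by unfold St.dd; omega
      rw [this, K x hx y hy (by omega) b5 (by omega), agree _ _ (by omega)]
      exact ⟨rfl, m4 x hx, m4 y hy⟩
    · have c1 := h.ntr b b1 b2 (fun a => h5 a.2)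
      have c2 := h.le b b3 b1
      rw [c1, sub_self, add_zero, add_zero]
      exact ⟨agree _ _ (by omega), m3 x hx, m3 y hy⟩
  refine ⟨ω, fun s hs => ?_, fun b x y hx hy b1 b2 b3 => ?_, fun x hx b1 s b2 => ?_, ?_⟩
  · by_cases c1 : S.t ≤ s ∧ s < S'.t
    · have c2 := h1 _ (by simpa only [hω, if_pos c1] using hs)
      exact ⟨c1.1, by omega, fun c3 => c2.2.2 (m4 s (m1 s c3))⟩
    · have c2 := h1 _ (by simpa only [hω, if_neg c1] using hs)
      exact ⟨by omega, c2.2.1, fun c3 => c2.2.2 (m3 s (m1 s c3))⟩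
  · by_cases hact : S.act bar b
    swap
    · exact valid_of_not_act hact _ b1 b3
    by_cases c1 : b = c
    · subst c1
      exact K x (m1 x hx) y (m1 y hy) (by omega) b2 (by omega)
    by_cases c2 : b = bar c
    · subst c2
      have e1 : S.dd bar (bar c) = - S.dd bar c := by unfold St.dd; rw [hb]; ring
      rw [hI.w_bar] at b3
      have e2 : S.dd bar c = S.p (bar c) - S.t := by unfold St.dd; omega
      rw [K _ (m2 x hx _) _ (m2 y hy _) (by omega) (by omega) (by omega)]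
      congr 1 <;> omega
    obtain ⟨c4, c5⟩ := ne_bar hb c1 c2
    obtain ⟨d1, d2, d3⟩ := K' b c1 c2 hact x (m1 x hx) y (m1 y hy) b1 b2 b3
    obtain ⟨d4, _, _⟩ := K' _ c4 c5 (hI.act_bar hb hact) _ (m2 x hx b) _ (m2 y hy b)
      (by unfold St.dd; omega) (by omega) (by rw [hI.w_bar]; unfold St.dd; omega)
    rw [d1, d4, h2 b _ _ d2 d3 (by omega) (by omega) (by rw [h.w_eq b c1 c2]; omega)]
    congr 1 <;> unfold St.dd <;> ring
  · by_cases c1 : s < S'.t
    · have c2 : ω s = ω' (s + S.dd bar c) := if_pos ⟨by omega, c1⟩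
      have c3 : s + 1 + S.dd bar c = s + S.dd bar c + 1 := by ring
      rw [c2, seg_shift (S.dd bar c) (fun z d1 d2 => hI.hW c z (by omega) (by omega)), c3]
      exact hv _ (m4 x (m1 x hx)) (by omega) _ (by omega)
    · have c2 : ω s = ω' s := if_neg (by omega)
      rw [c2]
      by_cases c3 : S'.t ≤ x
      · exact hv x (m3 x (m1 x hx)) c3 s b2
      · exact ev_extend (by omega) (by omega) (hv _ m5 le_rfl s (by omega))
  · by_cases c1 : ω' s0 = []
    · refine ⟨s0, u, h3, ?_⟩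
      rw [c1, List.infix_nil] at h4
      rw [h4]
      exact List.nil_infix
    · have := h1 s0 c1
      refine ⟨s0, u, h3, ?_⟩
      simp only [hω]
      rw [if_neg (by omega)]
      exact h4

lemma Step.pullG [Fintype B] (hb : ∀ b, bar (bar b) = b) (hI : Inv W L bar S)
    (h : Step bar S S') {e q : ℕ}
    (hP : GPq f W L bar e S' (2 * ((Fintype.card B + 1) * q) + 1)) : GPq f W L bar e S q :=
  h.elim (fun h => h.pullG (by nlinarith) hP) (fun ⟨_, h⟩ => h.pullG hb hI hP)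

variable [Finite M]

lemma free_pumpG (K : ℕ) (hb : ∀ b, bar (bar b) = b) {Φ : Finset ℤ} (hH : HS f j l W L Φ) {φ : ℕ}
    (hΦ : Φ.card ≤ φ) (hI : Inv W L bar S) (e : ℕ) {q : ℕ} {t' : ℤ}
    (h1 : ∀ b, S.act bar b → t' ≤ S.p b) (h2 : t' ≤ L) (h3 : S.t + Dq K l φ q < t') :
    GPq f W L bar e S q := by
  intro Q hQ
  have hl := hH.pos
  have ht := hI.t_nonneg
  obtain ⟨s, hs, hs'⟩ := Finset.exists_mem_notMem_of_card_lt_card
    (s := (insert S.t (Q ∪ Φ)).biUnion (fun c => Finset.Ico c (c + l))) (t := Finset.Ico S.t t') (by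
      have a1 : (insert S.t (Q ∪ Φ)).card ≤ q + φ + K * (2 * (q + φ) + 1) + 1 := by
        have := (Finset.card_insert_le S.t (Q ∪ Φ)).trans
          (Nat.add_le_add_right (Finset.card_union_le _ _) _)
        omega
      have a0 := (Finset.card_biUnion_le_card_mul (insert S.t (Q ∪ Φ))
        (fun c => Finset.Ico c (c + l)) l (fun b _ => by simp)).trans (Nat.mul_le_mul_right _ a1)
      unfold Dq at h3
      simp only [Int.card_Ico]
      omega)
  rw [Finset.mem_Ico] at hs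
  have hZl : ∀ c ∈ insert S.t (Q ∪ Φ), c ≤ s → c + l ≤ s := by
    intro c a2 a3
    by_contra a4
    exact hs' (Finset.mem_biUnion.2 ⟨c, a2, Finset.mem_Ico.2 ⟨a3, by omega⟩⟩)
  have a0 := hZl _ (Finset.mem_insert_self _ _) hs.1
  obtain ⟨w, u, g1, g2, g3⟩ := free_loop hH.reg (p := ctx W l s)
    (hH.st _ _ (by omega) (by omega) (by omega) (fun c hc h => by
      have := hZl c (Finset.mem_insert_of_mem (Finset.mem_union_right _ hc)) (by omega)
      omega)) (ctx_ne_nil _ hl s) e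
  refine ⟨fun z => if z = s then w else [], fun z hz => ?_, fun b x y _ _ a1 a2 a3 => ?_,
    fun x hx _ z a1 => ?_, s, u, g2, by simpa using g3⟩
  · have : z = s := by
      by_contra h
      simp [h] at hz
    subst this
    refine ⟨hs.1, by omega, fun h => ?_⟩
    have := hZl z (Finset.mem_insert_of_mem (Finset.mem_union_left _ h)) le_rfl
    omega
  · by_cases hact : S.act bar b
    · have a4 := h1 b hact
      have a5 := h1 _ (hI.act_bar hb hact)
      refine ph_congr_shift _ (fun z a6 a7 => hI.hW b z (by omega) (by omega)) (fun z a6 a7 => ?_)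
      rw [if_neg (by omega), if_neg (by unfold St.dd; omega)]
    · exact valid_of_not_act hact _ a1 a3
  · by_cases a2 : z = s
    · subst a2
      have := hZl x (Finset.mem_insert_of_mem (Finset.mem_union_left _ hx)) a1
      simp only [if_true]
      exact ev_ctx (l := l) (by omega) g1
    · simp [a2]

lemma Step.remainG (K : ℕ) {N e q : ℕ} (hb : ∀ b, bar (bar b) = b) {Φ : Finset ℤ}
    (hH : HS f j l W L Φ) {φ : ℕ} (hΦ : Φ.card ≤ φ) (hP : PB W L N) (hI : Inv W L bar S)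
    (h : Step bar S S') (np : ¬ GPq f W L bar e S q) :
    L - S.t ≤ (N + 1) * (L - S'.t) + Dq K l φ q := by
  rcases h with h | ⟨c, h⟩
  · obtain ⟨b, h1, h2⟩ := h.hit
    have a1 := hI.le_L b h1
    have a2 := h1.1
    have a3 : S'.t ≤ S.t + Dq K l φ q := by
      by_contra h3
      exact np (free_pumpG K hb hH hΦ hI e h.le (by omega) (by omega))
    have : 0 ≤ (N : ℤ) * (L - S'.t) := mul_nonneg (by positivity) (by omega)
    linarith
  · have := h.remain hb hP hI
    omega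

theorem closed_caseG [Fintype B] (hb : ∀ b, bar (bar b) = b) {Φ : Finset ℤ}
    (hH : HS f j l W L Φ) {φ : ℕ} (hΦ : Φ.card ≤ φ) (e : ℕ) (hI : Inv W L bar S) (q μ : ℕ) (NN : Finset B) (s : ℤ)
    (hN : ∀ b ∈ NN, S.act bar b ∧ bar b ∈ NN ∧ S.p b + S.w b ≤ s + μ)
    (hF : ∀ b, S.act bar b → b ∉ NN → S.w b ≤ μ ∨ (s ≤ S.p b ∧ s ≤ S.p (bar b)))
    (hS : ∑ b ∈ NN, S.w b ≤ 2 * (s - S.t) + μ) (hL : s ≤ L)
    (hC : (Cq (Fintype.card B) φ q * (Dq (Fintype.card B) l φ q + Fintype.card B * μ + μ + 1) : ℕ)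
      < s - S.t) : GPq f W L bar e S q := by
  intro Q0 hQ0
  have hl := hH.pos
  obtain ⟨Q, hQ, hQ1, hQ2⟩ : ∃ Q : Finset ℤ, Q.card ≤ q + φ ∧ Q0 ⊆ Q ∧ Φ ⊆ Q :=
    ⟨Q0 ∪ Φ, (Finset.card_union_le _ _).trans (Nat.add_le_add hQ0 hΦ), Finset.subset_union_left,
      Finset.subset_union_right⟩
  set O : B → Finset ℤ := fun b => (insert 0 (Q.image (· - S.p b) ∪ Q.image (· - S.p (bar b)))).filter
    (fun c => 0 ≤ c ∧ c < S.w b - μ) with hO
  have hOb : ∀ b, O (bar b) = O b := by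
    intro b
    simp only [hO, hb, hI.w_bar, Finset.union_comm]
  have hOm : ∀ b, ∀ c ∈ O b, 0 ≤ c ∧ c < S.w b - μ := fun b c hc => (Finset.mem_filter.1 hc).2
  have hOc : ∀ b, (O b).card ≤ 2 * (q + φ) + 1 := by
    intro b
    refine (Finset.card_filter_le _ _).trans ((Finset.card_insert_le _ _).trans ?_)
    have := (Finset.card_union_le _ _).trans (Nat.add_le_add
      (Finset.card_image_le (s := Q) (f := (· - S.p b)))
      (Finset.card_image_le (s := Q) (f := (· - S.p (bar b)))))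
    omega
  set F : Finset (B × ℤ) := NN.biUnion (fun b => (O b).image (Prod.mk b)) with hF'
  have hFm : ∀ x : B × ℤ, x ∈ F ↔ x.1 ∈ NN ∧ x.2 ∈ O x.1 := by
    rintro ⟨b, c⟩
    simp only [hF', Finset.mem_biUnion, Finset.mem_image, Prod.mk.injEq]
    constructor
    · rintro ⟨_, h1, _, h2, rfl, rfl⟩
      exact ⟨h1, h2⟩
    · exact fun h => ⟨b, h.1, c, h.2, rfl, rfl⟩
  have hFc : Fintype.card F ≤ Fintype.card B * (2 * (q + φ) + 1) := by
    rw [Fintype.card_coe]
    exact (Finset.card_biUnion_le_card_mul _ _ _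
      (fun b _ => Finset.card_image_le.trans (hOc b))).trans
      (Nat.mul_le_mul_right _ (Finset.card_le_univ _))
  set Cu : Finset ℤ := insert S.t (Q ∪ F.image (fun x => S.p x.1 + x.2)) with hCu
  have hCuc : Cu.card ≤ q + φ + Fintype.card B * (2 * (q + φ) + 1) + 1 := by
    refine (Finset.card_insert_le _ _).trans (Nat.add_le_add_right ?_ _)
    rw [Fintype.card_coe] at hFc
    exact (Finset.card_union_le _ _).trans (Nat.add_le_add hQ (Finset.card_image_le.trans hFc))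
  set Z : Finset ℤ := Cu.biUnion (fun c => Finset.Ico c (c + l)) ∪ Finset.univ.biUnion
    (fun b => Finset.Ico (S.p b + S.w b - μ) (S.p b + S.w b)) with hZ
  have hZl : ∀ z, z ∉ Z → ∀ c ∈ Cu, c ≤ z → c + l ≤ z := by
    intro z h1 c h2 h3
    by_contra h4
    exact h1 (Finset.mem_union_left _ (Finset.mem_biUnion.2
      ⟨c, h2, Finset.mem_Ico.2 ⟨h3, by omega⟩⟩))
  have hQC : ∀ c ∈ Q, c ∈ Cu := fun c h => Finset.mem_insert_of_mem (Finset.mem_union_left _ h)
  have hZc : Z.card ≤ Dq (Fintype.card B) l φ q + Fintype.card B * μ + μ := by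
    refine (Finset.card_union_le _ _).trans ?_
    have a0 := (Finset.card_biUnion_le_card_mul Cu (fun c => Finset.Ico c (c + l)) l
      (fun b _ => by simp)).trans (Nat.mul_le_mul_right _ hCuc)
    unfold Dq
    have := Finset.card_biUnion_le_card_mul Finset.univ
      (fun b => Finset.Ico (S.p b + S.w b - μ) (S.p b + S.w b)) μ (fun b _ => by simp)
    rw [Finset.card_univ] at this
    omega
  have hZm : ∀ b z, S.p b + S.w b - μ ≤ z → z < S.p b + S.w b → z ∈ Z := fun b z h1 h2 =>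
    Finset.mem_union_right _ (Finset.mem_biUnion.2 ⟨b, Finset.mem_univ _, Finset.mem_Ico.2 ⟨h1, h2⟩⟩)
  let G : Sys A F :=
    { W := W
      a := S.t
      b := s
      bar := fun x => ⟨(bar x.1.1, x.1.2), by
        have := (hFm _).1 x.2
        rw [hFm]
        exact ⟨(hN _ this.1).2.1, by rw [hOb]; exact this.2⟩⟩
      lo := fun x => S.p x.1.1 + x.1.2
      hi := fun x => S.p x.1.1 + nx (O x.1.1) (S.w x.1.1 - μ) x.1.2
      d := fun x => S.dd bar x.1.1
      Z := Z
      bar_bar := fun x => Subtype.ext (by simp [hb])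
      bar_ne := fun x h => by
        have h1 : bar x.1.1 = x.1.1 := congrArg (fun y : F => y.1.1) h
        exact (hN _ ((hFm _).1 x.2).1).1.2 (by rw [h1])
      lo_bar := fun x => by simp only [St.dd]; ring
      hi_bar := fun x => by simp only [St.dd, hOb, hI.w_bar]; ring
      d_bar := fun x => by simp only [St.dd, hb]; ring
      lo_le := fun x => by
        have := lt_nx (O x.1.1) (hOm _ _ ((hFm _).1 x.2).2).2
        omega
      a_le := fun x => by
        have := (hOm _ _ ((hFm _).1 x.2).2).1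
        have := hI.t_le _ (hN _ ((hFm _).1 x.2).1).1
        omega
      le_b := fun x => by
        have := nx_le (O x.1.1) (S.w x.1.1 - μ) x.1.2
        have := (hN _ ((hFm _).1 x.2).1).2.2
        omega
      hW := fun x z h1 h2 => by
        have := nx_le (O x.1.1) (S.w x.1.1 - μ) x.1.2
        have := (hOm _ _ ((hFm _).1 x.2).2).1
        exact hI.hW _ z (by omega) (by omega) }
  have hIc : (G.I.card : ℤ) = s - S.t := by
    simp only [Sys.I, G, Int.card_Ico]
    omega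
  have hE : (G.edges (fun _ _ => True)).card ≤
      2 * G.I.card + 2 * (Dq (Fintype.card B) l φ q + Fintype.card B * μ + μ) := by
    have a1 : (G.edges (fun _ _ => True)).card ≤
        (NN.biUnion (fun b => (Finset.Ico 0 (S.w b)).image (Prod.mk b))).card := by
      refine Finset.card_le_card_of_injOn (fun x => (x.2.1.1, x.1 - S.p x.2.1.1)) ?_ ?_
      · rintro ⟨z, x⟩ hx
        have a2 := (Sys.mem_edges.1 hx).1
        simp only [Sys.dom, G] at a2
        have := nx_le (O x.1.1) (S.w x.1.1 - μ) x.1.2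
        have := (hOm _ _ ((hFm _).1 x.2).2).1
        exact Finset.mem_coe.2 (Finset.mem_biUnion.2 ⟨x.1.1, ((hFm _).1 x.2).1,
          Finset.mem_image.2 ⟨z - S.p x.1.1, Finset.mem_Ico.2 ⟨by omega, by omega⟩, rfl⟩⟩)
      · rintro ⟨z, ⟨b, c⟩, hx⟩ hz ⟨z', ⟨b', c'⟩, hx'⟩ hz' h
        have a2 := (Sys.mem_edges.1 hz).1
        have a3 := (Sys.mem_edges.1 hz').1
        simp only [Sys.dom, G] at a2 a3
        simp only [Prod.mk.injEq] at h
        obtain ⟨rfl, h⟩ := h
        have a4 : z = z' := by omega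
        subst a4
        have a5 : c = c' := by
          rcases lt_trichotomy c c' with h | h | h
          · have := nx_le' (S.w b - μ) ((hFm _).1 hx').2 h
            simp only at this
            omega
          · exact h
          · have := nx_le' (S.w b - μ) ((hFm _).1 hx).2 h
            simp only at this
            omega
        subst a5
        rfl
    have a2 := a1.trans (Finset.card_biUnion_le.trans
      (Finset.sum_le_sum (fun b _ => Finset.card_image_le)))
    have a3 : ((∑ b ∈ NN, (Finset.Ico 0 (S.w b)).card : ℕ) : ℤ) = ∑ b ∈ NN, S.w b := by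
      push_cast
      refine Finset.sum_congr rfl (fun b hb' => ?_)
      have := (hN b hb').1.1
      simp only [Int.card_Ico]
      omega
    omega
  have ht0 := hI.t_nonneg
  have hSt : G.Stab f j l := by
    refine ⟨hl, fun z a1 a2 a3 => ?_, fun x z a1 a2 => ?_, fun x y z a1 a2 a3 => ?_, hH.reg⟩
    · have a1' : S.t ≤ z := a1
      have a2' : z < s := a2
      have a4 := hZl z a3 _ (Finset.mem_insert_self _ _) a1'
      refine hH.st _ _ (by omega) (by omega) (by omega) (fun c hc h => ?_)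
      have := hZl z a3 c (hQC c (hQ2 hc)) (by omega)
      omega
    · have := hZl z a2 (G.lo x) (Finset.mem_insert_of_mem (Finset.mem_union_right _
        (Finset.mem_image.2 ⟨x.1, x.2, rfl⟩))) a1.1
      omega
    · have a4 : S.t ≤ G.lo x := G.a_le x
      have a5 : G.hi x ≤ s := G.le_b x
      refine hH.st _ _ (by omega) a2 (by omega) (fun c hc h => ?_)
      have a6 : S.p x.1.1 + x.1.2 ≤ y := a1
      have a7 : z ≤ S.p x.1.1 + nx (O x.1.1) (S.w x.1.1 - μ) x.1.2 := a3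
      have a8 := nx_le (O x.1.1) (S.w x.1.1 - μ) x.1.2
      have a9 := (hOm _ _ ((hFm _).1 x.2).2).1
      have := nx_le' (O := O x.1.1) (S.w x.1.1 - μ) (c := x.1.2) (c' := c - S.p x.1.1)
        (Finset.mem_filter.2 ⟨Finset.mem_insert_of_mem (Finset.mem_union_left _
          (Finset.mem_image.2 ⟨c, hQ2 hc, rfl⟩)), by omega, by omega⟩) (by omega)
      omega
  have hP : G.GP f l e := by
    by_contra np
    have a1 := (Sys.finite_thmN hE hZc (hSt.np np)).trans (Nat.mul_le_mul_right _ (Cft_mono hFc))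
    unfold Cq at hC
    omega
  obtain ⟨ω, h1, h2, h4, h3⟩ := hP
  have h1' : ∀ z, ω z ≠ [] → S.t ≤ z ∧ z < s ∧ z ∉ Z := h1
  have hz : ∀ z, z ∈ Z ∨ s ≤ z → ω z = [] := by
    intro z hz
    by_contra h
    have := h1' z h
    rcases hz with hz | hz
    · exact this.2.2 hz
    · omega
  have htrim : ∀ b x y, S.p b ≤ x → S.p b + S.w b - μ ≤ x → y ≤ S.p b + S.w b →
      ph W ω x y = ph W ω (x + S.dd bar b) (y + S.dd bar b) := by
    intro b x y a1 a2 a3
    refine ph_congr_shift _ (fun z a4 a5 => hI.hW b z (by omega) (by omega)) (fun z a4 a5 => ?_)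
    rw [hz z (Or.inl (hZm b z (by omega) (by omega))), hz _ (Or.inl (hZm (bar b) _ ?_ ?_))] <;>
      rw [hI.w_bar] <;> unfold St.dd <;> omega
  refine ⟨ω, fun z h => ?_, fun b x y hx0 hy0 a1 a2 a3 => ?_, fun x hx _ z a1 => ?_, h3⟩
  · have := h1' z h
    refine ⟨this.1, by omega, fun h' => ?_⟩
    have := hZl z this.2.2 z (hQC z (hQ1 h')) le_rfl
    omega
  swap
  · by_cases a2 : ω z = []
    · rw [a2, List.append_nil]
    · have := hZl z (h1' z a2).2.2 x (hQC x (hQ1 hx)) a1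
      exact ev_ctx (l := l) (by omega) (h4 z)
  have hx := hQ1 hx0
  have hy := hQ1 hy0
  by_cases hact : S.act bar b
  swap
  · exact valid_of_not_act hact ω a1 a3
  by_cases hbN : b ∈ NN
  swap
  · rcases hF b hact hbN with h | h
    · exact htrim b x y a1 (by omega) a3
    · refine ph_congr_shift _ (fun z a4 a5 => hI.hW b z (by omega) (by omega)) (fun z a4 a5 => ?_)
      rw [hz z (Or.inr (by omega)), hz _ (Or.inr (by unfold St.dd; omega))]
  have hmem : ∀ z ∈ Q, S.p b ≤ z → z ≤ S.p b + S.w b - μ →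
      z - S.p b ∈ O b ∨ z - S.p b = S.w b - μ := by
    intro z hz a4 a5
    by_cases h : z - S.p b = S.w b - μ
    · exact Or.inr h
    · exact Or.inl (Finset.mem_filter.2 ⟨Finset.mem_insert_of_mem (Finset.mem_union_left _
        (Finset.mem_image.2 ⟨z, hz, rfl⟩)), by omega, by omega⟩)
  have hch := fun y hy x hx h => chain_eq (W := W) (ω := ω) (O := O b) (m := S.w b - μ) (p := S.p b)
    (d := S.dd bar b) (fun c hc => (hOm b c hc).2)
    (fun c hc => h2 ⟨(b, c), (hFm _).2 ⟨hbN, hc⟩⟩) (y := y) hy _ x hx h le_rfl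
  by_cases c1 : y ≤ S.p b + S.w b - μ
  · have := hch _ (hmem y hy (by omega) c1) _ (hmem x hx a1 (by omega)) (by omega)
    simpa using this
  by_cases c2 : S.p b + S.w b - μ ≤ x
  · exact htrim b x y a1 c2 a3
  rw [ph_split W ω (m := S.p b + S.w b - μ) (by omega) (by omega),
    ph_split W ω (x := x + S.dd bar b) (m := S.p b + S.w b - μ + S.dd bar b) (by omega) (by omega),
    htrim b _ y (by omega) le_rfl a3]
  congr 1
  have := hch _ (Or.inr rfl) _ (hmem x hx a1 (by omega)) (by omega)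
  simpa [add_sub_assoc] using this

end One

variable [Finite M]

theorem no_runG [Fintype B] (hb : ∀ b, bar (bar b) = b) (𝒰 : Ultrafilter ℕ)
    {W : ℕ → ℤ → A} {L : ℕ → ℤ} {N e φ : ℕ} {S : ℕ → ℕ → St B} {qs : ℕ → ℕ}
    (hH : ∀ n, ∃ Φ : Finset ℤ, Φ.card ≤ φ ∧ HS f j0' l (W n) (L n) Φ)
    (hI : ∀ j n, Inv (W n) (L n) bar (S j n)) (hP : ∀ n, PB (W n) (L n) N)
    (hnp : ∀ j n, ¬ GPq f (W n) (L n) bar e (S j n) (qs j))
    (hstep : ∀ j, ∀ᶠ n in 𝒰, Step bar (S j n) (S (j + 1) n)) : False := by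
  have tmono : ∀ i j, i ≤ j → ∀ᶠ n in 𝒰, (S i n).t ≤ (S j n).t := by
    intro i j hij
    induction hij with
    | refl => exact Eventually.of_forall (fun _ => le_rfl)
    | step _ ih => filter_upwards [ih, hstep _] with n a1 a2 using a1.trans a2.lt.le
  have emono : ∀ b i j, i ≤ j → ∀ᶠ n in 𝒰, (S i n).p b + (S i n).w b ≤ (S j n).p b + (S j n).w b := by
    intro b i j hij
    induction hij with
    | refl => exact Eventually.of_forall (fun _ => le_rfl)
    | step _ ih =>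
      filter_upwards [ih, hstep _] with n a1 a2 using a1.trans (a2.mono hb (hI _ n) b).2
  obtain ⟨ja, hja⟩ := stab (fun j b => ∀ᶠ n in 𝒰, (S j n).act bar b) (fun j b h => by
    filter_upwards [h, hstep j] with n a1 a2 using a2.act_of hb (hI _ n) a1)
  obtain ⟨jb, hjb⟩ := stab (fun j b => ∃ i, ∀ᶠ n in 𝒰, (S j n).p b ≤ (S i n).t) (fun j b h => by
    obtain ⟨i, h⟩ := h
    refine ⟨i, ?_⟩
    filter_upwards [h, hstep j] with n a1 a2 using (a2.mono hb (hI _ n) b).1.trans a1)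
  set Act : B → Prop := fun b => ∀ᶠ n in 𝒰, (S ja n).act bar b with hAct
  set Near : B → Prop := fun b => ∃ i, ∀ᶠ n in 𝒰, (S jb n).p b ≤ (S i n).t with hNear
  obtain ⟨j0, hA, hN⟩ : ∃ j0, (∀ j, j0 ≤ j → ∀ b, (∀ᶠ n in 𝒰, (S j n).act bar b) ↔ Act b) ∧
      ∀ j, j0 ≤ j → ∀ b, (∃ i, ∀ᶠ n in 𝒰, (S j n).p b ≤ (S i n).t) ↔ Near b :=
    ⟨max ja jb, fun j hj => hja j (le_of_max_le_left hj), fun j hj => hjb j (le_of_max_le_right hj)⟩
  clear_value Act Near
  clear hja hjb hAct hNear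
  have stA : ∀ j, j0 ≤ j → ∃ c, ∀ᶠ n in 𝒰, Normal bar c (S (j + 1) n) (S (j + 2) n) := by
    intro j hj
    have a1 : ∀ᶠ n in 𝒰, ∃ b, (S (j + 1) n).act bar b ∧ (S (j + 1) n).p b = (S (j + 1) n).t := by
      rcases Ultrafilter.eventually_or.1 (hstep j) with h | h
      · filter_upwards [h] with n h
        obtain ⟨b, h1, h2⟩ := h.hit
        exact ⟨b, (h.act_iff b).2 h1, by rw [h.p_eq]; exact h2⟩
      · obtain ⟨c, h⟩ := Ultrafilter.eventually_exists_iff.1 h
        have := (hA (j + 1) (by omega) c).2 ((hA j hj c).1 (h.mono (fun n h => h.act)))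
        filter_upwards [h, this] with n h1 h2 using ⟨c, h2, h1.pc⟩
    refine Ultrafilter.eventually_exists_iff.1 ?_
    filter_upwards [a1, hstep (j + 1)] with n h1 h2
    refine h2.resolve_left (fun h => ?_)
    obtain ⟨b, h3, h4⟩ := h1
    have := h.le b h3
    have := h.lt
    omega
  have trn : ∀ j, j0 ≤ j → ∀ b c, (∀ᶠ n in 𝒰, Normal bar c (S j n) (S (j + 1) n)) → b ≠ c →
      Act b → (∀ᶠ n in 𝒰, (S j n).p b = (S j n).t) → Near (bar c) := by
    intro j hj b c h1 h2 h3 h4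
    obtain ⟨i, hi⟩ := (hN (j + 1) (by omega) b).2 ((hN j hj b).1 ⟨j, h4.mono (fun n h => h.le)⟩)
    refine (hN j hj _).1 ⟨i, ?_⟩
    filter_upwards [h1, (hA j hj b).2 h3, h4, hi] with n a1 a2 a3 a4
    rw [← (a1.tr b h2 a2 a3).1]
    exact a4
  set NN : Finset B := Finset.univ.filter (fun b => Act b ∧ Near b ∧ Near (bar b)) with hNN
  have mNN : ∀ b, b ∈ NN ↔ Act b ∧ Near b ∧ Near (bar b) := fun b => by simp [hNN]
  have actbar : ∀ b, Act b → Act (bar b) := fun b h =>
    (hA j0 le_rfl _).1 (((hA j0 le_rfl _).2 h).mono (fun n h => (hI _ n).act_bar hb h))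
  have NNbar : ∀ b ∈ NN, bar b ∈ NN := by
    intro b h
    rw [mNN] at *
    exact ⟨actbar b h.1, h.2.2, by rw [hb]; exact h.2.1⟩
  have stB : ∀ j, j0 + 2 ≤ j → ∃ c ∈ NN, ∀ᶠ n in 𝒰, Normal bar c (S j n) (S (j + 1) n) := by
    intro j hj
    obtain ⟨j, rfl⟩ : ∃ i, j = i + 2 := ⟨j - 2, by omega⟩
    obtain ⟨c0, h0⟩ := stA j (by omega)
    obtain ⟨c, h1⟩ := stA (j + 1) (by omega)
    have a0 : Act c0 := (hA (j + 1) (by omega) c0).1 (h0.mono (fun n h => h.act))
    refine ⟨c, (mNN c).2 ⟨(hA (j + 2) (by omega) c).1 (h1.mono (fun n h => h.act)),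
      (hN (j + 2) (by omega) c).1 ⟨j + 2, h1.mono (fun n h => h.start.le)⟩, ?_⟩, h1⟩
    by_cases hc : c0 = c
    swap
    · exact trn (j + 2) (by omega) c0 c h1 hc a0 (h0.mono (fun n h => h.pc))
    subst hc
    have a1 : ∀ᶠ n in 𝒰, (S (j + 2) n).t = (S (j + 1) n).p (bar c0) ∨
        ∃ b, (S (j + 1) n).act bar b ∧ b ≠ c0 ∧ b ≠ bar c0 ∧ (S (j + 2) n).p b = (S (j + 2) n).t := by
      filter_upwards [h0, h1] with n a1 a2
      refine a1.hit.resolve_left (fun h => ?_)
      have a3 : 0 < (S (j + 2) n).w c0 := a2.act.1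
      have := a1.wc
      omega
    rcases Ultrafilter.eventually_or.1 a1 with h | h
    · exact (hN (j + 1) (by omega) _).1 ⟨j + 2, h.mono (fun n h => h.ge)⟩
    · obtain ⟨b, h⟩ := Ultrafilter.eventually_exists_iff.1 h
      exact trn (j + 2) (by omega) b c0 h1 h.exists.choose_spec.2.1
        ((hA (j + 1) (by omega) b).1 (h.mono (fun n h => h.1))) (h.mono (fun n h => h.2.2.2))
  obtain ⟨j2, hj2, stB⟩ : ∃ j2, j0 ≤ j2 ∧
      ∀ j, j2 ≤ j → ∃ c ∈ NN, ∀ᶠ n in 𝒰, Normal bar c (S j n) (S (j + 1) n) :=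
    ⟨j0 + 2, by omega, stB⟩
  clear stA trn
  have hsum : ∀ j, j2 ≤ j → ∀ᶠ n in 𝒰, ∑ b ∈ NN, (S j n).w b + 2 * (S j n).t =
      ∑ b ∈ NN, (S j2 n).w b + 2 * (S j2 n).t := by
    intro j hj
    induction hj with
    | refl => exact Eventually.of_forall (fun _ => rfl)
    | step h ih =>
      obtain ⟨c, h1, h2⟩ := stB _ h
      filter_upwards [ih, h2] with n a1 a2 using (a2.sum_w (hI _ n) h1 (NNbar c h1)).trans a1
  have allact : ∀ j, j2 ≤ j → ∀ᶠ n in 𝒰, ∀ b ∈ NN, (S j n).act bar b := fun j hj =>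
    (Filter.eventually_all_finset NN).2 (fun b h => (hA j (hj2.trans hj) b).2 ((mNN b).1 h).1)
  have wsum : ∀ j, j2 ≤ j → ∀ x : ℕ → ℤ, (∀ᶠ n in 𝒰, 0 ≤ x n) →
      (∀ b, Near b → ∀ᶠ n in 𝒰, (S j n).p b ≤ (S j n).t + x n) →
      ∀ᶠ n in 𝒰, (∀ b ∈ NN, (S j n).w b ≤ N * x n) ∧
        ∑ b ∈ NN, (S j n).w b ≤ Fintype.card B * N * x n := by
    intro j hj x hx h
    have a1 : ∀ᶠ n in 𝒰, ∀ b ∈ NN, (S j n).w b ≤ N * x n := by
      refine (Filter.eventually_all_finset NN).2 (fun b hb' => ?_)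
      filter_upwards [allact j hj, h b ((mNN b).1 hb').2.1, h _ ((mNN b).1 hb').2.2] with n a1 a2 a3
      exact width_le hb (hP n) (hI j n) (a1 b hb') a2 a3
    filter_upwards [a1, hx] with n a2 a3
    refine ⟨a2, (Finset.sum_le_card_nsmul _ _ _ a2).trans ?_⟩
    rw [nsmul_eq_mul, mul_assoc]
    exact mul_le_mul_of_nonneg_right (by exact_mod_cast Finset.card_le_univ _) (by positivity)
  obtain ⟨js, hjs, hjs'⟩ : ∃ js, j2 ≤ js ∧ ∀ b, Near b → ∀ᶠ n in 𝒰, (S j2 n).p b ≤ (S js n).t := by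
    have : ∀ b, ∃ i, Near b → ∀ᶠ n in 𝒰, (S j2 n).p b ≤ (S i n).t := by
      intro b
      by_cases h : Near b
      · obtain ⟨i, hi⟩ := (hN j2 hj2 b).2 h
        exact ⟨i, fun _ => hi⟩
      · exact ⟨0, fun h' => absurd h' h⟩
    choose g hf using this
    refine ⟨max j2 (Finset.univ.sup g), le_max_left _ _, fun b h => ?_⟩
    filter_upwards [hf b h, tmono (g b) _
      (le_max_of_le_right (Finset.le_sup (Finset.mem_univ b)))] with n a1 a2 using a1.trans a2
  set lam : ℕ → ℤ := fun n => (S js n).t - (S j2 n).t with hlam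
  have hl : ∀ᶠ n in 𝒰, 0 ≤ lam n := (tmono j2 js hjs).mono (fun n h => by simp only [hlam]; omega)
  have w2 := wsum j2 le_rfl lam hl (fun b h => (hjs' b h).mono (fun n h => by simp only [hlam]; omega))
  set C : ℕ := Cq (Fintype.card B) φ (qs j2) with hC
  set Dd : ℕ := Dq (Fintype.card B) l φ (qs j2) with hDd
  set Y : ℕ := (N + 1) * (Fintype.card B + 1) with hY
  set K : ℕ := 2 * C * (Fintype.card B + 1) * Y + 2 * C * (Dd + 1) + 1 with hK
  obtain ⟨j1, hj1, hc⟩ := cauchy 𝒰 (fun j n => (S j n).t) lam hl (Fintype.card B * N) K js (by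
    intro j hj
    filter_upwards [w2, hsum j (hjs.trans hj), allact j (hjs.trans hj), hl,
      tmono j2 j (hjs.trans hj)] with n a1 a2 a3 a4 a5
    have : 0 ≤ ∑ b ∈ NN, (S j n).w b := Finset.sum_nonneg (fun b h => (a3 b h).1.le)
    have a6 := a1.2
    simp only [hlam] at a4
    push_cast
    linarith)
  have h21 : j2 ≤ j1 := hjs.trans hj1
  have hKpos : (0 : ℤ) < K := by rw [hK]; positivity
  set m0 : ℕ → ℤ := fun n => lam n / K with hm0
  have hm : ∀ᶠ n in 𝒰, 0 ≤ m0 n := hl.mono (fun n h => Int.ediv_nonneg h hKpos.le)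
  have G1 : ∀ j, j1 ≤ j → ∀ b, Near b → ∀ᶠ n in 𝒰, (S j n).p b ≤ (S j1 n).t + m0 n := by
    intro j hj b h
    obtain ⟨i, hi⟩ := (hN j (by omega) b).2 h
    filter_upwards [hi, tmono i _ (le_max_left i j1), hc _ (le_max_right i j1)] with n a1 a2 a3
    have : (S (max i j1) n).t - (S j1 n).t ≤ m0 n :=
      Int.le_ediv_of_mul_le hKpos (by rw [mul_comm]; exact a3)
    omega
  have G2 := fun j (hj : j1 ≤ j) => wsum j (h21.trans hj) m0 hm (fun b h => by
    filter_upwards [G1 j hj b h, tmono j1 j hj] with n a1 a2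
    omega)
  have narrow : ∀ b, Act b → Near b → b ∉ NN → ∀ᶠ n in 𝒰, (S j2 n).w b ≤ N * m0 n := by
    intro b h1 h2 h3
    have ne1 : ∀ c ∈ NN, b ≠ c ∧ b ≠ bar c := fun c hc =>
      ⟨fun h => h3 (h ▸ hc), fun h => h3 (h ▸ NNbar c hc)⟩
    have a1 : ∀ j, j2 ≤ j → ∀ᶠ n in 𝒰, (S j n).w b = (S j2 n).w b := by
      intro j hj
      induction hj with
      | refl => exact Eventually.of_forall (fun _ => rfl)
      | step h ih =>
        obtain ⟨c, h4, h5⟩ := stB _ h
        filter_upwards [ih, h5] with n a1 a2 using (a2.w_eq b (ne1 c h4).1 (ne1 c h4).2).trans a1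
    have a2 : ∃ j, j1 ≤ j ∧ ∀ᶠ n in 𝒰, (S j n).p b = (S j n).t := by
      by_contra hn
      have hn' : ∀ j, j1 ≤ j → ∀ᶠ n in 𝒰, ¬ (S j n).p b = (S j n).t := fun j hj =>
        Ultrafilter.eventually_not.2 (fun h => hn ⟨j, hj, h⟩)
      have a3 : ∀ j, j1 ≤ j → ∀ᶠ n in 𝒰, (S j n).p b = (S j1 n).p b := by
        intro j hj
        induction hj with
        | refl => exact Eventually.of_forall (fun _ => rfl)
        | step h ih =>
          obtain ⟨c, h4, h5⟩ := stB _ (h21.trans h)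
          filter_upwards [ih, h5, hn' _ h] with n a1 a2 a3 using
            (a2.ntr b (ne1 c h4).1 (ne1 c h4).2 (fun h => a3 h.2)).trans a1
      obtain ⟨i, hi⟩ := (hN j1 (by omega) b).2 h2
      obtain ⟨n, b1, b2, b3, b4, b5⟩ := (hi.and ((tmono i _ (le_max_left i j1)).and
        ((hstep (max i j1)).and ((a3 (max i j1 + 1) (by omega)).and
        ((hA (max i j1 + 1) (by omega) b).2 h1))))).exists
      have := b3.lt
      have := (hI _ n).t_le b b5
      omega
    obtain ⟨j, hj, a2⟩ := a2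
    obtain ⟨c, h4, h5⟩ := stB j (h21.trans hj)
    filter_upwards [a1 j (h21.trans hj), a2, h5, G2 j hj, (hA j (by omega) b).2 h1]
      with n b1 b2 b3 b4 b5
    rw [← b1]
    exact (b3.tr b (ne1 c h4).1 b5 b2).2.trans (b4.1 c h4)
  have far : ∀ b, ¬ Near b → ∀ᶠ n in 𝒰, (S j1 n).t ≤ (S j2 n).p b := by
    intro b h
    have : ¬ ∀ᶠ n in 𝒰, (S j2 n).p b ≤ (S j1 n).t := fun h' => h ((hN j2 hj2 b).1 ⟨j1, h'⟩)
    exact (Ultrafilter.eventually_not.2 this).mono (fun n h => by omega)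
  have F1 : ∀ᶠ n in 𝒰, ∀ b, (S j2 n).act bar b → b ∉ NN → (S j2 n).w b ≤ N * m0 n ∨
      ((S j1 n).t ≤ (S j2 n).p b ∧ (S j1 n).t ≤ (S j2 n).p (bar b)) := by
    refine Filter.eventually_all.2 (fun b => ?_)
    by_cases h0 : b ∈ NN
    · exact Eventually.of_forall (fun n _ h => absurd h0 h)
    by_cases h1 : Act b
    swap
    · have : ¬ ∀ᶠ n in 𝒰, (S j2 n).act bar b := fun h' => h1 ((hA j2 hj2 b).1 h')
      exact (Ultrafilter.eventually_not.2 this).mono (fun n h h' => absurd h' h)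
    by_cases h2 : Near b
    · exact (narrow b h1 h2 h0).mono (fun n h _ _ => Or.inl h)
    by_cases h3 : Near (bar b)
    · refine (narrow _ (actbar b h1) h3 (fun h => h0 (hb b ▸ NNbar _ h))).mono
        (fun n h _ _ => Or.inl ?_)
      rwa [(hI _ n).w_bar] at h
    · exact ((far b h2).and (far _ h3)).mono (fun n h _ _ => Or.inr h)
  have F2 : ∀ᶠ n in 𝒰, ∀ b ∈ NN, (S j2 n).p b + (S j2 n).w b ≤ (S j1 n).t + m0 n + N * m0 n := by
    refine (Filter.eventually_all_finset NN).2 (fun b h => ?_)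
    filter_upwards [emono b j2 j1 h21, G1 j1 le_rfl b ((mNN b).1 h).2.1, G2 j1 le_rfl]
      with n a1 a2 a3
    have := a3.1 b h
    omega
  obtain ⟨c, _, F3⟩ := stB j1 h21
  obtain ⟨n, b1, b2, b3, b4, b5, b6, b7, b8, b9⟩ := (F1.and (F2.and (F3.and ((allact j2 le_rfl).and
    ((hsum j1 h21).and ((G2 j1 le_rfl).and (hm.and ((hc (j1 + 1) (by omega)).and
    (tmono js j1 hj1))))))))).exists
  obtain ⟨m, hm'⟩ : ∃ m : ℕ, m0 n = m := ⟨(m0 n).toNat, by omega⟩
  have c1 : K * m0 n ≤ lam n := Int.mul_ediv_self_le hKpos.ne'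
  rw [hm'] at b1 b2 b6 c1
  have c2 : (K : ℤ) ≤ lam n := by
    have := b3.lt
    nlinarith
  have c3 : (0 : ℤ) ≤ N * m := by positivity
  have c4 : (0 : ℤ) ≤ Fintype.card B * N * m := by positivity
  have c5 : (0 : ℤ) ≤ Fintype.card B * m := by positivity
  have c6 : ((Y * m : ℕ) : ℤ) = Fintype.card B * N * m + N * m + Fintype.card B * m + m := by
    rw [hY]; push_cast; ring
  obtain ⟨Φ, hΦ, hH'⟩ := hH n
  refine hnp j2 n (closed_caseG hb hH' hΦ e (hI j2 n) (qs j2) (Y * m) NN (S j1 n).t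
    (fun b h => ⟨b4 b h, NNbar b h, ?_⟩) (fun b h h' => (b1 b h h').imp (fun h => ?_) id) ?_ ?_ ?_)
  · have := b2 b h
    omega
  · omega
  · have := b6.2
    omega
  · have := (hI j1 n).le_L c b3.act
    have := b3.act.1
    have := b3.start
    omega
  · rw [← hC, ← hDd]
    simp only [hlam] at c1 c2
    rw [hK] at c1 c2
    push_cast at c1 c2 ⊢
    have d1 : (0 : ℤ) ≤ 2 * C * (Fintype.card B + 1) * Y := by positivity
    have d2 : (0 : ℤ) ≤ (2 * C * (Dd + 1) + 1) * m := by positivity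
    nlinarith

theorem no_familyG [Fintype B] (hb : ∀ b, bar (bar b) = b)
    {W : ℕ → ℤ → A} {L : ℕ → ℤ} {N e q0 φ : ℕ} {S0 : ℕ → St B}
    (hH : ∀ n, ∃ Φ : Finset ℤ, Φ.card ≤ φ ∧ HS f j0' l (W n) (L n) Φ)
    (hI : ∀ n, Inv (W n) (L n) bar (S0 n)) (hP : ∀ n, PB (W n) (L n) N)
    (hnp : ∀ n, ¬ GPq f (W n) (L n) bar e (S0 n) q0) (hL : ∀ n : ℕ, (n : ℤ) ≤ L n - (S0 n).t) :
    False := by
  set next : St B → St B := fun S => if h : ∃ S', Step bar S S' then h.choose else S with hnext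
  have n1 : ∀ S, Step bar S (next S) ∨ ((¬ ∃ S', Step bar S S') ∧ next S = S) := by
    intro S
    by_cases h : ∃ S', Step bar S S'
    · left
      simp only [hnext, dif_pos h]
      exact h.choose_spec
    · right
      simp only [hnext, dif_neg h]
      exact ⟨h, trivial⟩
  set S : ℕ → ℕ → St B := fun j n => next^[j] (S0 n) with hS
  have hS' : ∀ j n, S (j + 1) n = next (S j n) := fun j n => Function.iterate_succ_apply' _ _ _
  set qs : ℕ → ℕ := fun j => (fun q => 2 * ((Fintype.card B + 1) * q) + 1)^[j] q0 with hqs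
  have hqs' : ∀ j, qs (j + 1) = 2 * ((Fintype.card B + 1) * qs j) + 1 :=
    fun j => Function.iterate_succ_apply' _ _ _
  have g1 : ∀ j n, Inv (W n) (L n) bar (S j n) ∧ ¬ GPq f (W n) (L n) bar e (S j n) (qs j) := by
    intro j n
    induction j with
    | zero => exact ⟨hI n, hnp n⟩
    | succ j ih =>
      rw [hS', hqs']
      rcases n1 (S j n) with h | h
      · exact ⟨h.inv hb ih.1, fun h' => ih.2 (h.pullG hb ih.1 h')⟩
      · rw [h.2]
        exact ⟨ih.1, fun h' => ih.2 (fun Q hQ => h' Q (by nlinarith))⟩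
  have g2 : ∀ j n, (Dq 0 l φ (qs j) : ℤ) < L n - (S j n).t → Step bar (S j n) (S (j + 1) n) := by
    intro j n h
    rw [hS']
    refine (n1 _).resolve_right (fun h' => h'.1 (exists_step hb (g1 j n).1 ?_))
    by_contra h2
    obtain ⟨Φ, hΦ, hH'⟩ := hH n
    exact (g1 j n).2 (free_pumpG 0 hb hH' hΦ (g1 j n).1 e (t' := L n)
      (fun b h3 => absurd ⟨b, h3⟩ h2) le_rfl (by omega))
  have g3 : ∀ j, ∀ m : ℕ, ∀ᶠ n in atTop, (m : ℤ) ≤ L n - (S j n).t := by
    intro j
    induction j with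
    | zero =>
      intro m
      filter_upwards [eventually_ge_atTop m] with n h
      exact le_trans (by exact_mod_cast h) (hL n)
    | succ j ih =>
      intro m
      filter_upwards [ih ((N + 1) * m + Dq 0 l φ (qs j) + 1)] with n h
      have a1 : (0 : ℤ) ≤ (N + 1) * m := by positivity
      push_cast at h
      obtain ⟨Φ, hΦ, hH'⟩ := hH n
      have a2 := (g2 j n (by omega)).remainG 0 hb hH' hΦ (hP n) (g1 j n).1 (g1 j n).2
      by_contra a3
      have a4 : (N + 1 : ℤ) * (L n - (S (j + 1) n).t) ≤ (N + 1) * m :=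
        mul_le_mul_of_nonneg_left (by omega) (by positivity)
      omega
  refine no_runG hb (hyperfilter ℕ) hH (fun j n => (g1 j n).1) hP (fun j n => (g1 j n).2)
    (fun j => ?_)
  refine Eventually.filter_mono Nat.hyperfilter_le_atTop ?_
  filter_upwards [g3 j (Dq 0 l φ (qs j) + 1)] with n h
  exact g2 j n (by push_cast at h; omega)

end Pool.Agent.MP_fd2cd0_lc
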