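import Pool.Agent.MP_fd2cd0_lc.RegC

/-! Recoding a word into blocks along a set of cut points that the bands respect. -/

namespace Pool.Agent.MP_fd2cd0_lc

open Classical

/-- `cc` enumerates the `m` points of `Φ` and `ν` counts the points below a position. -/
structure Cut (Φ : Finset ℤ) (m : ℤ) (ν cc : ℤ → ℤ) : Prop where
  mem : ∀ i, 0 ≤ i → i < m → cc i ∈ Φ
  inv : ∀ i, 0 ≤ i → i < m → ν (cc i) = i
  lt : ∀ i y, 0 ≤ i → i < m → (cc i < y ↔ i < ν y)
  nn : ∀ x, 0 ≤ ν x
  le : ∀ x, ν x ≤ m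
  surj : ∀ c ∈ Φ, ν c < m ∧ cc (ν c) = c
  mono : ∀ x y, x ≤ y → ν x ≤ ν y
  lip : ∀ x y, x ≤ y → ν y ≤ ν x + (y - x)
  shift : ∀ p x d, p ≤ x → (∀ s, p ≤ s → s < x → (s ∈ Φ ↔ s + d ∈ Φ)) →
    ν (x + d) - ν (p + d) = ν x - ν p

lemma exists_cut (Φ : Finset ℤ) : ∃ ν cc, Cut Φ Φ.card ν cc := by
  set ν : ℤ → ℤ := fun x => ((Φ.filter (· < x)).card : ℤ) with hν
  have step : ∀ x, ν (x + 1) = ν x + if x ∈ Φ then 1 else 0 := by
    intro x
    simp only [hν]
    split_ifs with h
    · have : Φ.filter (· < x + 1) = insert x (Φ.filter (· < x)) := by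
        ext z
        simp only [Finset.mem_filter, Finset.mem_insert]
        constructor
        · rintro ⟨h1, h2⟩
          by_cases h3 : z = x
          · exact Or.inl h3
          · exact Or.inr ⟨h1, by omega⟩
        · rintro (rfl | ⟨h1, h2⟩)
          · exact ⟨h, by omega⟩
          · exact ⟨h1, by omega⟩
      rw [this, Finset.card_insert_of_notMem (by simp)]
      push_cast
      rfl
    · have : Φ.filter (· < x + 1) = Φ.filter (· < x) := by
        refine Finset.filter_congr (fun z hz => ?_)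
        have : z ≠ x := fun h' => h (h' ▸ hz)
        omega
      rw [this, add_zero]
  have mono : ∀ x y, x ≤ y → ν x ≤ ν y ∧ ν y ≤ ν x + (y - x) := by
    intro x y h
    induction y, h using Int.leInduction with
    | base => simp
    | succ y hy ih =>
      rw [step]
      split_ifs <;> omega
  have slt : ∀ c ∈ Φ, ∀ y, c < y → ν c < ν y := by
    intro c hc y h
    have h1 := step c
    rw [if_pos hc] at h1
    have := (mono (c + 1) y h).1
    omega
  have le : ∀ x, ν x ≤ Φ.card := fun x => by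
    simp only [hν]
    exact_mod_cast Finset.card_filter_le _ _
  have nn : ∀ x, 0 ≤ ν x := fun x => by simp [hν]
  have ltm : ∀ c ∈ Φ, ν c < Φ.card := fun c hc => (slt c hc _ (lt_add_one c)).trans_le (le _)
  have inj : ∀ c ∈ Φ, ∀ c' ∈ Φ, ν c = ν c' → c = c' := by
    intro c hc c' hc' h
    rcases lt_trichotomy c c' with h1 | h1 | h1
    · have := slt c hc _ h1; omega
    · exact h1
    · have := slt c' hc' _ h1; omega
  have ex : ∀ i : ℤ, 0 ≤ i ∧ i < Φ.card → ∃ c ∈ Φ, ν c = i := by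
    intro i hi
    obtain ⟨c, h1, h2⟩ := Finset.surj_on_of_inj_on_of_card_le (s := Φ)
      (t := Finset.Ico (0 : ℤ) Φ.card) (fun c _ => ν c)
      (fun c hc => Finset.mem_Ico.2 ⟨nn c, ltm c hc⟩) (fun c c' hc hc' h => inj c hc c' hc' h)
      (by simp) i (Finset.mem_Ico.2 hi)
    exact ⟨c, h1, h2.symm⟩
  choose! cc h1 h2 using ex
  refine ⟨ν, cc, fun i a b => h1 i ⟨a, b⟩, fun i a b => h2 i ⟨a, b⟩, fun i y a b => ⟨fun h => ?_,
    fun h => ?_⟩, nn, le, fun c hc => ⟨ltm c hc, ?_⟩, fun x y h => (mono x y h).1,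
    fun x y h => (mono x y h).2, fun p x d h => ?_⟩
  · have := slt _ (h1 i ⟨a, b⟩) y h
    rwa [h2 i ⟨a, b⟩] at this
  · by_contra h3
    have := (mono y (cc i) (by omega)).1
    rw [h2 i ⟨a, b⟩] at this
    omega
  · exact inj _ (h1 _ ⟨nn c, ltm c hc⟩) c hc (h2 _ ⟨nn c, ltm c hc⟩)
  · induction x, h using Int.leInduction with
    | base => simp
    | succ x hx ih =>
      intro h
      have e : x + 1 + d = x + d + 1 := by ring
      have a1 := ih (fun s a b => h s a (by omega))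
      rw [e, step, step]
      by_cases a2 : x ∈ Φ
      · rw [if_pos a2, if_pos ((h x hx (by omega)).1 a2)]; omega
      · rw [if_neg a2, if_neg (fun a => a2 ((h x hx (by omega)).2 a))]; omega

variable {A B M : Type*} [Monoid M]

/-- Concatenation of nonempty blocks. -/
def fl (u : List (A × List A)) : List A := u.flatMap (fun x => x.1 :: x.2)

lemma fl_append (u v : List (A × List A)) : fl (u ++ v) = fl u ++ fl v := List.flatMap_append

lemma fl_cons (x : A × List A) (v : List (A × List A)) : fl (x :: v) = x.1 :: x.2 ++ fl v :=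
  List.flatMap_cons

lemma fl_ne_nil {u : List (A × List A)} (h : u ≠ []) : fl u ≠ [] := by
  cases u with
  | nil => exact absurd rfl h
  | cons x v => simp [fl_cons]

lemma fl_pw (u : List (A × List A)) (e : ℕ) : fl (pw u e) = pw (fl u) e := by
  induction e with
  | zero => rfl
  | succ e ih => rw [pw_succ, pw_succ, fl_append, ih]

lemma fl_infix {u v : List (A × List A)} (h : u <:+: v) : fl u <:+: fl v := by
  obtain ⟨a, b, rfl⟩ := h
  exact ⟨fl a, fl b, by rw [fl_append, fl_append]⟩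

/-- The value of a block. -/
def fb (f : A → M) (x : A × List A) : M := ev f (x.1 :: x.2)

lemma ev_fb (f : A → M) (u : List (A × List A)) : ev (fb f) u = ev f (fl u) := by
  induction u with
  | nil => rfl
  | cons x v ih => rw [fl_cons, ev_append, ← ih]; simp [ev, fb]

/-- The word of blocks. -/
def blk (W : ℤ → A) (cc : ℤ → ℤ) (i : ℤ) : A × List A := (W (cc i), seg W (cc i + 1) (cc (i + 1)))

/-- The insertion induced by an insertion in the word of blocks. -/
noncomputable def bo (Φ : Finset ℤ) (ν : ℤ → ℤ) (ω : ℤ → List (A × List A)) (s : ℤ) : List A :=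
  if s + 1 ∈ Φ then fl (ω (ν (s + 1) - 1)) else []

/-- The state of the recoded system. -/
def bst (ν : ℤ → ℤ) (l : ℕ) (S : St B) : St B where
  t := 0
  p := fun b => ν (S.p b)
  w := fun b => max 0 (ν (S.p b + S.w b - l) - 1 - ν (S.p b))

/-- `W` has no high power on `[0, L)`. -/
def NoPow (W : ℤ → A) (L : ℤ) (N : ℕ) : Prop := ∀ u, u ≠ [] → ¬ pw u (N + 1) <:+: seg W 0 L

lemma NoPow.pb {W : ℤ → A} {L : ℤ} {N : ℕ} (h : NoPow W L N) : PB W L N := by
  intro p d w h1 h2 h3 h4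
  by_contra h5
  refine h (seg W p (p + d)) (seg_ne_nil _ (by omega)) ?_
  rw [← seg_periodic h2.le N p (fun s a1 a2 => h4 s a1 (by omega))]
  have : (0 : ℤ) ≤ N * d := by positivity
  exact cat_isInfix_cat _ h1 (by linarith) (by linarith)

namespace Cut

variable {Φ : Finset ℤ} {m : ℤ} {ν cc : ℤ → ℤ} (C : Cut Φ m ν cc) {W : ℤ → A}
include C

lemma cc_lt {i k : ℤ} (h0 : 0 ≤ i) (h1 : i < k) (h2 : k < m) : cc i < cc k :=
  (C.lt i _ h0 (by omega)).2 (by rw [C.inv k (by omega) h2]; exact h1)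

lemma cc_gap {i k : ℤ} (h0 : 0 ≤ i) (h1 : i ≤ k) (h2 : k < m) : cc i + (k - i) ≤ cc k := by
  rcases h1.lt_or_eq with h | rfl
  · have := C.lip _ _ (C.cc_lt h0 h h2).le
    rw [C.inv i h0 (by omega), C.inv k (by omega) h2] at this
    omega
  · omega

lemma le_cc {x : ℤ} (h : ν x < m) : x ≤ cc (ν x) := by
  have := C.lt (ν x) x (C.nn x) h
  omega

lemma fl_ph (ω : ℤ → List (A × List A)) {i k : ℤ} (h0 : 0 ≤ i) (h1 : i ≤ k) (h2 : k < m) :
    fl (ph (blk W cc) ω i k) = ph W (bo Φ ν ω) (cc i) (cc k) := by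
  induction k, h1 using Int.leInduction with
  | base => rw [ph_nil _ _ le_rfl, ph_nil _ _ le_rfl]; rfl
  | succ k hk ih =>
    have a1 := C.cc_gap h0 hk (by omega)
    have a2 := C.cc_lt (i := k) (k := k + 1) (by omega) (by omega) h2
    rw [ph_split _ ω hk (by omega : k ≤ k + 1), fl_append, ih (by omega), ph_single, fl_cons,
      ph_split W _ (by omega : cc i ≤ cc k) a2.le]
    congr 1
    obtain ⟨z, hz⟩ : ∃ z, cc (k + 1) = z + 1 := ⟨cc (k + 1) - 1, by ring⟩
    have a3 : bo Φ ν ω z = fl (ω k) := by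
      unfold bo
      rw [← hz, if_pos (C.mem _ (by omega) h2), C.inv _ (by omega) h2, add_sub_cancel_right]
    simp only [blk]
    rw [hz, ph_last (by omega), a3, seg_split W (by omega : cc k ≤ cc k + 1) (by omega), seg_single]
    · rfl
    · intro s b1 b2
      refine if_neg (fun h => ?_)
      obtain ⟨b3, b4⟩ := C.surj _ h
      have b5 := (C.lt k (s + 1) (by omega) (by omega)).1 (by omega)
      have b6 := (C.lt _ (cc (k + 1)) (C.nn _) b3).1 (by omega)
      rw [C.inv _ (by omega) h2] at b6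
      omega

lemma fl_seg {i k : ℤ} (h0 : 0 ≤ i) (h1 : i ≤ k) (h2 : k < m) :
    fl (seg (blk W cc) i k) = seg W (cc i) (cc k) := by
  have := C.fl_ph (W := W) (fun _ => []) h0 h1 h2
  rwa [ph_eq_seg (fun _ _ _ => rfl), ph_eq_seg (fun s _ _ => by simp [bo, fl])] at this

lemma void {ω : ℤ → List (A × List A)} {x y : ℤ}
    (h : ∀ i, ν x - 1 ≤ i → i ≤ ν y - 1 → ω i = []) : ph W (bo Φ ν ω) x y = seg W x y := by
  refine ph_eq_seg (fun s h1 h2 => ?_)
  have a1 := C.mono x (s + 1) (by omega)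
  have a2 := C.mono (s + 1) y (by omega)
  unfold bo
  rw [h _ (by omega) (by omega)]
  simp [fl]

lemma dec {ω : ℤ → List (A × List A)} {x y : ℤ} (hx : ω (ν x - 1) = []) (hy : ω (ν y - 1) = [])
    (h : ν x < ν y) : ph W (bo Φ ν ω) x y =
      seg W x (cc (ν x)) ++ fl (ph (blk W cc) ω (ν x) (ν y - 1)) ++ seg W (cc (ν y - 1)) y := by
  have a0 := C.nn x
  have a1 := C.le y
  have a2 := C.le_cc (x := x) (by omega)
  have a3 := (C.lt (ν y - 1) y (by omega) (by omega)).2 (by omega)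
  have a4 := C.cc_gap (i := ν x) (k := ν y - 1) a0 (by omega) (by omega)
  rw [ph_split W _ (by omega : x ≤ cc (ν y - 1)) a3.le, ph_split W _ a2 (by omega),
    C.fl_ph ω a0 (by omega) (by omega), C.void (x := x)]
  · congr 1
    refine ph_eq_seg (fun s h1 h2 => ?_)
    have b1 := (C.lt (ν y - 1) (s + 1) (by omega) (by omega)).1 (by omega)
    have b2 := C.mono (s + 1) y (by omega)
    have b3 : ν (s + 1) = ν y := by omega
    unfold bo
    rw [b3, hy]
    simp [fl]
  · intro i b1 b2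
    rw [C.inv _ a0 (by omega)] at b2
    rw [← hx]
    congr 1
    omega

variable {L : ℤ} {bar : B → B} {S : St B} {l : ℕ}

lemma nu_shift (h2 : ∀ b s, S.p b ≤ s → s + l + 1 ≤ S.p b + S.w b → (s ∈ Φ ↔ s + S.dd bar b ∈ Φ))
    (b : B) {x : ℤ} (a1 : S.p b ≤ x) (a2 : x + l ≤ S.p b + S.w b) :
    ν (x + S.dd bar b) = ν x + (bst ν l S).dd bar b := by
  have := C.shift (S.p b) x (S.dd bar b) a1 (fun s b1 b2 => h2 b s b1 (by omega))
  have e : S.p b + S.dd bar b = S.p (bar b) := by unfold St.dd; ring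
  rw [e] at this
  simp only [St.dd, bst] at this ⊢
  omega

lemma cc_shift (h2 : ∀ b s, S.p b ≤ s → s + l + 1 ≤ S.p b + S.w b → (s ∈ Φ ↔ s + S.dd bar b ∈ Φ))
    (b : B) {i : ℤ} (a1 : ν (S.p b) ≤ i) (a2 : i < ν (S.p b + S.w b - l)) :
    cc (i + (bst ν l S).dd bar b) = cc i + S.dd bar b ∧ S.p b ≤ cc i ∧
      cc i + l + 1 ≤ S.p b + S.w b := by
  have b0 := C.nn (S.p b)
  have b1 := C.le (S.p b + S.w b - l)
  have b2 := (C.lt i _ (by omega) (by omega)).2 a2
  have b3 : S.p b ≤ cc i := by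
    have := C.lt i (S.p b) (by omega) (by omega)
    omega
  have b4 := (h2 b _ b3 (by omega)).1 (C.mem i (by omega) (by omega))
  have b5 := C.nu_shift h2 b b3 (by omega)
  rw [C.inv i (by omega) (by omega)] at b5
  exact ⟨by rw [← b5]; exact (C.surj _ b4).2, b3, by omega⟩

lemma inv' (hI : Inv W L bar S)
    (h2 : ∀ b s, S.p b ≤ s → s + l + 1 ≤ S.p b + S.w b → (s ∈ Φ ↔ s + S.dd bar b ∈ Φ)) :
    Inv (blk W cc) (m - 1) bar (bst ν l S) where
  w_bar := fun b => by
    by_cases h : (l : ℤ) ≤ S.w b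
    · have a1 := C.nu_shift h2 b (x := S.p b + S.w b - l) (by omega) (by omega)
      have e : S.p b + S.w b - l + S.dd bar b = S.p (bar b) + S.w (bar b) - l := by
        rw [hI.w_bar]; unfold St.dd; ring
      rw [e] at a1
      simp only [St.dd, bst] at a1 ⊢
      omega
    · have a1 := C.mono (S.p b + S.w b - l) (S.p b) (by omega)
      have a2 := C.mono (S.p (bar b) + S.w (bar b) - l) (S.p (bar b)) (by rw [hI.w_bar]; omega)
      simp only [bst]
      omega
  t_le := fun b _ => C.nn _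
  le_L := fun b hb => by
    have a1 := hb.1
    have a2 := C.le (S.p b + S.w b - l)
    simp only [bst] at a1 ⊢
    omega
  hW := fun b i a1 a2 => by
    simp only [bst] at a1 a2
    obtain ⟨b1, b2, b3⟩ := C.cc_shift h2 b a1 (by omega)
    obtain ⟨b4, b5, b6⟩ := C.cc_shift h2 b (i := i + 1) (by omega) (by omega)
    have e : i + (bst ν l S).dd bar b + 1 = i + 1 + (bst ν l S).dd bar b := by ring
    have e' : cc i + S.dd bar b + 1 = cc i + 1 + S.dd bar b := by ring
    unfold blk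
    rw [e, b1, b4, e', ← hI.hW b _ b2 (by omega),
      ← seg_shift _ (fun s c1 c2 => hI.hW b s (by omega) (by omega))]
  t_nonneg := le_rfl

lemma nopow (h1 : ∀ c ∈ Φ, 0 ≤ c ∧ c ≤ L) (hm : 1 ≤ m) {N : ℕ} (h : NoPow W L N) :
    NoPow (blk W cc) (m - 1) N := by
  intro u hu h2
  refine h _ (fl_ne_nil hu) ?_
  have a1 := fl_infix h2
  rw [fl_pw, C.fl_seg le_rfl (by omega) (by omega)] at a1
  have a2 := C.cc_gap (i := 0) (k := m - 1) le_rfl (by omega) (by omega)
  exact a1.trans (cat_isInfix_cat _ (h1 _ (C.mem 0 le_rfl (by omega))).1 (by omega)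
    (h1 _ (C.mem _ (by omega) (by omega))).2)

lemma pull [Fintype B] (hI : Inv W L bar S) (ht : S.t = 0) (h1 : ∀ c ∈ Φ, 0 ≤ c ∧ c ≤ L)
    (h2 : ∀ b s, S.p b ≤ s → s + l + 1 ≤ S.p b + S.w b → (s ∈ Φ ↔ s + S.dd bar b ∈ Φ))
    {f : A → M} {e q : ℕ} (hP : GPq (fb f) (blk W cc) (m - 1) bar e (bst ν l S)
      (((Fintype.card B + 1) * q + Fintype.card B) * (l + 2))) : GPq f W L bar e S q := by
  intro Q hQ
  set Q1 : Finset ℤ := Q ∪ Finset.univ.biUnion (fun b => Q.image (· + S.dd bar b)) ∪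
    Finset.univ.image (fun b => S.p b + S.w b - l) with hQ1
  have hQ1c : Q1.card ≤ (Fintype.card B + 1) * q + Fintype.card B := by
    refine (Finset.card_union_le _ _).trans (Nat.add_le_add ((Finset.card_union_le _ _).trans ?_)
      (Finset.card_image_le.trans Finset.card_univ.le))
    have := Finset.card_biUnion_le_card_mul Finset.univ (fun b => Q.image (· + S.dd bar b)) q
      (fun _ _ => Finset.card_image_le.trans hQ)
    rw [Finset.card_univ] at this
    rw [add_mul]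
    omega
  have m1 : ∀ x ∈ Q, x ∈ Q1 := fun x hx => Finset.mem_union_left _ (Finset.mem_union_left _ hx)
  have m2 : ∀ x ∈ Q, ∀ b, x + S.dd bar b ∈ Q1 := fun x hx b => Finset.mem_union_left _
    (Finset.mem_union_right _
      (Finset.mem_biUnion.2 ⟨b, Finset.mem_univ _, Finset.mem_image_of_mem _ hx⟩))
  have m3 : ∀ b, S.p b + S.w b - l ∈ Q1 := fun b =>
    Finset.mem_union_right _ (Finset.mem_image_of_mem _ (Finset.mem_univ b))
  obtain ⟨ω, g1, g2, g3, k0, u, g4, g5⟩ := hP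
    (Q1.biUnion (fun x => Finset.Ico (ν x - 1) (ν x + l + 1)))
    ((Finset.card_biUnion_le_card_mul _ _ (l + 2) (fun x _ => by
      simp only [Int.card_Ico]; omega)).trans (Nat.mul_le_mul_right _ hQ1c))
  have m4 : ∀ x ∈ Q1, ∀ i, ν x - 1 ≤ i → i ≤ ν x + l →
      i ∈ Q1.biUnion (fun x => Finset.Ico (ν x - 1) (ν x + l + 1)) := fun x hx i a1 a2 =>
    Finset.mem_biUnion.2 ⟨x, hx, Finset.mem_Ico.2 ⟨a1, by omega⟩⟩
  generalize Q1.biUnion (fun x => Finset.Ico (ν x - 1) (ν x + l + 1)) = Q' at *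
  have m5 : ∀ x ∈ Q1, ∀ i, ν x - 1 ≤ i → i ≤ ν x + l → ω i = [] := by
    intro x hx i a1 a2
    by_contra h
    exact (g1 i h).2.2 (m4 x hx i a1 a2)
  have hsupp : ∀ s, bo Φ ν ω s ≠ [] → ∃ k, 0 ≤ k ∧ k + 1 < m ∧ cc (k + 1) = s + 1 ∧
      ν (s + 1) = k + 1 ∧ ω k ≠ [] ∧ bo Φ ν ω s = fl (ω k) := by
    intro s hs
    have a1 : s + 1 ∈ Φ := by
      by_contra h
      exact hs (if_neg h)
    have a2 : bo Φ ν ω s = fl (ω (ν (s + 1) - 1)) := if_pos a1
    have a3 : ω (ν (s + 1) - 1) ≠ [] := fun h => hs (by rw [a2, h]; rfl)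
    have a4 := g1 _ a3
    simp only [bst] at a4
    exact ⟨_, a4.1, by omega, by rw [sub_add_cancel]; exact (C.surj _ a1).2, by omega, a3, a2⟩
  have H1 : ∀ b, ∀ x ∈ Q1, ∀ y ∈ Q1, x + S.dd bar b ∈ Q1 → y + S.dd bar b ∈ Q1 → S.p b ≤ x → x ≤ y →
      y + l ≤ S.p b + S.w b →
      ph W (bo Φ ν ω) x y = ph W (bo Φ ν ω) (x + S.dd bar b) (y + S.dd bar b) := by
    intro b x hx y hy hx' hy' a1 a2 a3
    have b1 := C.nu_shift h2 b a1 (by omega)
    have b2 := C.nu_shift h2 b (x := y) (by omega) a3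
    have b3 := C.mono _ _ a1
    have b4 := C.mono y (S.p b + S.w b - l) (by omega)
    rcases (C.mono x y a2).lt_or_eq with h | h
    · obtain ⟨c1, c2, c3⟩ := C.cc_shift h2 b (i := ν x) b3 (by omega)
      obtain ⟨c4, c5, c6⟩ := C.cc_shift h2 b (i := ν y - 1) (by omega) (by omega)
      have e : ν y + (bst ν l S).dd bar b - 1 = ν y - 1 + (bst ν l S).dd bar b := by ring
      rw [C.dec (m5 x hx _ le_rfl (by omega)) (m5 y hy _ le_rfl (by omega)) h,
        C.dec (m5 _ hx' _ le_rfl (by omega)) (m5 _ hy' _ le_rfl (by omega)) (by omega), b1, b2, e,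
        c1, c4, g2 b _ _ (m4 x hx _ (by omega) (by omega)) (m4 y hy _ le_rfl (by omega)) b3
          (by omega) (by simp only [bst]; omega),
        seg_shift (x := x) _ (fun s d1 d2 => hI.hW b s (by omega) (by omega)),
        seg_shift (y := y) _ (fun s d1 d2 => hI.hW b s (by omega) (by omega))]
    · rw [C.void (fun i d1 d2 => m5 x hx i d1 (by omega)),
        C.void (fun i d1 d2 => m5 _ hx' i d1 (by omega))]
      exact seg_shift _ (fun s d1 d2 => hI.hW b s (by omega) (by omega))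
  have H2' : ∀ b x y, S.p b + S.w b - l ≤ x → y ≤ S.p b + S.w b →
      ph W (bo Φ ν ω) x y = seg W x y := by
    intro b x y a1 a2
    have b1 := C.mono _ _ a1
    have b2 := C.mono _ _ a2
    have b3 := C.lip (S.p b + S.w b - l) (S.p b + S.w b) (by omega)
    exact C.void (fun i d1 d2 => m5 _ (m3 b) i (by omega) (by omega))
  have H2 : ∀ b x y, S.p b ≤ x → S.p b + S.w b - l ≤ x → y ≤ S.p b + S.w b →
      ph W (bo Φ ν ω) x y = ph W (bo Φ ν ω) (x + S.dd bar b) (y + S.dd bar b) := by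
    intro b x y a0 a1 a2
    rw [H2' b x y a1 a2, H2' (bar b) _ _ (by rw [hI.w_bar]; unfold St.dd; omega)
      (by rw [hI.w_bar]; unfold St.dd; omega)]
    exact seg_shift _ (fun s d1 d2 => hI.hW b s (by omega) (by omega))
  refine ⟨bo Φ ν ω, fun s hs => ?_, fun b x y hx hy a1 a2 a3 => ?_, fun x hx _ s a1 => ?_, ?_⟩
  · obtain ⟨k, a1, a2, a3, a4, a5, _⟩ := hsupp s hs
    have b1 := C.cc_lt (i := k) (k := k + 1) a1 (by omega) a2
    have b2 := h1 _ (C.mem k a1 (by omega))
    have b3 := h1 _ (C.mem (k + 1) (by omega) a2)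
    refine ⟨by omega, by omega, fun h => a5 ?_⟩
    have b4 := C.mono s (s + 1) (by omega)
    have b5 := C.lip s (s + 1) (by omega)
    exact m5 s (m1 s h) k (by omega) (by omega)
  · by_cases c1 : y + l ≤ S.p b + S.w b
    · exact H1 b x (m1 x hx) y (m1 y hy) (m2 x hx b) (m2 y hy b) a1 a2 c1
    by_cases c2 : S.p b + S.w b - l ≤ x
    · exact H2 b x y a1 c2 a3
    have e : S.p b + S.w b - l + S.dd bar b = S.p (bar b) + S.w (bar b) - l := by
      rw [hI.w_bar]; unfold St.dd; ring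
    rw [ph_split W _ (m := S.p b + S.w b - l) (by omega) (by omega),
      ph_split W _ (x := x + S.dd bar b) (m := S.p b + S.w b - l + S.dd bar b) (by omega)
        (by omega), H2 b _ y (by omega) le_rfl a3,
      H1 b x (m1 x hx) _ (m3 b) (m2 x hx b) (e ▸ m3 (bar b)) a1 (by omega) (by omega)]
  · by_cases hs : bo Φ ν ω s = []
    · rw [hs, List.append_nil]
    obtain ⟨k, b1, b2, b3, b4, b5, b6⟩ := hsupp s hs
    have c1 := C.mono x (s + 1) (by omega)
    have c2 : ν x ≤ k := by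
      by_contra h
      exact b5 (m5 x (m1 x hx) k (by omega) (by omega))
    have c3 := C.cc_lt (i := ν x) (k := k + 1) (C.nn x) (by omega) b2
    refine ev_extend (C.le_cc (by omega)) (by omega) ?_
    rw [b6, ← b3, ← C.fl_seg (C.nn x) (by omega) b2, ← fl_append, ← ev_fb, ← ev_fb]
    exact g3 _ (m4 x (m1 x hx) _ (by omega) (by omega)) (C.nn x) k c2
  · have a1 := fl_infix g5
    rw [fl_pw] at a1
    by_cases h : ω k0 = []
    · rw [h] at a1
      exact ⟨0, fl u, fl_ne_nil g4, a1.trans List.nil_infix⟩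
    · have a2 := g1 k0 h
      simp only [bst] at a2
      refine ⟨cc (k0 + 1) - 1, fl u, fl_ne_nil g4, ?_⟩
      unfold bo
      rwa [sub_add_cancel, if_pos (C.mem _ (by omega) (by omega)), C.inv _ (by omega) (by omega),
        add_sub_cancel_right]

end Cut

end Pool.Agent.MP_fd2cd0_lc
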