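import Mathlib.Computability.DFA
import Mathlib.Data.Set.Card
import Pool.Agent.MP_fd2cd0_lc.RegD

/-! Induction on the classes of the monoid and the theorem with regular constraints. -/

namespace Pool.Agent.MP_fd2cd0_lc

open Classical

section Ind

variable {B M : Type*} [Monoid M] [Finite M]

lemma exists_top {I : Finset M} (h : I.Nonempty) : ∃ j ∈ I, ∀ a ∈ I, Jle j a → Jle a j := by
  obtain ⟨j, h1, h2⟩ := Finset.exists_max_image I (fun j => {a | Jle a j}.ncard) h
  refine ⟨j, h1, fun a ha h3 => ?_⟩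
  have : {x | Jle x j} = {x | Jle x a} :=
    Set.eq_of_subset_of_ncard_le (fun x hx => Jle.trans hx h3) (h2 a ha) (Set.toFinite _)
  have h4 : a ∈ {x | Jle x a} := Jle.refl a
  rwa [← this] at h4

lemma inJ_long {A : Type*} {f : A → M} {j : M} {W : ℤ → A} {l : ℕ} {x y : ℤ}
    (h0 : ∀ s, x ≤ s → s + l ≤ y → InJ j (ev f (seg W s (s + l))))
    (h1 : ∀ s, x ≤ s → s + l + 1 ≤ y → InJ j (ev f (seg W s (s + l + 1)))) (h : x + l ≤ y) :
    InJ j (ev f (seg W x y)) := by
  have key : ∀ k : ℕ, (∀ s, x ≤ s → s + l + k ≤ y → InJ j (ev f (seg W s (s + l + k)))) ∧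
      ∀ s, x ≤ s → s + l + k + 1 ≤ y → InJ j (ev f (seg W s (s + l + k + 1))) := by
    intro k
    induction k with
    | zero => exact ⟨by simpa using h0, by simpa using h1⟩
    | succ k ih =>
      refine ⟨fun s a1 a2 => ?_, fun s a1 a2 => ?_⟩
      · push_cast at a2 ⊢
        rw [← add_assoc]
        exact ih.2 s a1 (by omega)
      · push_cast at a2 ⊢
        have b1 := ih.1 (s + 1) (by omega) (by omega)
        have b2 := ih.2 s a1 (by omega)
        have b3 := ih.2 (s + 1) (by omega) (by omega)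
        have e1 : s + l + k + 1 = s + 1 + l + k := by ring
        have e2 : s + l + (k + 1) + 1 = s + 1 + l + k + 1 := by ring
        rw [e1, seg_split W (m := s + 1) (by omega) (by omega), ev_append] at b2
        rw [seg_split W (m := s + 1 + l + k) (by omega) (by omega), ev_append] at b3
        rw [e2, seg_split W (m := s + 1 + l + k) (by omega) (by omega),
          seg_split W (x := s) (m := s + 1) (by omega) (by omega), ev_append, ev_append]
        exact inJ_glue b1 b2 b3
  have := (key (y - x - l).toNat).1 x le_rfl (by omega)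
  have e : x + l + ((y - x - l).toNat : ℤ) = y := by omega
  rwa [e] at this

theorem no_family_ind [Fintype B] {bar : B → B} (hb : ∀ b, bar (bar b) = b) (N e r : ℕ) :
    ∀ (A : Type) (f : A → M), (∀ x, ∃ v, ev f v = x) → ∀ I : Finset M, I.card ≤ r →
    ∀ l q0 : ℕ, 2 ≤ l → ∀ (W : ℕ → ℤ → A) (L : ℕ → ℤ) (S0 : ℕ → St B),
    (∀ n, Inv (W n) (L n) bar (S0 n)) → (∀ n, (S0 n).t = 0) → (∀ n, NoPow (W n) (L n) N) →
    (∀ n, ∀ x y : ℤ, 0 ≤ x → x + l ≤ y → y ≤ L n → ev f (seg (W n) x y) ∈ I) →
    (∀ n, ¬ GPq f (W n) (L n) bar e (S0 n) q0) → (∀ n : ℕ, (n : ℤ) ≤ L n) → False := by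
  induction r with
  | zero =>
    intro A f _ I hI l q0 _ W L S0 _ _ _ hv _ hL
    have := Finset.card_pos.2 ⟨_, hv l 0 _ le_rfl (by simpa using hL l) le_rfl⟩
    omega
  | succ r ih =>
    intro A f hs I hI l q0 hl W L S0 hInv ht hN hv hnp hL
    obtain ⟨j, hj, htop⟩ := exists_top (I := I) ⟨_, hv l 0 _ le_rfl (by simpa using hL l) le_rfl⟩
    have hI' : (I.filter (fun a => ¬ InJ j a)).card ≤ r := by
      have := Finset.card_lt_card (Finset.filter_ssubset (p := fun a => ¬ InJ j a).2
        ⟨j, hj, fun h => h ⟨Jle.refl j, Jle.refl j⟩⟩)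
      omega
    have up : ∀ a ∈ I, ∀ b, InJ j b → Jle b a → InJ j a :=
      fun a ha b h1 h2 => ⟨htop a ha (h1.2.trans h2), h1.2.trans h2⟩
    by_cases hreg : ∀ a b, InJ j a → InJ j b → ∃ v : List A, InJ j (a * ev f v * b)
    swap
    · refine ih A f hs _ hI' (2 * l) q0 (by omega) W L S0 hInv ht hN (fun n x y a1 a2 a3 => ?_)
        hnp hL
      push_cast at a2
      refine Finset.mem_filter.2 ⟨hv n x y a1 (by omega) a3, fun h => hreg (fun a b ha hb' => ?_)⟩
      rw [seg_split _ (m := x + l) (by omega) (by omega), ev_append] at h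
      obtain ⟨α, β, h1⟩ := (up _ (hv n x (x + l) a1 le_rfl (by omega)) _ h (jle_mul_right _ _)).jle ha
      obtain ⟨γ, δ, h2⟩ :=
        (up _ (hv n (x + l) y (by omega) (by omega) a3) _ h (jle_mul_left _ _)).jle hb'
      obtain ⟨v, h3⟩ := hs (β * γ)
      refine ⟨v, (jle_mul_left _ _).trans hb'.1, h.2.trans ⟨α, δ, ?_⟩⟩
      rw [h1, h2, h3]
      simp only [mul_assoc]
    set Φ : ℕ → Finset ℤ := fun n => (Finset.Icc 0 (L n - l - 1)).filter (fun s =>
      ¬ (InJ j (ev f (seg (W n) s (s + l))) ∧ InJ j (ev f (seg (W n) s (s + l + 1))))) with hΦ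
    have mΦ : ∀ n s, s ∈ Φ n ↔ (0 ≤ s ∧ s ≤ L n - l - 1) ∧
        ¬ (InJ j (ev f (seg (W n) s (s + l))) ∧ InJ j (ev f (seg (W n) s (s + l + 1)))) := by
      intro n s
      simp only [hΦ, Finset.mem_filter, Finset.mem_Icc]
    clear_value Φ
    by_cases hbd : ∃ φ, ∀ n, (Φ n).card ≤ φ
    · obtain ⟨φ, hφ⟩ := hbd
      refine no_familyG (f := f) (j0' := j) (l := l) (φ := 2 * φ + 1) hb (fun n => ?_) hInv
        (fun n => (hN n).pb) hnp (fun n => by rw [ht]; simpa using hL n)
      refine ⟨insert (L n - 1) (Φ n ∪ (Φ n).image (· + 1)), ?_, by omega, fun x y a1 a2 a3 a4 => ?_,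
        hreg⟩
      · have := (Finset.card_insert_le (L n - 1) _).trans (Nat.add_le_add_right
          ((Finset.card_union_le (Φ n) ((Φ n).image (· + 1))).trans
            (Nat.add_le_add (hφ n) (Finset.card_image_le.trans (hφ n)))) 1)
        omega
      · have b1 := a4 _ (Finset.mem_insert_self _ _)
        have b2 : ∀ s, x ≤ s → s + l ≤ y → InJ j (ev f (seg (W n) s (s + l))) ∧
            InJ j (ev f (seg (W n) s (s + l + 1))) := by
          intro s c1 c2
          by_contra c3
          have c4 := (mΦ n s).2 ⟨⟨by omega, by omega⟩, c3⟩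
          have c5 := a4 _ (Finset.mem_insert_of_mem (Finset.mem_union_right _
            (Finset.mem_image_of_mem _ c4)))
          omega
        exact inJ_long (fun s c1 c2 => (b2 s c1 c2).1) (fun s c1 c2 => (b2 s c1 (by omega)).2) a2
    push Not at hbd
    choose n hn using hbd
    choose ν cc C using fun k => exists_cut (Φ (n k))
    have h1 : ∀ k, ∀ c ∈ Φ (n k), 0 ≤ c ∧ c ≤ L (n k) := fun k c hc => by
      have := ((mΦ _ c).1 hc).1
      omega
    have h2 : ∀ k b s, (S0 k).p b ≤ s → s + l + 1 ≤ (S0 k).p b + (S0 k).w b →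
        (s ∈ Φ k ↔ s + (S0 k).dd bar b ∈ Φ k) := by
      intro k b s a1 a2
      by_cases ha : (S0 k).act bar b
      swap
      · have : (S0 k).dd bar b = 0 := by
          unfold St.dd
          by_contra h4
          exact ha ⟨by omega, fun h5 => h4 (by omega)⟩
        rw [this, add_zero]
      have b1 := (hInv k).t_le b ha
      have b2 := (hInv k).le_L b ha
      have b3 := (hInv k).t_le _ ((hInv k).act_bar hb ha)
      have b4 := (hInv k).le_L _ ((hInv k).act_bar hb ha)
      rw [(hInv k).w_bar] at b4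
      rw [ht] at b1 b3
      have e1 : s + (S0 k).dd bar b + l = s + l + (S0 k).dd bar b := by ring
      have e2 : s + l + (S0 k).dd bar b + 1 = s + l + 1 + (S0 k).dd bar b := by ring
      rw [mΦ, mΦ, e1, e2, ← seg_shift _ (fun z c1 c2 => (hInv k).hW b z (by omega) (by omega)),
        ← seg_shift _ (fun z c1 c2 => (hInv k).hW b z (by omega) (by omega))]
      refine and_congr_left (fun _ => ?_)
      unfold St.dd
      omega
    have hm : ∀ k : ℕ, (k : ℤ) + 1 ≤ (Φ (n k)).card := fun k => by exact_mod_cast hn k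
    refine ih (A × List A) (fb f) (fun x => ?_) _ hI' (l + 1) _ (by omega)
      (fun k => blk (W (n k)) (cc k)) (fun k => (Φ (n k)).card - 1)
      (fun k => bst (ν k) l (S0 (n k))) (fun k => (C k).inv' (hInv _) (h2 _)) (fun _ => rfl)
      (fun k => (C k).nopow (h1 k) (by have := hm k; omega) (hN _)) (fun k x y a1 a2 a3 => ?_)
      (fun k h => hnp _ ((C k).pull (hInv _) (ht _) (h1 k) (h2 _) h))
      (fun k => by have := hm k; omega)
    · obtain ⟨v, rfl⟩ := hs x
      refine ⟨v.map (fun a => (a, [])), ?_⟩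
      rw [ev_fb]
      congr 1
      induction v with
      | nil => rfl
      | cons a v ih => rw [List.map_cons, fl_cons, ih]; rfl
    · push_cast at a2
      have b1 := (C k).cc_gap (i := x) (k := y) a1 (by omega) (by omega)
      have b2 := (mΦ _ _).1 ((C k).mem x a1 (by omega))
      have b3 := h1 k _ ((C k).mem y (by omega) (by omega))
      rw [ev_fb, (C k).fl_seg a1 (by omega) (by omega)]
      refine Finset.mem_filter.2 ⟨hv _ _ _ b2.1.1 (by omega) b3.2, fun h => b2.2 ⟨?_, ?_⟩⟩
      · refine up _ (hv _ _ _ b2.1.1 le_rfl (by omega)) _ h ?_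
        rw [seg_split _ (m := cc k x + l) (by omega) (by omega), ev_append]
        exact jle_mul_right _ _
      · refine up _ (hv _ _ _ b2.1.1 (by omega) (by omega)) _ h ?_
        rw [seg_split _ (m := cc k x + l + 1) (by omega) (by omega), ev_append]
        exact jle_mul_right _ _

end Ind

variable {A Ω : Type} {U V : List (A ⊕ Ω)}

lemma init_pumpG {M : Type*} [Monoid M] {f : A → M} {σ : Ω → List A} (h : IsSol U V σ) (a0 : A)
    {e : ℕ} (he : 1 ≤ e)
    (hP : GPq f (wd (subst σ U) a0) (subst σ U).length Prod.swap e (init U V σ)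
      (2 * Fintype.card (Occ U V))) :
    ∃ σ', IsSol U V σ' ∧ (∀ X, ev f (σ' X) = ev f (σ X)) ∧
      ∃ X, Sum.inr X ∈ U ++ V ∧ ∃ u, u ≠ [] ∧ pw u e <:+: σ' X := by
  obtain ⟨ω, h1, h2, hv, s, u, h3, h4⟩ := hP
    (Finset.univ.image (start U V σ) ∪ Finset.univ.image (stop U V σ)) (by
      refine (Finset.card_union_le _ _).trans ?_
      have a1 := Finset.card_image_le (s := Finset.univ) (f := start U V σ)
      have a2 := Finset.card_image_le (s := Finset.univ) (f := stop U V σ)
      rw [Finset.card_univ] at a1 a2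
      omega)
  have m1 : ∀ o, start U V σ o ∈ Finset.univ.image (start U V σ) ∪ Finset.univ.image (stop U V σ) :=
    fun o => Finset.mem_union_left _ (Finset.mem_image_of_mem _ (Finset.mem_univ _))
  have m2 : ∀ o, stop U V σ o ∈ Finset.univ.image (start U V σ) ∪ Finset.univ.image (stop U V σ) :=
    fun o => Finset.mem_union_right _ (Finset.mem_image_of_mem _ (Finset.mem_univ _))
  generalize Finset.univ.image (start U V σ) ∪ Finset.univ.image (stop U V σ) = Q at *
  set W := wd (subst σ U) a0 with hW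
  set σ' : Ω → List A := fun X => if h : ∃ o : Occ U V, letter U V o = some (Sum.inr X) then
    ph W ω (start U V σ h.choose) (stop U V σ h.choose) else σ X with hσ'
  have k1 : ∀ o X, letter U V o = some (Sum.inr X) →
      σ' X = ph W ω (start U V σ o) (stop U V σ o) := by
    intro o X ho
    have hex : ∃ o : Occ U V, letter U V o = some (Sum.inr X) := ⟨o, ho⟩
    have ho' := hex.choose_spec
    simp only [hσ', dif_pos hex]
    generalize hex.choose = o' at ho'
    have a1 := stop_eq σ ho
    have a2 := stop_eq σ ho'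
    rw [h2 (o', o) _ _ (m1 o') (m2 o') le_rfl (by omega)
      (by simp only [init, ho, ho', if_true, vlen, a2, Sum.elim_inr, le_refl])]
    simp only [St.dd, init, Prod.fst_swap]
    congr 1 <;> omega
  have k2 : ∀ o x, letter U V o = some x →
      Sum.elim (fun a => [a]) σ' x = ph W ω (start U V σ o) (stop U V σ o) := by
    intro o x ho
    cases x with
    | inr X => exact k1 o X ho
    | inl a =>
      have a1 : ω (start U V σ o) = [] := by
        by_contra h'
        exact (h1 _ h').2.2 (m1 o)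
      have a2 := (occ_wd h a0 ho).2 _ le_rfl (by simp)
      rw [stop_eq σ ho]
      simp only [Sum.elim_inl, List.length_singleton, Nat.cast_one, ph_single, a1, hW, a2]
      simp [wd]
  have k3 : ∀ b i, i ≤ (side U V b).length → subst σ' ((side U V b).take i) =
      ph W ω 0 (subst σ ((side U V b).take i)).length := by
    intro b i
    induction i with
    | zero => intro _; simp [subst, ph_nil]
    | succ i ih =>
      intro hi
      have a1 : (side U V b).length ≤ U.length + V.length := by
        unfold side; split_ifs <;> omega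
      have a2 : letter U V (b, ⟨i, by omega⟩) = some ((side U V b)[i]) :=
        List.getElem?_eq_getElem (show i < (side U V b).length by omega)
      have a3 := stop_eq σ a2
      rw [subst_take_succ σ' a2, ih (by omega), k2 _ _ a2]
      exact (ph_split W ω (by omega) (by simp only [start] at a3 ⊢; unfold stop at *; omega)).symm
  have k4 : ∀ b, subst σ' (side U V b) = ph W ω 0 (subst σ U).length := by
    intro b
    have := k3 b _ le_rfl
    rwa [List.take_length, side_subst h] at this
  refine ⟨σ', ⟨fun X => ?_, (k4 true).trans (k4 false).symm⟩, fun X => ?_, ?_⟩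
  · by_cases hex : ∃ o : Occ U V, letter U V o = some (Sum.inr X)
    · obtain ⟨o, ho⟩ := hex
      have a1 := ph_length_ge W ω (start U V σ o) (stop U V σ o)
      have a2 := List.length_pos_iff.2 (h.1 X)
      rw [← k1 o X ho, stop_eq σ ho] at a1
      simp only [Sum.elim_inr] at a1
      exact List.length_pos_iff.1 (by omega)
    · simp only [hσ', dif_neg hex]
      exact h.1 X
  · by_cases hex : ∃ o : Occ U V, letter U V o = some (Sum.inr X)
    · obtain ⟨o, ho⟩ := hex
      rw [k1 o X ho, ev_ph (hv _ (m1 o) (by simp [init, start])), stop_eq σ ho]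
      congr 1
      rw [← seg_wd (σ X) a0]
      have a1 := (occ_wd h a0 ho).2
      simp only [Sum.elim_inr] at a1 ⊢
      have a2 := cat_congr_shift (f := fun s => [W s]) (g := fun s => [wd (σ X) a0 s])
        (x := start U V σ o) (y := start U V σ o + (σ X).length) (-start U V σ o)
        (fun s b1 b2 => by rw [hW, a1 s b1 b2, sub_eq_add_neg])
      simpa [seg] using a2
    · simp only [hσ', dif_neg hex]
  · have a1 : ω s ≠ [] := by
      intro h5
      have := h4.length_le
      have := List.length_pos_iff.2 h3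
      rw [h5, pw_length, List.length_nil] at *
      nlinarith
    obtain ⟨a2, a3, a4⟩ := h1 s a1
    obtain ⟨i, b1, b2, b3⟩ := exists_idx (fun i => (subst σ (U.take i)).length) s
      (by simpa [subst, init] using a2) U.length (by simpa using a3)
    have b4 : letter U V (true, ⟨i, by omega⟩) = some U[i] := List.getElem?_eq_getElem b1
    have b5 : start U V σ (true, ⟨i, by omega⟩) ≤ s := b2
    have b6 : s < stop U V σ (true, ⟨i, by omega⟩) := b3
    have b7 : U[i] ∈ U := List.getElem_mem b1
    generalize U[i] = x at *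
    cases x with
    | inl a =>
      rw [stop_eq σ b4] at b6
      simp only [Sum.elim_inl, List.length_singleton, Nat.cast_one] at b6
      exact absurd ((by omega : start U V σ (true, ⟨i, by omega⟩) = s) ▸ m1 _) a4
    | inr X =>
      refine ⟨X, List.mem_append_left _ b7, u, h3, h4.trans ?_⟩
      rw [k1 _ X b4]
      exact isInfix_ph W ω b5 b6

/-- Finitely many regular languages are recognised by one finite monoid. -/
lemma exists_monoid [Fintype Ω] (Lg : Ω → Language A) (h : ∀ X, (Lg X).IsRegular) :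
    ∃ (M : Type) (_ : Monoid M) (_ : Finite M) (f : A → M), (∀ x, ∃ v, ev f v = x) ∧
      ∀ X u v, ev f u = ev f v → v ∈ Lg X → u ∈ Lg X := by
  choose τ hτ D hD using h
  have : ∀ X, Finite (Function.End (τ X)) := fun X => inferInstanceAs (Finite (τ X → τ X))
  have : ∀ X, Finite (Function.End (τ X))ᵐᵒᵖ := fun X => Finite.of_equiv _ MulOpposite.opEquiv
  let g : A → ∀ X, (Function.End (τ X))ᵐᵒᵖ := fun a X => MulOpposite.op (fun q => (D X).step q a)
  have hg : ∀ v X q, (ev g v X).unop q = (D X).evalFrom q v := by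
    intro v
    induction v with
    | nil => intro X q; rfl
    | cons a v ih =>
      intro X q
      rw [DFA.evalFrom_cons, ← ih]
      rfl
  let R : Submonoid (∀ X, (Function.End (τ X))ᵐᵒᵖ) :=
    { carrier := {x | ∃ v, ev g v = x}
      mul_mem' := by
        rintro _ _ ⟨u, rfl⟩ ⟨v, rfl⟩
        exact ⟨u ++ v, ev_append _ _ _⟩
      one_mem' := ⟨[], rfl⟩ }
  let f : A → R := fun a => ⟨g a, [a], by simp [ev]⟩
  have hf : ∀ v, (ev f v).1 = ev g v := by
    intro v
    induction v with
    | nil => rfl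
    | cons a v ih =>
      have e1 : ev f (a :: v) = f a * ev f v := by simp [ev]
      have e2 : ev g (a :: v) = g a * ev g v := by simp [ev]
      rw [e1, e2, Submonoid.coe_mul, ih]
  refine ⟨R, inferInstance, inferInstance, f, ?_, fun X u v h1 h2 => ?_⟩
  · rintro ⟨x, v, hv⟩
    exact ⟨v, Subtype.ext ((hf v).trans hv)⟩
  · rw [← hD X, DFA.mem_accepts, DFA.eval, ← hg, ← hf] at h2 ⊢
    rwa [h1]

theorem main_reg [Fintype A] [Fintype Ω] (U V : List (A ⊕ Ω)) (Lg : Ω → Language A)
    (hreg : ∀ X, (Lg X).IsRegular)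
    (hinf : ((fun (σ : Ω → List A) (X : {X : Ω // Sum.inr X ∈ U ++ V}) => σ X.1) ''
      {σ | IsSol U V σ ∧ ∀ X, σ X ∈ Lg X}).Infinite) (n : ℕ) :
    ∃ σ, IsSol U V σ ∧ (∀ X, σ X ∈ Lg X) ∧
      ∃ X, Sum.inr X ∈ U ++ V ∧ ∃ w : List A, w ≠ [] ∧ pw w n <:+: σ X := by
  by_contra hn
  obtain ⟨M, _, _, f, hs, hf⟩ := exists_monoid Lg hreg
  have hn' : ∀ σ, IsSol U V σ → (∀ X, σ X ∈ Lg X) → ∀ X, Sum.inr X ∈ U ++ V → ∀ w : List A,
      w ≠ [] → ¬ pw w (n + 2) <:+: σ X := by
    intro σ h1 h0 X h2 w h3 h4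
    refine hn ⟨σ, h1, h0, X, h2, w, h3, List.IsInfix.trans ?_ h4⟩
    rw [pw_add]
    exact (List.prefix_append _ _).isInfix
  have hlen : ∀ k : ℕ, ∃ σ, (IsSol U V σ ∧ ∀ X, σ X ∈ Lg X) ∧ k ≤ (subst σ U).length := by
    intro k
    by_contra h
    push Not at h
    refine hinf (Set.Finite.subset (Set.Finite.pi' (fun _ => List.finite_length_le A k)) ?_)
    rintro _ ⟨σ, h1, rfl⟩ ⟨X, hX⟩
    have a1 := h σ h1
    rcases List.mem_append.1 hX with h2 | h2
    · exact (length_le_subst σ h2).trans a1.le
    · exact (length_le_subst σ h2).trans (h1.1.2 ▸ a1.le)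
  obtain ⟨a0⟩ : Nonempty A := by
    obtain ⟨σ, _, h⟩ := hlen 1
    exact ⟨(subst σ U)[0]⟩
  choose σ h1 h2 using hlen
  have := Fintype.ofFinite M
  refine no_family_ind (B := Occ U V × Occ U V) (bar := Prod.swap) Prod.swap_swap
    (U.length * (n + 2)) (n + 2) _ A f hs Finset.univ le_rfl 2 (2 * Fintype.card (Occ U V)) le_rfl
    (fun k => wd (subst (σ k) U) a0) (fun k => (subst (σ k) U).length) (fun k => init U V (σ k))
    (fun k => init_inv (h1 k).1 a0) (fun _ => rfl) (fun k u hu => ?_)
    (fun _ _ _ _ _ _ => Finset.mem_univ _) (fun k hP => ?_) (fun k => by exact_mod_cast h2 k)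
  · rw [seg_wd]
    exact no_pow_subst (by omega) hu U
      (fun X hX => hn' _ (h1 k).1 (h1 k).2 X (List.mem_append_left _ hX) u hu)
  · obtain ⟨σ', a1, a0, X, a2, u, a3, a4⟩ := init_pumpG (h1 k).1 a0 (by omega) hP
    exact hn' σ' a1 (fun Y => hf Y _ _ (a0 Y) ((h1 k).2 Y)) X a2 u a3 a4

end Pool.Agent.MP_fd2cd0_lc
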